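import Mathlib
import Pool.Agent.Work.MP_267827_an.Transfer

-- merged part: Pool.Agent.Work.MP_267827_an.Srt.SE
section
-- merged part: Pool.Agent.Work.MP_267827_an.Srt.SA
section
/-! Rearrangement of finite rows: comparison of one-sided energies by counting. -/

set_option autoImplicit false

namespace Pool.Agent.Work.MP_267827_an.Srt

open MeasureTheory Finset

noncomputable section

/-- square of the positive part of the increment -/
def Ph (a b : ℝ) : ℝ := (max (b - a) 0) ^ 2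

/-- indicator of a triangle -/
def ch (a b : ℝ) (p : ℝ × ℝ) : ENNReal := if a ≤ p.1 ∧ p.1 < p.2 ∧ p.2 < b then 1 else 0

lemma Ph_nonneg (a b : ℝ) : 0 ≤ Ph a b := sq_nonneg _

lemma sq_eq_Ph (a b : ℝ) : (b - a) ^ 2 = Ph a b + Ph b a := by
  unfold Ph
  rcases le_total a b with h | h
  · rw [max_eq_left (by linarith), max_eq_right (by linarith)]; ring
  · rw [max_eq_right (by linarith), max_eq_left (by linarith)]; ring

lemma Ph_le_sq (a b : ℝ) : Ph a b ≤ (b - a) ^ 2 := by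
  rw [sq_eq_Ph]; linarith [Ph_nonneg b a]

lemma ch_set (a b : ℝ) :
    MeasurableSet {p : ℝ × ℝ | a ≤ p.1 ∧ p.1 < p.2 ∧ p.2 < b} :=
  (measurableSet_le measurable_const measurable_fst).inter
    ((measurableSet_lt measurable_fst measurable_snd).inter
      (measurableSet_lt measurable_snd measurable_const))

lemma ch_meas (a b : ℝ) : Measurable (ch a b) :=
  Measurable.ite (ch_set a b) measurable_const measurable_const

lemma ch_int (a b : ℝ) : ∫⁻ p, ch a b p = ENNReal.ofReal (Ph a b / 2) := by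
  have h1 : ch a b = Set.indicator {p : ℝ × ℝ | a ≤ p.1 ∧ p.1 < p.2 ∧ p.2 < b} 1 := by
    funext p
    simp only [ch, Set.indicator, Set.mem_setOf_eq, Pi.one_apply]
  rw [h1, lintegral_indicator_one (ch_set a b)]
  rcases le_total b a with h | h
  · have : {p : ℝ × ℝ | a ≤ p.1 ∧ p.1 < p.2 ∧ p.2 < b} = ∅ := by
      ext p
      simp only [Set.mem_setOf_eq, Set.mem_empty_iff_false, iff_false]
      rintro ⟨h1, h2, h3⟩
      linarith only [h, h1, h2, h3]
    rw [this]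
    simp [Ph, max_eq_right (show b - a ≤ 0 by linarith only [h])]
  · have : {p : ℝ × ℝ | a ≤ p.1 ∧ p.1 < p.2 ∧ p.2 < b} =
        regionBetween (fun x => x) (fun _ => b) (Set.Icc a b) := by
      ext p
      simp only [regionBetween, Set.mem_setOf_eq, Set.mem_Icc, Set.mem_Ioo]
      constructor
      · rintro ⟨h1, h2, h3⟩
        exact ⟨⟨h1, by linarith only [h2, h3]⟩, h2, h3⟩
      · rintro ⟨⟨h1, _⟩, h2, h3⟩
        exact ⟨h1, h2, h3⟩
    rw [this, Measure.volume_eq_prod, volume_regionBetween_eq_integral (f := fun x => x) (g := fun _ => b)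
      (continuous_id.continuousOn.integrableOn_Icc) (continuous_const.continuousOn.integrableOn_Icc)
      measurableSet_Icc (fun x hx => hx.2)]
    congr 1
    rw [integral_Icc_eq_integral_Ioc, ← intervalIntegral.integral_of_le h]
    simp only [Pi.sub_apply]
    rw [intervalIntegral.integral_sub (by simp) (by simp)]
    simp only [intervalIntegral.integral_const, integral_id, smul_eq_mul, Ph,
      max_eq_left (show 0 ≤ b - a by linarith only [h])]
    ring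

lemma sum_ch {ι : Type*} (P : Finset ι) (a b : ι → ℝ) (p : ℝ × ℝ) :
    ∑ i ∈ P, ch (a i) (b i) p =
      if p.1 < p.2 then ((P.filter fun i => a i ≤ p.1 ∧ p.2 < b i).card : ENNReal) else 0 := by
  classical
  split_ifs with h
  · rw [card_eq_sum_ones, Nat.cast_sum, sum_filter]
    refine sum_congr rfl fun i _ => ?_
    simp [ch, h]
  · refine sum_eq_zero fun i _ => ?_
    simp [ch, h]

lemma sum_Ph {ι : Type*} (P : Finset ι) (a b : ι → ℝ) :
    ENNReal.ofReal ((∑ i ∈ P, Ph (a i) (b i)) / 2) = ∫⁻ p, ∑ i ∈ P, ch (a i) (b i) p := by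
  rw [lintegral_finsetSum _ (fun i _ => ch_meas _ _), sum_div,
    ENNReal.ofReal_sum_of_nonneg (fun i _ => by have := Ph_nonneg (a i) (b i); positivity)]
  exact sum_congr rfl fun i _ => (ch_int _ _).symm

/-- comparison of one-sided energies by counting -/
lemma cmp2 {ι κ : Type*} (P : Finset ι) (Q : Finset κ) (a b : ι → ℝ) (c d c' d' : κ → ℝ)
    (h : ∀ t s : ℝ, t < s → (P.filter fun i => a i ≤ t ∧ s < b i).card ≤
      (Q.filter fun i => c i ≤ t ∧ s < d i).card + (Q.filter fun i => c' i ≤ t ∧ s < d' i).card) :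
    ∑ i ∈ P, Ph (a i) (b i) ≤ ∑ i ∈ Q, Ph (c i) (d i) + ∑ i ∈ Q, Ph (c' i) (d' i) := by
  have h1 : 0 ≤ ∑ i ∈ Q, Ph (c i) (d i) := sum_nonneg fun i _ => Ph_nonneg _ _
  have h2 : 0 ≤ ∑ i ∈ Q, Ph (c' i) (d' i) := sum_nonneg fun i _ => Ph_nonneg _ _
  have key : ENNReal.ofReal ((∑ i ∈ P, Ph (a i) (b i)) / 2) ≤
      ENNReal.ofReal ((∑ i ∈ Q, Ph (c i) (d i)) / 2 + (∑ i ∈ Q, Ph (c' i) (d' i)) / 2) := by
    rw [ENNReal.ofReal_add (by positivity) (by positivity), sum_Ph, sum_Ph, sum_Ph,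
      ← lintegral_add_left (Finset.measurable_sum _ fun i _ => ch_meas _ _)]
    refine lintegral_mono fun p => ?_
    simp only [sum_ch]
    split_ifs with hp
    · exact_mod_cast h _ _ hp
    · simp
  have := (ENNReal.ofReal_le_ofReal_iff (by positivity)).1 key
  linarith only [this]

lemma cmp1 {ι κ : Type*} (P : Finset ι) (Q : Finset κ) (a b : ι → ℝ) (c d : κ → ℝ)
    (h : ∀ t s : ℝ, t < s → (P.filter fun i => a i ≤ t ∧ s < b i).card ≤
      (Q.filter fun i => c i ≤ t ∧ s < d i).card) :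
    ∑ i ∈ P, Ph (a i) (b i) ≤ ∑ i ∈ Q, Ph (c i) (d i) := by
  have := cmp2 P Q a b c d (fun _ => 0) (fun _ => 0) fun t s hts =>
    (h t s hts).trans (Nat.le_add_right _ _)
  simpa [Ph] using this

/-- number of entries of a row above a level -/
def cnt (n : ℤ) (F : ℤ → ℝ) (t : ℝ) : ℕ := ((Ico 0 n).filter fun i => t < F i).card

/-- `G` is the decreasing rearrangement of the row `F` -/
def Sorted (n : ℤ) (F G : ℤ → ℝ) : Prop :=
  ∀ k : ℤ, 0 ≤ k → k < n → ∀ t : ℝ, t < G k ↔ k < (cnt n F t : ℤ)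

lemma cnt_le (n : ℤ) (F : ℤ → ℝ) (t : ℝ) (hn : 0 ≤ n) : (cnt n F t : ℤ) ≤ n := by
  have : cnt n F t ≤ (Ico 0 n).card := card_filter_le _ _
  rw [Int.card_Ico] at this
  omega

lemma exists_sorted (n : ℤ) (F : ℤ → ℝ) : ∃ G, Sorted n F G := by
  classical
  have key : ∀ k : ℤ, ∃ g : ℝ, 0 ≤ k → k < n → ∀ t : ℝ, t < g ↔ k < (cnt n F t : ℤ) := by
    intro k
    by_cases hk : 0 ≤ k ∧ k < n
    swap
    · exact ⟨0, fun h1 h2 => absurd ⟨h1, h2⟩ hk⟩
    let S := (Ico 0 n).filter fun i => k < (((Ico 0 n).filter fun i' => F i ≤ F i').card : ℤ)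
    have hne : (Ico 0 n).Nonempty := ⟨k, mem_Ico.2 hk⟩
    have hS : S.Nonempty := by
      obtain ⟨i, hi, hmin⟩ := exists_min_image (Ico 0 n) F hne
      refine ⟨i, mem_filter.2 ⟨hi, ?_⟩⟩
      rw [filter_true_of_mem hmin, Int.card_Ico]
      omega
    obtain ⟨i0, hi0, hmax⟩ := exists_max_image S F hS
    refine ⟨F i0, fun _ _ t => ⟨fun ht => ?_, fun ht => ?_⟩⟩
    · have h1 := (mem_filter.1 hi0).2
      have h2 : ((Ico 0 n).filter fun i' => F i0 ≤ F i').card ≤ cnt n F t :=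
        card_le_card fun i hi => mem_filter.2 ⟨(mem_filter.1 hi).1, ht.trans_le (mem_filter.1 hi).2⟩
      omega
    · have hne' : ((Ico 0 n).filter fun i => t < F i).Nonempty := by
        rw [← card_pos]
        unfold cnt at ht
        omega
      obtain ⟨i1, hi1, hmin⟩ := exists_min_image _ F hne'
      have h1 : i1 ∈ S := by
        refine mem_filter.2 ⟨(mem_filter.1 hi1).1, ?_⟩
        have : cnt n F t ≤ ((Ico 0 n).filter fun i' => F i1 ≤ F i').card :=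
          card_le_card fun i hi => mem_filter.2 ⟨(mem_filter.1 hi).1, hmin i hi⟩
        omega
      exact (mem_filter.1 hi1).2.trans_le (hmax i1 h1)
  choose G hG using key
  exact ⟨G, fun k h1 h2 => hG k h1 h2⟩

lemma Sorted.nonneg {n : ℤ} {F G : ℤ → ℝ} (h : Sorted n F G) (hF : ∀ i, 0 ≤ F i) {k : ℤ}
    (h0 : 0 ≤ k) (h1 : k < n) : 0 ≤ G k := by
  by_contra hc
  have h2 : ¬ (G k < G k) := lt_irrefl _
  rw [h k h0 h1] at h2
  have : cnt n F (G k) = (Ico 0 n).card := by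
    unfold cnt
    rw [filter_true_of_mem fun i _ => (not_le.1 hc).trans_le (hF i)]
  rw [Int.card_Ico] at this
  omega

lemma Sorted.zero {n m : ℤ} {F G : ℤ → ℝ} (h : Sorted n F G) (hF : ∀ i, 0 ≤ F i)
    (hm : (((Ico 0 n).filter fun i => F i ≠ 0).card : ℤ) ≤ max m 0) {k : ℤ}
    (h0 : 0 ≤ k) (h1 : k < n) (h2 : m ≤ k) : G k = 0 := by
  refine le_antisymm (not_lt.1 fun hc => ?_) (h.nonneg hF h0 h1)
  rw [h k h0 h1] at hc
  have : cnt n F 0 ≤ ((Ico 0 n).filter fun i => F i ≠ 0).card :=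
    card_le_card fun i hi => mem_filter.2 ⟨(mem_filter.1 hi).1, (mem_filter.1 hi).2.ne'⟩
  omega

lemma Ph_zero {a : ℝ} (h : 0 ≤ a) : Ph 0 a = a ^ 2 := by simp [Ph, h]

lemma Sorted.mass {n : ℤ} {F G : ℤ → ℝ} (h : Sorted n F G) (hF : ∀ i, 0 ≤ F i) :
    ∑ i ∈ Ico 0 n, F i ^ 2 ≤ ∑ i ∈ Ico 0 n, G i ^ 2 := by
  classical
  have h1 := cmp1 (Ico 0 n) (Ico 0 n) (fun _ => 0) F (fun _ => 0) G fun t s _ => by
    by_cases ht : 0 ≤ t
    · simp only [ht, true_and]
      rcases le_total n 0 with hn | hn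
      · simp [Ico_eq_empty_of_le hn]
      have h2 : Ico (0 : ℤ) (cnt n F s) ⊆ (Ico 0 n).filter fun i => s < G i := by
        intro k hk
        have hk' := mem_Ico.1 hk
        have hle := cnt_le n F s hn
        exact mem_filter.2 ⟨mem_Ico.2 ⟨hk'.1, by omega⟩, (h k hk'.1 (by omega) s).2 hk'.2⟩
      have h3 := card_le_card h2
      rw [Int.card_Ico] at h3
      change cnt n F s ≤ _
      omega
    · simp [ht]
  calc ∑ i ∈ Ico 0 n, F i ^ 2 = ∑ i ∈ Ico 0 n, Ph 0 (F i) :=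
        sum_congr rfl fun i _ => (Ph_zero (hF i)).symm
    _ ≤ ∑ i ∈ Ico 0 n, Ph 0 (G i) := h1
    _ = _ := sum_congr rfl fun i hi =>
        Ph_zero (h.nonneg hF (mem_Ico.1 hi).1 (mem_Ico.1 hi).2)

/-- two consecutive rows -/
lemma Sorted.up {n n' : ℤ} {F G F' G' : ℤ → ℝ} (h : Sorted n F G) (h' : Sorted n' F' G')
    (hn : n' ≤ n) :
    ∑ i ∈ Ico 0 n', Ph (G i) (G' i) ≤ ∑ i ∈ Ico 0 n', (F' i - F i) ^ 2 := by
  classical
  refine le_trans (cmp1 (Ico 0 n') (Ico 0 n') G G' F F' fun t s _ => ?_)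
    (sum_le_sum fun i _ => Ph_le_sq _ _)
  have h2 : ((Ico 0 n').filter fun i => G i ≤ t ∧ s < G' i) ⊆
      Ico (cnt n F t : ℤ) (cnt n' F' s) := by
    intro k hk
    obtain ⟨hk1, hk2, hk3⟩ := mem_filter.1 hk
    have hk' := mem_Ico.1 hk1
    refine mem_Ico.2 ⟨?_, (h' k hk'.1 hk'.2 s).1 hk3⟩
    by_contra hc
    exact absurd ((h k hk'.1 (by omega) t).2 (not_le.1 hc)) (not_lt.2 hk2)
  have h3 := card_le_card h2
  rw [Int.card_Ico] at h3
  have h4 : ((Ico 0 n').filter fun i => s < F' i) ⊆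
      ((Ico 0 n').filter fun i => F i ≤ t ∧ s < F' i) ∪ ((Ico 0 n).filter fun i => t < F i) := by
    intro i hi
    obtain ⟨hi1, hi2⟩ := mem_filter.1 hi
    rcases le_or_gt (F i) t with h5 | h5
    · exact mem_union_left _ (mem_filter.2 ⟨hi1, h5, hi2⟩)
    · exact mem_union_right _ (mem_filter.2
        ⟨mem_Ico.2 ⟨(mem_Ico.1 hi1).1, (mem_Ico.1 hi1).2.trans_le hn⟩, h5⟩)
  have h5 := (card_le_card h4).trans (card_union_le _ _)
  unfold cnt at h3
  omega

lemma exists_cross (P : ℤ → Prop) (i : ℤ) (hi : P i) (d : ℕ) (hd : ¬ P (i + d)) :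
    ∃ k, i ≤ k ∧ k < i + d ∧ P k ∧ ¬ P (k + 1) := by
  induction d with
  | zero => simp at hd; exact absurd hi hd
  | succ d ih =>
    by_cases h : P (i + d)
    · refine ⟨i + d, by omega, by push_cast; omega, h, ?_⟩
      push_cast at hd
      rwa [add_assoc]
    · obtain ⟨k, h1, h2, h3⟩ := ih h
      exact ⟨k, h1, by push_cast; omega, h3⟩

lemma Sorted.core {n : ℤ} {F G : ℤ → ℝ} (h : Sorted n F G) {t s : ℝ} (hts : t < s) {k : ℤ}
    (hk : k ∈ (Ico 0 (n - 1)).filter fun i => G (i + 1) ≤ t ∧ s < G i) :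
    ((Ico 0 (n - 1)).filter fun i => G (i + 1) ≤ t ∧ s < G i).card ≤ 1 ∧
      (∀ i, 0 ≤ i → i < n → ¬ s < F i → F i ≤ t) ∧ (∃ i ∈ Ico 0 n, s < F i) ∧
      ∃ i' ∈ Ico 0 n, ¬ s < F i' := by
  classical
  have hsub : ((Ico 0 n).filter fun i => s < F i) ⊆ (Ico 0 n).filter fun i => t < F i :=
    fun i hi => mem_filter.2 ⟨(mem_filter.1 hi).1, hts.trans (mem_filter.1 hi).2⟩
  have hle : cnt n F s ≤ cnt n F t := card_le_card hsub
  have hk' : ∀ k ∈ ((Ico 0 (n - 1)).filter fun i => G (i + 1) ≤ t ∧ s < G i),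
      (cnt n F t : ℤ) ≤ k + 1 ∧ k < cnt n F s ∧ 0 ≤ k ∧ k + 1 < n := by
    intro k hk
    obtain ⟨hk1, hk2, hk3⟩ := mem_filter.1 hk
    have hk' := mem_Ico.1 hk1
    refine ⟨?_, (h k hk'.1 (by omega) s).1 hk3, hk'.1, by omega⟩
    by_contra hc
    exact absurd ((h (k + 1) (by omega) (by omega) t).2 (not_le.1 hc)) (not_lt.2 hk2)
  obtain ⟨e1, e2, e3, e4⟩ := hk' k hk
  have heq : ((Ico 0 n).filter fun i => s < F i) = (Ico 0 n).filter fun i => t < F i :=
    eq_of_subset_of_card_le hsub (by unfold cnt at e1 e2; omega)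
  refine ⟨card_le_one.2 fun a ha b hb => ?_, fun i h0 h1 h2 => ?_, ?_, ?_⟩
  · have := hk' a ha
    have := hk' b hb
    omega
  · by_contra hc
    have : i ∈ (Ico 0 n).filter fun i => t < F i := mem_filter.2 ⟨mem_Ico.2 ⟨h0, h1⟩, not_le.1 hc⟩
    rw [← heq] at this
    exact h2 (mem_filter.1 this).2
  · obtain ⟨i, hi⟩ : ((Ico 0 n).filter fun i => s < F i).Nonempty := by
      rw [← card_pos]
      unfold cnt at e2
      omega
    exact ⟨i, mem_filter.1 hi⟩
  · by_contra hc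
    push Not at hc
    have : cnt n F s = (Ico 0 n).card := by
      unfold cnt
      rw [filter_true_of_mem hc]
    rw [Int.card_Ico] at this
    omega

lemma up_cross {n : ℤ} {F : ℤ → ℝ} {t s : ℝ} (hgap : ∀ i, 0 ≤ i → i < n → ¬ s < F i → F i ≤ t)
    {i i' : ℤ} (h0 : 0 ≤ i') (hle : i' ≤ i) (h1 : i < n) (hi : s < F i) (hi' : ¬ s < F i') :
    1 ≤ ((Ico 0 (n - 1)).filter fun i => F i ≤ t ∧ s < F (i + 1)).card := by
  obtain ⟨d, rfl⟩ := Int.le.dest hle
  obtain ⟨l, l1, l2, l3, l4⟩ := exists_cross (fun i => ¬ s < F i) i' hi' d (not_not.2 hi)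
  exact card_pos.2 ⟨l, mem_filter.2 ⟨mem_Ico.2 ⟨by omega, by omega⟩,
    hgap _ (by omega) (by omega) l3, not_not.1 l4⟩⟩

/-- one row -/
lemma Sorted.row {n : ℤ} {F G : ℤ → ℝ} (h : Sorted n F G) :
    ∑ i ∈ Ico 0 (n - 1), Ph (G (i + 1)) (G i) ≤ ∑ i ∈ Ico 0 (n - 1), (F (i + 1) - F i) ^ 2 := by
  classical
  have e : ∑ i ∈ Ico 0 (n - 1), (F (i + 1) - F i) ^ 2 =
      ∑ i ∈ Ico 0 (n - 1), Ph (F i) (F (i + 1)) + ∑ i ∈ Ico 0 (n - 1), Ph (F (i + 1)) (F i) := by
    rw [← sum_add_distrib]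
    exact sum_congr rfl fun i _ => sq_eq_Ph _ _
  rw [e]
  refine cmp2 (Ico 0 (n - 1)) (Ico 0 (n - 1)) (fun i => G (i + 1)) G F (fun i => F (i + 1))
    (fun i => F (i + 1)) F fun t s hts => ?_
  rcases ((Ico 0 (n - 1)).filter fun i => G (i + 1) ≤ t ∧ s < G i).eq_empty_or_nonempty with
    h0 | ⟨k, hk⟩
  · rw [h0]; simp
  obtain ⟨h1, hgap, ⟨i, hi, hi1⟩, i', hi', hi''⟩ := h.core hts hk
  refine h1.trans ?_
  have a1 := mem_Ico.1 hi
  have a2 := mem_Ico.1 hi'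
  rcases le_total i i' with hle | hle
  · obtain ⟨d, rfl⟩ := Int.le.dest hle
    obtain ⟨l, l1, l2, l3, l4⟩ := exists_cross (fun i => s < F i) i hi1 d hi''
    have : l ∈ (Ico 0 (n - 1)).filter fun i => F (i + 1) ≤ t ∧ s < F i :=
      mem_filter.2 ⟨mem_Ico.2 ⟨by omega, by omega⟩, hgap _ (by omega) (by omega) l4, l3⟩
    have := card_pos.2 ⟨l, this⟩
    omega
  · have := up_cross hgap a2.1 hle a1.2 hi1 hi''
    omega

/-- a row that starts at its minimum -/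
lemma Sorted.row0 {n : ℤ} {F G : ℤ → ℝ} (h : Sorted n F G) (h0 : ∀ i, F 0 ≤ F i) :
    ∑ i ∈ Ico 0 (n - 1), Ph (G (i + 1)) (G i) ≤ ∑ i ∈ Ico 0 (n - 1), Ph (F i) (F (i + 1)) := by
  classical
  refine cmp1 (Ico 0 (n - 1)) (Ico 0 (n - 1)) (fun i => G (i + 1)) G F (fun i => F (i + 1))
    fun t s hts => ?_
  rcases ((Ico 0 (n - 1)).filter fun i => G (i + 1) ≤ t ∧ s < G i).eq_empty_or_nonempty with
    h0 | ⟨k, hk⟩
  · rw [h0]; simp
  obtain ⟨h1, hgap, ⟨i, hi, hi1⟩, i', -, hi''⟩ := h.core hts hk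
  have a1 := mem_Ico.1 hi
  exact h1.trans (up_cross hgap le_rfl a1.1 a1.2 hi1 fun hc => hi'' (hc.trans_le (h0 i')))

end

end Pool.Agent.Work.MP_267827_an.Srt
end

-- merged part: Pool.Agent.Work.MP_267827_an.Srt.SB
section
/-! A monotone ground state of a lattice domain and the discrete Picone inequality. -/

set_option autoImplicit false

namespace Pool.Agent.Work.MP_267827_an.Srt

open Finset

noncomputable section

/-- discrete scalar product -/
def ip (D : Finset (ℤ × ℤ)) (a b : ℤ × ℤ → ℝ) : ℝ := ∑ p ∈ D, a p * b p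

/-- discrete mass -/
def Nm (D : Finset (ℤ × ℤ)) (v : ℤ × ℤ → ℝ) : ℝ := ∑ p ∈ D, v p ^ 2

/-- discrete energy form in one direction -/
def Bl (D : Finset (ℤ × ℤ)) (e : ℤ × ℤ) (a b : ℤ × ℤ → ℝ) : ℝ :=
  ∑ p ∈ D with p + e ∈ D, (a (p + e) - a p) * (b (p + e) - b p)

/-- discrete energy in one direction -/
def Ed (D : Finset (ℤ × ℤ)) (e : ℤ × ℤ) (v : ℤ × ℤ → ℝ) : ℝ :=
  ∑ p ∈ D with p + e ∈ D, (v (p + e) - v p) ^ 2

/-- one step of the walk -/
def mv (D : Finset (ℤ × ℤ)) (e p : ℤ × ℤ) : ℤ × ℤ := if p + e ∈ D then p + e else p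

/-- the transition operator -/
def Pm (D A : Finset (ℤ × ℤ)) (v : ℤ × ℤ → ℝ) (p : ℤ × ℤ) : ℝ :=
  if p ∈ A then
    (v (mv D (1, 0) p) + v (mv D (-(1, 0)) p) + v (mv D (0, 1) p) + v (mv D (-(0, 1)) p)) / 4
  else 0

/-- a left aligned lattice domain with its alive part -/
structure Lat (D A : Finset (ℤ × ℤ)) : Prop where
  pos : ∀ i j, (i, j) ∈ D → 0 ≤ i ∧ 0 ≤ j
  left : ∀ i j, (i + 1, j) ∈ D → 0 ≤ i → (i, j) ∈ D
  down : ∀ i j, (i, j + 1) ∈ D → 0 ≤ j → (i, j) ∈ D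
  sub : A ⊆ D
  aleft : ∀ i j, (i, j) ∈ D → (i + 1, j) ∈ A → (i, j) ∈ A
  aup : ∀ i j, (i, j) ∈ A → (i, j + 1) ∈ D → (i, j + 1) ∈ A

/-- doubly monotone functions -/
structure Cone (D A : Finset (ℤ × ℤ)) (v : ℤ × ℤ → ℝ) : Prop where
  nn : ∀ p, 0 ≤ v p
  zero : ∀ p, p ∉ A → v p = 0
  mx : ∀ i j, (i, j) ∈ D → (i + 1, j) ∈ D → v (i + 1, j) ≤ v (i, j)
  my : ∀ i j, (i, j) ∈ D → (i, j + 1) ∈ D → v (i, j) ≤ v (i, j + 1)

variable {D A : Finset (ℤ × ℤ)}

lemma mvR (i j : ℤ) : mv D (1, 0) (i, j) = if (i + 1, j) ∈ D then (i + 1, j) else (i, j) := by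
  simp [mv]

lemma mvL (i j : ℤ) : mv D (-(1, 0)) (i, j) = if (i - 1, j) ∈ D then (i - 1, j) else (i, j) := by
  simp [mv, sub_eq_add_neg]

lemma mvU (i j : ℤ) : mv D (0, 1) (i, j) = if (i, j + 1) ∈ D then (i, j + 1) else (i, j) := by
  simp [mv]

lemma mvD (i j : ℤ) : mv D (-(0, 1)) (i, j) = if (i, j - 1) ∈ D then (i, j - 1) else (i, j) := by
  simp [mv, sub_eq_add_neg]

lemma Cone.R {v : ℤ × ℤ → ℝ} (h : Cone D A v) {i j : ℤ} (hp : (i, j) ∈ D) :
    v (mv D (1, 0) (i, j)) ≤ v (i, j) := by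
  rw [mvR]
  split_ifs with h1
  · exact h.mx i j hp h1
  · exact le_rfl

lemma Cone.L {v : ℤ × ℤ → ℝ} (h : Cone D A v) {i j : ℤ} (hp : (i, j) ∈ D) :
    v (i, j) ≤ v (mv D (-(1, 0)) (i, j)) := by
  rw [mvL]
  split_ifs with h1
  · have := h.mx (i - 1) j h1 (by simpa using hp)
    simpa using this
  · exact le_rfl

lemma Cone.U {v : ℤ × ℤ → ℝ} (h : Cone D A v) {i j : ℤ} (hp : (i, j) ∈ D) :
    v (i, j) ≤ v (mv D (0, 1) (i, j)) := by
  rw [mvU]
  split_ifs with h1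
  · exact h.my i j hp h1
  · exact le_rfl

lemma Cone.Dn {v : ℤ × ℤ → ℝ} (h : Cone D A v) {i j : ℤ} (hp : (i, j) ∈ D) :
    v (mv D (-(0, 1)) (i, j)) ≤ v (i, j) := by
  rw [mvD]
  split_ifs with h1
  · have := h.my i (j - 1) h1 (by simpa using hp)
    simpa using this
  · exact le_rfl

lemma Pm_nonneg {v : ℤ × ℤ → ℝ} (h : ∀ p, 0 ≤ v p) (p : ℤ × ℤ) : 0 ≤ Pm D A v p := by
  unfold Pm
  split_ifs
  · have := h (mv D (1, 0) p)
    have := h (mv D (-(1, 0)) p)
    have := h (mv D (0, 1) p)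
    have := h (mv D (-(0, 1)) p)
    positivity
  · exact le_rfl

lemma Cone.step (hL : Lat D A) {v : ℤ × ℤ → ℝ} (h : Cone D A v) : Cone D A (Pm D A v) := by
  refine ⟨Pm_nonneg h.nn, fun p hp => by simp [Pm, hp], fun i j hp hq => ?_, fun i j hp hq => ?_⟩
  · by_cases hA : (i + 1, j) ∈ A
    swap
    · have : Pm D A v (i + 1, j) = 0 := by simp [Pm, hA]
      rw [this]
      exact Pm_nonneg h.nn _
    have hA' := hL.aleft i j hp hA
    have h0 := hL.pos i j hp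
    have hm := h.mx i j hp hq
    have e1 : v (mv D (1, 0) (i + 1, j)) ≤ v (mv D (1, 0) (i, j)) := by
      rw [mvR i j, if_pos hq]
      exact h.R hq
    have e2 : v (mv D (-(1, 0)) (i + 1, j)) ≤ v (mv D (-(1, 0)) (i, j)) := by
      rw [mvL (i + 1) j, add_sub_cancel_right, if_pos hp]
      exact h.L hp
    have e3 : v (mv D (0, 1) (i + 1, j)) ≤ v (mv D (0, 1) (i, j)) := by
      rw [mvU (i + 1) j]
      split_ifs with h1
      · have h2 := hL.left i (j + 1) h1 h0.1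
        rw [mvU, if_pos h2]
        exact h.mx i (j + 1) h2 h1
      · exact hm.trans (h.U hp)
    have e4 : v (mv D (-(0, 1)) (i + 1, j)) ≤ v (mv D (-(0, 1)) (i, j)) := by
      rw [mvD i j]
      split_ifs with h1
      · have h2 : (i + 1, j - 1) ∈ D :=
          hL.down _ _ (by simpa using hq) (hL.pos _ _ h1).2
        rw [mvD, if_pos h2]
        exact h.mx i (j - 1) h1 h2
      · rw [mvD, if_neg fun h2 => h1 (hL.left _ _ h2 h0.1)]
        exact hm
    simp only [Pm, if_pos hA, if_pos hA']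
    linarith only [e1, e2, e3, e4]
  · by_cases hA : (i, j) ∈ A
    swap
    · have : Pm D A v (i, j) = 0 := by simp [Pm, hA]
      rw [this]
      exact Pm_nonneg h.nn _
    have hA' := hL.aup i j hA hq
    have h0 := hL.pos i j hp
    have hm := h.my i j hp hq
    have e1 : v (mv D (1, 0) (i, j)) ≤ v (mv D (1, 0) (i, j + 1)) := by
      rw [mvR i (j + 1)]
      split_ifs with h1
      · have h2 := hL.down (i + 1) j h1 h0.2
        rw [mvR, if_pos h2]
        exact h.my (i + 1) j h2 h1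
      · exact (h.R hp).trans hm
    have e2 : v (mv D (-(1, 0)) (i, j)) ≤ v (mv D (-(1, 0)) (i, j + 1)) := by
      rw [mvL i j]
      split_ifs with h1
      · have h2 : (i - 1, j + 1) ∈ D :=
          hL.left _ _ (by simpa using hq) (hL.pos _ _ h1).1
        rw [mvL, if_pos h2]
        exact h.my (i - 1) j h1 h2
      · rw [mvL, if_neg fun h2 => h1 (hL.down _ _ h2 h0.2)]
        exact hm
    have e3 : v (mv D (0, 1) (i, j)) ≤ v (mv D (0, 1) (i, j + 1)) := by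
      rw [mvU i j, if_pos hq]
      exact h.U hq
    have e4 : v (mv D (-(0, 1)) (i, j)) ≤ v (mv D (-(0, 1)) (i, j + 1)) := by
      rw [mvD i (j + 1), add_sub_cancel_right, if_pos hp]
      exact h.Dn hp
    simp only [Pm, if_pos hA, if_pos hA']
    linarith only [e1, e2, e3, e4]

lemma sum_mv (e : ℤ × ℤ) (a b : ℤ × ℤ → ℝ) :
    ∑ p ∈ D, a p * (b (mv D e p) - b p) = ∑ p ∈ D with p + e ∈ D, a p * (b (p + e) - b p) := by
  rw [sum_filter]
  refine sum_congr rfl fun p _ => ?_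
  unfold mv
  split_ifs <;> simp

lemma sum_shift (e : ℤ × ℤ) (φ : ℤ × ℤ → ℤ × ℤ → ℝ) :
    ∑ p ∈ D with p + -e ∈ D, φ p (p + -e) = ∑ p ∈ D with p + e ∈ D, φ (p + e) p := by
  refine sum_nbij' (fun p => p + -e) (fun p => p + e) ?_ ?_ ?_ ?_ ?_
  · intro p hp
    simp only [mem_filter] at hp ⊢
    exact ⟨hp.2, by simpa using hp.1⟩
  · intro p hp
    simp only [mem_filter] at hp ⊢
    exact ⟨hp.2, by simpa using hp.1⟩
  · intro p _; simp
  · intro p _; simp
  · intro p _; simp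

lemma sum_pair (e : ℤ × ℤ) (a b : ℤ × ℤ → ℝ) :
    ∑ p ∈ D, a p * (b (mv D e p) - b p) + ∑ p ∈ D, a p * (b (mv D (-e) p) - b p) =
      -Bl D e a b := by
  rw [sum_mv, sum_mv, sum_shift e (fun p q => a p * (b q - b p)), ← sum_add_distrib, Bl,
    ← sum_neg_distrib]
  exact sum_congr rfl fun p _ => by ring

lemma ip_Pm {a : ℤ × ℤ → ℝ} (ha : ∀ p, p ∉ A → a p = 0) (b : ℤ × ℤ → ℝ) :
    ip D a (Pm D A b) = ip D a b - (Bl D (1, 0) a b + Bl D (0, 1) a b) / 4 := by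
  have h1 := sum_pair (D := D) (1, 0) a b
  have h2 := sum_pair (D := D) (0, 1) a b
  have h3 : ip D a (Pm D A b) = ip D a b +
      ((∑ p ∈ D, a p * (b (mv D (1, 0) p) - b p) + ∑ p ∈ D, a p * (b (mv D (-(1, 0)) p) - b p)) +
      (∑ p ∈ D, a p * (b (mv D (0, 1) p) - b p) + ∑ p ∈ D, a p * (b (mv D (-(0, 1)) p) - b p)))
        / 4 := by
    simp only [ip, ← sum_add_distrib, sum_div]
    refine sum_congr rfl fun p _ => ?_
    by_cases hp : p ∈ A
    · simp only [Pm, if_pos hp]; ring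
    · simp [ha p hp]
  rw [h3, h1, h2]
  ring

lemma Bl_comm (e : ℤ × ℤ) (a b : ℤ × ℤ → ℝ) : Bl D e a b = Bl D e b a :=
  sum_congr rfl fun _ _ => mul_comm _ _

lemma ip_comm (a b : ℤ × ℤ → ℝ) : ip D a b = ip D b a := sum_congr rfl fun _ _ => mul_comm _ _

lemma Nm_eq (v : ℤ × ℤ → ℝ) : Nm D v = ip D v v := sum_congr rfl fun _ _ => sq _

lemma Ed_eq (e : ℤ × ℤ) (v : ℤ × ℤ → ℝ) : Ed D e v = Bl D e v v := sum_congr rfl fun _ _ => sq _

lemma Nm_nonneg (v : ℤ × ℤ → ℝ) : 0 ≤ Nm D v := sum_nonneg fun _ _ => sq_nonneg _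

lemma Ed_nonneg (e : ℤ × ℤ) (v : ℤ × ℤ → ℝ) : 0 ≤ Ed D e v := sum_nonneg fun _ _ => sq_nonneg _

lemma Nm_zero {v : ℤ × ℤ → ℝ} (h : Nm D v ≤ 0) {p : ℤ × ℤ} (hp : p ∈ D) : v p = 0 := by
  have h1 : v p ^ 2 ≤ Nm D v := single_le_sum (f := fun p => v p ^ 2) (fun _ _ => sq_nonneg _) hp
  exact pow_eq_zero_iff two_ne_zero |>.1 (le_antisymm (h1.trans h) (sq_nonneg _))

lemma Pm_lin (a b : ℤ × ℤ → ℝ) (s t : ℝ) (p : ℤ × ℤ) :
    Pm D A (fun q => s * a q + t * b q) p = s * Pm D A a p + t * Pm D A b p := by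
  unfold Pm
  split_ifs
  · ring
  · simp

lemma Cone.lin {a b : ℤ × ℤ → ℝ} (ha : Cone D A a) (hb : Cone D A b) {s t : ℝ} (hs : 0 ≤ s)
    (ht : 0 ≤ t) : Cone D A fun q => s * a q + t * b q := by
  refine ⟨fun p => add_nonneg (mul_nonneg hs (ha.nn p)) (mul_nonneg ht (hb.nn p)),
    fun p hp => by simp [ha.zero p hp, hb.zero p hp], fun i j h1 h2 => ?_, fun i j h1 h2 => ?_⟩
  · exact add_le_add (mul_le_mul_of_nonneg_left (ha.mx i j h1 h2) hs)
      (mul_le_mul_of_nonneg_left (hb.mx i j h1 h2) ht)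
  · exact add_le_add (mul_le_mul_of_nonneg_left (ha.my i j h1 h2) hs)
      (mul_le_mul_of_nonneg_left (hb.my i j h1 h2) ht)

lemma Nm_smul (v : ℤ × ℤ → ℝ) (s : ℝ) : Nm D (fun q => s * v q) = s ^ 2 * Nm D v := by
  simp only [Nm, mul_sum, mul_pow]

lemma Pm_cont (p : ℤ × ℤ) : Continuous fun v : ℤ × ℤ → ℝ => Pm D A v p := by
  unfold Pm
  split_ifs
  · fun_prop
  · exact continuous_const

lemma cone_compact (hL : Lat D A) : IsCompact {v : ℤ × ℤ → ℝ | Cone D A v ∧ Nm D v = 1} := by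
  refine (isCompact_univ_pi fun _ : ℤ × ℤ => isCompact_Icc (a := (0 : ℝ)) (b := 1)).of_isClosed_subset
    ?_ ?_
  · have e : {v : ℤ × ℤ → ℝ | Cone D A v ∧ Nm D v = 1} =
        ((⋂ p, {v : ℤ × ℤ → ℝ | 0 ≤ v p}) ∩ (⋂ p, ⋂ _ : p ∉ A, {v : ℤ × ℤ → ℝ | v p = 0}) ∩
        (⋂ i, ⋂ j, ⋂ _ : (i, j) ∈ D, ⋂ _ : (i + 1, j) ∈ D,
          {v : ℤ × ℤ → ℝ | v (i + 1, j) ≤ v (i, j)}) ∩
        (⋂ i, ⋂ j, ⋂ _ : (i, j) ∈ D, ⋂ _ : (i, j + 1) ∈ D,
          {v : ℤ × ℤ → ℝ | v (i, j) ≤ v (i, j + 1)})) ∩ {v | Nm D v = 1} := by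
      ext v
      simp only [Set.mem_setOf_eq, Set.mem_inter_iff, Set.mem_iInter]
      exact ⟨fun h => ⟨⟨⟨⟨h.1.nn, h.1.zero⟩, h.1.mx⟩, h.1.my⟩, h.2⟩,
        fun h => ⟨⟨h.1.1.1.1, h.1.1.1.2, h.1.1.2, h.1.2⟩, h.2⟩⟩
    rw [e]
    refine IsClosed.inter (IsClosed.inter (IsClosed.inter (IsClosed.inter ?_ ?_) ?_) ?_) ?_
    · exact isClosed_iInter fun p => isClosed_le continuous_const (continuous_apply p)
    · exact isClosed_iInter fun p => isClosed_iInter fun _ =>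
        isClosed_eq (continuous_apply p) continuous_const
    · exact isClosed_iInter fun i => isClosed_iInter fun j => isClosed_iInter fun _ =>
        isClosed_iInter fun _ => isClosed_le (continuous_apply _) (continuous_apply _)
    · exact isClosed_iInter fun i => isClosed_iInter fun j => isClosed_iInter fun _ =>
        isClosed_iInter fun _ => isClosed_le (continuous_apply _) (continuous_apply _)
    · exact isClosed_eq (by unfold Nm; fun_prop) continuous_const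
  · rintro v ⟨h1, h2⟩ p _
    refine ⟨h1.nn p, ?_⟩
    by_cases hp : p ∈ A
    · have h3 : v p ^ 2 ≤ Nm D v :=
        single_le_sum (f := fun p => v p ^ 2) (fun _ _ => sq_nonneg _) (hL.sub hp)
      (refine le_of_not_gt fun h_nl => ?_; linarith only [h_nl, h2, h3, h1.nn p, mul_pos_of_neg_of_neg (Mathlib.Tactic.Linarith.sub_neg_of_lt h_nl) (Mathlib.Tactic.Linarith.sub_neg_of_lt h_nl)])
    · rw [h1.zero p hp]; exact zero_le_one

lemma Cone.normalize {v : ℤ × ℤ → ℝ} (h : Cone D A v) (hv : 0 < Nm D v) :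
    ∃ c : ℝ, 0 < c ∧ c ^ 2 * Nm D v = 1 ∧ Cone D A fun q => c * v q := by
  refine ⟨(Real.sqrt (Nm D v))⁻¹, by positivity, ?_, ?_⟩
  · rw [inv_pow, Real.sq_sqrt hv.le, inv_mul_cancel₀ hv.ne']
  · simpa using h.lin h (s := (Real.sqrt (Nm D v))⁻¹) (t := 0) (by positivity) le_rfl

/-- a monotone eigenvector -/
lemma exists_eigen (hL : Lat D A) (hA : A.Nonempty) :
    ∃ u s, Cone D A u ∧ 0 < Nm D u ∧ ∀ p ∈ D, Pm D A u p = s * u p := by
  classical
  have hone : Cone D A fun p => if p ∈ A then 1 else 0 := by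
    refine ⟨fun p => by split_ifs <;> norm_num, fun p hp => if_neg hp, fun i j h1 h2 => ?_,
      fun i j h1 h2 => ?_⟩
    · by_cases h : (i + 1, j) ∈ A
      · simp [h, hL.aleft i j h1 h]
      · rw [if_neg h]; split_ifs <;> norm_num
    · by_cases h : (i, j) ∈ A
      · simp [h, hL.aup i j h h2]
      · rw [if_neg h]; split_ifs <;> norm_num
  have hpos : 0 < Nm D fun p => if p ∈ A then (1 : ℝ) else 0 := by
    obtain ⟨p, hp⟩ := hA
    refine sum_pos' (fun _ _ => sq_nonneg _) ⟨p, hL.sub hp, by simp [hp]⟩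
  obtain ⟨c, -, hc2, hc3⟩ := hone.normalize hpos
  obtain ⟨v, ⟨hv, hv1⟩, hmax⟩ := (cone_compact hL).exists_isMaxOn
    (f := fun v => Nm D (Pm D A v)) ⟨_, hc3, by rw [Nm_smul, hc2]⟩
    (Continuous.continuousOn (continuous_finset_sum _ fun p _ => (Pm_cont p).pow 2))
  set w := Pm D A v with hw
  set S := Nm D w with hS
  have hwc : Cone D A w := hv.step hL
  have hS0 : 0 ≤ S := Nm_nonneg _
  rcases hS0.eq_or_lt with h0 | h0
  · exact ⟨v, 0, hv, by rw [hv1]; norm_num, fun p hp => by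
      rw [zero_mul]; exact Nm_zero (v := w) h0.ge hp⟩
  have h1 : Nm D (Pm D A w) ≤ S * S := by
    obtain ⟨c, -, hc2, hc3⟩ := hwc.normalize h0
    have h2 : Nm D (Pm D A fun q => c * w q) ≤ S := hmax ⟨hc3, by rw [Nm_smul, hc2]⟩
    have h3 : (Pm D A fun q => c * w q) = fun q => c * Pm D A w q := by
      funext q
      simpa using Pm_lin (D := D) (A := A) w w c 0 q
    rw [h3, Nm_smul] at h2
    calc Nm D (Pm D A w) = (c ^ 2 * S) * Nm D (Pm D A w) := by rw [hc2, one_mul]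
      _ = S * (c ^ 2 * Nm D (Pm D A w)) := by ring
      _ ≤ S * S := mul_le_mul_of_nonneg_left h2 hS0
  have h2 : ip D v (Pm D A w) = S := by
    rw [ip_Pm hv.zero, ip_comm, Bl_comm, Bl_comm (0, 1), ← ip_Pm hwc.zero, hS, Nm_eq]
  have h3 : Nm D (fun p => Pm D A w p - S * v p) ≤ 0 := by
    have : Nm D (fun p => Pm D A w p - S * v p) =
        Nm D (Pm D A w) - 2 * S * ip D v (Pm D A w) + S ^ 2 * Nm D v := by
      simp only [Nm, ip, mul_sum, ← sum_sub_distrib, ← sum_add_distrib]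
      exact sum_congr rfl fun p _ => by ring
    rw [this, h2, hv1]
    linarith only [h1]
  have hs : 0 < Real.sqrt S := Real.sqrt_pos.2 h0
  refine ⟨fun q => 1 * w q + Real.sqrt S * v q, Real.sqrt S, hwc.lin hv zero_le_one hs.le, ?_,
    fun p hp => ?_⟩
  · refine h0.trans_le (sum_le_sum fun p _ => ?_)
    have := hwc.nn p
    have := mul_nonneg hs.le (hv.nn p)
    nlinarith
  · rw [Pm_lin]
    have h4 : Pm D A w p - S * v p = 0 := Nm_zero h3 hp
    have h5 : Real.sqrt S * Real.sqrt S = S := Real.mul_self_sqrt hS0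
    rw [← hw]
    linear_combination h4 - v p * h5

lemma Cone.le_left (hL : Lat D A) {v : ℤ × ℤ → ℝ} (h : Cone D A v) (j : ℤ) (d : ℕ) (i : ℤ)
    (hi : 0 ≤ i) (hp : (i + d, j) ∈ D) : (i, j) ∈ D ∧ v (i + d, j) ≤ v (i, j) := by
  induction d with
  | zero => simpa using hp
  | succ d ih =>
    push_cast at hp ⊢
    rw [← add_assoc] at hp ⊢
    have h1 := hL.left _ _ hp (by omega)
    exact ⟨(ih h1).1, (h.mx _ _ h1 hp).trans (ih h1).2⟩

lemma Cone.le_up (hL : Lat D A) {v : ℤ × ℤ → ℝ} (h : Cone D A v) (i : ℤ) (d : ℕ) (j : ℤ)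
    (hj : 0 ≤ j) (hp : (i, j + d) ∈ D) : (i, j) ∈ D ∧ v (i, j) ≤ v (i, j + d) := by
  induction d with
  | zero => simpa using hp
  | succ d ih =>
    push_cast at hp ⊢
    rw [← add_assoc] at hp ⊢
    have h1 := hL.down _ _ hp (by omega)
    exact ⟨(ih h1).1, (ih h1).2.trans (h.my _ _ h1 hp)⟩

/-- monotonicity between arbitrary points -/
lemma Cone.le (hL : Lat D A) {v : ℤ × ℤ → ℝ} (h : Cone D A v) {i j i' j' : ℤ}
    (hp : (i, j) ∈ D) (hq : (i', j') ∈ D) (h1 : i' ≤ i) (h2 : j ≤ j') : v (i, j) ≤ v (i', j') := by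
  obtain ⟨d, rfl⟩ := Int.le.dest h1
  obtain ⟨e, rfl⟩ := Int.le.dest h2
  exact (h.le_left hL j d i' (hL.pos _ _ hq).1 hp).2.trans
    (h.le_up hL i' e j (hL.pos _ _ hp).2 hq).2

lemma eigen_pos (hL : Lat D A) {u : ℤ × ℤ → ℝ} {s : ℝ} (h : Cone D A u) (hu : 0 < Nm D u)
    (he : ∀ p ∈ D, Pm D A u p = s * u p) {p : ℤ × ℤ} (hp : p ∈ A) : 0 < u p := by
  by_contra hc
  have hp0 : u p = 0 := le_antisymm (not_lt.1 hc) (h.nn p)
  have hstep : ∀ q ∈ A, u q = 0 → u (mv D (-(1, 0)) q) = 0 ∧ u (mv D (0, 1) q) = 0 := by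
    intro q hq h0
    have h1 := he q (hL.sub hq)
    simp only [Pm, if_pos hq, h0, mul_zero] at h1
    have a1 := h.nn (mv D (1, 0) q)
    have a2 := h.nn (mv D (-(1, 0)) q)
    have a3 := h.nn (mv D (0, 1) q)
    have a4 := h.nn (mv D (-(0, 1)) q)
    constructor <;> linarith only [a2, h1, a1, a3, a4]
  have hleft : ∀ (d : ℕ) (j : ℤ), ((d : ℤ), j) ∈ A → u (d, j) = 0 → (0, j) ∈ A ∧ u (0, j) = 0 := by
    intro d j
    induction d with
    | zero => intro h1 h2; exact ⟨h1, h2⟩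
    | succ d ih =>
      intro h1 h2
      push_cast at h1 h2
      have h3 := hL.left _ _ (hL.sub h1) (by omega)
      have h4 := (hstep _ h1 h2).1
      rw [mvL, add_sub_cancel_right, if_pos h3] at h4
      exact ih (hL.aleft _ _ h3 h1) h4
  have hup : ∀ (d : ℕ) (j : ℤ), (0, j) ∈ A → u (0, j) = 0 → (0, j + d) ∈ D →
      (0, j + d) ∈ A ∧ u (0, j + d) = 0 := by
    intro d j h1 h2
    induction d with
    | zero => intro _; simpa using ⟨h1, h2⟩
    | succ d ih =>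
      intro h3
      push_cast at h3 ⊢
      rw [← add_assoc] at h3 ⊢
      have h4 := hL.down _ _ h3 (by have := (hL.pos _ _ (hL.sub h1)).2; omega)
      have h5 := (hstep _ (ih h4).1 (ih h4).2).2
      rw [mvU, if_pos h3] at h5
      exact ⟨hL.aup _ _ (ih h4).1 h3, h5⟩
  obtain ⟨i, j⟩ := p
  have h0 := hL.pos _ _ (hL.sub hp)
  obtain ⟨d, rfl⟩ := Int.eq_ofNat_of_zero_le h0.1
  obtain ⟨h1, h2⟩ := hleft d j hp hp0
  refine absurd hu (not_lt.2 (le_of_eq (sum_eq_zero ?_)))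
  rintro ⟨a, b⟩ hq
  have h3 := hL.pos _ _ hq
  refine pow_eq_zero_iff two_ne_zero |>.2 (le_antisymm ?_ (h.nn _))
  rcases le_total b j with h4 | h4
  · exact (h.le hL hq (hL.sub h1) h3.1 h4).trans h2.le
  · obtain ⟨e, rfl⟩ := Int.le.dest h4
    obtain ⟨a', rfl⟩ := Int.eq_ofNat_of_zero_le h3.1
    have h5 := h.le_left hL (j + e) a' 0 le_rfl (by simpa using hq)
    rw [zero_add] at h5
    exact h5.2.trans (hup e j h1 h2 h5.1).2.le

lemma picone_edge {a b g g' : ℝ} (ha : 0 ≤ a) (hab : a ≤ b) (hg : 0 ≤ g) (hg' : 0 ≤ g')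
    (h0 : a = 0 → g = 0) : (g' ^ 2 / b - g ^ 2 / a) * (b - a) ≤ Ph g g' := by
  rcases ha.eq_or_lt with h | h
  · subst h
    rw [h0 rfl, Ph_zero hg']
    rcases hab.eq_or_lt with h | h
    · subst h; simp; positivity
    · field_simp
      simp
  have hb : 0 < b := h.trans_le hab
  rcases le_total g' g with h1 | h1
  · refine le_trans (mul_nonpos_of_nonpos_of_nonneg (sub_nonpos.2 ?_) (sub_nonneg.2 hab))
      (Ph_nonneg _ _)
    gcongr
  · rw [Ph, max_eq_left (sub_nonneg.2 h1), ← sub_nonneg]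
    have : (g' - g) ^ 2 - (g' ^ 2 / b - g ^ 2 / a) * (b - a) = (g * b - g' * a) ^ 2 / (a * b) := by
      field_simp
      ring
    rw [this]
    positivity

/-- the monotone ground state lies below every one-sided quotient -/
theorem ground (hL : Lat D A) (G : ℤ × ℤ → ℝ) (hG : ∀ p ∈ D, 0 ≤ G p)
    (hz : ∀ p ∈ D, p ∉ A → G p = 0) (hN : 0 < Nm D G) :
    ∃ u, Cone D A u ∧ 0 < Nm D u ∧ (Ed D (1, 0) u + Ed D (0, 1) u) * Nm D G ≤
      (∑ p ∈ D with p + (1, 0) ∈ D, Ph (G (p + (1, 0))) (G p) +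
        ∑ p ∈ D with p + (0, 1) ∈ D, Ph (G p) (G (p + (0, 1)))) * Nm D u := by
  have hA : A.Nonempty := by
    by_contra hc
    rw [not_nonempty_iff_eq_empty] at hc
    refine absurd hN (not_lt.2 (le_of_eq (sum_eq_zero fun p hp => ?_)))
    rw [hz p hp (by simp [hc])]
    simp
  obtain ⟨u, s, hu, hu0, he⟩ := exists_eigen hL hA
  refine ⟨u, hu, hu0, ?_⟩
  have key : ∀ a : ℤ × ℤ → ℝ, (∀ p, p ∉ A → a p = 0) →
      Bl D (1, 0) a u + Bl D (0, 1) a u = 4 * (1 - s) * ip D a u := by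
    intro a ha
    have h1 := ip_Pm (D := D) ha u
    have h2 : ip D a (Pm D A u) = s * ip D a u := by
      simp only [ip, mul_sum]
      exact sum_congr rfl fun p hp => by rw [he p hp]; ring
    linarith only [h1, h2]
  have hzero : ∀ p ∈ D, u p = 0 → G p = 0 := fun p hp h0 =>
    hz p hp fun hA => (eigen_pos hL hu hu0 he hA).ne' h0
  have h1 := key u hu.zero
  have h2 := key (fun p => G p ^ 2 / u p) fun p hp => by simp [hu.zero p hp]
  have h3 : ip D (fun p => G p ^ 2 / u p) u = Nm D G := by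
    refine sum_congr rfl fun p hp => ?_
    by_cases h0 : u p = 0
    · simp [h0, hzero p hp h0]
    · field_simp
  have h4 : Bl D (1, 0) (fun p => G p ^ 2 / u p) u ≤
      ∑ p ∈ D with p + (1, 0) ∈ D, Ph (G (p + (1, 0))) (G p) := by
    refine sum_le_sum ?_
    rintro ⟨i, j⟩ hp
    obtain ⟨hp1, hp2⟩ := mem_filter.1 hp
    have h5 : u ((i, j) + (1, 0)) ≤ u (i, j) := by
      simpa using hu.mx i j hp1 (by simpa using hp2)
    have := picone_edge (hu.nn _) h5 (hG _ hp2) (hG _ hp1) (hzero _ hp2)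
    linarith only [this]
  have h5 : Bl D (0, 1) (fun p => G p ^ 2 / u p) u ≤
      ∑ p ∈ D with p + (0, 1) ∈ D, Ph (G p) (G (p + (0, 1))) := by
    refine sum_le_sum ?_
    rintro ⟨i, j⟩ hp
    obtain ⟨hp1, hp2⟩ := mem_filter.1 hp
    have h5 : u (i, j) ≤ u ((i, j) + (0, 1)) := by
      simpa using hu.my i j hp1 (by simpa using hp2)
    exact picone_edge (hu.nn _) h5 (hG _ hp1) (hG _ hp2) (hzero _ hp1)
  rw [Ed_eq, Ed_eq, h1, ← Nm_eq]
  rw [h3] at h2
  linarith only [hu0, h2, h4, h5, Mathlib.Tactic.Linarith.mul_zero_eq (Mathlib.Tactic.Linarith.sub_neg_of_lt hu0) (sub_eq_zero_of_eq h2), mul_nonneg_of_nonpos_of_nonpos (le_of_lt (Mathlib.Tactic.Linarith.sub_neg_of_lt hu0)) (Mathlib.Tactic.Linarith.sub_nonpos_of_le h4), mul_nonneg_of_nonpos_of_nonpos (le_of_lt (Mathlib.Tactic.Linarith.sub_neg_of_lt hu0)) (Mathlib.Tactic.Linarith.sub_nonpos_of_le h5)]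

end

end Pool.Agent.Work.MP_267827_an.Srt
end

-- merged part: Pool.Agent.Work.MP_267827_an.Srt.SC
section
/-! The discrete rearrangement lemma and the discrete mass comparison. -/

set_option autoImplicit false

namespace Pool.Agent.Work.MP_267827_an.Srt

open Finset

noncomputable section

variable {D A : Finset (ℤ × ℤ)}

lemma sum_rows {T : Finset (ℤ × ℤ)} {r : ℤ → ℤ} {J : ℤ}
    (h : ∀ i j, (i, j) ∈ T ↔ 0 ≤ i ∧ i < r j ∧ 0 ≤ j ∧ j < J) (φ : ℤ × ℤ → ℝ) :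
    ∑ p ∈ T, φ p = ∑ j ∈ Ico 0 J, ∑ i ∈ Ico 0 (r j), φ (i, j) :=
  sum_finset_product_right' T (Ico 0 J) (fun j => Ico 0 (r j)) (fun p => by
    rw [mem_Ico, mem_Ico, h p.1 p.2]; tauto) (f := fun i j => φ (i, j))

lemma lat_of {n m : ℤ → ℤ} {J : ℤ} (hn : Antitone n) (hm : Monotone m)
    (hD : ∀ i j, (i, j) ∈ D ↔ 0 ≤ i ∧ i < n j ∧ 0 ≤ j ∧ j < J)
    (hA : ∀ i j, (i, j) ∈ A ↔ (i, j) ∈ D ∧ i < m j) : Lat D A := by
  refine ⟨fun i j h => ?_, fun i j h h0 => ?_, fun i j h h0 => ?_, fun p h => ?_,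
    fun i j h h1 => ?_, fun i j h h1 => ?_⟩
  · rw [hD] at h; omega
  · rw [hD] at h ⊢; omega
  · rw [hD] at h ⊢
    have := hn (show j ≤ j + 1 by omega)
    omega
  · exact ((hA p.1 p.2).1 h).1
  · rw [hA] at h1 ⊢
    exact ⟨h, by omega⟩
  · rw [hA] at h ⊢
    have := hm (show j ≤ j + 1 by omega)
    exact ⟨h1, by omega⟩

/-- the discrete rearrangement lemma -/
theorem disc {n m : ℤ → ℤ} {J : ℤ} (hn : Antitone n) (hm : Monotone m)
    (hD : ∀ i j, (i, j) ∈ D ↔ 0 ≤ i ∧ i < n j ∧ 0 ≤ j ∧ j < J)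
    (hA : ∀ i j, (i, j) ∈ A ↔ (i, j) ∈ D ∧ i < m j) (F : ℤ × ℤ → ℝ) (hF : ∀ p, 0 ≤ F p)
    (hz : ∀ j, 0 ≤ j → j < J →
      (((Ico 0 (n j)).filter fun i => F (i, j) ≠ 0).card : ℤ) ≤ max (m j) 0)
    (hN : 0 < Nm D F) (ps : ℤ → Prop) [DecidablePred ps]
    (hps : ∀ j, 0 ≤ j → ps j → F (0, j) = 0) :
    ∃ u, Cone D A u ∧ 0 < Nm D u ∧ (Ed D (1, 0) u + Ed D (0, 1) u) * Nm D F ≤
      (∑ p ∈ D with p + (1, 0) ∈ D, (if ps p.2 then Ph (F p) (F (p + (1, 0)))
        else (F (p + (1, 0)) - F p) ^ 2) + Ed D (0, 1) F) * Nm D u := by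
  choose g hg using fun j => exists_sorted (n j) fun i => F (i, j)
  let G : ℤ × ℤ → ℝ := fun p => g p.2 p.1
  have hmass : Nm D F ≤ Nm D G := by
    rw [Nm, Nm, sum_rows hD, sum_rows hD]
    exact sum_le_sum fun j _ => (hg j).mass fun i => hF _
  obtain ⟨u, hu, hu0, hle⟩ := ground (lat_of hn hm hD hA) G
    (fun p hp => by
      have := (hD p.1 p.2).1 hp
      exact (hg p.2).nonneg (fun i => hF _) this.1 this.2.1)
    (fun p hp hpA => by
      have h1 := (hD p.1 p.2).1 hp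
      have h2 : m p.2 ≤ p.1 := not_lt.1 fun hc => hpA ((hA p.1 p.2).2 ⟨hp, hc⟩)
      exact (hg p.2).zero (fun i => hF _) (hz _ h1.2.2.1 h1.2.2.2) h1.1 h1.2.1 h2)
    (hN.trans_le hmass)
  refine ⟨u, hu, hu0, ?_⟩
  have hx : ∀ i j, (i, j) ∈ D.filter (fun p => p + (1, 0) ∈ D) ↔
      0 ≤ i ∧ i < n j - 1 ∧ 0 ≤ j ∧ j < J := by
    intro i j
    rw [mem_filter, Prod.mk_add_mk, hD, hD, add_zero]
    omega
  have hy : ∀ i j, (i, j) ∈ D.filter (fun p => p + (0, 1) ∈ D) ↔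
      0 ≤ i ∧ i < n (j + 1) ∧ 0 ≤ j ∧ j < J - 1 := by
    intro i j
    rw [mem_filter, Prod.mk_add_mk, hD, hD, add_zero]
    have := hn (show j ≤ j + 1 by omega)
    omega
  have e1 : ∑ p ∈ D with p + (1, 0) ∈ D, Ph (G (p + (1, 0))) (G p) ≤
      ∑ p ∈ D with p + (1, 0) ∈ D, (if ps p.2 then Ph (F p) (F (p + (1, 0)))
        else (F (p + (1, 0)) - F p) ^ 2) := by
    rw [sum_rows hx, sum_rows hx]
    refine sum_le_sum fun j hj => ?_
    by_cases h : ps j
    · simpa [G, h] using (hg j).row0 fun i => by rw [hps j (mem_Ico.1 hj).1 h]; exact hF _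
    · simpa [G, h] using (hg j).row
  have e2 : ∑ p ∈ D with p + (0, 1) ∈ D, Ph (G p) (G (p + (0, 1))) ≤ Ed D (0, 1) F := by
    rw [Ed, sum_rows hy, sum_rows hy]
    refine sum_le_sum fun j _ => ?_
    simpa [G] using (hg j).up (hg (j + 1)) (hn (show j ≤ j + 1 by omega))
  have h1 := Ed_nonneg (D := D) (1, 0) u
  have h2 := Ed_nonneg (D := D) (0, 1) u
  calc _ ≤ (Ed D (1, 0) u + Ed D (0, 1) u) * Nm D G :=
        mul_le_mul_of_nonneg_left hmass (by linarith)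
    _ ≤ _ := hle
    _ ≤ _ := mul_le_mul_of_nonneg_right (add_le_add e1 e2) hu0.le

lemma col_path (hL : Lat D A) {u : ℤ × ℤ → ℝ} (h0 : ∀ i, (i, 0) ∈ D → u (i, 0) = 0) (i : ℤ) (j : ℕ)
    (hp : (i, (j : ℤ)) ∈ D) :
    u (i, j) ^ 2 ≤ j * ∑ q ∈ D with q + (0, 1) ∈ D ∧ q.1 = i, (u (q + (0, 1)) - u q) ^ 2 := by
  have hin : ∀ d k : ℕ, k + d = j → (i, (k : ℤ)) ∈ D := by
    intro d
    induction d with
    | zero => intro k hk; rw [add_zero] at hk; rw [hk]; exact hp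
    | succ d ih =>
      intro k hk
      have := ih (k + 1) (by omega)
      push_cast at this
      exact hL.down i k this (by omega)
  have h1 : u (i, j) = ∑ k ∈ range j, (u (i, (k : ℤ) + 1) - u (i, k)) := by
    have := sum_range_sub (fun k : ℕ => u (i, (k : ℤ))) j
    push_cast at this
    rw [this, h0 i (hin j 0 (zero_add j)), sub_zero]
  have h2 : ∑ k ∈ range j, (u (i, (k : ℤ) + 1) - u (i, k)) ^ 2 ≤
      ∑ q ∈ D with q + (0, 1) ∈ D ∧ q.1 = i, (u (q + (0, 1)) - u q) ^ 2 := by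
    have e : ∑ k ∈ range j, (u (i, (k : ℤ) + 1) - u (i, k)) ^ 2 =
        ∑ q ∈ (range j).image (fun k : ℕ => (i, (k : ℤ))), (u (q + (0, 1)) - u q) ^ 2 := by
      rw [sum_image fun a _ b _ h => by simpa using h]
      simp
    rw [e]
    refine sum_le_sum_of_subset_of_nonneg (fun q hq => ?_) fun _ _ _ => sq_nonneg _
    obtain ⟨k, hk, rfl⟩ := mem_image.1 hq
    have hk' := mem_range.1 hk
    refine mem_filter.2 ⟨hin (j - k) k (by omega), ?_, rfl⟩
    have := hin (j - (k + 1)) (k + 1) (by omega)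
    simpa using this
  rw [h1]
  refine (sq_sum_le_card_mul_sum_sq).trans ?_
  rw [card_range]
  exact mul_le_mul_of_nonneg_left h2 (by positivity)

lemma sq_shift {a b c ε : ℝ} (hε : 0 < ε) :
    a ^ 2 ≤ (1 + ε) * c ^ 2 + 2 * (1 + ε⁻¹) * ((b - a) ^ 2 + (c - b) ^ 2) := by
  have h1 : a ^ 2 ≤ (1 + ε) * c ^ 2 + (1 + ε⁻¹) * (c - a) ^ 2 := by
    have : (1 + ε) * c ^ 2 + (1 + ε⁻¹) * (c - a) ^ 2 - a ^ 2 = (ε * c + (c - a)) ^ 2 / ε := by
      field_simp
      ring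
    have h2 : 0 ≤ (ε * c + (c - a)) ^ 2 / ε := by positivity
    linarith only [this, h2]
  have h2 : (c - a) ^ 2 ≤ 2 * ((b - a) ^ 2 + (c - b) ^ 2) := by linarith only [sq_nonneg (a + c - 2 * b), sq_nonneg (a + c - (2 : ℝ) * b)]
  have h3 := mul_le_mul_of_nonneg_left h2 (show 0 ≤ 1 + ε⁻¹ by positivity)
  linarith only [h1, h3]

/-- the mass of a lattice function is almost carried by the good cells -/
theorem mass_good (hL : Lat D A) {u : ℤ × ℤ → ℝ} (h0 : ∀ i, (i, 0) ∈ D → u (i, 0) = 0)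
    (Gd : ℤ × ℤ → Prop) [DecidablePred Gd] (hG : ∀ p ∈ D, Gd p → p + (2, 0) ∈ D) {J K ε : ℝ}
    (hJ : ∀ p ∈ D, (p.2 : ℝ) ≤ J)
    (hK : ∀ i, ((D.filter fun p => ¬ Gd p ∧ p.1 = i).card : ℝ) ≤ K) (hε : 0 < ε) :
    Nm D u ≤ (1 + ε) * ∑ p ∈ D with Gd p, u (p + (2, 0)) ^ 2 +
      4 * (1 + ε⁻¹) * Ed D (1, 0) u + J * K * Ed D (0, 1) u := by
  rw [Nm, ← sum_filter_add_sum_filter_not D Gd]
  refine add_le_add ?_ ?_
  · have h1 : ∀ p ∈ D, Gd p → p + (1, 0) ∈ D := by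
      intro p hp hg
      have h2 := hG p hp hg
      have h3 := (hL.pos p.1 p.2 hp).1
      have : p + (2, 0) = (p.1 + 1 + 1, p.2) := by ext <;> simp; ring
      rw [this] at h2
      have h4 := hL.left _ _ h2 (by omega)
      have : p + (1, 0) = (p.1 + 1, p.2) := by ext <;> simp
      rwa [this]
    have e : ∀ p : ℤ × ℤ, p + (2, 0) = p + (1, 0) + (1, 0) := fun p => by ext <;> simp; ring
    have a1 : ∑ p ∈ D with Gd p, (u (p + (1, 0)) - u p) ^ 2 ≤ Ed D (1, 0) u :=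
      sum_le_sum_of_subset_of_nonneg (fun p hp => mem_filter.2
        ⟨(mem_filter.1 hp).1, h1 p (mem_filter.1 hp).1 (mem_filter.1 hp).2⟩) fun _ _ _ => sq_nonneg _
    have a2 : ∑ p ∈ D with Gd p, (u (p + (2, 0)) - u (p + (1, 0))) ^ 2 ≤ Ed D (1, 0) u := by
      have : ∑ p ∈ D with Gd p, (u (p + (2, 0)) - u (p + (1, 0))) ^ 2 =
          ∑ q ∈ (D.filter Gd).image (fun p => p + (1, 0)), (u (q + (1, 0)) - u q) ^ 2 := by
        rw [sum_image fun a _ b _ h => add_right_cancel h]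
        simp only [e]
      rw [this]
      refine sum_le_sum_of_subset_of_nonneg (fun q hq => ?_) fun _ _ _ => sq_nonneg _
      obtain ⟨p, hp, rfl⟩ := mem_image.1 hq
      refine mem_filter.2 ⟨h1 p (mem_filter.1 hp).1 (mem_filter.1 hp).2, ?_⟩
      rw [← e]
      exact hG p (mem_filter.1 hp).1 (mem_filter.1 hp).2
    calc _ ≤ ∑ p ∈ D with Gd p, ((1 + ε) * u (p + (2, 0)) ^ 2 + 2 * (1 + ε⁻¹) *
          ((u (p + (1, 0)) - u p) ^ 2 + (u (p + (2, 0)) - u (p + (1, 0))) ^ 2)) :=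
          sum_le_sum fun p _ => sq_shift hε
      _ ≤ _ := by
        rw [sum_add_distrib, ← mul_sum, ← mul_sum, sum_add_distrib]
        have := mul_le_mul_of_nonneg_left (add_le_add a1 a2) (show 0 ≤ 2 * (1 + ε⁻¹) by positivity)
        linarith only [this]
  · calc _ ≤ ∑ p ∈ D with ¬ Gd p, J * ∑ q ∈ D with q + (0, 1) ∈ D ∧ q.1 = p.1,
          (u (q + (0, 1)) - u q) ^ 2 := by
          refine sum_le_sum fun p hp => ?_
          have hp' := (mem_filter.1 hp).1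
          obtain ⟨j, hj⟩ := Int.eq_ofNat_of_zero_le (hL.pos p.1 p.2 hp').2
          have h1 := col_path hL h0 p.1 j (by rw [← hj]; exact hp')
          have h2 := hJ p hp'
          rw [hj] at h2
          rw [← hj] at h1
          refine h1.trans (mul_le_mul_of_nonneg_right (by exact_mod_cast h2)
            (sum_nonneg fun _ _ => sq_nonneg _))
      _ = J * ∑ q ∈ D with q + (0, 1) ∈ D,
          ((D.filter fun p => ¬ Gd p ∧ p.1 = q.1).card : ℝ) * (u (q + (0, 1)) - u q) ^ 2 := by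
          rw [← mul_sum]
          congr 1
          simp only [← filter_filter, sum_filter (p := fun q : ℤ × ℤ => q.1 = _), card_filter]
          rw [sum_comm]
          refine sum_congr rfl fun q _ => ?_
          push_cast
          rw [sum_mul]
          refine sum_congr rfl fun p _ => ?_
          by_cases h : q.1 = p.1
          · simp [h]
          · simp [h, Ne.symm h]
      _ ≤ _ := by
          rcases D.eq_empty_or_nonempty with hD | ⟨p, hp⟩
          · simp [hD, Ed]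
          have hJ0 : 0 ≤ J := le_trans (by exact_mod_cast (hL.pos p.1 p.2 hp).2) (hJ p hp)
          rw [mul_assoc, Ed, mul_sum (a := K)]
          exact mul_le_mul_of_nonneg_left (sum_le_sum fun q _ =>
            mul_le_mul_of_nonneg_right (hK _) (sq_nonneg _)) hJ0

end

end Pool.Agent.Work.MP_267827_an.Srt
end

-- merged part: Pool.Agent.Work.MP_267827_an.Srt.SD
section
/-! The quadratic spline. -/

set_option autoImplicit false

namespace Pool.Agent.Work.MP_267827_an.Srt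

open MeasureTheory Set

noncomputable section

/-- half the square of the positive part -/
def q2 (x : ℝ) : ℝ := (max x 0) ^ 2 / 2

/-- the ramp -/
def Tt (x : ℝ) : ℝ := max x 0 - max (x - 1) 0

/-- the hat function -/
def rho (x : ℝ) : ℝ := Tt x - Tt (x - 1)

/-- the smooth ramp -/
def Ss (x : ℝ) : ℝ := q2 x - 2 * q2 (x - 1) + q2 (x - 1 - 1)

/-- the quadratic spline -/
def Bs (x : ℝ) : ℝ := Ss x - Ss (x - 1)

lemma q2_der (x : ℝ) : HasDerivAt q2 (max x 0) x := by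
  rcases lt_trichotomy x 0 with h | h | h
  · have : q2 =ᶠ[nhds x] fun _ => 0 := by
      filter_upwards [Iio_mem_nhds h] with y hy
      simp [q2, max_eq_right (le_of_lt (mem_Iio.1 hy))]
    rw [max_eq_right h.le]
    exact (hasDerivAt_const x 0).congr_of_eventuallyEq this
  · subst h
    rw [max_self, hasDerivAt_iff_isLittleO_nhds_zero]
    simp only [zero_add, q2, max_self, smul_zero, sub_zero]
    have h1 : (fun h : ℝ => h ^ 2) =o[nhds 0] fun h => h :=
      Asymptotics.isLittleO_pow_id (by norm_num)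
    refine (Asymptotics.IsBigO.of_bound 1 (Filter.Eventually.of_forall fun y => ?_)).trans_isLittleO h1
    rcases le_total y 0 with h | h
    · simp [max_eq_right h]; positivity
    · rw [max_eq_left h, Real.norm_of_nonneg (by linarith only [sq_nonneg ((1 : ℝ) * y)]), Real.norm_of_nonneg (by positivity)]
      linarith only [sq_nonneg ((1 : ℝ) * y)]
  · have : q2 =ᶠ[nhds x] fun y => y ^ 2 / 2 := by
      filter_upwards [Ioi_mem_nhds h] with y hy
      simp [q2, max_eq_left (le_of_lt (mem_Ioi.1 hy))]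
    rw [max_eq_left h.le]
    refine HasDerivAt.congr_of_eventuallyEq ?_ this
    simpa using ((hasDerivAt_id x).pow 2).div_const 2

@[fun_prop] lemma Tt_cont : Continuous Tt := by unfold Tt; fun_prop

@[fun_prop] lemma rho_cont : Continuous rho := by unfold rho; fun_prop

lemma Ss_der (x : ℝ) : HasDerivAt Ss (rho x) x := by
  have h1 := (q2_der (x - 1)).comp_sub_const x 1
  have h2 := ((q2_der (x - 1 - 1)).comp_sub_const (x - 1) 1).comp_sub_const x 1
  refine (((q2_der x).sub (h1.const_mul 2)).add h2).congr_deriv ?_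
  simp only [rho, Tt]
  ring

lemma Bs_der (x : ℝ) : HasDerivAt Bs (rho x - rho (x - 1)) x :=
  (Ss_der x).sub ((Ss_der (x - 1)).comp_sub_const x 1)

lemma Ss_c1 : ContDiff ℝ 1 Ss := by
  rw [contDiff_one_iff_deriv]
  refine ⟨fun x => (Ss_der x).differentiableAt, ?_⟩
  rw [show deriv Ss = rho from funext fun x => (Ss_der x).deriv]
  exact rho_cont

lemma Bs_c1 : ContDiff ℝ 1 Bs := Ss_c1.sub (Ss_c1.comp (contDiff_id.sub contDiff_const))

@[fun_prop] lemma Ss_cont : Continuous Ss := Ss_c1.continuous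

@[fun_prop] lemma Bs_cont : Continuous Bs := Bs_c1.continuous

/-- a monotone step from zero to one on the interval from zero to two -/
structure Step (F : ℝ → ℝ) : Prop where
  cont : Continuous F
  mono : Monotone F
  lo : ∀ x, x ≤ 0 → F x = 0
  hi : ∀ x, 2 ≤ x → F x = 1

lemma Tt_hi {x : ℝ} (h : 1 ≤ x) : Tt x = 1 := by
  rw [Tt, max_eq_left (by linarith), max_eq_left (by linarith)]; ring

lemma step_Tt : Step Tt := by
  refine ⟨Tt_cont, fun x y h => ?_, fun x h => ?_, fun x h => Tt_hi (by linarith)⟩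
  · simp only [Tt, max_def]
    split_ifs <;> linarith
  · rw [Tt, max_eq_right h, max_eq_right (by linarith)]; ring

lemma Step.nn {F : ℝ → ℝ} (h : Step F) (x : ℝ) : 0 ≤ F x := by
  rw [← h.lo (min x 0) (min_le_right _ _)]
  exact h.mono (min_le_left _ _)

lemma Step.le_one {F : ℝ → ℝ} (h : Step F) (x : ℝ) : F x ≤ 1 := by
  rw [← h.hi (max x 2) (le_max_right _ _)]
  exact h.mono (le_max_left _ _)

lemma Step.dnn {F : ℝ → ℝ} (h : Step F) (x : ℝ) : 0 ≤ F x - F (x - 1) :=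
  sub_nonneg.2 (h.mono (by linarith))

lemma rho_nn (x : ℝ) : 0 ≤ rho x := step_Tt.dnn x

lemma rho_le (x : ℝ) : rho x ≤ 1 := by
  have := step_Tt.le_one x
  have := step_Tt.nn (x - 1)
  rw [rho]; linarith

lemma step_Ss : Step Ss := by
  refine ⟨Ss_cont, monotone_of_deriv_nonneg (fun x => (Ss_der x).differentiableAt) fun x => ?_,
    fun x h => ?_, fun x h => ?_⟩
  · rw [(Ss_der x).deriv]; exact rho_nn x
  · simp only [Ss, q2]
    rw [max_eq_right h, max_eq_right (by linarith), max_eq_right (by linarith)]; ring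
  · simp only [Ss, q2]
    rw [max_eq_left (by linarith), max_eq_left (by linarith), max_eq_left (by linarith)]; ring

lemma Bs_nn (x : ℝ) : 0 ≤ Bs x := step_Ss.dnn x

lemma rho_supp {x : ℝ} (h : rho x ≠ 0) : 0 < x ∧ x < 2 := by
  constructor
  · by_contra hc
    exact h (by rw [rho, step_Tt.lo x (not_lt.1 hc), step_Tt.lo _ (by linarith), sub_self])
  · by_contra hc
    exact h (by rw [rho, Tt_hi (by linarith), Tt_hi (by linarith), sub_self])

lemma Step.supp {F : ℝ → ℝ} (hF : Step F) {x : ℝ} (h : F x - F (x - 1) ≠ 0) : 0 < x ∧ x < 3 := by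
  constructor
  · by_contra hc
    exact h (by rw [hF.lo x (not_lt.1 hc), hF.lo _ (by linarith), sub_self])
  · by_contra hc
    exact h (by rw [hF.hi _ (by linarith), hF.hi _ (by linarith), sub_self])

lemma Bs_supp {x : ℝ} (h : Bs x ≠ 0) : 0 < x ∧ x < 3 := step_Ss.supp h

lemma tele (F : ℝ → ℝ) (x : ℝ) (a : ℤ) (d : ℕ) :
    ∑ i ∈ Finset.Ico a (a + d), (F (x - i) - F (x - i - 1)) = F (x - a) - F (x - a - d) := by
  induction d with
  | zero => simp
  | succ d ih =>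
    have : Finset.Ico a (a + (d + 1 : ℕ)) = insert (a + d) (Finset.Ico a (a + d)) := by
      ext k
      simp only [Finset.mem_Ico, Finset.mem_insert]
      omega
    rw [this, Finset.sum_insert (by simp), ih]
    push_cast
    ring_nf

lemma Step.sum_le {F : ℝ → ℝ} (h : Step F) (x : ℝ) (I : Finset ℤ) :
    ∑ i ∈ I, (F (x - i) - F (x - i - 1)) ≤ 1 := by
  obtain ⟨a, ha⟩ := I.bddBelow
  obtain ⟨b, hb⟩ := I.bddAbove
  have hsub : I ⊆ Finset.Ico a (a + (b + 1 - a).toNat) := by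
    intro i hi
    have h1 := ha hi
    have h2 := hb hi
    rw [Finset.mem_Ico]
    omega
  refine (Finset.sum_le_sum_of_subset_of_nonneg hsub fun i _ _ => h.dnn _).trans ?_
  rw [tele]
  have := h.le_one (x - a)
  have := h.nn (x - a - (b + 1 - a).toNat)
  linarith

lemma Step.int {F : ℝ → ℝ} (h : Step F) :
    Integrable (fun x => F x - F (x - 1)) ∧ ∫ x, (F x - F (x - 1)) ≤ 1 := by
  have hc : Continuous fun x => F x - F (x - 1) := h.cont.sub (h.cont.comp (by fun_prop))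
  have hs : Function.support (fun x => F x - F (x - 1)) ⊆ Ioc 0 3 := fun x hx =>
    ⟨(h.supp hx).1, (h.supp hx).2.le⟩
  refine ⟨hc.integrable_of_hasCompactSupport (HasCompactSupport.of_support_subset_isCompact
    isCompact_Icc (hs.trans Ioc_subset_Icc_self)), ?_⟩
  rw [← intervalIntegral.integral_eq_integral_of_support_subset hs,
    intervalIntegral.integral_sub (g := fun x => F (x - 1)) (h.cont.intervalIntegrable _ _)
      ((h.cont.comp (by fun_prop)).intervalIntegrable _ _),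
    intervalIntegral.integral_comp_sub_right F 1,
    ← intervalIntegral.integral_add_adjacent_intervals (b := 2) (h.cont.intervalIntegrable _ _)
      (h.cont.intervalIntegrable _ _),
    ← intervalIntegral.integral_add_adjacent_intervals (a := 0 - 1) (b := 0)
      (h.cont.intervalIntegrable _ _) (h.cont.intervalIntegrable _ _)]
  have h1 : ∫ x in (2 : ℝ)..3, F x ≤ ∫ _ in (2 : ℝ)..3, (1 : ℝ) :=
    intervalIntegral.integral_mono_on (by norm_num) (h.cont.intervalIntegrable _ _)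
      (by simp) fun x _ => h.le_one x
  have h2 : 0 ≤ ∫ x in (0 - 1 : ℝ)..0, F x :=
    intervalIntegral.integral_nonneg (by norm_num) fun x _ => h.nn x
  norm_num at h1 h2 ⊢
  linarith

/-- a product of two steps differences on the plane -/
def Kr (F G : ℝ → ℝ) (a b : ℝ) (z : ℂ) (q : ℤ × ℤ) : ℝ :=
  (F (z.re + a - q.1) - F (z.re + a - q.1 - 1)) * (G (z.im + b - q.2) - G (z.im + b - q.2 - 1))

lemma Kr_nn {F G : ℝ → ℝ} (hF : Step F) (hG : Step G) (a b : ℝ) (z : ℂ) (q : ℤ × ℤ) :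
    0 ≤ Kr F G a b z q := mul_nonneg (hF.dnn _) (hG.dnn _)

lemma Kr_sum {F G : ℝ → ℝ} (hF : Step F) (hG : Step G) (a b : ℝ) (z : ℂ) (T : Finset (ℤ × ℤ)) :
    ∑ q ∈ T, Kr F G a b z q ≤ 1 := by
  refine (Finset.sum_le_sum_of_subset_of_nonneg Finset.subset_product
    fun q _ _ => Kr_nn hF hG a b z q).trans ?_
  simp only [Kr]
  rw [Finset.sum_product' _ _ fun i j : ℤ => (F (z.re + a - i) - F (z.re + a - i - 1)) *
    (G (z.im + b - j) - G (z.im + b - j - 1)), ← Finset.sum_mul_sum]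
  exact mul_le_one₀ (hF.sum_le _ _) (Finset.sum_nonneg fun j _ => hG.dnn _) (hG.sum_le _ _)

lemma Kr_int {F G : ℝ → ℝ} (hF : Step F) (hG : Step G) (a b : ℝ) (q : ℤ × ℤ) :
    Integrable (fun z => Kr F G a b z q) ∧ ∫ z, Kr F G a b z q ≤ 1 := by
  let f : ℝ → ℝ := fun x => F (x + (a - q.1)) - F (x + (a - q.1) - 1)
  let g : ℝ → ℝ := fun x => G (x + (b - q.2)) - G (x + (b - q.2) - 1)
  have hf : Integrable f := hF.int.1.comp_add_right (a - q.1)
  have hg : Integrable g := hG.int.1.comp_add_right (b - q.2)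
  have hf' : ∫ x, f x ≤ 1 :=
    (integral_add_right_eq_self (fun x => F x - F (x - 1)) (a - q.1)).trans_le hF.int.2
  have hg' : ∫ x, g x ≤ 1 :=
    (integral_add_right_eq_self (fun x => G x - G (x - 1)) (b - q.2)).trans_le hG.int.2
  have e : (fun z => Kr F G a b z q) =
      (fun p : ℝ × ℝ => f p.1 * g p.2) ∘ Complex.measurableEquivRealProd := by
    funext z
    simp only [Kr, f, g, Function.comp, Complex.measurableEquivRealProd_apply, add_sub_assoc]
  have hm := Complex.volume_preserving_equiv_real_prod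
  rw [e]
  refine ⟨(hm.integrable_comp_emb Complex.measurableEquivRealProd.measurableEmbedding).2
    (hf.mul_prod hg), ?_⟩
  have h1 := hm.integral_comp' fun p : ℝ × ℝ => f p.1 * g p.2
  change ∫ x, f (Complex.measurableEquivRealProd x).1 * g (Complex.measurableEquivRealProd x).2 ≤ 1
  rw [h1, Measure.volume_eq_prod, integral_prod_mul]
  exact mul_le_one₀ hf' (integral_nonneg fun x => hG.dnn _) hg'

end

end Pool.Agent.Work.MP_267827_an.Srt
end

-- merged part: Pool.Agent.Work.MP_267827_an.Srt.SE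
section
/-! Interpolation of a monotone lattice function by quadratic splines. -/

set_option autoImplicit false

namespace Pool.Agent.Work.MP_267827_an.Srt

open MeasureTheory Set Complex
open Pool.Agent.Work.MP_267827_an.PS (Low)

noncomputable section

lemma nsq (L : ℂ →L[ℝ] ℝ) : ‖L‖ ^ 2 = L 1 ^ 2 + L I ^ 2 := by
  simpa [Fin.sum_univ_two] using Complex.orthonormalBasisOneI.norm_dual L

variable {D A : Finset (ℤ × ℤ)}

/-- the interpolating spline -/
def spl (D : Finset (ℤ × ℤ)) (u : ℤ × ℤ → ℝ) (z : ℂ) : ℝ :=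
  ∑ p ∈ D, u p * (Bs (z.re + 2 - p.1) * Bs (z.im - p.2))

lemma spl_c1 (u : ℤ × ℤ → ℝ) : ContDiff ℝ 1 (spl D u) :=
  ContDiff.sum fun _ _ => contDiff_const.mul
    ((Bs_c1.comp ((reCLM.contDiff.add contDiff_const).sub contDiff_const)).mul
      (Bs_c1.comp (imCLM.contDiff.sub contDiff_const)))

lemma spl_der (u : ℤ × ℤ → ℝ) (z : ℂ) :
    fderiv ℝ (spl D u) z 1 =
      ∑ p ∈ D, u p * (Kr Tt Ss 1 0 z (p - (1, 0)) - Kr Tt Ss 1 0 z p) ∧
    fderiv ℝ (spl D u) z I =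
      ∑ p ∈ D, u p * (Kr Ss Tt 2 (-1) z (p - (0, 1)) - Kr Ss Tt 2 (-1) z p) := by
  have a1 : ∀ a : ℝ, HasFDerivAt (fun z : ℂ => Bs (z.re + 2 - a))
      ((rho (z.re + 2 - a) - rho (z.re + 2 - a - 1)) • reCLM) z := fun a =>
    (Bs_der (z.re + 2 - a)).comp_hasFDerivAt (f := fun z : ℂ => z.re + 2 - a) z
      ((reCLM.hasFDerivAt.add_const 2).sub_const a)
  have a2 : ∀ a : ℝ, HasFDerivAt (fun z : ℂ => Bs (z.im - a))
      ((rho (z.im - a) - rho (z.im - a - 1)) • imCLM) z := fun a =>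
    (Bs_der (z.im - a)).comp_hasFDerivAt (f := fun z : ℂ => z.im - a) z
      (imCLM.hasFDerivAt.sub_const a)
  have h : HasFDerivAt (spl D u) _ z := HasFDerivAt.fun_sum (u := D) fun p _ =>
    ((a1 p.1).fun_mul (a2 p.2)).const_mul (u p)
  rw [h.fderiv]
  constructor
  · rw [sum_apply]
    refine Finset.sum_congr rfl fun p _ => ?_
    simp only [Kr, Bs, rho, Function.comp, smul_apply,
      add_apply, reCLM_apply, imCLM_apply, one_re, one_im, smul_eq_mul,
      Prod.fst_sub, Prod.snd_sub]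
    push_cast
    ring_nf
  · rw [sum_apply]
    refine Finset.sum_congr rfl fun p _ => ?_
    simp only [Kr, Bs, rho, Function.comp, smul_apply,
      add_apply, reCLM_apply, imCLM_apply, I_re, I_im, smul_eq_mul,
      Prod.fst_sub, Prod.snd_sub]
    push_cast
    ring_nf

/-- summation by parts -/
lemma sbp {u : ℤ × ℤ → ℝ} (hu : ∀ p, p ∉ D → u p = 0) (a : ℤ × ℤ → ℝ) (e : ℤ × ℤ)
    (h : ∀ q, a q ≠ 0 → (q ∈ D ∧ q + e ∈ D) ∨ u (q + e) = u q) :
    ∑ p ∈ D, u p * (a (p - e) - a p) = ∑ q ∈ D with q + e ∈ D, (u (q + e) - u q) * a q := by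
  classical
  let U := D ∪ D.image fun p => p - e
  have h1 : ∑ p ∈ D, u p * a (p - e) = ∑ q ∈ U, u (q + e) * a q := by
    rw [← Finset.sum_subset (s₁ := D.image fun p => p - e) Finset.subset_union_right
      fun q _ hq => by
        rw [hu (q + e) fun hc => hq (Finset.mem_image.2 ⟨q + e, hc, by simp⟩), zero_mul],
      Finset.sum_image fun a _ b _ h => sub_left_injective h]
    simp
  have h2 : ∑ p ∈ D, u p * a p = ∑ q ∈ U, u q * a q :=
    Finset.sum_subset Finset.subset_union_left fun q _ hq => by rw [hu q hq, zero_mul]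
  have h3 : ∑ q ∈ D with q + e ∈ D, (u (q + e) - u q) * a q = ∑ q ∈ U, (u (q + e) - u q) * a q := by
    refine Finset.sum_subset (fun q hq => Finset.mem_union_left _ (Finset.mem_filter.1 hq).1)
      fun q _ hq => ?_
    by_cases ha : a q = 0
    · rw [ha, mul_zero]
    · rcases h q ha with h4 | h4
      · exact absurd (Finset.mem_filter.2 h4) hq
      · rw [h4, sub_self, zero_mul]
  rw [h3]
  simp only [mul_sub, sub_mul, Finset.sum_sub_distrib, h1, h2]

lemma jensen {ι : Type*} (T : Finset ι) (d a : ι → ℝ) (ha : ∀ q, 0 ≤ a q) (h1 : ∑ q ∈ T, a q ≤ 1) :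
    (∑ q ∈ T, d q * a q) ^ 2 ≤ ∑ q ∈ T, d q ^ 2 * a q := by
  have h2 := Finset.sum_sq_le_sum_mul_sum_of_sq_le_mul T (r := fun q => d q * a q)
    (f := fun q => d q ^ 2 * a q) (g := a) (fun q _ => mul_nonneg (sq_nonneg _) (ha q))
    (fun q _ => ha q) fun q _ => le_of_eq (by ring)
  exact h2.trans (mul_le_of_le_one_right
    (Finset.sum_nonneg fun q _ => mul_nonneg (sq_nonneg _) (ha q)) h1)

lemma Cone.mem_le (hL : Lat D A) {u : ℤ × ℤ → ℝ} (hu : Cone D A u) {i j i' j' : ℤ}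
    (hp : (i, j) ∈ D) (h1 : 0 ≤ i') (h2 : i' ≤ i) (h3 : 0 ≤ j') (h4 : j' ≤ j) : (i', j') ∈ D := by
  obtain ⟨d, rfl⟩ := Int.le.dest h2
  obtain ⟨e, rfl⟩ := Int.le.dest h4
  exact (hu.le_left hL j' d i' h1 (hu.le_up hL _ e j' h3 hp).1).1

lemma fl_bd {x a b : ℝ} {i m n : ℤ} (h1 : a < x - i) (h2 : x - i < b) (ha : a = m) (hb : b = n) :
    ⌊x⌋ - n < i ∧ i ≤ ⌊x⌋ - m := by
  have h3 := Int.floor_le x
  have h4 := Int.lt_floor_add_one x
  constructor
  · have : ((⌊x⌋ - n : ℤ) : ℝ) < i := by push_cast; linarith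
    exact_mod_cast this
  · have : (i : ℝ) < (⌊x⌋ - m + 1 : ℤ) := by push_cast; linarith
    have : i < ⌊x⌋ - m + 1 := by exact_mod_cast this
    omega

lemma spl_energy (hL : Lat D A) {u : ℤ × ℤ → ℝ} (hu : Cone D A u) (h0 : ∀ i, u (i, 0) = 0)
    {z : ℂ} (hz : 0 ≤ z.re) (hst : (⌊z.re⌋ + 2, ⌊z.im⌋) ∈ D) :
    ‖fderiv ℝ (spl D u) z‖ ^ 2 ≤
      ∑ q ∈ D with q + (1, 0) ∈ D, (u (q + (1, 0)) - u q) ^ 2 * Kr Tt Ss 1 0 z q +
      ∑ q ∈ D with q + (0, 1) ∈ D, (u (q + (0, 1)) - u q) ^ 2 * Kr Ss Tt 2 (-1) z q := by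
  have hz0 : ∀ p, p ∉ D → u p = 0 := fun p hp => hu.zero p fun h => hp (hL.sub h)
  have hneg : ∀ i j : ℤ, j ≤ 0 → u (i, j) = 0 := fun i j hj => by
    rcases hj.eq_or_lt with rfl | hj
    · exact h0 i
    · exact hz0 _ fun h => absurd (hL.pos _ _ h).2 (not_le.2 hj)
  have hk : 0 ≤ ⌊z.re⌋ := Int.floor_nonneg.2 hz
  rw [nsq, (spl_der u z).1, (spl_der u z).2, sbp hz0 _ _ ?_, sbp hz0 _ _ ?_]
  · exact add_le_add (jensen _ _ _ (Kr_nn step_Tt step_Ss _ _ z) (Kr_sum step_Tt step_Ss _ _ z _))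
      (jensen _ _ _ (Kr_nn step_Ss step_Tt _ _ z) (Kr_sum step_Ss step_Tt _ _ z _))
  · rintro ⟨i, j⟩ ha
    have a1 := Bs_supp (left_ne_zero_of_mul ha)
    have a2 := rho_supp (right_ne_zero_of_mul ha)
    simp only at a1 a2
    have b1 := fl_bd (x := z.re) (i := i) (a := -2) (b := 1) (m := -2) (n := 1) (by linarith [a1.1])
      (by linarith [a1.2]) (by norm_num) (by norm_num)
    have b2 := fl_bd (x := z.im) (i := j) (a := 1) (b := 3) (m := 1) (n := 3) (by linarith [a2.1])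
      (by linarith [a2.2]) (by norm_num) (by norm_num)
    rw [Prod.mk_add_mk, add_zero]
    rcases lt_or_ge j 0 with hj | hj
    · exact Or.inr (by rw [hneg i j hj.le, hneg i (j + 1) (by omega)])
    · exact Or.inl ⟨hu.mem_le hL hst (by omega) (by omega) hj (by omega),
        hu.mem_le hL hst (by omega) (by omega) (by omega) (by omega)⟩
  · rintro ⟨i, j⟩ ha
    have a1 := rho_supp (left_ne_zero_of_mul ha)
    have a2 := Bs_supp (right_ne_zero_of_mul ha)
    simp only at a1 a2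
    have b1 := fl_bd (x := z.re) (i := i) (a := -1) (b := 1) (m := -1) (n := 1) (by linarith only [a1, a1.1])
      (by linarith [a1.2]) (by norm_num) (by norm_num)
    have b2 := fl_bd (x := z.im) (i := j) (a := 0) (b := 3) (m := 0) (n := 3) (by linarith [a2.1])
      (by linarith [a2.2]) (by norm_num) (by norm_num)
    rw [Prod.mk_add_mk, add_zero]
    rcases lt_or_ge j 0 with hj | hj
    · exact Or.inr (by rw [hneg i j hj.le, hneg (i + 1) j hj.le])
    · exact Or.inl ⟨hu.mem_le hL hst (by omega) (by omega) hj (by omega),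
        hu.mem_le hL hst (by omega) (by omega) hj (by omega)⟩

lemma Bs_three {x : ℝ} {k : ℤ} (h1 : k ≤ x) (h2 : x ≤ k + 1) :
    ∑ i ∈ Finset.Ico (k - 2) (k + 1), Bs (x - i) = 1 := by
  have := tele Ss x (k - 2) 3
  rw [show k - 2 + (3 : ℕ) = k + 1 by push_cast; ring] at this
  simp only [Bs]
  rw [this, step_Ss.hi _ (by push_cast; linarith), step_Ss.lo _ (by push_cast; linarith), sub_zero]

lemma spl_ge (hL : Lat D A) {u : ℤ × ℤ → ℝ} (hu : Cone D A u) {z : ℂ} {k l : ℤ} (hk : 0 ≤ k)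
    (hl : 0 ≤ l) (h1 : k ≤ z.re) (h2 : z.re ≤ k + 1) (h3 : l + 2 ≤ z.im) (h4 : z.im ≤ l + 3)
    (hst : (k + 2, l + 2) ∈ D) : u (k + 2, l) ≤ spl D u z := by
  have hsub : Finset.Ico (k + 2 - 2) (k + 2 + 1) ×ˢ Finset.Ico (l + 2 - 2) (l + 2 + 1) ⊆ D := by
    rintro ⟨i, j⟩ hp
    simp only [Finset.mem_product, Finset.mem_Ico] at hp
    exact hu.mem_le hL hst (by omega) (by omega) (by omega) (by omega)
  refine le_trans ?_ (Finset.sum_le_sum_of_subset_of_nonneg hsub fun p _ _ =>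
    mul_nonneg (hu.nn p) (mul_nonneg (Bs_nn _) (Bs_nn _)))
  have e1 := Bs_three (x := z.re + 2) (k := k + 2) (by push_cast; linarith) (by push_cast; linarith)
  have e2 := Bs_three (x := z.im) (k := l + 2) (by push_cast; linarith) (by push_cast; linarith)
  calc u (k + 2, l) = ∑ p ∈ Finset.Ico (k + 2 - 2) (k + 2 + 1) ×ˢ Finset.Ico (l + 2 - 2) (l + 2 + 1),
        u (k + 2, l) * (Bs (z.re + 2 - p.1) * Bs (z.im - p.2)) := by
        rw [← Finset.mul_sum, Finset.sum_product' _ _ fun i j : ℤ => Bs (z.re + 2 - i) * Bs (z.im - j),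
          ← Finset.sum_mul_sum, e1, e2, mul_one, mul_one]
    _ ≤ _ := by
        refine Finset.sum_le_sum fun p hp => mul_le_mul_of_nonneg_right ?_
          (mul_nonneg (Bs_nn _) (Bs_nn _))
        have hp' := hsub hp
        obtain ⟨i, j⟩ := p
        simp only [Finset.mem_product, Finset.mem_Ico] at hp
        exact hu.le hL (hu.mem_le hL hst (by omega) le_rfl hl (by omega)) hp' (by omega) (by omega)

/-- the closed box that carries one basis spline -/
def Bx (p : ℤ × ℤ) : Set ℂ := Icc ((p.1 : ℝ) - 2) (p.1 + 1) ×ℂ Icc (p.2 : ℝ) (p.2 + 3)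

lemma spl_supp {u : ℤ × ℤ → ℝ} (hu : Cone D A u) :
    Function.support (spl D u) ⊆ ⋃ p ∈ A, Bx p := by
  intro z hz
  obtain ⟨p, -, hp⟩ := Finset.exists_ne_zero_of_sum_ne_zero hz
  have h1 : p ∈ A := by
    by_contra hc
    exact left_ne_zero_of_mul hp (hu.zero p hc)
  have a1 := Bs_supp (left_ne_zero_of_mul (right_ne_zero_of_mul hp))
  have a2 := Bs_supp (right_ne_zero_of_mul (right_ne_zero_of_mul hp))
  refine mem_biUnion h1 ⟨⟨?_, ?_⟩, ?_, ?_⟩ <;> linarith only [a1, a2, a1.1, a1.2, a2.1, a2.2]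

/-- the open cell -/
def Ce (h : ℝ) (p : ℤ × ℤ) : Set ℂ :=
  Ico (h * p.1) (h * (p.1 + 1)) ×ℂ Ico (h * p.2) (h * (p.2 + 1))

lemma meas_rp {s t : Set ℝ} (hs : MeasurableSet s) (ht : MeasurableSet t) :
    MeasurableSet (s ×ℂ t) := (measurable_re hs).inter (measurable_im ht)

lemma vol_rp {s t : Set ℝ} (hs : MeasurableSet s) (ht : MeasurableSet t) :
    volume (s ×ℂ t) = volume s * volume t := by
  have := Complex.volume_preserving_equiv_real_prod.measure_preimage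
    (hs.prod ht).nullMeasurableSet
  rw [Measure.volume_eq_prod, Measure.prod_prod] at this
  exact this

lemma int_sq {E : Type*} [NormedAddCommGroup E] {f : ℂ → E} (hf : Continuous f)
    (hs : HasCompactSupport f) {g : E → ℝ} (hg : Continuous g) (h0 : g 0 = 0) :
    Integrable fun z => g (f z) :=
  (hg.comp hf).integrable_of_hasCompactSupport (hs.comp_left h0)

lemma spl_cs {u : ℤ × ℤ → ℝ} (hu : Cone D A u) : IsCompact (⋃ p ∈ A, Bx p) ∧
    HasCompactSupport (spl D u) := by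
  have hcp : IsCompact (⋃ p ∈ A, Bx p) :=
    A.finite_toSet.isCompact_biUnion fun p _ => isCompact_Icc.reProdIm isCompact_Icc
  exact ⟨hcp, HasCompactSupport.of_support_subset_isCompact hcp (spl_supp hu)⟩

lemma spl_mass (hL : Lat D A) {u : ℤ × ℤ → ℝ} (hu : Cone D A u) {K : Set ℂ}
    (hst : ∀ z ∈ K, 0 ≤ z.re ∧ (⌊z.re⌋ + 2, ⌊z.im⌋) ∈ D) (T : Finset (ℤ × ℤ)) (hTD : T ⊆ D)
    (hT : ∀ p ∈ T, Ioo (p.1 : ℝ) (p.1 + 1) ×ℂ Ioo ((p.2 : ℝ) + 2) (p.2 + 3) ⊆ K) :
    ∑ p ∈ T, u (p + (2, 0)) ^ 2 ≤ ∫ z in K, spl D u z ^ 2 := by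
  have hi : Integrable fun z => spl D u z ^ 2 := 
    int_sq (spl_c1 u).continuous (spl_cs hu).2 (g := fun x => x ^ 2) (by fun_prop) (by simp)
  let C : ℤ × ℤ → Set ℂ := fun p => Ioo (p.1 : ℝ) (p.1 + 1) ×ℂ Ioo ((p.2 : ℝ) + 2) (p.2 + 3)
  have hC : ∀ p, MeasurableSet (C p) := fun p => meas_rp measurableSet_Ioo measurableSet_Ioo
  have hv : ∀ p, volume (C p) = 1 := fun p => by
    rw [vol_rp measurableSet_Ioo measurableSet_Ioo, Real.volume_Ioo, Real.volume_Ioo]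
    norm_num
  have hfl : ∀ p, ∀ z ∈ C p, ⌊z.re⌋ = p.1 ∧ ⌊z.im⌋ = p.2 + 2 := fun p z hz =>
    ⟨Int.floor_eq_iff.2 ⟨hz.1.1.le, hz.1.2⟩, Int.floor_eq_iff.2
      ⟨by push_cast; exact hz.2.1.le, by push_cast; linarith [hz.2.2]⟩⟩
  have e1 : ∑ p ∈ T, u (p + (2, 0)) ^ 2 ≤ ∑ p ∈ T, ∫ z in C p, spl D u z ^ 2 := by
    refine Finset.sum_le_sum fun p hp => ?_
    have e : u (p + (2, 0)) ^ 2 = ∫ _ in C p, u (p + (2, 0)) ^ 2 := by
      rw [setIntegral_const, Measure.real, hv]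
      simp
    rw [e]
    refine setIntegral_mono_on
      (integrableOn_const (by rw [hv]; simp)) hi.integrableOn (hC p) fun z hz => ?_
    have a1 := (hst z (hT p hp hz)).2
    rw [(hfl p z hz).1, (hfl p z hz).2] at a1
    have a2 := hL.pos _ _ (hTD hp)
    refine pow_le_pow_left₀ (hu.nn _) ?_ 2
    have := spl_ge hL hu a2.1 a2.2 hz.1.1.le hz.1.2.le hz.2.1.le hz.2.2.le a1
    rwa [show p + (2, 0) = (p.1 + 2, p.2) by ext <;> simp]
  have e2 : ∫ z in ⋃ p ∈ T, C p, spl D u z ^ 2 = ∑ p ∈ T, ∫ z in C p, spl D u z ^ 2 := by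
    refine integral_biUnion_finset T (fun p _ => hC p) (fun p _ q _ hpq => ?_)
      fun p _ => hi.integrableOn
    refine disjoint_left.2 fun z hp hq => hpq ?_
    have a1 := hfl p z hp
    have a2 := hfl q z hq
    ext <;> omega
  rw [← e2] at e1
  exact e1.trans (setIntegral_mono_set hi.integrableOn
    (Filter.Eventually.of_forall fun z => sq_nonneg _) (iUnion₂_subset hT).eventuallyLE)

lemma int_Kr {F G : ℝ → ℝ} (hF : Step F) (hG : Step G) (a b : ℝ) (T : Finset (ℤ × ℤ))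
    (d : ℤ × ℤ → ℝ) : Integrable (fun z => ∑ q ∈ T, d q ^ 2 * Kr F G a b z q) ∧
      (∀ z, 0 ≤ ∑ q ∈ T, d q ^ 2 * Kr F G a b z q) ∧
      ∫ z, ∑ q ∈ T, d q ^ 2 * Kr F G a b z q ≤ ∑ q ∈ T, d q ^ 2 := by
  have i1 := fun q => Kr_int hF hG a b q
  refine ⟨integrable_finsetSum _ fun q _ => (i1 q).1.const_mul _,
    fun z => Finset.sum_nonneg fun q _ => mul_nonneg (sq_nonneg _) (Kr_nn hF hG _ _ z q), ?_⟩
  rw [integral_finsetSum _ fun q _ => (i1 q).1.const_mul _]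
  refine Finset.sum_le_sum fun q _ => ?_
  rw [integral_const_mul]
  exact mul_le_of_le_one_right (sq_nonneg _) (i1 q).2

lemma spl_en (hL : Lat D A) {u : ℤ × ℤ → ℝ} (hu : Cone D A u) (h0 : ∀ i, u (i, 0) = 0)
    {K : Set ℂ} (hK : MeasurableSet K) (hst : ∀ z ∈ K, 0 ≤ z.re ∧ (⌊z.re⌋ + 2, ⌊z.im⌋) ∈ D) :
    ∫ z in K, ‖fderiv ℝ (spl D u) z‖ ^ 2 ≤ Ed D (1, 0) u + Ed D (0, 1) u := by
  obtain ⟨j1, n1, l1⟩ := int_Kr step_Tt step_Ss 1 0 (D.filter fun q => q + (1, 0) ∈ D)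
    fun q => u (q + (1, 0)) - u q
  obtain ⟨j2, n2, l2⟩ := int_Kr step_Ss step_Tt 2 (-1) (D.filter fun q => q + (0, 1) ∈ D)
    fun q => u (q + (0, 1)) - u q
  have h1 := integral_mono_of_nonneg (μ := volume.restrict K)
    (f := fun z => ‖fderiv ℝ (spl D u) z‖ ^ 2) (Filter.Eventually.of_forall fun z => sq_nonneg _)
    (j1.add j2).integrableOn ((ae_restrict_iff' hK).2 (Filter.Eventually.of_forall fun z hz =>
      spl_energy hL hu h0 (hst z hz).1 (hst z hz).2))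
  have h2 := setIntegral_le_integral (s := K) (j1.add j2)
    (Filter.Eventually.of_forall fun z => add_nonneg (n1 z) (n2 z))
  rw [integral_add' j1 j2] at h2
  exact h1.trans (h2.trans (add_le_add l1 l2))

/-- the discrete consequence of a lower bound on the target -/
theorem target (hL : Lat D A) {u : ℤ × ℤ → ℝ} (hu : Cone D A u) (h0 : ∀ i, u (i, 0) = 0)
    {K Dir : Set ℂ} {lam : ℝ} (hlam : 0 ≤ lam) (hLow : Low Dir K lam) (hK : MeasurableSet K)
    (hst : ∀ z ∈ K, 0 ≤ z.re ∧ (⌊z.re⌋ + 2, ⌊z.im⌋) ∈ D)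
    (hdir : ∀ p ∈ A, Disjoint (Bx p) Dir) (Gd : ℤ × ℤ → Prop) [DecidablePred Gd]
    (hG : ∀ p ∈ D, Gd p → p + (2, 0) ∈ A →
      Ioo (p.1 : ℝ) (p.1 + 1) ×ℂ Ioo ((p.2 : ℝ) + 2) (p.2 + 3) ⊆ K) :
    lam * ∑ p ∈ D with Gd p, u (p + (2, 0)) ^ 2 ≤ Ed D (1, 0) u + Ed D (0, 1) u := by
  classical
  have h1 := hLow (spl D u) (spl_c1 u) (spl_cs hu).2 (Disjoint.mono_left
    (closure_minimal (spl_supp hu) (spl_cs hu).1.isClosed) (disjoint_iUnion₂_left.2 hdir))
  refine le_trans (mul_le_mul_of_nonneg_left ?_ hlam) (h1.trans (spl_en hL hu h0 hK hst))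
  have e : ∑ p ∈ D with Gd p, u (p + (2, 0)) ^ 2 =
      ∑ p ∈ D with Gd p ∧ p + (2, 0) ∈ A, u (p + (2, 0)) ^ 2 := by
    refine (Finset.sum_subset (fun p hp => ?_) fun p hp hp' => ?_).symm
    · exact Finset.mem_filter.2 ⟨(Finset.mem_filter.1 hp).1, (Finset.mem_filter.1 hp).2.1⟩
    · rw [hu.zero _ fun h => hp' (Finset.mem_filter.2
        ⟨(Finset.mem_filter.1 hp).1, (Finset.mem_filter.1 hp).2, h⟩)]
      simp
  rw [e]
  exact spl_mass hL hu hst _ (Finset.filter_subset _ _) fun p hp =>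
    hG p (Finset.mem_filter.1 hp).1 (Finset.mem_filter.1 hp).2.1 (Finset.mem_filter.1 hp).2.2

end

end Pool.Agent.Work.MP_267827_an.Srt
end
end

-- merged part: Pool.Agent.Work.MP_267827_an.Srt.SH
section
-- merged part: Pool.Agent.Work.MP_267827_an.Srt.SF
section
/-! The lattice of a right triangle, and sampling of a smooth function on a fine lattice. -/

set_option autoImplicit false

namespace Pool.Agent.Work.MP_267827_an.Srt

open MeasureTheory Set Complex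
open Pool.Agent.Work.MP_267827_an.PS (Low)

noncomputable section

/-- the ambient right triangle -/
def RR (t W : ℝ) : Set ℂ := {z | 0 ≤ z.re ∧ 0 ≤ z.im ∧ z.re + t * z.im < W}

/-- the target triangle -/
def TA (t d W e : ℝ) : Set ℂ := {z | 0 < z.re ∧ z.re + t * z.im < W ∧ z.re < d * z.im - e}

/-- the line that carries the base of the target -/
def LA (d e : ℝ) : Set ℂ := {z | z.re = d * z.im - e}

open Classical in
/-- the lattice cells of the right triangle -/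
def DL (t w : ℝ) : Finset (ℤ × ℤ) :=
  (Finset.Ico 0 ⌈w⌉ ×ˢ Finset.Ico 0 ⌈w / t⌉).filter fun p => (p.1 : ℝ) + 1 + t * (p.2 + 1) ≤ w

lemma mem_DL {t w : ℝ} (ht : 0 < t) (i j : ℤ) :
    (i, j) ∈ DL t w ↔ 0 ≤ i ∧ 0 ≤ j ∧ (i : ℝ) + 1 + t * (j + 1) ≤ w := by
  simp only [DL, Finset.mem_filter, Finset.mem_product, Finset.mem_Ico, Int.lt_ceil]
  constructor
  · tauto
  · rintro ⟨h1, h2, h3⟩
    have a1 : (0 : ℝ) ≤ i := by exact_mod_cast h1
    have a2 : (0 : ℝ) ≤ j := by exact_mod_cast h2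
    refine ⟨⟨⟨h1, by linarith only [ht, h3, a2, mul_nonneg_of_nonpos_of_nonpos (le_of_lt (Mathlib.Tactic.Linarith.sub_neg_of_lt ht)) (Mathlib.Tactic.Linarith.sub_nonpos_of_le a2)]⟩, h2, ?_⟩, h3⟩
    rw [lt_div_iff₀ ht]
    nlinarith

lemma card_le_len (S : Finset ℤ) {a L : ℝ} (hL : 0 ≤ L) (h : ∀ i ∈ S, a < i ∧ (i : ℝ) ≤ a + L) :
    (S.card : ℝ) ≤ L + 1 := by
  have h1 : S ⊆ Finset.Ioc ⌊a⌋ ⌊a + L⌋ := fun i hi =>
    Finset.mem_Ioc.2 ⟨Int.floor_lt.2 (h i hi).1, Int.le_floor.2 (h i hi).2⟩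
  have h2 := Finset.card_le_card h1
  have h3 : ⌊a⌋ ≤ ⌊a + L⌋ := Int.floor_mono (by linarith only [hL])
  have h4 : (S.card : ℤ) ≤ ⌊a + L⌋ - ⌊a⌋ := by
    rw [Int.card_Ioc] at h2
    omega
  have h5 : (S.card : ℝ) ≤ (⌊a + L⌋ : ℝ) - ⌊a⌋ := by exact_mod_cast h4
  linarith only [h5, Int.floor_le (a + L), Int.lt_floor_add_one a]

lemma open_TA (t d W e : ℝ) : IsOpen (TA t d W e) :=
  IsOpen.and (isOpen_lt continuous_const continuous_re)
    (IsOpen.and (isOpen_lt (by fun_prop) continuous_const) (isOpen_lt continuous_re (by fun_prop)))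

lemma meas_TA (t d W e : ℝ) : MeasurableSet (TA t d W e) :=
  (open_TA t d W e).measurableSet

/-- the energy with one-sided rows -/
def En (D : Finset (ℤ × ℤ)) (ps : ℤ → Prop) [DecidablePred ps] (F : ℤ × ℤ → ℝ) : ℝ :=
  ∑ p ∈ D with p + (1, 0) ∈ D, (if ps p.2 then Ph (F p) (F (p + (1, 0)))
    else (F (p + (1, 0)) - F p) ^ 2) + Ed D (0, 1) F

lemma En_nonneg (D : Finset (ℤ × ℤ)) (ps : ℤ → Prop) [DecidablePred ps] (F : ℤ × ℤ → ℝ) :
    0 ≤ En D ps F :=
  add_nonneg (Finset.sum_nonneg fun p _ => by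
    split_ifs
    exacts [Ph_nonneg _ _, sq_nonneg _]) (Ed_nonneg _ _)

lemma DL_row {t w : ℝ} (ht : 0 < t) (i j : ℤ) : (i, j) ∈ DL t w ↔
    0 ≤ i ∧ i < ⌊w - t * (j + 1)⌋ ∧ 0 ≤ j ∧ j < ⌈w / t⌉ := by
  rw [mem_DL ht, Int.lt_iff_add_one_le, Int.le_floor, Int.lt_ceil, lt_div_iff₀ ht]
  push_cast
  constructor
  · rintro ⟨h1, h2, h3⟩
    have a1 : (0 : ℝ) ≤ i := by exact_mod_cast h1
    exact ⟨h1, by linarith, h2, by linarith only [ht, h3, a1]⟩
  · rintro ⟨h1, h2, h3, -⟩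
    exact ⟨h1, h3, by linarith⟩

lemma DL_anti {t w : ℝ} (ht : 0 < t) : Antitone fun j : ℤ => ⌊w - t * (j + 1)⌋ := fun a b h => by
  have : (a : ℝ) ≤ b := by exact_mod_cast h
  exact Int.floor_mono (by linarith only [ht, this, mul_nonneg_of_nonpos_of_nonpos (le_of_lt (Mathlib.Tactic.Linarith.sub_neg_of_lt ht)) (Mathlib.Tactic.Linarith.sub_nonpos_of_le this)])

lemma DL_J {t w : ℝ} (ht : 0 < t) : ∀ p ∈ DL t w, (p.2 : ℝ) ≤ w / t := by
  rintro ⟨i, j⟩ hp
  have := ((DL_row ht i j).1 hp).2.2.2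
  exact (Int.lt_ceil.1 this).le

/-- the bound on the lattice -/
theorem lattice_bound {t d e w lam ε : ℝ} (ht : 0 < t) (hd : 0 < d) (he : 0 ≤ e) (hw : 0 ≤ w)
    (hlam : 0 ≤ lam) (hLow : Low (LA d e) (TA t d (w - 3 - t) e) lam) (F : ℤ × ℤ → ℝ)
    (hF : ∀ p, 0 ≤ F p)
    (hrow : ∀ j : ℤ, 0 ≤ j → ∃ a : ℝ, ∀ i : ℤ, (i, j) ∈ DL t w → F (i, j) ≠ 0 →
      a < i ∧ (i : ℝ) ≤ a + (d * j - e - 3))
    (ps : ℤ → Prop) [DecidablePred ps] (hps : ∀ j, 0 ≤ j → ps j → F (0, j) = 0) (hε : 0 < ε) :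
    lam * Nm (DL t w) F ≤
      (1 + ε + lam * (4 * (1 + ε⁻¹) + w / t * (3 / t + 4))) * En (DL t w) ps F := by
  classical
  set D := DL t w with hD
  have hc : 0 ≤ 1 + ε + lam * (4 * (1 + ε⁻¹) + w / t * (3 / t + 4)) := by positivity
  rcases (Nm_nonneg (D := D) F).eq_or_lt with hN | hN
  · rw [← hN, mul_zero]
    exact mul_nonneg hc (En_nonneg _ _ _)
  let m : ℤ → ℤ := fun j => ⌊d * j - e⌋ - 1
  let A := D.filter fun p => p.1 < m p.2
  have hm : Monotone m := fun a b h => by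
    clear * - a b h d e hd m
    have : (a : ℝ) ≤ b := by exact_mod_cast h
    have : ⌊d * a - e⌋ ≤ ⌊d * b - e⌋ := Int.floor_mono (by linarith only [hd, this, mul_nonneg_of_nonpos_of_nonpos (le_of_lt (Mathlib.Tactic.Linarith.sub_neg_of_lt hd)) (Mathlib.Tactic.Linarith.sub_nonpos_of_le this)])
    simp only [m]
    omega
  have hA : ∀ i j, (i, j) ∈ A ↔ (i, j) ∈ D ∧ i < m j := fun i j => Finset.mem_filter
  have hA' : ∀ i j, (i, j) ∈ A → (i : ℝ) + 2 ≤ d * j - e := fun i j h => by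
    have h1 : i + 2 ≤ ⌊d * j - e⌋ := by
      have := ((hA i j).1 h).2
      simp only [m] at this
      omega
    exact_mod_cast Int.le_floor.1 h1
  have hL := lat_of (DL_anti ht) hm (DL_row ht) hA
  obtain ⟨u, hu, hu0, hle⟩ := disc (DL_anti ht) hm (DL_row ht) hA F hF (fun j h0 h1 => by
    clear * - D j F d e w t m hrow h0 ht h1 hN hps ps
    obtain ⟨a, ha⟩ := hrow j h0
    have hb : ∀ i ∈ (Finset.Ico 0 ⌊w - t * (j + 1)⌋).filter fun i => F (i, j) ≠ 0,
        a < i ∧ (i : ℝ) ≤ a + (d * j - e - 3) := fun i hi => by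
      have h2 := Finset.mem_Ico.1 (Finset.mem_filter.1 hi).1
      exact ha i ((DL_row ht i j).2 ⟨h2.1, h2.2, h0, h1⟩) (Finset.mem_filter.1 hi).2
    rcases lt_or_ge (d * j - e - 3) 0 with h2 | h2
    · rw [Finset.eq_empty_of_forall_notMem (s := Finset.filter _ _)
        fun i hi => by linarith only [h2, hb, hi, (hb i hi).1, (hb i hi).2]]
      simp
    · refine le_trans ?_ (le_max_left _ _)
      have h3 := card_le_len _ h2 hb
      have h4 := Int.lt_floor_add_one (d * j - e)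
      have h5 : ((((Finset.Ico 0 ⌊w - t * (j + 1)⌋).filter fun i => F (i, j) ≠ 0).card : ℤ) : ℝ) ≤
          ((⌊d * j - e⌋ - 1 : ℤ) : ℝ) := by
        push_cast
        linarith only [h3, h4]
      exact Int.cast_le.1 h5) hN ps hps
  have h0 : ∀ i, u (i, 0) = 0 := fun i => hu.zero _ fun h => by
    have h1 := hA' i 0 h
    have h2 : (0 : ℝ) ≤ i := by exact_mod_cast (hL.pos _ _ (hL.sub h)).1
    simp at h1
    linarith only [he, h2, h1]
  let Gd : ℤ × ℤ → Prop := fun p => (p.1 : ℝ) + 4 + t * (p.2 + 4) ≤ w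
  have h1 := target hL hu h0 hlam hLow (meas_TA _ _ _ _) (fun z hz => by
      clear * - z t w d e hz he hd ht hc
      obtain ⟨z1, z2, z3⟩ := hz
      have z4 : 0 < z.im := by
        by_contra hc
        linarith only [he, z1, z3, hd, hc, not_lt.1 hc, mul_nonneg_of_nonpos_of_nonpos (le_of_lt (Mathlib.Tactic.Linarith.sub_neg_of_lt hd)) (Mathlib.Tactic.Linarith.sub_nonpos_of_le (le_of_not_gt hc))]
      refine ⟨z1.le, (mem_DL ht _ _).2 ⟨by have := Int.floor_nonneg.2 z1.le; omega,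
        Int.floor_nonneg.2 z4.le, ?_⟩⟩
      push_cast
      linarith only [z2, ht, Int.floor_le z.re, Int.floor_le z.im, mul_nonneg_of_nonpos_of_nonpos (le_of_lt (Mathlib.Tactic.Linarith.sub_neg_of_lt ht)) (Mathlib.Tactic.Linarith.sub_nonpos_of_le (Int.floor_le z.im))])
    (fun p hp => disjoint_left.2 fun z hz hz' => by
      clear * - p d e hA' hp z hz' hz hd Gd
      have a1 := hA' p.1 p.2 hp
      have a2 : z.re = d * z.im - e := hz'
      linarith only [a1, a2, hz, hd, hz.1.2, hz.2.1, mul_nonneg_of_nonpos_of_nonpos (le_of_lt (Mathlib.Tactic.Linarith.sub_neg_of_lt hd)) (Mathlib.Tactic.Linarith.sub_nonpos_of_le hz.right.left)]) Gd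
    (fun p hp hg hp' z hz => by
      clear * - p d e hA' A hp' t w hL hp hg z hz ht hd
      have a1 := hA' (p.1 + 2) p.2 (by simpa [Prod.add_def] using hp')
      have a2 : (0 : ℝ) ≤ p.1 := by exact_mod_cast (hL.pos _ _ hp).1
      have a3 : (p.1 : ℝ) + 4 + t * (p.2 + 4) ≤ w := hg
      push_cast at a1
      refine ⟨by linarith [hz.1.1], by linarith only [hg, hz, ht, hz.1.2, hz.2.2, mul_pos_of_neg_of_neg (Mathlib.Tactic.Linarith.sub_neg_of_lt ht) (Mathlib.Tactic.Linarith.sub_neg_of_lt hz.right.right)], by linarith only [hd, a1, hz, hz.1.2, hz.2.1, mul_pos_of_neg_of_neg (Mathlib.Tactic.Linarith.sub_neg_of_lt hd) (Mathlib.Tactic.Linarith.sub_neg_of_lt hz.right.left)]⟩)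
  have h2 := mass_good hL (fun i _ => h0 i) Gd (fun p hp hg => by
      have a1 := hL.pos _ _ hp
      have a3 : (p.1 : ℝ) + 4 + t * (p.2 + 4) ≤ w := hg
      refine (mem_DL ht (p.1 + 2) (p.2 + 0)).2 ⟨by omega, by omega, ?_⟩
      push_cast
      linarith only [ht, hg]) (DL_J ht) (K := 3 / t + 4) (fun i => by
      rw [← Finset.card_image_of_injOn (f := Prod.snd) fun a ha b hb h => Prod.ext
        ((Finset.mem_filter.1 ha).2.2.trans (Finset.mem_filter.1 hb).2.2.symm) h]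
      refine (card_le_len _ (a := (w - i - 4) / t - 4) (L := 3 / t + 3) (by positivity)
        fun j hj => ?_).trans (le_of_eq (by ring))
      obtain ⟨⟨i', j'⟩, hp, rfl⟩ := Finset.mem_image.1 hj
      obtain ⟨b1, b2, rfl⟩ := Finset.mem_filter.1 hp
      have b3 := ((mem_DL ht _ _).1 b1).2.2
      have b4 : w < (i' : ℝ) + 4 + t * (j' + 4) := not_le.1 b2
      constructor
      · rw [sub_lt_iff_lt_add, div_lt_iff₀ ht]
        simp only
        linarith only [b2]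
      · have : (j' : ℝ) + 1 ≤ (w - i' - 4 + 3) / t := by
          rw [le_div_iff₀ ht]
          linarith only [b3]
        rw [add_div] at this
        simp only
        linarith only [this]) hε
  have e1 := Ed_nonneg (D := D) (1, 0) u
  have e2 := Ed_nonneg (D := D) (0, 1) u
  have h3 : lam * Nm D u ≤ (1 + ε + lam * (4 * (1 + ε⁻¹) + w / t * (3 / t + 4))) *
      (Ed D (1, 0) u + Ed D (0, 1) u) := by
    clear * - lam t w u ε Gd h2 hlam h1 hε D e2 hw ht e1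
    have a1 := mul_le_mul_of_nonneg_left h2 hlam
    have a2 := mul_le_mul_of_nonneg_left h1 (show 0 ≤ 1 + ε by linarith only [hε])
    have a3 : 0 ≤ lam * (4 * (1 + ε⁻¹)) * Ed D (0, 1) u := by positivity
    have a4 : 0 ≤ lam * (w / t * (3 / t + 4)) * Ed D (1, 0) u := by positivity
    linarith only [a1, a2, a3, a4]
  refine le_of_mul_le_mul_right ?_ hu0
  have a1 := mul_le_mul_of_nonneg_right h3 hN.le
  have a2 := mul_le_mul_of_nonneg_left hle hc
  unfold En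
  clear * - lam D F t w u ε ps a1 a2
  linarith only [a1, a2]

/-- the Poincare inequality on the lattice -/
theorem lattice_poinc {t w : ℝ} (ht : 0 < t) (hw : 0 ≤ w) (F : ℤ × ℤ → ℝ)
    (h0 : ∀ i, (i, 0) ∈ DL t w → F (i, 0) = 0) :
    Nm (DL t w) F ≤ (8 + w / t * (w / t + 2)) * En (DL t w) (fun _ => False) F := by
  classical
  have hL : Lat (DL t w) (DL t w) := lat_of (m := fun _ => ⌊w - t * ((0 : ℤ) + 1)⌋) (DL_anti ht)
    monotone_const (DL_row ht) fun i j => ⟨fun h => ⟨h, by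
      have := (DL_row ht i j).1 h
      exact this.2.1.trans_le (DL_anti ht this.2.2.1)⟩, fun h => h.1⟩
  have h1 := mass_good hL h0 (fun _ => False) (fun _ _ h => h.elim) (DL_J ht) (K := w / t + 2)
    (fun i => by
      rw [← Finset.card_image_of_injOn (f := Prod.snd) fun a ha b hb h => Prod.ext
        ((Finset.mem_filter.1 ha).2.2.trans (Finset.mem_filter.1 hb).2.2.symm) h]
      refine (card_le_len _ (a := -1) (L := w / t + 1) (by positivity)
        fun j hj => ?_).trans (le_of_eq (by ring))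
      obtain ⟨p, hp, rfl⟩ := Finset.mem_image.1 hj
      have b1 := (Finset.mem_filter.1 hp).1
      have b2 : (0 : ℝ) ≤ p.2 := by exact_mod_cast (hL.pos _ _ b1).2
      exact ⟨by linarith, by linarith only [ht, b1, DL_J ht p b1]⟩) one_pos
  have e1 := Ed_nonneg (D := DL t w) (1, 0) F
  have e2 := Ed_nonneg (D := DL t w) (0, 1) F
  have e3 : En (DL t w) (fun _ => False) F = Ed (DL t w) (1, 0) F + Ed (DL t w) (0, 1) F := by
    simp [En, Ed]
  have e4 : 0 ≤ w / t * (w / t + 2) * Ed (DL t w) (1, 0) F := by clear * - w t F hw ht e1; positivity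
  rw [e3]
  simp only [Finset.filter_false, Finset.sum_empty, inv_one] at h1
  linarith only [e2, e4, h1]

end

end Pool.Agent.Work.MP_267827_an.Srt
end

-- merged part: Pool.Agent.Work.MP_267827_an.Srt.SG
section
/-! Sampling of a smooth function on a fine lattice, and the rearrangement theorem. -/

set_option autoImplicit false

namespace Pool.Agent.Work.MP_267827_an.Srt

open MeasureTheory Set Complex Filter Topology
open Pool.Agent.Work.MP_267827_an.PS (Low)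

noncomputable section

/-- the closed cell -/
def Cc (h : ℝ) (p : ℤ × ℤ) : Set ℂ :=
  Icc (h * p.1) (h * (p.1 + 1)) ×ℂ Icc (h * p.2) (h * (p.2 + 1))

lemma meas_Ce (h : ℝ) (p : ℤ × ℤ) : MeasurableSet (Ce h p) :=
  meas_rp measurableSet_Ico measurableSet_Ico

lemma vol_Ce {h : ℝ} (hh : 0 < h) (p : ℤ × ℤ) :
    volume (Ce h p) ≠ ⊤ ∧ volume.real (Ce h p) = h ^ 2 := by
  have : volume (Ce h p) = ENNReal.ofReal (h ^ 2) := by
    rw [Ce, vol_rp measurableSet_Ico measurableSet_Ico, Real.volume_Ico, Real.volume_Ico,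
      ← ENNReal.ofReal_mul (by nlinarith)]
    congr 1
    ring
  rw [Measure.real, this]
  exact ⟨ENNReal.ofReal_ne_top, ENNReal.toReal_ofReal (by positivity)⟩

lemma mem_Ce {h : ℝ} (hh : 0 < h) (p : ℤ × ℤ) (z : ℂ) :
    z ∈ Ce h p ↔ ⌊z.re / h⌋ = p.1 ∧ ⌊z.im / h⌋ = p.2 := by
  simp only [Ce, mem_reProdIm, mem_Ico, Int.floor_eq_iff, le_div_iff₀' hh, div_lt_iff₀' hh]

lemma sum_Ce {h : ℝ} (hh : 0 < h) (T : Finset (ℤ × ℤ)) {ψ : ℂ → ℝ}
    (hψ : ∀ p ∈ T, IntegrableOn ψ (Ce h p)) :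
    ∫ z in ⋃ p ∈ T, Ce h p, ψ z = ∑ p ∈ T, ∫ z in Ce h p, ψ z := by
  refine integral_biUnion_finset T (fun p _ => meas_Ce h p) (fun p _ q _ hpq => ?_) hψ
  refine disjoint_left.2 fun z hp hq => hpq ?_
  rw [mem_Ce hh] at hp hq
  exact Prod.ext (hp.1.symm.trans hq.1) (hp.2.symm.trans hq.2)

lemma sum_Ce_le {h : ℝ} (hh : 0 < h) (T : Finset (ℤ × ℤ)) {K : Set ℂ} (hT : ∀ p ∈ T, Ce h p ⊆ K)
    {ψ : ℂ → ℝ} (hψ : IntegrableOn ψ K) (h0 : ∀ z, 0 ≤ ψ z) :
    ∑ p ∈ T, ∫ z in Ce h p, ψ z ≤ ∫ z in K, ψ z := by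
  rw [← sum_Ce hh T fun p hp => hψ.mono_set (hT p hp)]
  exact setIntegral_mono_set hψ (Eventually.of_forall h0) (iUnion₂_subset hT).eventuallyLE

lemma cell_est {ψ : ℂ → ℝ} (hψ : Continuous ψ) (hs : HasCompactSupport ψ) {ε : ℝ} (hε : 0 < ε) :
    ∀ᶠ h in 𝓝[>] (0 : ℝ), ∀ p, ∀ ξ ∈ Cc h p, |h ^ 2 * ψ ξ - ∫ z in Ce h p, ψ z| ≤ ε * h ^ 2 := by
  obtain ⟨δ, hδ, hu⟩ := Metric.uniformContinuous_iff.1
    (hs.uniformContinuous_of_continuous hψ) ε hε
  filter_upwards [Ioo_mem_nhdsGT (half_pos hδ)] with h hh p ξ hξ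
  obtain ⟨v1, v2⟩ := vol_Ce hh.1 p
  have e : h ^ 2 * ψ ξ - ∫ z in Ce h p, ψ z = ∫ z in Ce h p, (ψ ξ - ψ z) := by
    rw [integral_sub (integrableOn_const (C := ψ ξ) v1) (hψ.integrable_of_hasCompactSupport hs).integrableOn,
      setIntegral_const, v2, smul_eq_mul]
  rw [e, ← v2]
  refine norm_setIntegral_le_of_norm_le_const (f := fun z => ψ ξ - ψ z) v1.lt_top
    fun z hz => (hu (a := ξ) (b := z) ?_).le
  rw [Complex.dist_eq]
  refine (norm_le_abs_re_add_abs_im _).trans_lt ?_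
  have a1 : |(ξ - z).re| ≤ h := by
    rw [sub_re, abs_le]
    constructor <;> linarith only [hξ, hz, hξ.1.1, hξ.1.2, hz.1.1, hz.1.2]
  have a2 : |(ξ - z).im| ≤ h := by
    rw [sub_im, abs_le]
    constructor <;> linarith only [hξ, hz, hξ.2.1, hξ.2.2, hz.2.1, hz.2.2]
  linarith only [a1, a2, hh, hh.2]

lemma meas_RR (t W : ℝ) : MeasurableSet (RR t W) :=
  (measurableSet_le measurable_const measurable_re).inter
    ((measurableSet_le measurable_const measurable_im).inter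
      (measurableSet_lt (f := fun z : ℂ => z.re + t * z.im) (by fun_prop) measurable_const))

lemma vol_RR {t : ℝ} (ht : 0 < t) (W : ℝ) : volume (RR t W) ≠ ⊤ := by
  refine ne_top_of_le_ne_top ((isCompact_Icc (a := 0) (b := W)).reProdIm
    (isCompact_Icc (a := 0) (b := W / t))).measure_lt_top.ne (measure_mono fun z hz => ?_)
  obtain ⟨h1, h2, h3⟩ := hz
  refine ⟨⟨h1, by linarith only [h3, ht, h2, mul_nonneg_of_nonpos_of_nonpos (le_of_lt (Mathlib.Tactic.Linarith.sub_neg_of_lt ht)) (Mathlib.Tactic.Linarith.sub_nonpos_of_le h2)]⟩, h2, ?_⟩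
  rw [le_div_iff₀ ht]
  linarith

lemma Ce_sub {t W h : ℝ} (ht : 0 < t) (hh : 0 < h) : ∀ p ∈ DL t (W / h), Ce h p ⊆ RR t W := by
  rintro ⟨i, j⟩ hp z hz
  obtain ⟨h1, h2, h3⟩ := (mem_DL ht i j).1 hp
  have a1 : (0 : ℝ) ≤ i := by exact_mod_cast h1
  have a2 : (0 : ℝ) ≤ j := by exact_mod_cast h2
  rw [le_div_iff₀ hh] at h3
  have b1 := hz.1.1
  have b2 := hz.1.2
  have b3 := hz.2.1
  have b4 := hz.2.2
  simp only at b1 b2 b3 b4
  exact ⟨by linarith only [b1, hh, a1, mul_nonneg_of_nonpos_of_nonpos (le_of_lt (Mathlib.Tactic.Linarith.sub_neg_of_lt hh)) (Mathlib.Tactic.Linarith.sub_nonpos_of_le a1)], by linarith only [b3, hh, a2, mul_nonneg_of_nonpos_of_nonpos (le_of_lt (Mathlib.Tactic.Linarith.sub_neg_of_lt hh)) (Mathlib.Tactic.Linarith.sub_nonpos_of_le a2)], by linarith only [h3, b2, ht, b4, mul_pos_of_neg_of_neg (Mathlib.Tactic.Linarith.sub_neg_of_lt ht) (Mathlib.Tactic.Linarith.sub_neg_of_lt b4)]⟩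

lemma card_DL {t W h : ℝ} (ht : 0 < t) (hh : 0 < h) (T : Finset (ℤ × ℤ)) (hT : T ⊆ DL t (W / h)) :
    T.card * h ^ 2 ≤ volume.real (RR t W) := by
  have := sum_Ce_le hh T (fun p hp => Ce_sub ht hh p (hT hp)) (ψ := fun _ => 1)
    (integrableOn_const (vol_RR ht W)) fun _ => zero_le_one
  simpa [(vol_Ce hh _).2] using this

/-- upper Riemann sums -/
lemma riem_up {ψ : ℂ → ℝ} (hψ : Continuous ψ) (hs : HasCompactSupport ψ) (h0 : ∀ z, 0 ≤ ψ z)
    {t : ℝ} (ht : 0 < t) (W : ℝ) {ε : ℝ} (hε : 0 < ε) :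
    ∀ᶠ h in 𝓝[>] (0 : ℝ), ∀ (T : Finset (ℤ × ℤ)) (K : Set ℂ) (v : ℤ × ℤ → ℝ), T ⊆ DL t (W / h) →
      (∀ p ∈ T, Ce h p ⊆ K) → (∀ p ∈ T, ∃ ξ ∈ Cc h p, v p = h ^ 2 * ψ ξ) →
      ∑ p ∈ T, v p ≤ (∫ z in K, ψ z) + ε := by
  have hV : 0 ≤ volume.real (RR t W) := measureReal_nonneg
  filter_upwards [cell_est hψ hs (show 0 < ε / (volume.real (RR t W) + 1) by positivity),
    self_mem_nhdsWithin] with h h1 hh T K v hT hK hv
  have h2 := sum_Ce_le hh T hK (hψ.integrable_of_hasCompactSupport hs).integrableOn h0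
  have h3 : ∑ p ∈ T, v p ≤ ∑ p ∈ T, ((∫ z in Ce h p, ψ z) + ε / (volume.real (RR t W) + 1) * h ^ 2) :=
    Finset.sum_le_sum fun p hp => by
      obtain ⟨ξ, hξ, e⟩ := hv p hp
      linarith only [e, h1, hξ, (abs_le.1 (h1 p ξ hξ)).2]
  rw [Finset.sum_add_distrib, Finset.sum_const, nsmul_eq_mul] at h3
  have h4 := mul_le_mul_of_nonneg_left (card_DL ht hh T hT)
    (show 0 ≤ ε / (volume.real (RR t W) + 1) by positivity)
  have h5 : ε / (volume.real (RR t W) + 1) * volume.real (RR t W) ≤ ε := by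
    rw [div_mul_eq_mul_div, div_le_iff₀ (by positivity)]
    linarith only [hε]
  linarith only [h2, h3, h4, h5]

/-- the sample point of a cell -/
def sp (h : ℝ) (p : ℤ × ℤ) : ℂ := ⟨h * p.1, h * p.2⟩

/-- lower Riemann sums -/
lemma riem_lo {ψ : ℂ → ℝ} (hψ : Continuous ψ) (hs : HasCompactSupport ψ) (h0 : ∀ z, 0 ≤ ψ z)
    {t : ℝ} (ht : 0 < t) (W : ℝ) {ε : ℝ} (hε : 0 < ε) :
    ∀ᶠ h in 𝓝[>] (0 : ℝ), (∫ z in RR t W, ψ z) - ε ≤ h ^ 2 * ∑ p ∈ DL t (W / h), ψ (sp h p) := by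
  have hV : 0 ≤ volume.real (RR t W) := measureReal_nonneg
  have hi := hψ.integrable_of_hasCompactSupport (μ := volume) hs
  have hmono : Monotone fun n : ℕ => RR t (W - 1 / (n + 1)) := fun a b h z hz =>
    ⟨hz.1, hz.2.1, hz.2.2.trans_le (by linarith only [h, Nat.one_div_le_one_div (α := ℝ) h])⟩
  have hU : ⋃ n : ℕ, RR t (W - 1 / (n + 1)) = RR t W := by
    refine subset_antisymm (iUnion_subset fun n z hz => ⟨hz.1, hz.2.1, hz.2.2.trans_le ?_⟩)
      fun z hz => ?_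
    · have : (0 : ℝ) ≤ 1 / (n + 1) := by positivity
      linarith
    · obtain ⟨n, hn⟩ := exists_nat_one_div_lt (sub_pos.2 hz.2.2)
      exact mem_iUnion.2 ⟨n, hz.1, hz.2.1, by linarith only [hn]⟩
  have hl := tendsto_setIntegral_of_monotone (fun n : ℕ => meas_RR t (W - 1 / (n + 1))) hmono
    hi.integrableOn
  rw [hU] at hl
  obtain ⟨n, hn⟩ := (hl.eventually (lt_mem_nhds (show (∫ z in RR t W, ψ z) - ε / 2 < _ by
    linarith only [hε]))).exists
  filter_upwards [cell_est hψ hs (show 0 < ε / 2 / (volume.real (RR t W) + 1) by positivity),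
    Ioo_mem_nhdsGT (show (0 : ℝ) < 1 / (n + 1) / (1 + t) by positivity)] with h h1 hh
  have h2 : ∫ z in RR t (W - 1 / (n + 1)), ψ z ≤ ∑ p ∈ DL t (W / h), ∫ z in Ce h p, ψ z := by
    clear * - t W n ψ h hh hi h0 ht
    rw [← sum_Ce hh.1 _ fun p _ => hi.integrableOn]
    refine setIntegral_mono_set hi.integrableOn (Eventually.of_forall h0)
      (LE.le.eventuallyLE fun z hz => ?_)
    refine mem_iUnion₂.2 ⟨(⌊z.re / h⌋, ⌊z.im / h⌋), (mem_DL ht _ _).2
      ⟨Int.floor_nonneg.2 (div_nonneg hz.1 hh.1.le), Int.floor_nonneg.2 (div_nonneg hz.2.1 hh.1.le),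
        ?_⟩, (mem_Ce hh.1 _ _).2 ⟨rfl, rfl⟩⟩
    have a1 := (le_div_iff₀ hh.1).1 (Int.floor_le (z.re / h))
    have a2 := (le_div_iff₀ hh.1).1 (Int.floor_le (z.im / h))
    have a3 := (lt_div_iff₀ (show 0 < 1 + t by positivity)).1 hh.2
    rw [le_div_iff₀ hh.1]
    linarith only [a1, a3, hz, ht, a2, hz.2.2, mul_nonneg_of_nonpos_of_nonpos (le_of_lt (Mathlib.Tactic.Linarith.sub_neg_of_lt ht)) (Mathlib.Tactic.Linarith.sub_nonpos_of_le a2)]
  have h3 : ∑ p ∈ DL t (W / h), ((∫ z in Ce h p, ψ z) - ε / 2 / (volume.real (RR t W) + 1) * h ^ 2) ≤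
      ∑ p ∈ DL t (W / h), h ^ 2 * ψ (sp h p) :=
    Finset.sum_le_sum fun p _ => by
      clear * - h p n t hh ψ ε W h1
      have : sp h p ∈ Cc h p := ⟨⟨le_rfl, by simp only [sp]; nlinarith [hh.1]⟩,
        le_rfl, by simp only [sp]; nlinarith [hh.1]⟩
      linarith only [h1, this, (abs_le.1 (h1 p _ this)).1]
  rw [Finset.sum_sub_distrib, Finset.sum_const, nsmul_eq_mul, ← Finset.mul_sum] at h3
  have h4 := mul_le_mul_of_nonneg_left (card_DL ht hh.1 _ (subset_refl (DL t (W / h))))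
    (show 0 ≤ ε / 2 / (volume.real (RR t W) + 1) by positivity)
  have h5 : ε / 2 / (volume.real (RR t W) + 1) * volume.real (RR t W) ≤ ε / 2 := by
    clear * - ε t W hε
    rw [div_mul_eq_mul_div, div_le_iff₀ (by positivity)]
    linarith only [hε]
  linarith only [hn, h2, h3, h4, h5]

lemma mvt {f : ℂ → ℝ} (hf : ContDiff ℝ 1 f) (z v : ℂ) {h : ℝ} (hh : 0 < h) :
    ∃ s ∈ Ioo 0 h, f (z + h • v) - f z = h * fderiv ℝ f (z + s • v) v := by
  have hd : ∀ s : ℝ, HasDerivAt (fun s : ℝ => f (z + s • v)) (fderiv ℝ f (z + s • v) v) s := fun s => by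
    have h1 : HasDerivAt (fun s : ℝ => z + s • v) v s := by
      simpa using ((hasDerivAt_id s).smul_const v).const_add z
    exact (hf.differentiable one_ne_zero _).hasFDerivAt.comp_hasDerivAt s h1
  obtain ⟨s, hs, e⟩ := exists_hasDerivAt_eq_slope _ _ hh
    (fun s _ => (hd s).continuousAt.continuousWithinAt) fun s _ => hd s
  refine ⟨s, hs, ?_⟩
  rw [e]
  simp only [zero_smul, add_zero, sub_zero]
  field_simp

lemma mvt_x {f : ℂ → ℝ} (hf : ContDiff ℝ 1 f) {h : ℝ} (hh : 0 < h) (p : ℤ × ℤ) :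
    ∃ ξ ∈ Cc h p, f (sp h (p + (1, 0))) - f (sp h p) = h * fderiv ℝ f ξ 1 := by
  obtain ⟨s, hs, e⟩ := mvt hf (sp h p) 1 hh
  refine ⟨_, ?_, Eq.trans ?_ e⟩
  · refine ⟨⟨?_, ?_⟩, ?_, ?_⟩ <;> simp [sp] <;> linarith only [hs, hh, hs.1, hs.2]
  · congr 2
    apply Complex.ext <;> simp [sp]
    ring

lemma mvt_y {f : ℂ → ℝ} (hf : ContDiff ℝ 1 f) {h : ℝ} (hh : 0 < h) (p : ℤ × ℤ) :
    ∃ ξ ∈ Cc h p, f (sp h (p + (0, 1))) - f (sp h p) = h * fderiv ℝ f ξ I := by
  obtain ⟨s, hs, e⟩ := mvt hf (sp h p) I hh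
  refine ⟨_, ?_, Eq.trans ?_ e⟩
  · refine ⟨⟨?_, ?_⟩, ?_, ?_⟩ <;> simp [sp] <;> linarith only [hh, hs, hs.1, hs.2]
  · congr 2
    apply Complex.ext <;> simp [sp]
    ring

/-- the part of the energy that the rearrangement does not use -/
def sl (f : ℂ → ℝ) (z : ℂ) : ℝ := (max (-fderiv ℝ f z 1) 0) ^ 2

lemma fd_cont {f : ℂ → ℝ} (hf : ContDiff ℝ 1 f) (hs : HasCompactSupport f) {g : (ℂ →L[ℝ] ℝ) → ℝ}
    (hg : Continuous g) (h0 : g 0 = 0) :
    Continuous (fun z => g (fderiv ℝ f z)) ∧ HasCompactSupport fun z => g (fderiv ℝ f z) :=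
  ⟨hg.comp (hf.continuous_fderiv one_ne_zero), (hs.fderiv ℝ).comp_left h0⟩

lemma int_fd {f : ℂ → ℝ} (hf : ContDiff ℝ 1 f) (hs : HasCompactSupport f) {g : (ℂ →L[ℝ] ℝ) → ℝ}
    (hg : Continuous g) (h0 : g 0 = 0) : Integrable fun z => g (fderiv ℝ f z) :=
  (fd_cont hf hs hg h0).1.integrable_of_hasCompactSupport (fd_cont hf hs hg h0).2

lemma sample {f : ℂ → ℝ} (hf : ContDiff ℝ 1 f) (hs : HasCompactSupport f) {t : ℝ} (ht : 0 < t)
    (W y₀ : ℝ) {ε : ℝ} (hε : 0 < ε) :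
    ∀ᶠ h in 𝓝[>] (0 : ℝ), En (DL t (W / h)) (fun j => h * j ≤ y₀) (fun p => f (sp h p)) ≤
      (∫ z in RR t W, ‖fderiv ℝ f z‖ ^ 2) - (∫ z in RR t W ∩ {z | z.im < y₀}, sl f z) + ε := by
  have c1 := fd_cont hf hs (g := fun L => (max (L 1) 0) ^ 2) (by fun_prop) (by simp)
  have c2 := fd_cont hf hs (g := fun L => (max (-L 1) 0) ^ 2) (by fun_prop) (by simp)
  have c3 := fd_cont hf hs (g := fun L => (L I) ^ 2) (by fun_prop) (by simp)
  have i1 := c1.1.integrable_of_hasCompactSupport (μ := volume) c1.2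
  have i2 := c2.1.integrable_of_hasCompactSupport (μ := volume) c2.2
  have i3 := c3.1.integrable_of_hasCompactSupport (μ := volume) c3.2
  have hε' : 0 < ε / 3 := by positivity
  filter_upwards [riem_up c1.1 c1.2 (fun z => sq_nonneg _) ht W hε',
    riem_up c2.1 c2.2 (fun z => sq_nonneg _) ht W hε',
    riem_up c3.1 c3.2 (fun z => sq_nonneg _) ht W hε', self_mem_nhdsWithin] with h h1 h2 h3 hh
  have hh : 0 < h := hh
  set D := DL t (W / h)
  have a1 := h1 (D.filter fun p => p + (1, 0) ∈ D) (RR t W)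
    (fun p => Ph (f (sp h p)) (f (sp h (p + (1, 0))))) (Finset.filter_subset _ _)
    (fun p hp => Ce_sub ht hh p (Finset.mem_filter.1 hp).1) fun p _ => by
      obtain ⟨ξ, hξ, e⟩ := mvt_x hf hh p
      refine ⟨ξ, hξ, ?_⟩
      rw [Ph, e, ← mul_pow, mul_max_of_nonneg _ _ hh.le, mul_zero]
  have a2 := h2 ((D.filter fun p => p + (1, 0) ∈ D).filter fun p => ¬ h * p.2 ≤ y₀)
    (RR t W \ {z | z.im < y₀})
    (fun p => Ph (f (sp h (p + (1, 0)))) (f (sp h p)))
    ((Finset.filter_subset _ _).trans (Finset.filter_subset _ _))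
    (fun p hp z hz => ⟨Ce_sub ht hh p (Finset.mem_filter.1 (Finset.mem_filter.1 hp).1).1 hz,
      fun hc => (Finset.mem_filter.1 hp).2 (hz.2.1.trans (le_of_lt hc))⟩) fun p _ => by
      obtain ⟨ξ, hξ, e⟩ := mvt_x hf hh p
      refine ⟨ξ, hξ, ?_⟩
      rw [Ph, ← neg_sub, e, ← mul_pow, mul_max_of_nonneg _ _ hh.le, mul_zero, mul_neg]
  have a3 := h3 (D.filter fun p => p + (0, 1) ∈ D) (RR t W)
    (fun p => (f (sp h (p + (0, 1))) - f (sp h p)) ^ 2) (Finset.filter_subset _ _)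
    (fun p hp => Ce_sub ht hh p (Finset.mem_filter.1 hp).1) fun p _ => by
      obtain ⟨ξ, hξ, e⟩ := mvt_y hf hh p
      exact ⟨ξ, hξ, by rw [e, mul_pow]⟩
  have a4 := integral_inter_add_sdiff (s := RR t W) (t := {z : ℂ | z.im < y₀})
    (measurableSet_lt measurable_im measurable_const) i2.integrableOn
  have a5 : ∫ z in RR t W, ‖fderiv ℝ f z‖ ^ 2 = (∫ z in RR t W, (max (fderiv ℝ f z 1) 0) ^ 2) +
      (∫ z in RR t W, (max (-fderiv ℝ f z 1) 0) ^ 2) + ∫ z in RR t W, (fderiv ℝ f z I) ^ 2 := by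
    have i4 : Integrable fun z => (max (fderiv ℝ f z 1) 0) ^ 2 + (max (-fderiv ℝ f z 1) 0) ^ 2 :=
      i1.add i2
    rw [← integral_add i1.integrableOn i2.integrableOn,
      ← integral_add i4.integrableOn i3.integrableOn]
    refine integral_congr_ae (Eventually.of_forall fun z => ?_)
    have := sq_eq_Ph 0 (fderiv ℝ f z 1)
    simp only [Ph, sub_zero, zero_sub] at this
    simp only [nsq, this]
  have a6 : ∑ p ∈ D with p + (1, 0) ∈ D, (if h * p.2 ≤ y₀ then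
        Ph (f (sp h p)) (f (sp h (p + (1, 0)))) else (f (sp h (p + (1, 0))) - f (sp h p)) ^ 2) =
      ∑ p ∈ D with p + (1, 0) ∈ D, Ph (f (sp h p)) (f (sp h (p + (1, 0)))) +
      ∑ p ∈ (D.filter fun p => p + (1, 0) ∈ D) with ¬ h * p.2 ≤ y₀,
        Ph (f (sp h (p + (1, 0)))) (f (sp h p)) := by
    rw [Finset.sum_filter (p := fun p : ℤ × ℤ => ¬ h * p.2 ≤ y₀), ← Finset.sum_add_distrib]
    refine Finset.sum_congr rfl fun p _ => ?_
    by_cases hp : h * p.2 ≤ y₀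
    · simp [hp]
    · simp [hp, sq_eq_Ph]
  simp only [En, Ed, sl]
  rw [a6]
  linarith only [a1, a2, a3, a4, a5]

lemma lim_le {a b c : ℝ} (h : ∀ ε : ℝ, 0 < ε → a - c * ε ≤ (1 + 2 * ε) * (b + ε)) : a ≤ b := by
  have h1 : Tendsto (fun ε : ℝ => (1 + 2 * ε) * (b + ε) + c * ε) (𝓝[>] 0) (𝓝 b) := by
    have : Continuous fun ε : ℝ => (1 + 2 * ε) * (b + ε) + c * ε := by fun_prop
    simpa using (this.tendsto 0).mono_left nhdsWithin_le_nhds
  exact ge_of_tendsto h1 (eventually_nhdsWithin_of_forall fun ε hε => by linarith [h ε hε])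

/-- the rearrangement theorem -/
theorem sort_core {f : ℂ → ℝ} (hf : ContDiff ℝ 1 f) (hs : HasCompactSupport f) (h0 : ∀ z, 0 ≤ f z)
    {t d e W ν η y₀ : ℝ} (ht : 0 < t) (hd : 0 < d) (he : 0 ≤ e) (hν : 0 ≤ ν) (hη : 0 < η)
    (hW : 0 < d * W - t * e)
    (hLow : ∀ W' e', 0 < d * W' - t * e' →
      Low (LA d e') (TA t d W' e') (ν / (d * W' - t * e') ^ 2))
    (hrow : ∀ y, 0 ≤ y → ∃ a, ∀ x, 0 ≤ x → x + t * y ≤ W → f ⟨x, y⟩ ≠ 0 →
      a < x ∧ x ≤ a + (d * y - e - η))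
    (hps : ∀ y, 0 ≤ y → y ≤ y₀ → f ⟨0, y⟩ = 0) :
    ν / (d * W - t * e) ^ 2 * (∫ z in RR t W, f z ^ 2) + ∫ z in RR t W ∩ {z | z.im < y₀}, sl f z ≤
      ∫ z in RR t W, ‖fderiv ℝ f z‖ ^ 2 := by
  have hW0 : 0 < W := by
    by_contra hc
    linarith only [hW, ht, he, hd, hc, not_lt.1 hc, mul_nonneg ht.le he, mul_nonneg_of_nonpos_of_nonpos (le_of_lt (Mathlib.Tactic.Linarith.sub_neg_of_lt hd)) (Mathlib.Tactic.Linarith.sub_nonpos_of_le (le_of_not_gt hc))]
  set lam := ν / (d * W - t * e) ^ 2 with hlam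
  have hl : 0 ≤ lam := by positivity
  rw [← le_sub_iff_add_le]
  refine lim_le (c := lam) fun ε hε => ?_
  have k1 : ∀ᶠ h in 𝓝[>] (0 : ℝ), h * (d * (3 + t)) < d * W - t * e ∧ h * 3 < η ∧
      lam * (4 * (1 + ε⁻¹) * h ^ 2 + W / t * (3 / t + 4) * h) < ε := by
    refine Eventually.filter_mono nhdsWithin_le_nhds (Eventually.and ?_ (Eventually.and ?_ ?_))
    · exact ContinuousAt.eventually_lt (by fun_prop) continuousAt_const (by simpa using hW)
    · exact ContinuousAt.eventually_lt (by fun_prop) continuousAt_const (by simpa using hη)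
    · exact ContinuousAt.eventually_lt (by fun_prop) continuousAt_const (by simpa using hε)
  obtain ⟨h, ⟨k2, k3, k4⟩, k5, k6, hh⟩ := (k1.and ((sample hf hs ht W y₀ hε).and
    ((riem_lo (ψ := fun z => f z ^ 2) (hf.continuous.pow 2)
      (hs.comp_left (g := fun x => x ^ 2) (by simp)) (fun z => sq_nonneg _) ht W hε).and
      self_mem_nhdsWithin))).exists
  have hh : 0 < h := hh
  have e1 : d * (W / h - 3 - t) - t * (e / h) = (d * W - t * e - h * (d * (3 + t))) / h := by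
    field_simp
    ring
  have hL : Low (LA d (e / h)) (TA t d (W / h - 3 - t) (e / h)) (lam * h ^ 2) := by
    intro u u1 u2 u3
    refine le_trans (mul_le_mul_of_nonneg_right ?_ (integral_nonneg fun z => sq_nonneg _))
      (hLow _ _ (by rw [e1]; exact div_pos (by linarith only [k2]) hh) u u1 u2 u3)
    rw [e1, div_pow, div_div_eq_mul_div, hlam, div_mul_eq_mul_div]
    refine div_le_div_of_nonneg_left (by positivity) (pow_pos (by linarith only [k2]) 2)
      (pow_le_pow_left₀ (by linarith only [k2]) ?_ 2)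
    have : 0 ≤ h * (d * (3 + t)) := by positivity
    linarith only [this]
  have h1 := lattice_bound ht hd (div_nonneg he hh.le) (div_nonneg hW0.le hh.le)
    (by positivity) hL (fun p => f (sp h p)) (fun p => h0 _) (fun j hj => by
      have a1 : (0 : ℝ) ≤ j := by exact_mod_cast hj
      obtain ⟨a, ha⟩ := hrow (h * j) (by positivity)
      refine ⟨a / h, fun i hi hne => ?_⟩
      obtain ⟨b1, -, b3⟩ := (mem_DL ht i j).1 hi
      have b4 : (0 : ℝ) ≤ i := by exact_mod_cast b1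
      rw [le_div_iff₀ hh] at b3
      obtain ⟨c1, c2⟩ := ha (h * i) (by positivity) (by nlinarith) hne
      refine ⟨(div_lt_iff₀' hh).2 c1, le_of_mul_le_mul_left ?_ hh⟩
      have : h * (a / h + (d * j - e / h - 3)) = a + (d * (h * j) - e - h * 3) := by
        field_simp
      linarith only [k3, c2, this]) (fun j => h * j ≤ y₀) (fun j hj hp => by
      have a1 : (0 : ℝ) ≤ j := by exact_mod_cast hj
      simpa [sp] using hps (h * j) (by positivity) hp) hε
  have e2 : lam * h ^ 2 * (4 * (1 + ε⁻¹) + W / h / t * (3 / t + 4)) =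
      lam * (4 * (1 + ε⁻¹) * h ^ 2 + W / t * (3 / t + 4) * h) := by
    field_simp
  rw [e2] at h1
  have h2 := En_nonneg (DL t (W / h)) (fun j => h * j ≤ y₀) fun p => f (sp h p)
  have h3 := mul_le_mul_of_nonneg_left k6 hl
  have h4 := mul_le_mul_of_nonneg_left k5 (show 0 ≤ 1 + 2 * ε by linarith only [hε])
  have h5 := mul_le_mul_of_nonneg_right k4.le h2
  simp only [Nm] at h1
  clear * - lam t W f ε y₀ h ν d e h3 h4 h5 h1
  linarith only [h3, h4, h5, h1]

/-- the Poincare inequality -/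
theorem poinc {f : ℂ → ℝ} (hf : ContDiff ℝ 1 f) (hs : HasCompactSupport f) {t W : ℝ} (ht : 0 < t)
    (hW : 0 < W) (h0 : ∀ x, 0 ≤ x → x ≤ W → f ⟨x, 0⟩ = 0) :
    (t / W) ^ 2 * ∫ z in RR t W, f z ^ 2 ≤ ∫ z in RR t W, ‖fderiv ℝ f z‖ ^ 2 := by
  refine lim_le (c := (t / W) ^ 2) fun ε hε => ?_
  have k1 : ∀ᶠ h in 𝓝[>] (0 : ℝ), (t / W) ^ 2 * (8 * h ^ 2) + 2 * (t / W) * h < ε :=
    Eventually.filter_mono nhdsWithin_le_nhds
      (ContinuousAt.eventually_lt (by fun_prop) continuousAt_const (by simpa using hε))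
  obtain ⟨h, k4, k5, k6, hh⟩ := (k1.and ((sample hf hs ht W (-1) hε).and
    ((riem_lo (ψ := fun z => f z ^ 2) (hf.continuous.pow 2)
      (hs.comp_left (g := fun x => x ^ 2) (by simp)) (fun z => sq_nonneg _) ht W hε).and
      self_mem_nhdsWithin))).exists
  have hh : 0 < h := hh
  have h1 := lattice_poinc ht (div_nonneg hW.le hh.le) (fun p => f (sp h p)) fun i hi => by
    obtain ⟨b1, -, b3⟩ := (mem_DL ht i 0).1 hi
    have b4 : (0 : ℝ) ≤ i := by exact_mod_cast b1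
    rw [le_div_iff₀ hh] at b3
    simpa [sp] using h0 (h * i) (by positivity) (by push_cast at b3; nlinarith)
  have e0 : En (DL t (W / h)) (fun _ => False) (fun p => f (sp h p)) =
      En (DL t (W / h)) (fun j => h * j ≤ -1) fun p => f (sp h p) := by
    simp only [En]
    congr 1
    refine Finset.sum_congr rfl fun p hp => ?_
    have b1 : (0 : ℝ) ≤ p.2 := by
      exact_mod_cast ((mem_DL ht p.1 p.2).1 (Finset.mem_filter.1 hp).1).2.1
    rw [if_neg not_false, if_neg (by nlinarith)]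
  rw [e0] at h1
  have h2 := En_nonneg (DL t (W / h)) (fun j => h * j ≤ -1) fun p => f (sp h p)
  have h3 := mul_le_mul_of_nonneg_left k6 (sq_nonneg (t / W))
  have h6 : 0 ≤ ∫ z in RR t W ∩ {z | z.im < -1}, sl f z := integral_nonneg fun z => sq_nonneg _
  have h4 := mul_le_mul_of_nonneg_left (k5.trans (add_le_add_left (sub_le_self _ h6) ε))
    (show 0 ≤ 1 + 2 * ε by linarith only [hε])
  have h5 := mul_le_mul_of_nonneg_right k4.le h2
  have h7 := mul_le_mul_of_nonneg_left h1 (show 0 ≤ (t / W) ^ 2 * h ^ 2 by positivity)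
  have e2 : (t / W) ^ 2 * h ^ 2 * (8 + W / h / t * (W / h / t + 2)) =
      1 + ((t / W) ^ 2 * (8 * h ^ 2) + 2 * (t / W) * h) := by
    field_simp
    ring
  rw [← mul_assoc, e2] at h7
  simp only [Nm] at h7
  clear * - t W f ε h h3 h4 h5 h7 hε h2
  linarith only [h3, h4, h5, h7, hε, h2, mul_nonneg_of_nonpos_of_nonpos (le_of_lt (Mathlib.Tactic.Linarith.sub_neg_of_lt hε)) (Mathlib.Tactic.Linarith.sub_nonpos_of_le h2)]

end

end Pool.Agent.Work.MP_267827_an.Srt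
end

-- merged part: Pool.Agent.Work.MP_267827_an.Srt.SH
section
/-! General facts on the lower bound, and the obtuse triangle in coordinates. -/

set_option autoImplicit false

namespace Pool.Agent.Work.MP_267827_an.Srt

open MeasureTheory Set Complex Filter Topology
open Pool.Agent.Work.MP_267827_an.PS (Low)

noncomputable section

lemma low_mono {D D' K : Set ℂ} {lam lam' : ℝ} (h : Low D K lam) (hD : D ⊆ D') (hl : lam' ≤ lam) :
    Low D' K lam' := fun u u1 u2 u3 =>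
  (mul_le_mul_of_nonneg_right hl (integral_nonneg fun _ => sq_nonneg _)).trans
    (h u u1 u2 (u3.mono_right hD))

lemma low_nonpos (D K : Set ℂ) {lam : ℝ} (h : lam ≤ 0) : Low D K lam := fun _ _ _ _ =>
  (mul_nonpos_of_nonpos_of_nonneg h (integral_nonneg fun _ => sq_nonneg _)).trans
    (integral_nonneg fun _ => sq_nonneg _)

lemma tsupp_comp {u : ℂ → ℝ} {φ : ℂ → ℂ} (hφ : Continuous φ) :
    tsupport (fun z => u (φ z)) ⊆ φ ⁻¹' tsupport u :=
  closure_minimal (fun _ hz => subset_tsupport u hz) ((isClosed_tsupport u).preimage hφ)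

/-- invariance under isometries -/
lemma low_iso {D K D' K' : Set ℂ} {lam : ℝ} (h : Low D K lam) (e : ℂ ≃ₗᵢ[ℝ] ℂ) (β : ℂ)
    (hK : K = (fun z => e z + β) ⁻¹' K') (hD : ∀ z ∈ D, e z + β ∈ D') : Low D' K' lam := by
  intro u u1 u2 u3
  let φ : ℂ ≃ₜ ℂ := e.toHomeomorph.trans (Homeomorph.addRight β)
  have hm : MeasurePreserving φ := (measurePreserving_add_right volume β).comp e.measurePreserving
  have h1 := h (fun z => u (e z + β)) (u1.comp (e.contDiff.add contDiff_const))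
    (u2.comp_homeomorph φ) (disjoint_left.2 fun z hz hz' =>
      disjoint_left.1 u3 (tsupp_comp φ.continuous hz) (hD z hz'))
  have h2 : ∀ z, ‖fderiv ℝ (fun z => u (e z + β)) z‖ = ‖fderiv ℝ u (e z + β)‖ := fun z => by
    have := ((u1.differentiable one_ne_zero (e z + β)).hasFDerivAt.comp z
      ((e.toContinuousLinearEquiv.hasFDerivAt (x := z)).add_const β)).fderiv
    rw [show (fun z => u (e z + β)) = u ∘ fun z => e.toContinuousLinearEquiv z + β from rfl, this]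
    exact ContinuousLinearMap.opNorm_comp_linearIsometryEquiv _ e
  simp only [h2] at h1
  rw [← hm.setIntegral_preimage_emb φ.measurableEmbedding (fun z => u z ^ 2),
    ← hm.setIntegral_preimage_emb φ.measurableEmbedding (fun z => ‖fderiv ℝ u z‖ ^ 2),
    show φ ⁻¹' K' = K from hK.symm]
  exact h1

open Pointwise in
/-- behaviour under dilations -/
lemma low_scale {D K D' K' : Set ℂ} {lam r : ℝ} (h : Low D K lam) (hr : 0 < r)
    (hK : K = (fun z => r • z) ⁻¹' K') (hD : ∀ z ∈ D, r • z ∈ D') : Low D' K' (lam / r ^ 2) := by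
  intro u u1 u2 u3
  have h1 := h (fun z => u (r • z)) (u1.comp (contDiff_const_smul r))
    (u2.comp_homeomorph (Homeomorph.smulOfNeZero r hr.ne')) (disjoint_left.2 fun z hz hz' =>
      disjoint_left.1 u3 (tsupp_comp (continuous_const_smul r) hz) (hD z hz'))
  have h2 : ∀ z, ‖fderiv ℝ (fun z => u (r • z)) z‖ ^ 2 = r ^ 2 * ‖fderiv ℝ u (r • z)‖ ^ 2 := fun z => by
    rw [fderiv_comp_smul, norm_smul, mul_pow, Real.norm_of_nonneg hr.le]
  have h3 : r • K = K' := by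
    rw [hK]
    exact image_preimage_eq _ (Homeomorph.smulOfNeZero r hr.ne').surjective
  simp only [h2] at h1
  rw [integral_const_mul, Measure.setIntegral_comp_smul_of_pos volume (fun z => u z ^ 2) K hr,
    Measure.setIntegral_comp_smul_of_pos volume (fun z => ‖fderiv ℝ u z‖ ^ 2) K hr, h3,
    finrank_real_complex, smul_eq_mul, smul_eq_mul, mul_inv_cancel_left₀ (by positivity)] at h1
  rwa [div_eq_mul_inv, mul_assoc]

lemma int_E {u : ℂ → ℝ} (u1 : ContDiff ℝ 1 u) (u2 : HasCompactSupport u) :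
    Integrable fun z => ‖fderiv ℝ u z‖ ^ 2 :=
  int_fd u1 u2 (g := fun L => ‖L‖ ^ 2) (by fun_prop) (by simp)

lemma int_N {u : ℂ → ℝ} (u1 : ContDiff ℝ 1 u) (u2 : HasCompactSupport u) :
    Integrable fun z => u z ^ 2 :=
  int_sq u1.continuous u2 (g := fun x => x ^ 2) (by fun_prop) (by simp)

lemma int_sl {u : ℂ → ℝ} (u1 : ContDiff ℝ 1 u) (u2 : HasCompactSupport u) : Integrable (sl u) :=
  int_fd u1 u2 (g := fun L => (max (-L 1) 0) ^ 2) (by fun_prop) (by simp)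

/-- nonnegative test functions suffice -/
lemma low_of_nonneg {D K : Set ℂ} {lam : ℝ}
    (h : ∀ u : ℂ → ℝ, ContDiff ℝ 1 u → HasCompactSupport u → Disjoint (tsupport u) D →
      (∀ z, 0 ≤ u z) → lam * ∫ z in K, u z ^ 2 ≤ ∫ z in K, ‖fderiv ℝ u z‖ ^ 2) : Low D K lam := by
  rcases le_total lam 0 with hl | hl
  · exact low_nonpos D K hl
  intro u u1 u2 u3
  have iA : Integrable fun z => |u z| :=
    int_sq u1.continuous u2 (g := fun x => |x|) (by fun_prop) (by simp)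
  refine lim_le (c := lam * (2 * ∫ z in K, |u z|)) fun ε hε => ?_
  let g : ℝ → ℝ := fun x => √(x ^ 2 + ε ^ 2) - ε
  have g0 : g 0 = 0 := by simp [g, hε.le]
  have gp : ∀ x : ℝ, 0 < x ^ 2 + ε ^ 2 := fun x => by positivity
  have g1 : ContDiff ℝ 1 g :=
    (((contDiff_id.pow 2).add contDiff_const).sqrt fun x => (gp x).ne').sub contDiff_const
  have g2 : ∀ x, 0 ≤ g x := fun x => sub_nonneg.2 (Real.le_sqrt_of_sq_le (by linarith only [sq_nonneg x]))
  have g3 : ∀ x, x ^ 2 - ε * (2 * |x|) ≤ g x ^ 2 := fun x => by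
    clear * - x ε gp hε g
    have a1 := Real.sq_sqrt (gp x).le
    have a2 : √(x ^ 2 + ε ^ 2) ≤ |x| + ε := Real.sqrt_le_iff.2
      ⟨by positivity, by linarith only [hε, abs_nonneg x, sq_abs x, mul_nonneg_of_nonpos_of_nonpos (le_of_lt (Mathlib.Tactic.Linarith.sub_neg_of_lt hε)) (Mathlib.Tactic.Linarith.sub_nonpos_of_le (abs_nonneg x))]⟩
    simp only [g]
    linarith only [a1, hε, a2, mul_nonneg_of_nonpos_of_nonpos (le_of_lt (Mathlib.Tactic.Linarith.sub_neg_of_lt hε)) (Mathlib.Tactic.Linarith.sub_nonpos_of_le a2)]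
  have g4 : ∀ x, HasDerivAt g (x / √(x ^ 2 + ε ^ 2)) x := fun x => by
    have := ((((hasDerivAt_id x).pow 2).add_const (ε ^ 2)).sqrt (gp x).ne').sub_const ε
    refine this.congr_deriv ?_
    simp
    field_simp
  have c1 : ContDiff ℝ 1 fun z => g (u z) := g1.comp u1
  have c2 : HasCompactSupport fun z => g (u z) := u2.comp_left g0
  have h1 := h (fun z => g (u z)) c1 c2 (u3.mono_left (tsupport_comp_subset g0 u)) fun z => g2 _
  have h2 : ∫ z in K, ‖fderiv ℝ (fun z => g (u z)) z‖ ^ 2 ≤ ∫ z in K, ‖fderiv ℝ u z‖ ^ 2 := by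
    clear * - K g u c1 c2 u1 u2 ε g4 gp
    refine integral_mono (int_E c1 c2).integrableOn (int_E u1 u2).integrableOn fun z => ?_
    have : fderiv ℝ (fun z => g (u z)) z = _ :=
      ((g4 (u z)).comp_hasFDerivAt z (u1.differentiable one_ne_zero z).hasFDerivAt).fderiv
    simp only [this]
    refine pow_le_pow_left₀ (norm_nonneg _) ?_ 2
    rw [norm_smul]
    refine mul_le_of_le_one_left (norm_nonneg _) ?_
    rw [Real.norm_eq_abs, abs_div, abs_of_pos (Real.sqrt_pos.2 (gp _)),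
      div_le_one (Real.sqrt_pos.2 (gp _))]
    exact Real.abs_le_sqrt (by linarith only [sq_nonneg ε])
  have h3 : (∫ z in K, u z ^ 2) - ε * (2 * ∫ z in K, |u z|) ≤ ∫ z in K, g (u z) ^ 2 := by
    have i2 : Integrable fun z => ε * (2 * |u z|) := (iA.const_mul 2).const_mul ε
    rw [← integral_const_mul, ← integral_const_mul,
      ← integral_sub (int_N u1 u2).integrableOn i2.integrableOn]
    exact integral_mono ((int_N u1 u2).sub i2).integrableOn (int_N c1 c2).integrableOn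
      fun z => g3 _
  have h4 := mul_le_mul_of_nonneg_left h3 hl
  have h5 : 0 ≤ ∫ z in K, ‖fderiv ℝ u z‖ ^ 2 := integral_nonneg fun _ => sq_nonneg _
  linarith only [hε, h1, h2, h4, h5, mul_pos_of_neg_of_neg (Mathlib.Tactic.Linarith.sub_neg_of_lt hε) (Mathlib.Tactic.Linarith.sub_neg_of_lt hε), mul_nonneg_of_nonpos_of_nonpos (le_of_lt (Mathlib.Tactic.Linarith.sub_neg_of_lt hε)) (Mathlib.Tactic.Linarith.sub_nonpos_of_le h5)]

/-- the obtuse triangle -/
def OB (t c W : ℝ) : Set ℂ := {z | 0 < z.re ∧ z.re + t * z.im < W ∧ W < z.re + c * z.im}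

/-- its base -/
def BO (c W : ℝ) : Set ℂ := {z | 0 ≤ z.re ∧ 0 ≤ z.im ∧ z.re + c * z.im = W}

lemma open_OB (t c W : ℝ) : IsOpen (OB t c W) :=
  IsOpen.and (isOpen_lt continuous_const continuous_re)
    (IsOpen.and (isOpen_lt (by fun_prop) continuous_const) (isOpen_lt continuous_const (by fun_prop)))

lemma ae_re : ∀ᵐ z : ℂ, z.re ≠ 0 := by
  rw [ae_iff]
  have : {z : ℂ | ¬ z.re ≠ 0} = {0} ×ℂ univ := by
    ext z
    simp [mem_reProdIm]
  rw [this, vol_rp (measurableSet_singleton 0) MeasurableSet.univ]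
  simp

lemma int_OB {t c W : ℝ} (htc : t < c) {Y : Set ℂ} (hY : MeasurableSet Y) {g g' : ℂ → ℝ}
    (h1 : ∀ z ∈ OB t c W, g z = g' z) (h2 : ∀ z : ℂ, z.re + c * z.im ≤ W → g z = 0) :
    ∫ z in RR t W ∩ Y, g z = ∫ z in OB t c W ∩ Y, g' z := by
  rw [setIntegral_eq_of_subset_of_ae_sdiff_eq_zero (s := OB t c W ∩ Y)
    ((meas_RR t W).inter hY).nullMeasurableSet
    (fun z hz => ⟨⟨hz.1.1.le, by
      by_contra hc
      linarith only [hz, htc, hc, hz.1.2.1, hz.1.2.2, not_le.1 hc, mul_pos_of_neg_of_neg (Mathlib.Tactic.Linarith.sub_neg_of_lt htc) (Mathlib.Tactic.Linarith.sub_neg_of_lt (lt_of_not_ge hc))], hz.1.2.1⟩, hz.2⟩) ?_]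
  · exact setIntegral_congr_fun ((open_OB t c W).measurableSet.inter hY) fun z hz => h1 z hz.1
  · filter_upwards [ae_re] with z hz hz'
    refine h2 z (not_lt.1 fun hc => hz'.2 ⟨⟨lt_of_le_of_ne hz'.1.1.1 hz.symm, hz'.1.1.2.2, hc⟩, hz'.1.2⟩)

/-- extension by zero below the base -/
lemma ext_zero {t c W : ℝ} (htc : t < c) {u : ℂ → ℝ} (u1 : ContDiff ℝ 1 u)
    (u2 : HasCompactSupport u) (u3 : Disjoint (tsupport u) (BO c W)) :
    ∃ (f : ℂ → ℝ) (η : ℝ), 0 < η ∧ ContDiff ℝ 1 f ∧ HasCompactSupport f ∧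
      ((∀ z, 0 ≤ u z) → ∀ z, 0 ≤ f z) ∧ (∀ z, f z ≠ 0 → u z ≠ 0 ∧ W + η < z.re + c * z.im) ∧
      ∀ (Y : Set ℂ), MeasurableSet Y → ∀ g : ℝ → (ℂ →L[ℝ] ℝ) → ℝ, g 0 0 = 0 →
        ∫ z in RR t W ∩ Y, g (f z) (fderiv ℝ f z) = ∫ z in OB t c W ∩ Y, g (u z) (fderiv ℝ u z) := by
  have hcl : IsClosed {z : ℂ | 0 ≤ z.re ∧ 0 ≤ z.im} :=
    (isClosed_le continuous_const continuous_re).inter (isClosed_le continuous_const continuous_im)
  obtain ⟨η, hη, h⟩ := (u2.isCompact.inter_right hcl).exists_forall_le'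
    (f := fun z : ℂ => |z.re + c * z.im - W|) (by fun_prop) (a := 0) fun z hz =>
      abs_pos.2 fun hc => disjoint_left.1 u3 hz.1 ⟨hz.2.1, hz.2.2, by linarith⟩
  let χ : ℂ → ℝ := fun z => Ss (4 * (z.re + c * z.im - W) / η - 1)
  have χ1 : ContDiff ℝ 1 χ := Ss_c1.comp (((contDiff_const.mul ((reCLM.contDiff.add
    (contDiff_const.mul imCLM.contDiff)).sub contDiff_const)).div_const η).sub contDiff_const)
  have χ0 : ∀ z : ℂ, z.re + c * z.im ≤ W + η / 4 → χ z = 0 := fun z hz =>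
    step_Ss.lo _ (by rw [sub_nonpos, div_le_one hη]; linarith only [hz])
  have e1 : ∀ z ∈ OB t c W, u z * χ z = u z := fun z hz => by
    by_cases h0 : u z = 0
    · rw [h0, zero_mul]
    · have h1 := h z ⟨subset_tsupport u h0, hz.1.le, by
        by_contra hc
        linarith only [hz, htc, hc, hz.2.1, hz.2.2, not_le.1 hc, mul_pos_of_neg_of_neg (Mathlib.Tactic.Linarith.sub_neg_of_lt htc) (Mathlib.Tactic.Linarith.sub_neg_of_lt (lt_of_not_ge hc))]⟩
      rw [abs_of_pos (by linarith [hz.2.2])] at h1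
      rw [show χ z = 1 from step_Ss.hi _ (by rw [le_sub_iff_add_le, le_div_iff₀ hη]; linarith), mul_one]
  refine ⟨fun z => u z * χ z, η / 4, by positivity, u1.mul χ1, u2.mul_right,
    fun h0 z => mul_nonneg (h0 z) (step_Ss.nn _), fun z hz =>
      ⟨left_ne_zero_of_mul hz, not_le.1 fun hc => right_ne_zero_of_mul hz (χ0 z hc)⟩,
    fun Y hY g g0 => int_OB htc hY (fun z hz => ?_) fun z hz => ?_⟩
  · have : (fun z => u z * χ z) =ᶠ[𝓝 z] u := eventually_of_mem ((open_OB t c W).mem_nhds hz) e1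
    rw [this.fderiv_eq, this.self_of_nhds]
  · have : (fun z => u z * χ z) =ᶠ[𝓝 z] fun _ => 0 := by
      filter_upwards [(isOpen_lt (f := fun z : ℂ => z.re + c * z.im) (by fun_prop)
        (continuous_const (y := W + η / 4))).mem_nhds (show z.re + c * z.im < W + η / 4 by linarith only [hη, hz])]
        with y hy
      rw [χ0 y (le_of_lt hy), mul_zero]
    rw [this.fderiv_eq, this.self_of_nhds]
    simpa using g0

/-- the bound for all triangles with given slopes -/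
def HT (t d Λ : ℝ) : Prop := ∀ W e, 0 < d * W - t * e →
  Low (LA d e) (TA t d W e) (2 * t * d * (d + t) * Λ / (d * W - t * e) ^ 2)

theorem sort_ob {t c W d e Λ : ℝ} (ht : 0 < t) (htc : t < c) (hd : 0 < d) (he : 0 ≤ e) (hΛ : 0 ≤ Λ)
    (hW : 0 < d * W - t * e) (H : HT t d Λ) {u : ℂ → ℝ} (u1 : ContDiff ℝ 1 u)
    (u2 : HasCompactSupport u) (u3 : Disjoint (tsupport u) (BO c W)) (u4 : ∀ z, 0 ≤ u z)
    (hx : ∀ z : ℂ, z.re + t * z.im ≤ W → u z ≠ 0 → z.re + c * z.im - W ≤ d * z.im - e) :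
    2 * t * d * (d + t) * Λ / (d * W - t * e) ^ 2 * (∫ z in OB t c W, u z ^ 2) +
      ∫ z in OB t c W ∩ {z | z.im < W / c}, sl u z ≤ ∫ z in OB t c W, ‖fderiv ℝ u z‖ ^ 2 := by
  obtain ⟨f, η, hη, f1, f2, f3, f4, f5⟩ := ext_zero htc u1 u2 u3
  have h := sort_core f1 f2 (f3 u4) (y₀ := W / c) ht hd he (by positivity) hη hW H
    (fun y _ => ⟨W + η - c * y, fun x _ h1 h2 => by
      have a1 := (f4 _ h2).2
      have a2 := hx ⟨x, y⟩ h1 (f4 _ h2).1
      simp only at a1 a2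
      constructor <;> linarith only [a1, a2]⟩)
    (fun y _ h1 => by
      by_contra hc
      have a1 := (f4 _ hc).2
      rw [le_div_iff₀ (ht.trans htc)] at h1
      simp only at a1
      linarith)
  have e1 := f5 univ MeasurableSet.univ (fun x _ => x ^ 2) (by simp)
  have e2 := f5 univ MeasurableSet.univ (fun _ L => ‖L‖ ^ 2) (by simp)
  have e3 := f5 {z | z.im < W / c} (measurableSet_lt measurable_im measurable_const)
    (fun _ L => (max (-L 1) 0) ^ 2) (by simp)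
  rw [inter_univ, inter_univ] at e1 e2
  simp only [sl] at h ⊢
  rwa [e1, e2, e3] at h

theorem low_ob {t c W Λ : ℝ} (ht : 0 < t) (htc : t < c) (hΛ : 0 ≤ Λ) (hW : 0 < W)
    (H : HT t (c - t) Λ) {u : ℂ → ℝ} (u1 : ContDiff ℝ 1 u)
    (u2 : HasCompactSupport u) (u3 : Disjoint (tsupport u) (BO c W)) (u4 : ∀ z, 0 ≤ u z) :
    2 * t * c * Λ / (c - t) / W ^ 2 * (∫ z in OB t c W, u z ^ 2) +
      ∫ z in OB t c W ∩ {z | z.im < W / c}, sl u z ≤ ∫ z in OB t c W, ‖fderiv ℝ u z‖ ^ 2 := by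
  have hd : 0 < c - t := by linarith only [htc]
  have := sort_ob ht htc hd le_rfl hΛ (by simpa using mul_pos hd hW) H u1 u2 u3 u4
    fun z h _ => by linarith
  convert this using 3
  field_simp
  ring

theorem low_ob' {t c W Λ : ℝ} (ht : 0 < t) (htc : t < c) (hW : 0 < W) (H : HT t (c - t) Λ) :
    Low (BO c W) (OB t c W) (2 * t * c * Λ / (c - t) / W ^ 2) := by
  rcases le_total Λ 0 with hΛ | hΛ
  · refine low_nonpos _ _ (div_nonpos_of_nonpos_of_nonneg (div_nonpos_of_nonpos_of_nonneg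
      (mul_nonpos_of_nonneg_of_nonpos ?_ hΛ) (by linarith)) (sq_nonneg _))
    have := ht.trans htc
    positivity
  exact low_of_nonneg fun u u1 u2 u3 u4 => le_trans
    (le_add_of_nonneg_right (integral_nonneg fun _ => sq_nonneg _)) (low_ob ht htc hΛ hW H u1 u2 u3 u4)

theorem poinc_ob {t c W : ℝ} (ht : 0 < t) (htc : t < c) (hW : 0 < W) :
    Low (BO c W) (OB t c W) ((t / W) ^ 2) := by
  intro u u1 u2 u3
  obtain ⟨f, η, hη, f1, f2, -, f4, f5⟩ := ext_zero htc u1 u2 u3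
  have h := poinc f1 f2 ht hW fun x _ h1 => by
    by_contra hc
    have a1 := (f4 _ hc).2
    simp only at a1
    linarith
  have e1 := f5 univ MeasurableSet.univ (fun x _ => x ^ 2) (by simp)
  have e2 := f5 univ MeasurableSet.univ (fun _ L => ‖L‖ ^ 2) (by simp)
  rw [inter_univ, inter_univ] at e1 e2
  rwa [e1, e2] at h

end

end Pool.Agent.Work.MP_267827_an.Srt
end
end
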