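import Pool.Agent.Work.MP_267827_an.PS.WN
import Pool.Agent.Work.MP_267827_an.PS.Barta
import Pool.Agent.Work.MP_a6a438_an.Miranda
import Pool.Agent.Work.MP_267827_an.Srt.SH

-- merged part: Pool.Agent.Work.MP_267827_an.PS.AStarB
section
-- merged part: Pool.Agent.Work.MP_267827_an.PS.APolA
section
/-! Tools for the polarization on the doubled strip (helper11): gluing of functions of class `C¹`,
the smoothed absolute value, reflections of horizontal strips, test functions. -/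

set_option autoImplicit false

namespace Pool.Agent.Work.MP_267827_an.PS

open MeasureTheory Set Filter Topology Real

noncomputable section

/-! ### gluing -/

/-- a step function -/
def stp (c d x : ℝ) : ℝ := if 0 < x then c else d

theorem abs_stp_le (c d x : ℝ) : |stp c d x| ≤ |c| + |d| := by
  unfold stp
  split_ifs <;> linarith only [abs_nonneg c, abs_nonneg d]

theorem stp_ev {h : ℝ × ℝ → ℝ} (hh : Continuous h) (c d : ℝ) {p : ℝ × ℝ} (hp : h p ≠ 0) :
    ∀ᶠ q in 𝓝 p, stp c d (h q) = stp c d (h p) := by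
  rcases lt_or_gt_of_ne hp with k | k
  · filter_upwards [hh.continuousAt.eventually_lt continuousAt_const k] with q hq
    simp only [stp, if_neg (not_lt.2 hq.le), if_neg (not_lt.2 k.le)]
  · filter_upwards [continuousAt_const.eventually_lt hh.continuousAt k] with q hq
    simp only [stp, if_pos hq, if_pos k]

theorem glue {f h : ℝ × ℝ → ℝ} (hf : ContDiff ℝ 1 f) (hh : Continuous h) (c d : ℝ)
    (z : ∀ p, h p = 0 → f p = 0 ∧ fderiv ℝ f p = 0) :
    ContDiff ℝ 1 (fun p => stp c d (h p) * f p) ∧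
      ∀ p, fderiv ℝ (fun p => stp c d (h p) * f p) p = stp c d (h p) • fderiv ℝ f p := by
  have hd : ∀ p, HasFDerivAt f (fderiv ℝ f p) p := fun p =>
    (hf.differentiable one_ne_zero p).hasFDerivAt
  have hc : Continuous (fderiv ℝ f) := hf.continuous_fderiv one_ne_zero
  have key : ∀ p, HasFDerivAt (fun p => stp c d (h p) * f p) (stp c d (h p) • fderiv ℝ f p) p := by
    intro p
    by_cases hp : h p = 0
    · have k := hd p
      rw [(z p hp).2] at k ⊢
      rw [smul_zero]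
      rw [hasFDerivAt_iff_isLittleO] at k ⊢
      simp only [(z p hp).1, mul_zero, sub_zero, zero_apply] at k ⊢
      refine Asymptotics.IsBigO.trans_isLittleO (Asymptotics.IsBigO.of_bound (|c| + |d|)
        (Eventually.of_forall fun q => ?_)) k
      rw [norm_mul]
      exact mul_le_mul_of_nonneg_right (abs_stp_le c d _) (norm_nonneg _)
    · refine ((hd p).const_mul (stp c d (h p))).congr_of_eventuallyEq ?_
      filter_upwards [stp_ev hh c d hp] with q hq
      rw [hq]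
  have e : fderiv ℝ (fun p => stp c d (h p) * f p) = fun p => stp c d (h p) • fderiv ℝ f p :=
    funext fun p => (key p).fderiv
  refine ⟨contDiff_one_iff_fderiv.2 ⟨fun p => (key p).differentiableAt, ?_⟩, fun p => (key p).fderiv⟩
  rw [e, continuous_iff_continuousAt]
  intro p
  by_cases hp : h p = 0
  · have t : Tendsto (fun q => (|c| + |d|) * ‖fderiv ℝ f q‖) (𝓝 p) (𝓝 0) := by
      have := (hc.norm.tendsto p).const_mul (|c| + |d|)
      rwa [(z p hp).2, norm_zero, mul_zero] at this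
    rw [ContinuousAt, (z p hp).2, smul_zero]
    refine squeeze_zero_norm (fun q => ?_) t
    rw [norm_smul]
    exact mul_le_mul_of_nonneg_right (abs_stp_le c d _) (norm_nonneg _)
  · refine (hc.continuousAt.const_smul (stp c d (h p))).congr ?_
    filter_upwards [stp_ev hh c d hp] with q hq
    rw [hq]
    rfl

/-! ### the smoothed absolute value -/

/-- the smoothed absolute value -/
def rho (e x : ℝ) : ℝ := √(x ^ 2 + e ^ 2) - e

/-- its derivative -/
def rho' (e x : ℝ) : ℝ := x / √(x ^ 2 + e ^ 2)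

theorem rho_der {e : ℝ} (he : 0 < e) (x : ℝ) : HasDerivAt (rho e) (rho' e x) x := by
  have p : 0 < x ^ 2 + e ^ 2 := by positivity
  refine ((((hasDerivAt_pow 2 x).add_const (e ^ 2)).sqrt p.ne').sub_const e).congr_deriv ?_
  have := sqrt_pos.2 p
  simp only [rho']
  field_simp
  norm_num

theorem rho_c1 {e : ℝ} (he : 0 < e) : ContDiff ℝ 1 (rho e) :=
  (((contDiff_id.pow 2).add contDiff_const).sqrt fun x => by
    have : 0 < x ^ 2 + e ^ 2 := by positivity
    exact this.ne').sub contDiff_const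

theorem abs_rho'_le {e : ℝ} (he : 0 < e) (x : ℝ) : |rho' e x| ≤ 1 := by
  have p : 0 < √(x ^ 2 + e ^ 2) := sqrt_pos.2 (by positivity)
  rw [rho', abs_div, abs_of_pos p, div_le_one p]
  exact abs_le_sqrt (by linarith only [sq_nonneg e])

theorem rho_zero {e : ℝ} (he : 0 < e) : rho e 0 = 0 := by simp [rho, sqrt_sq he.le]

theorem rho'_zero (e : ℝ) : rho' e 0 = 0 := by simp [rho']

theorem rho_neg (e x : ℝ) : rho e (-x) = rho e x := by simp [rho]

theorem rho_nonneg (e x : ℝ) : 0 ≤ rho e x :=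
  sub_nonneg.2 (le_sqrt_of_sq_le (by linarith only [sq_nonneg x]))

theorem rho_le {e : ℝ} (he : 0 < e) (x : ℝ) : rho e x ≤ |x| := by
  have : √(x ^ 2 + e ^ 2) ≤ |x| + e :=
    sqrt_le_iff.2 ⟨by positivity, by linarith only [he, abs_nonneg x, sq_abs x, mul_nonneg_of_nonpos_of_nonpos (le_of_lt (Mathlib.Tactic.Linarith.sub_neg_of_lt he)) (Mathlib.Tactic.Linarith.sub_nonpos_of_le (abs_nonneg x))]⟩
  rw [rho]
  linarith

theorem le_rho (e x : ℝ) : |x| - e ≤ rho e x :=
  sub_le_sub_right (abs_le_sqrt (by linarith only [sq_nonneg e])) e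

theorem fderiv_rho {e : ℝ} (he : 0 < e) {f : ℝ × ℝ → ℝ} (hf : ContDiff ℝ 1 f) (p : ℝ × ℝ) :
    fderiv ℝ (fun q => rho e (f q)) p = rho' e (f p) • fderiv ℝ f p :=
  ((rho_der he (f p)).comp_hasFDerivAt p (hf.differentiable one_ne_zero p).hasFDerivAt).fderiv

theorem en_le_of {U V : ℝ × ℝ → ℝ} {p : ℝ × ℝ} {c : ℝ} (hc : |c| ≤ 1)
    (h : fderiv ℝ U p = c • fderiv ℝ V p) : en U p ≤ en V p := by
  have c2 : c ^ 2 ≤ 1 := by rw [← sq_abs]; linarith only [hc, abs_nonneg c, mul_nonneg_of_nonpos_of_nonpos (Mathlib.Tactic.Linarith.sub_nonpos_of_le hc) (Mathlib.Tactic.Linarith.sub_nonpos_of_le (abs_nonneg c))]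
  simp only [en, ds, dt, h, smul_apply, smul_eq_mul, mul_pow]
  linarith only [c2, sq_nonneg (fderiv ℝ V p (1, 0)), sq_nonneg (fderiv ℝ V p (0, 1)), mul_nonneg_of_nonpos_of_nonpos (Mathlib.Tactic.Linarith.sub_nonpos_of_le (sq_nonneg ((fderiv ℝ V p) ((0 : ℝ), (1 : ℝ))))) (Mathlib.Tactic.Linarith.sub_nonpos_of_le c2), mul_nonneg_of_nonpos_of_nonpos (Mathlib.Tactic.Linarith.sub_nonpos_of_le (sq_nonneg ((fderiv ℝ V p) ((1 : ℝ), (0 : ℝ))))) (Mathlib.Tactic.Linarith.sub_nonpos_of_le c2)]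

theorem en_nonneg (V : ℝ × ℝ → ℝ) (p : ℝ × ℝ) : 0 ≤ en V p := by unfold en; positivity

/-! ### strips -/

/-- a horizontal strip -/
def Sp (α β : ℝ) : Set (ℝ × ℝ) := {p | α < p.2 ∧ p.2 < β}

theorem isOpen_Sp (α β : ℝ) : IsOpen (Sp α β) :=
  (isOpen_lt continuous_const continuous_snd).inter (isOpen_lt continuous_snd continuous_const)

theorem meas_Sp (α β : ℝ) : MeasurableSet (Sp α β) := (isOpen_Sp α β).measurableSet

/-- the reflection in a horizontal line -/
def rf (c : ℝ) (p : ℝ × ℝ) : ℝ × ℝ := (p.1, c - p.2)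

/-- the horizontal translation -/
def tr (c : ℝ) (p : ℝ × ℝ) : ℝ × ℝ := (p.1 + c, p.2)

theorem rf_rf (c : ℝ) (p : ℝ × ℝ) : rf c (rf c p) = p := by simp [rf]

theorem rf_c1 (c : ℝ) : ContDiff ℝ 1 (rf c) := contDiff_fst.prodMk (contDiff_const.sub contDiff_snd)

theorem tr_c1 (c : ℝ) : ContDiff ℝ 1 (tr c) := (contDiff_fst.add contDiff_const).prodMk contDiff_snd

theorem rf_mp (c : ℝ) : MeasurePreserving (rf c) volume volume :=
  (MeasurePreserving.id volume).prod (Measure.measurePreserving_sub_left volume c)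

theorem tr_mp (c : ℝ) : MeasurePreserving (tr c) volume volume :=
  (measurePreserving_add_right volume c).prod (MeasurePreserving.id volume)

theorem rf_emb (c : ℝ) : MeasurableEmbedding (rf c) :=
  MeasurableEmbedding.id.prodMap (MeasurableEquiv.subLeft c).measurableEmbedding

theorem tr_emb (c : ℝ) : MeasurableEmbedding (tr c) :=
  (measurableEmbedding_addRight c).prodMap MeasurableEmbedding.id

theorem rf_pre {α β α' β' c : ℝ} (h1 : α' = c - β) (h2 : β' = c - α) :
    rf c ⁻¹' Sp α β = Sp α' β' := by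
  ext p
  simp only [Sp, rf, mem_preimage, mem_ofPred_eq, h1, h2]
  constructor <;> rintro ⟨a, b⟩ <;> constructor <;> linarith only [b, a]

theorem int_rf {α β α' β' c : ℝ} (h1 : α' = c - β) (h2 : β' = c - α) (g : ℝ × ℝ → ℝ) :
    ∫ p in Sp α' β', g (rf c p) = ∫ p in Sp α β, g p := by
  rw [← rf_pre h1 h2]
  exact (rf_mp c).setIntegral_preimage_emb (rf_emb c) g _

theorem intOn_rf {α β α' β' c : ℝ} (h1 : α' = c - β) (h2 : β' = c - α) {g : ℝ × ℝ → ℝ}
    (h : IntegrableOn g (Sp α β)) : IntegrableOn (fun p => g (rf c p)) (Sp α' β') := by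
  rw [← rf_pre h1 h2]
  exact ((rf_mp c).integrableOn_comp_preimage (rf_emb c)).2 h

theorem int_tr (α β c : ℝ) (g : ℝ × ℝ → ℝ) :
    ∫ p in Sp α β, g (tr c p) = ∫ p in Sp α β, g p :=
  (tr_mp c).setIntegral_preimage_emb (tr_emb c) g (Sp α β)

theorem intOn_tr {α β : ℝ} (c : ℝ) {g : ℝ × ℝ → ℝ} (h : IntegrableOn g (Sp α β)) :
    IntegrableOn (fun p => g (tr c p)) (Sp α β) :=
  ((tr_mp c).integrableOn_comp_preimage (tr_emb c)).2 h

theorem ae_snd_ne (c : ℝ) : ∀ᵐ p : ℝ × ℝ, p.2 ≠ c := by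
  rw [ae_iff]
  have : {p : ℝ × ℝ | ¬ p.2 ≠ c} = univ ×ˢ {c} := by ext p; simp
  rw [this, Measure.volume_eq_prod, Measure.prod_prod]
  simp

theorem ae_fst_ne (c : ℝ) : ∀ᵐ p : ℝ × ℝ, p.1 ≠ c := by
  rw [ae_iff]
  have : {p : ℝ × ℝ | ¬ p.1 ≠ c} = {c} ×ˢ univ := by ext p; simp
  rw [this, Measure.volume_eq_prod, Measure.prod_prod]
  simp

theorem Sp_ae {α γ β : ℝ} (h1 : α ≤ γ) (h2 : γ ≤ β) :
    Sp α β =ᵐ[volume] (Sp α γ ∪ Sp γ β : Set (ℝ × ℝ)) := by
  filter_upwards [ae_snd_ne γ] with p hp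
  refine propext ⟨fun h => ?_, fun h => ?_⟩
  · rcases lt_or_gt_of_ne hp with k | k
    · exact Or.inl ⟨h.1, k⟩
    · exact Or.inr ⟨k, h.2⟩
  · rcases h with h | h
    · exact ⟨h.1, h.2.trans_le h2⟩
    · exact ⟨h1.trans_lt h.1, h.2⟩

theorem Sp_left {α γ β : ℝ} (h2 : γ ≤ β) : Sp α γ ⊆ Sp α β := fun _ h => ⟨h.1, h.2.trans_le h2⟩

theorem Sp_right {α γ β : ℝ} (h1 : α ≤ γ) : Sp γ β ⊆ Sp α β := fun _ h => ⟨h1.trans_lt h.1, h.2⟩

theorem int_split {α γ β : ℝ} (h1 : α ≤ γ) (h2 : γ ≤ β) {g : ℝ × ℝ → ℝ}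
    (h : IntegrableOn g (Sp α β)) :
    ∫ p in Sp α β, g p = (∫ p in Sp α γ, g p) + ∫ p in Sp γ β, g p := by
  rw [setIntegral_congr_set (Sp_ae h1 h2), setIntegral_union
    (disjoint_left.2 fun p a b => lt_asymm a.2 b.1) (meas_Sp _ _) (h.mono_set (Sp_left h2))
    (h.mono_set (Sp_right h1))]

theorem intOn_join {α γ β : ℝ} (h1 : α ≤ γ) (h2 : γ ≤ β) {g : ℝ × ℝ → ℝ}
    (a : IntegrableOn g (Sp α γ)) (b : IntegrableOn g (Sp γ β)) : IntegrableOn g (Sp α β) :=
  (a.union b).congr_set_ae (Sp_ae h1 h2)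

/-- comparison of integrals by pairs of mirror points -/
theorem pair_le {α β c : ℝ} (hc : c = α + β) {F G : ℝ × ℝ → ℝ} (hF : IntegrableOn F (Sp α β))
    (hG : IntegrableOn G (Sp α β))
    (h : ∀ p ∈ Sp α β, p.1 ≠ 0 → F p + F (rf c p) ≤ G p + G (rf c p)) :
    ∫ p in Sp α β, F p ≤ ∫ p in Sp α β, G p := by
  have e1 : α = c - β := by linarith only [hc]
  have e2 : β = c - α := by linarith
  have m := setIntegral_mono_on_ae (hF.add (intOn_rf e1 e2 hF)) (hG.add (intOn_rf e1 e2 hG))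
    (meas_Sp α β) (by filter_upwards [ae_fst_ne 0] with p hp k using h p k hp)
  rw [integral_add' hF (intOn_rf e1 e2 hF), integral_add' hG (intOn_rf e1 e2 hG), int_rf e1 e2,
    int_rf e1 e2] at m
  linarith

/-! ### test functions -/

theorem SV.hcs {V : ℝ × ℝ → ℝ} (h : SV V) : HasCompactSupport V := by
  obtain ⟨S, δ, hδ, hs⟩ := h.supp
  refine HasCompactSupport.intro (isCompact_Icc (a := (-S, -π)) (b := (S, π))) fun p hp => ?_
  by_contra c
  obtain ⟨a, b⟩ := hs p c
  rw [abs_le] at a b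
  exact hp ⟨⟨a.1, by show -π ≤ p.2; linarith only [hδ, b, b.1]⟩, ⟨a.2, by show p.2 ≤ π; linarith [b.2]⟩⟩

theorem en_cont {V : ℝ × ℝ → ℝ} (h : ContDiff ℝ 1 V) : Continuous (en V) := by
  have hc : Continuous (fderiv ℝ V) := h.continuous_fderiv one_ne_zero
  exact ((hc.clm_apply continuous_const).pow 2).add ((hc.clm_apply continuous_const).pow 2)

theorem SV.en_hcs {V : ℝ × ℝ → ℝ} (h : SV V) : HasCompactSupport (en V) :=
  (h.hcs.fderiv ℝ).comp_left (g := fun L : ℝ × ℝ →L[ℝ] ℝ => L (1, 0) ^ 2 + L (0, 1) ^ 2) (by simp)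

theorem SV.en_int {V : ℝ × ℝ → ℝ} (h : SV V) : Integrable (en V) :=
  (en_cont h.c1).integrable_of_hasCompactSupport h.en_hcs

theorem SV.bdd {V : ℝ × ℝ → ℝ} (h : SV V) : ∃ C, ∀ p, ‖V p ^ 2‖ ≤ C :=
  Continuous.bounded_above_of_compact_support (f := fun p => V p ^ 2) (h.c1.continuous.pow 2)
    (h.hcs.comp_left (g := fun x : ℝ => x ^ 2) (by simp))

theorem SV.wint {V w : ℝ × ℝ → ℝ} (h : SV V) {S : Set (ℝ × ℝ)} (hw : IntegrableOn w S) :
    IntegrableOn (fun q => w q * V q ^ 2) S := by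
  obtain ⟨C, hC⟩ := h.bdd
  exact Integrable.mul_bdd hw (h.c1.continuous.pow 2).aestronglyMeasurable (Eventually.of_forall hC)

theorem fderiv_rf {V : ℝ × ℝ → ℝ} (h : ContDiff ℝ 1 V) (c : ℝ) (p v : ℝ × ℝ) :
    fderiv ℝ (fun q => V (rf c q)) p v = fderiv ℝ V (rf c p) (v.1, -v.2) := by
  have k : HasFDerivAt (rf c) _ p :=
    (hasFDerivAt_fst (𝕜 := ℝ) (p := p)).prodMk ((hasFDerivAt_snd (𝕜 := ℝ) (p := p)).const_sub c)
  have := ((h.differentiable one_ne_zero (rf c p)).hasFDerivAt.comp p k).fderiv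
  rw [show (fun q => V (rf c q)) = V ∘ rf c from rfl, this]
  simp

theorem en_rf {V : ℝ × ℝ → ℝ} (h : ContDiff ℝ 1 V) (c : ℝ) (p : ℝ × ℝ) :
    en (fun q => V (rf c q)) p = en V (rf c p) := by
  simp only [en, ds, dt, fderiv_rf h, neg_zero]
  rw [show ((0 : ℝ), (-1 : ℝ)) = -((0 : ℝ), (1 : ℝ)) by simp, map_neg, neg_sq]

theorem en_tr {V : ℝ × ℝ → ℝ} (h : ContDiff ℝ 1 V) (c : ℝ) (p : ℝ × ℝ) :
    en (fun q => V (tr c q)) p = en V (tr c p) := by
  have k : HasFDerivAt (tr c) _ p :=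
    ((hasFDerivAt_fst (𝕜 := ℝ) (p := p)).add_const c).prodMk (hasFDerivAt_snd (𝕜 := ℝ) (p := p))
  have := ((h.differentiable one_ne_zero (tr c p)).hasFDerivAt.comp p k).fderiv
  simp only [en, ds, dt]
  rw [show (fun q => V (tr c q)) = V ∘ tr c from rfl, this]
  simp

theorem SV.rf {V : ℝ × ℝ → ℝ} (h : SV V) : SV fun q => V (rf 0 q) := by
  obtain ⟨S, δ, hδ, hs⟩ := h.supp
  refine ⟨h.c1.comp (rf_c1 0), S, δ, hδ, fun p hp => ?_⟩
  simpa [PS.rf] using hs _ hp

theorem SV.tr {V : ℝ × ℝ → ℝ} (h : SV V) (c : ℝ) : SV fun q => V (tr c q) := by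
  obtain ⟨S, δ, hδ, hs⟩ := h.supp
  refine ⟨h.c1.comp (tr_c1 c), S + |c|, δ, hδ, fun p hp => ⟨?_, (hs _ hp).2⟩⟩
  have a : |p.1 + c| ≤ S := (hs _ hp).1
  have := abs_sub (p.1 + c) c
  rw [add_sub_cancel_right] at this
  linarith only [a, this]

theorem SV.rho {V : ℝ × ℝ → ℝ} (h : SV V) {e : ℝ} (he : 0 < e) : SV fun q => rho e (V q) := by
  obtain ⟨S, δ, hδ, hs⟩ := h.supp
  refine ⟨(rho_c1 he).comp h.c1, S, δ, hδ, fun p hp => hs p fun c => hp ?_⟩
  simp only [c, rho_zero he]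

end

end Pool.Agent.Work.MP_267827_an.PS
end

-- merged part: Pool.Agent.Work.MP_267827_an.PS.APolB
section
/-! The polarization of a test function on the doubled strip (helper11). -/

set_option autoImplicit false

namespace Pool.Agent.Work.MP_267827_an.PS

open MeasureTheory Set Filter Topology Real

noncomputable section

/-- the two strips that are invariant under the reflection of the circle -/
def Half (ψ α β c : ℝ) : Prop :=
  (α = ψ - π ∧ β = π ∧ c = ψ) ∨ (α = -π ∧ β = ψ - π ∧ c = ψ - 2 * π)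

/-- negative on the half of the circle that contains `t = 0` -/
def sd (ψ : ℝ) (p : ℝ × ℝ) : ℝ := (p.2 - ψ / 2) * (p.2 - ψ / 2 + π)

theorem Half.sum {ψ α β c : ℝ} (h : Half ψ α β c) : c = α + β := by
  rcases h with ⟨rfl, rfl, rfl⟩ | ⟨rfl, rfl, rfl⟩ <;> ring

theorem Half.mem {ψ α β c : ℝ} (h : Half ψ α β c) {p : ℝ × ℝ} (hp : p ∈ Sp α β) :
    rf c p ∈ Sp α β := by
  have := h.sum
  exact ⟨by show α < c - p.2; linarith only [this, hp, hp.2], by show c - p.2 < β; linarith [hp.1]⟩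

theorem Half.abs {ψ α β c : ℝ} (h : Half ψ α β c) (h0 : 0 < ψ) (h1 : ψ ≤ π) {p : ℝ × ℝ}
    (hp : p ∈ Sp α β) : |p.2| < π := by
  have := hp.1
  have := hp.2
  rcases h with ⟨rfl, rfl, rfl⟩ | ⟨rfl, rfl, rfl⟩ <;> exact abs_lt.2 ⟨by linarith, by linarith⟩

theorem Half.sgn {ψ α β c : ℝ} (h : Half ψ α β c) (h0 : 0 < ψ) (h1 : ψ ≤ π) {p : ℝ × ℝ}
    (hp : p ∈ Sp α β) : (0 < sd ψ p → sd ψ (rf c p) < 0) ∧ (sd ψ p < 0 → 0 < sd ψ (rf c p)) := by
  have a1 := hp.1
  have a2 := hp.2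
  simp only [sd, rf]
  rcases h with ⟨rfl, rfl, rfl⟩ | ⟨rfl, rfl, rfl⟩
  · have u : 0 < p.2 - c / 2 + π := by linarith only [h0, a1]
    have v : 0 < c - p.2 - c / 2 + π := by linarith only [a2, h0]
    constructor
    · intro k
      exact mul_neg_of_neg_of_pos (by linarith only [u, k, (mul_pos_iff_of_pos_right u).1 k]) v
    · intro k
      exact mul_pos (by (refine lt_of_not_ge fun h_nl => ?_; linarith only [h_nl, k, h0, a1, mul_nonneg_of_nonpos_of_nonpos (le_of_lt (Mathlib.Tactic.Linarith.sub_neg_of_lt h0)) (Mathlib.Tactic.Linarith.sub_nonpos_of_le h_nl), mul_nonneg_of_nonpos_of_nonpos (le_of_lt (Mathlib.Tactic.Linarith.sub_neg_of_lt a1)) (Mathlib.Tactic.Linarith.sub_nonpos_of_le h_nl)])) v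
  · have u : p.2 - ψ / 2 < 0 := by linarith only [h1, a1, a2]
    have v : ψ - 2 * π - p.2 - ψ / 2 < 0 := by linarith only [h1, a1, a2]
    constructor
    · intro k
      exact mul_neg_of_neg_of_pos v (by (refine lt_of_not_ge fun h_nl => ?_; linarith only [h_nl, k, h0, h1, a2, mul_nonneg_of_nonpos_of_nonpos (le_of_lt (Mathlib.Tactic.Linarith.sub_neg_of_lt h0)) (Mathlib.Tactic.Linarith.sub_nonpos_of_le h_nl), mul_nonneg_of_nonpos_of_nonpos (Mathlib.Tactic.Linarith.sub_nonpos_of_le h1) (Mathlib.Tactic.Linarith.sub_nonpos_of_le h_nl), mul_nonneg_of_nonpos_of_nonpos (le_of_lt (Mathlib.Tactic.Linarith.sub_neg_of_lt a2)) (Mathlib.Tactic.Linarith.sub_nonpos_of_le h_nl)]))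
    · intro k
      exact mul_pos_of_neg_of_neg v (by (refine lt_of_not_ge fun h_nl => ?_; linarith only [h_nl, k, h0, h1, a2, mul_nonneg_of_nonpos_of_nonpos (le_of_lt (Mathlib.Tactic.Linarith.sub_neg_of_lt h0)) (Mathlib.Tactic.Linarith.sub_nonpos_of_le h_nl), mul_nonneg_of_nonpos_of_nonpos (Mathlib.Tactic.Linarith.sub_nonpos_of_le h1) (Mathlib.Tactic.Linarith.sub_nonpos_of_le h_nl), mul_nonneg_of_nonpos_of_nonpos (le_of_lt (Mathlib.Tactic.Linarith.sub_neg_of_lt a2)) (Mathlib.Tactic.Linarith.sub_nonpos_of_le h_nl)]))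

theorem polar {V : ℝ × ℝ → ℝ} (hV : SV V) {ψ e : ℝ} (h0 : 0 < ψ) (h1 : ψ ≤ π) (he : 0 < e) :
    ∃ U, SV U ∧ (∀ p, 0 ≤ U p) ∧ ∀ α β c, Half ψ α β c → ∀ p ∈ Sp α β,
      en U p + en U (rf c p) ≤ en V p + en V (rf c p) ∧
      min |V p| |V (rf c p)| - 4 * e ≤ U p ∧
      (sd ψ p ≤ 0 → max |V p| |V (rf c p)| - 4 * e ≤ U p) := by
  have hp := pi_pos
  obtain ⟨a, ha⟩ : ∃ a : ℝ × ℝ → ℝ, a = fun q => rho e (V q) := ⟨_, rfl⟩
  have sa : SV a := ha ▸ hV.rho he
  have a0 : ∀ q, 0 ≤ a q := fun q => ha ▸ rho_nonneg e _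
  have aV : ∀ q, |V q| - e ≤ a q := fun q => ha ▸ le_rho e _
  have ae : ∀ q, en a q ≤ en V q := fun q =>
    en_le_of (abs_rho'_le he _) (ha ▸ fderiv_rho he hV.c1 q)
  obtain ⟨S, δ, hδ, hs⟩ := sa.supp
  have z1 : ∀ q : ℝ × ℝ, S < |q.1| → a q = 0 := fun q h => by
    by_contra c
    linarith [(hs q c).1]
  have z2 : ∀ q : ℝ × ℝ, π - δ < |q.2| → a q = 0 := fun q h => by
    by_contra c
    linarith [(hs q c).2]
  obtain ⟨b, hb⟩ : ∃ b : ℝ × ℝ → ℝ, b = fun q => a (rf ψ q) + a (rf (ψ - 2 * π) q) := ⟨_, rfl⟩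
  have b1 : ContDiff ℝ 1 b := hb ▸ (sa.c1.comp (rf_c1 _)).add (sa.c1.comp (rf_c1 _))
  have b0 : ∀ q, 0 ≤ b q := fun q => hb ▸ add_nonneg (a0 _) (a0 _)
  have ab1 : ContDiff ℝ 1 fun q => a q - b q := sa.c1.sub b1
  have bz : ∀ q, sd ψ q = 0 → a q - b q = 0 := by
    intro q hq
    rcases mul_eq_zero.1 hq with k | k
    · have e1 : rf ψ q = q := Prod.ext rfl (by show ψ - q.2 = q.2; linarith only [k])
      have e2 : a (rf (ψ - 2 * π) q) = 0 := z2 _ (lt_abs.2 (Or.inr (by
        show π - δ < -(ψ - 2 * π - q.2); linarith only [h0, h1, hδ, k])))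
      simp only [hb, e1, e2, add_zero, sub_self]
    · have e1 : rf (ψ - 2 * π) q = q := Prod.ext rfl (by show ψ - 2 * π - q.2 = q.2; linarith only [k])
      have e2 : a (rf ψ q) = 0 := z2 _ (lt_abs.2 (Or.inl (by show π - δ < ψ - q.2; linarith only [h0, hδ, k])))
      simp only [hb, e1, e2, zero_add, sub_self]
  have bh : ∀ α β c, Half ψ α β c → ∀ p ∈ Sp α β, b p = a (rf c p) := by
    intro α β c h p k
    have a1 := k.1
    have a2 := k.2
    rcases h with ⟨rfl, rfl, rfl⟩ | ⟨rfl, rfl, rfl⟩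
    · have e2 : a (rf (c - 2 * π) p) = 0 := z2 _ (lt_abs.2 (Or.inr (by
        show π - δ < -(c - 2 * π - p.2); linarith)))
      simp only [hb, e2, add_zero]
    · have e2 : a (rf ψ p) = 0 := z2 _ (lt_abs.2 (Or.inl (by show π - δ < ψ - p.2; linarith)))
      simp only [hb, e2, zero_add]
  obtain ⟨g1, g2⟩ := glue (f := fun q => rho e (a q - b q)) (h := sd ψ) ((rho_c1 he).comp ab1)
    (by unfold sd; fun_prop) 1 (-1) fun q hq => by
      rw [fderiv_rho he ab1]
      simp only [bz q hq, rho_zero he, rho'_zero, zero_smul, and_self]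
  obtain ⟨W, hW⟩ : ∃ W : ℝ × ℝ → ℝ,
      W = fun q => (a q + b q - stp 1 (-1) (sd ψ q) * rho e (a q - b q)) / 2 := ⟨_, rfl⟩
  have W1 : ContDiff ℝ 1 W := hW ▸ ((sa.c1.add b1).sub g1).div_const 2
  have da : ∀ q, HasFDerivAt a (fderiv ℝ a q) q := fun q =>
    (sa.c1.differentiable one_ne_zero q).hasFDerivAt
  have db : ∀ q, HasFDerivAt b (fderiv ℝ b q) q := fun q =>
    (b1.differentiable one_ne_zero q).hasFDerivAt
  have dW : ∀ q, ∃ k : ℝ, k ^ 2 ≤ 1 ∧ ∀ v, fderiv ℝ W q v =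
      (fderiv ℝ a q v + fderiv ℝ b q v - k * (fderiv ℝ a q v - fderiv ℝ b q v)) / 2 := by
    intro q
    refine ⟨stp 1 (-1) (sd ψ q) * rho' e (a q - b q), ?_, fun v => ?_⟩
    · have r := abs_rho'_le he (a q - b q)
      have s : stp 1 (-1) (sd ψ q) ^ 2 = 1 := by unfold stp; split_ifs <;> norm_num
      rw [mul_pow, s, one_mul, ← sq_abs]
      exact pow_le_one₀ (abs_nonneg _) r
    · have k := (g1.differentiable one_ne_zero q).hasFDerivAt
      rw [g2, fderiv_rho he ab1, ((da q).fun_sub (db q)).fderiv] at k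
      have := ((((da q).fun_add (db q)).fun_sub k).mul_const (2⁻¹ : ℝ)).fderiv
      simp only [← div_eq_mul_inv] at this
      rw [hW, this]
      simp only [smul_apply, sub_apply, add_apply, smul_eq_mul]
      ring
  have Wmin : ∀ q, min (a q) (b q) ≤ W q := fun q => by
    have r1 := rho_le he (a q - b q)
    have r0 := rho_nonneg e (a q - b q)
    have m1 := min_le_left (a q) (b q)
    have m2 := min_le_right (a q) (b q)
    simp only [hW, stp]
    split_ifs
    · rcases abs_cases (a q - b q) with k | k <;> linarith only [r1, m2, k, m1, k.1]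
    · linarith only [r0, m1, m2]
  have Wmax : ∀ q, sd ψ q ≤ 0 → max (a q) (b q) - e ≤ W q := fun q hq => by
    have r1 := le_rho e (a q - b q)
    simp only [hW, stp, if_neg (not_lt.2 hq)]
    rw [sub_le_iff_le_add, max_le_iff]
    constructor <;> linarith only [he, r1, le_abs_self (a q - b q), neg_abs_le (a q - b q)]
  have Wend : ∀ q : ℝ × ℝ, π - min δ (ψ / 2) < |q.2| → |q.2| ≤ π → W q < e := fun q k1 k2 => by
    have m1 := min_le_left δ (ψ / 2)
    have m2 := min_le_right δ (ψ / 2)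
    have z := z2 q (by linarith only [k1, m1])
    have s : 0 < sd ψ q := by
      rcases abs_cases q.2 with k | k
      · exact mul_pos (by linarith only [h1, k1, m2, k, k.1]) (by linarith only [h1, k1, k2, m2, k, k.1])
      · exact mul_pos_of_neg_of_neg (by linarith only [h1, k1, k2, m2, k, k.1]) (by linarith only [k1, m2, k, k.1])
    have r1 := le_rho e (0 - b q)
    rw [zero_sub, abs_neg, abs_of_nonneg (b0 q)] at r1
    simp only [hW, stp, if_pos s, z, zero_sub]
    linarith only [he, r1]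
  have We1 : ContDiff ℝ 1 fun q => W q - e := W1.sub contDiff_const
  have dWe : ∀ q, fderiv ℝ (fun q => W q - e) q = fderiv ℝ W q := fun q => fderiv_sub_const e
  obtain ⟨u1, u2⟩ := glue (f := fun q => rho e (W q - e)) (h := fun q => min (W q - e) (π - |q.2|))
    ((rho_c1 he).comp We1) (We1.continuous.min (by fun_prop)) 1 0 fun q hq => by
      have z : W q - e = 0 := by
        rcases min_eq_iff.1 hq with k | k
        · exact k.1
        · have := Wend q (by linarith only [k, hδ, h0, k.1, lt_min hδ (half_pos h0)]) (by linarith [k.1])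
          linarith only [k, this, k.2]
      rw [fderiv_rho he We1]
      simp only [z, rho_zero he, rho'_zero, zero_smul, and_self]
  obtain ⟨U, hU⟩ : ∃ U : ℝ × ℝ → ℝ,
      U = fun q => stp 1 0 (min (W q - e) (π - |q.2|)) * rho e (W q - e) := ⟨_, rfl⟩
  rw [← hU] at u1 u2
  have U0 : ∀ q, 0 ≤ U q := fun q => by
    simp only [hU, stp]
    split_ifs
    · linarith only [rho_nonneg e (W q - e)]
    · linarith
  have UW : ∀ q : ℝ × ℝ, |q.2| < π → W q - 2 * e ≤ U q := fun q hq => by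
    by_cases k : 0 < W q - e
    · have := le_rho e (W q - e)
      rw [abs_of_pos k] at this
      simp only [hU, stp, if_pos (lt_min k (sub_pos.2 hq))]
      linarith only [this]
    · linarith [U0 q]
  have Ue : ∀ q, en U q ≤ en W q := fun q => by
    refine en_le_of (c := stp 1 0 (min (W q - e) (π - |q.2|)) * rho' e (W q - e)) ?_
      (by rw [u2, fderiv_rho he We1, dWe, smul_smul])
    have r := abs_rho'_le he (W q - e)
    simp only [stp]
    split_ifs
    · rwa [one_mul]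
    · simp
  refine ⟨U, ⟨u1, S, min δ (ψ / 2), lt_min hδ (half_pos h0), fun q hq => ?_⟩, U0,
    fun α β c h p k => ⟨?_, ?_, fun s => ?_⟩⟩
  · have m : 0 < min (W q - e) (π - |q.2|) := by
      by_contra c
      exact hq (by simp only [hU, stp, if_neg c, zero_mul])
    rw [lt_min_iff] at m
    constructor
    · by_contra c
      have c := not_le.1 c
      have : W q = 0 := by
        simp only [hW, hb, z1 q c, z1 (rf ψ q) c, z1 (rf (ψ - 2 * π) q) c, add_zero, sub_self,
          rho_zero he, mul_zero, zero_div]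
      linarith only [he, m, this, m.1]
    · by_contra c
      linarith only [m, Wend, c, Wend q (not_le.1 c) (by linarith [m.2]), m.1]
  · have n := (isOpen_Sp α β).mem_nhds k
    have e1 : (fun q => W (rf c q)) =ᶠ[𝓝 p] fun q => a q + b q - W q := by
      filter_upwards [n] with q hq
      have t1 := bh α β c h q hq
      have t2 := bh α β c h _ (h.mem hq)
      rw [rf_rf] at t2
      have t3 : rho e (b q - a q) = rho e (a q - b q) := by rw [← rho_neg, neg_sub]
      have t4 : stp 1 (-1) (sd ψ (rf c q)) * rho e (a q - b q) =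
          -(stp 1 (-1) (sd ψ q) * rho e (a q - b q)) := by
        rcases lt_trichotomy (sd ψ q) 0 with s | s | s
        · simp only [stp, if_pos ((h.sgn h0 h1 hq).2 s), if_neg (not_lt.2 s.le)]
          ring
        · simp only [bz q s, rho_zero he, mul_zero, neg_zero]
        · simp only [stp, if_pos s, if_neg (not_lt.2 ((h.sgn h0 h1 hq).1 s).le)]
          ring
      simp only [hW, ← t1, t2, t3, t4]
      ring
    have e2 : b =ᶠ[𝓝 p] fun q => a (rf c q) := by
      filter_upwards [n] with q hq using bh α β c h q hq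
    have f1 : fderiv ℝ (fun q => W (rf c q)) p = fderiv ℝ a p + fderiv ℝ b p - fderiv ℝ W p := by
      rw [e1.fderiv_eq]
      exact (((da p).fun_add (db p)).fun_sub (W1.differentiable one_ne_zero p).hasFDerivAt).fderiv
    have f2 : en b p = en a (rf c p) := by
      rw [← en_rf sa.c1]
      simp only [en, ds, dt, e2.fderiv_eq]
    have f3 : en W p + en W (rf c p) ≤ en a p + en b p := by
      obtain ⟨κ, k1, k2⟩ := dW p
      rw [← en_rf W1]
      simp only [en, ds, dt, f1, sub_apply, add_apply, k2]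
      linarith only [mul_le_mul_of_nonneg_right k1
          (sq_nonneg (fderiv ℝ a p (1, 0) - fderiv ℝ b p (1, 0))),
        mul_le_mul_of_nonneg_right k1 (sq_nonneg (fderiv ℝ a p (0, 1) - fderiv ℝ b p (0, 1)))]
    linarith only [f2, f3, Ue p, Ue (rf c p), ae p, ae (rf c p)]
  · have t1 := UW p (h.abs h0 h1 k)
    have t2 := Wmin p
    rw [bh α β c h p k] at t2
    have t3 : min |V p| |V (rf c p)| - e ≤ min (a p) (a (rf c p)) :=
      le_min (by linarith only [aV, min_le_left |V p| |V (rf c p)|, aV p])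
        (by linarith only [aV, min_le_right |V p| |V (rf c p)|, aV (rf c p)])
    linarith
  · have t1 := UW p (h.abs h0 h1 k)
    have t2 := Wmax p s
    rw [bh α β c h p k] at t2
    have t3 : max |V p| |V (rf c p)| ≤ max (a p) (a (rf c p)) + e :=
      max_le (by linarith [le_max_left (a p) (a (rf c p)), aV p])
        (by linarith only [aV, le_max_right (a p) (a (rf c p)), aV (rf c p)])
    linarith only [t1, t2, t3]

theorem pair_alg {f₁ f₂ x y u₁ u₂ e : ℝ} (h : f₂ ≤ f₁) (h0 : 0 ≤ f₂) (he : 0 < e)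
    (a : max |x| |y| - 4 * e ≤ u₁) (b : min |x| |y| - 4 * e ≤ u₂) :
    f₂ * x ^ 2 + f₁ * y ^ 2 ≤
      (1 + e) * (f₁ * u₁ ^ 2 + f₂ * u₂ ^ 2) + 16 * e * (1 + e) * (f₁ + f₂) := by
  have k : ∀ m u : ℝ, 0 ≤ m → m - 4 * e ≤ u → m ^ 2 ≤ (1 + e) * u ^ 2 + 16 * e * (1 + e) := by
    intro m u m0 hm
    have : m ^ 2 ≤ (u + 4 * e) ^ 2 := pow_le_pow_left₀ m0 (by linarith) 2
    linarith only [this, he, mul_nonneg he.le (sq_nonneg (u - 4)), sq_nonneg (u - (4 : ℝ))]
  have k1 := mul_le_mul_of_nonneg_left (k _ _ (le_max_of_le_left (abs_nonneg x)) a) (h0.trans h)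
  have k2 := mul_le_mul_of_nonneg_left (k _ _ (le_min (abs_nonneg x) (abs_nonneg y)) b) h0
  rw [← sq_abs x, ← sq_abs y]
  rcases le_total |x| |y| with c | c
  · rw [max_eq_right c] at k1
    rw [min_eq_left c] at k2
    linarith only [k1, k2]
  · rw [max_eq_left c] at k1
    rw [min_eq_right c] at k2
    linarith only [k1, k2, h, c, mul_nonneg (sub_nonneg.2 h) (sub_nonneg.2 (pow_le_pow_left₀ (abs_nonneg y) c 2))]

end

end Pool.Agent.Work.MP_267827_an.PS
end

-- merged part: Pool.Agent.Work.MP_267827_an.PS.APol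
section
/-! Polarization on the doubled strip (helper11). -/

set_option autoImplicit false

namespace Pool.Agent.Work.MP_267827_an.PS

open MeasureTheory Set Filter Topology Real

noncomputable section

/-- the weight with one singular point `X` -/
def wX (b P : ℝ) (X : ℂ) (q : ℝ × ℝ) : ℝ :=
  exp (2 * b * q.1 / π) * ‖X - Complex.exp (pt 1 1 q)‖ ^ (-(2 * P))

/-- the lower bound on the doubled strip -/
def CLow (Λ : ℝ) (w : ℝ × ℝ → ℝ) : Prop :=
  ∀ V : ℝ × ℝ → ℝ, SV V →
    ENNReal.ofReal (2 * Λ) * ∫⁻ q in Cy, ENNReal.ofReal (w q * V q ^ 2) ≤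
      (∫⁻ q in Cy, ENNReal.ofReal (w q)) * ENNReal.ofReal (∫ q in Cy, en V q)

/-- the same with real integrals -/
def CR (Λ : ℝ) (w : ℝ × ℝ → ℝ) : Prop :=
  ∀ V : ℝ × ℝ → ℝ, SV V →
    2 * Λ * ∫ q in Sp (-π) π, w q * V q ^ 2 ≤ (∫ q in Sp (-π) π, w q) * ∫ q in Sp (-π) π, en V q

theorem clow_iff {Λ : ℝ} {w : ℝ × ℝ → ℝ} (hi : IntegrableOn w Cy) (h0 : ∀ q, 0 ≤ w q) :
    CLow Λ w ↔ CR Λ w := by
  refine forall₂_congr fun V hV => ?_
  have n1 : ∀ q, 0 ≤ w q * V q ^ 2 := fun q => mul_nonneg (h0 q) (sq_nonneg _)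
  have n2 : 0 ≤ ∫ q in Cy, w q := integral_nonneg h0
  rw [← ofReal_integral_eq_lintegral_ofReal (hV.wint hi) (Eventually.of_forall n1),
    ← ofReal_integral_eq_lintegral_ofReal hi (Eventually.of_forall h0),
    ← ENNReal.ofReal_mul' (integral_nonneg n1), ← ENNReal.ofReal_mul n2,
    ENNReal.ofReal_le_ofReal_iff (mul_nonneg n2 (integral_nonneg (en_nonneg V)))]
  rfl

theorem wX_nonneg (b P : ℝ) (X : ℂ) (q : ℝ × ℝ) : 0 ≤ wX b P X q := by unfold wX; positivity

theorem wX_meas (b P : ℝ) (X : ℂ) : Measurable (wX b P X) := by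
  unfold wX
  exact (by fun_prop : Continuous fun q : ℝ × ℝ => exp (2 * b * q.1 / π)).measurable.mul
    ((by fun_prop : Continuous fun q : ℝ × ℝ => ‖X - Complex.exp (pt 1 1 q)‖).measurable.pow_const _)

theorem wX_ei (b P ψ : ℝ) (q : ℝ × ℝ) : wX b P (ei ψ) q =
    exp (2 * b * q.1 / π) * (1 - 2 * exp q.1 * cos (ψ - q.2) + exp q.1 ^ 2) ^ (-P) := by
  have : ‖ei ψ - Complex.exp (pt 1 1 q)‖ ^ 2 = 1 - 2 * exp q.1 * cos (ψ - q.2) + exp q.1 ^ 2 := by
    rw [Complex.sq_norm, Complex.normSq_apply, Complex.sub_re, Complex.sub_im, ei,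
      Complex.exp_ofReal_mul_I_re, Complex.exp_ofReal_mul_I_im, Complex.exp_re, Complex.exp_im,
      pt_re, pt_im, one_mul, one_mul, cos_sub]
    linear_combination cos_sq_add_sin_sq ψ + exp q.1 ^ 2 * cos_sq_add_sin_sq q.2
  rw [wX, ← this, ← rpow_natCast, ← rpow_mul (norm_nonneg _)]
  norm_num

theorem wX_rf0 (b P ψ : ℝ) (q : ℝ × ℝ) : wX b P (ei ψ) (rf 0 q) = wX b P (ei (-ψ)) q := by
  simp only [wX_ei, rf]
  rw [← cos_neg]
  congr 6
  ring

theorem wX_half {ψ α β c : ℝ} (h : Half ψ α β c) (b P : ℝ) (q : ℝ × ℝ) :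
    wX b P (ei 0) (rf c q) = wX b P (ei ψ) q := by
  simp only [wX_ei, rf, zero_sub, cos_neg]
  rcases h with ⟨-, -, rfl⟩ | ⟨-, -, rfl⟩
  · rfl
  · rw [show ψ - 2 * π - q.2 = ψ - q.2 - 2 * π by ring, cos_sub_two_pi]

theorem wX_mono {ψ P : ℝ} (b : ℝ) (h0 : 0 < ψ) (h1 : ψ ≤ π) (hP : 0 ≤ P) {q : ℝ × ℝ}
    (hs : q.1 ≠ 0) (hq : sd ψ q ≤ 0) : wX b P (ei ψ) q ≤ wX b P (ei 0) q := by
  have hp := pi_pos
  simp only [wX_ei, zero_sub, cos_neg]
  have u1 : q.2 - ψ / 2 ≤ 0 := by
    by_contra c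
    exact not_lt.2 hq (mul_pos (not_le.1 c) (by linarith only [h0, h1, c, not_le.1 c]))
  have u2 : -π ≤ q.2 - ψ / 2 := by
    by_contra c
    exact not_lt.2 hq (mul_pos_of_neg_of_neg (by linarith only [h0, h1, c, not_le.1 c]) (by linarith only [c, not_le.1 c]))
  have c : cos (ψ - q.2) ≤ cos q.2 := by
    have := cos_sub_cos q.2 (ψ - q.2)
    rw [show (q.2 + (ψ - q.2)) / 2 = ψ / 2 by ring,
      show (q.2 - (ψ - q.2)) / 2 = q.2 - ψ / 2 by ring] at this
    linarith only [this, h0, h1, u1, u2, mul_nonneg (sin_nonneg_of_nonneg_of_le_pi (half_pos h0).le (by linarith))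
      (neg_nonneg.2 (sin_nonpos_of_nonpos_of_neg_pi_le u1 u2))]
  have e := exp_pos q.1
  have e1 : 0 < (1 - exp q.1) ^ 2 :=
    sq_pos_of_ne_zero (sub_ne_zero.2 fun k => hs ((exp_eq_one_iff _).1 k.symm))
  refine mul_le_mul_of_nonneg_left (rpow_le_rpow_of_nonpos ?_ ?_ (neg_nonpos.2 hP)) (exp_pos _).le
  · linarith only [e1, e, mul_le_mul_of_nonneg_left (cos_le_one q.2) e.le]
  · linarith only [c, e, mul_le_mul_of_nonneg_left c e.le]

theorem wX_scale (b P : ℝ) {X : ℂ} (hX : X ≠ 0) : ∃ κ c : ℝ, 0 < κ ∧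
    wX b P X = fun q => κ * wX b P (ei X.arg) (tr c q) := by
  have r := norm_pos_iff.2 hX
  refine ⟨exp (2 * b * log ‖X‖ / π) * ‖X‖ ^ (-(2 * P)), -log ‖X‖, by positivity,
    funext fun q => ?_⟩
  have e1 : Complex.exp (pt 1 1 q) = ‖X‖ * Complex.exp (pt 1 1 (tr (-log ‖X‖) q)) := by
    conv_rhs => rw [← exp_log r, Complex.ofReal_exp, ← Complex.exp_add]
    congr 1
    simp only [pt, tr, exp_log r]
    push_cast
    ring
  have e2 : X - Complex.exp (pt 1 1 q) =
      ‖X‖ * (ei X.arg - Complex.exp (pt 1 1 (tr (-log ‖X‖) q))) := by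
    rw [e1, mul_sub, ei, Complex.norm_mul_exp_arg_mul_I]
  have e3 : exp (2 * b * q.1 / π) =
      exp (2 * b * log ‖X‖ / π) * exp (2 * b * (tr (-log ‖X‖) q).1 / π) := by
    rw [← exp_add]
    congr 1
    simp only [tr]
    ring
  rw [wX, wX, e2, e3, norm_mul, Complex.norm_real, norm_norm,
    mul_rpow r.le (norm_nonneg _)]
  ring

/-! ### integrability -/

theorem int_ray {c P : ℝ} (hc : 0 < c) (h0 : 0 ≤ P) (h1 : P < 1) :
    IntegrableOn (fun u : ℝ => exp (-c * u) * (1 - exp (-(2 * u))) ^ (-P)) (Ioi 0) := by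
  have i1 := integrableOn_exp_mul_Ioi (neg_lt_zero.2 hc) 0
  have i2 := integrableOn_rpow_mul_exp_neg_mul_rpow (p := 1) (s := -P) (by linarith) one_pos hc
  refine ((i1.add i2).const_mul ((1 / 2 : ℝ) ^ (-P))).mono' (Measurable.aestronglyMeasurable
    (by fun_prop)) ((ae_restrict_iff' measurableSet_Ioi).2 (Eventually.of_forall fun u hu => ?_))
  have u0 : 0 < u := hu
  have k : exp (-(2 * u)) * (1 + 2 * u) ≤ 1 := by
    have := mul_le_mul_of_nonneg_left (add_one_le_exp (2 * u)) (exp_pos (-(2 * u))).le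
    rw [← exp_add, neg_add_cancel, exp_zero] at this
    linarith
  have e := exp_pos (-(2 * u))
  have l : exp (-(2 * u)) < 1 := by linarith only [k, u0, e, mul_pos_of_neg_of_neg (Mathlib.Tactic.Linarith.sub_neg_of_lt u0) (Mathlib.Tactic.Linarith.sub_neg_of_lt e)]
  have b : (1 - exp (-(2 * u))) ^ (-P) ≤ (1 / 2 : ℝ) ^ (-P) * (1 + u ^ (-P)) := by
    have p1 : 0 < (1 / 2 : ℝ) ^ (-P) := by positivity
    have p2 : 0 < u ^ (-P) := by positivity
    rcases le_total u 1 with k1 | k1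
    · refine (rpow_le_rpow_of_nonpos (x := 1 / 2 * u) (by positivity) (by (refine le_of_not_gt fun h_nl => ?_; linarith only [h_nl, k, u0, e, k1, mul_pos_of_neg_of_neg (Mathlib.Tactic.Linarith.sub_neg_of_lt u0) (Mathlib.Tactic.Linarith.sub_neg_of_lt e), mul_nonneg_of_nonpos_of_nonpos (le_of_lt (Mathlib.Tactic.Linarith.sub_neg_of_lt u0)) (Mathlib.Tactic.Linarith.sub_nonpos_of_le k1), mul_pos_of_neg_of_neg (Mathlib.Tactic.Linarith.sub_neg_of_lt u0) (Mathlib.Tactic.Linarith.sub_neg_of_lt h_nl)]))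
        (neg_nonpos.2 h0)).trans ?_
      rw [mul_rpow (by norm_num) u0.le]
      linarith only [p1]
    · refine (rpow_le_rpow_of_nonpos (x := 1 / 2) (by positivity) (by (refine le_of_not_gt fun h_nl => ?_; linarith only [h_nl, k, k1, u0, e, mul_pos_of_neg_of_neg (Mathlib.Tactic.Linarith.sub_neg_of_lt u0) (Mathlib.Tactic.Linarith.sub_neg_of_lt e), mul_pos_of_neg_of_neg (Mathlib.Tactic.Linarith.sub_neg_of_lt u0) (Mathlib.Tactic.Linarith.sub_neg_of_lt h_nl)]))
        (neg_nonpos.2 h0)).trans ?_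
      (refine le_of_not_gt fun h_nl => ?_; linarith only [h_nl, e, l, p1, p2, mul_pos_of_neg_of_neg (Mathlib.Tactic.Linarith.sub_neg_of_lt e) (Mathlib.Tactic.Linarith.sub_neg_of_lt h_nl), mul_pos_of_neg_of_neg (Mathlib.Tactic.Linarith.sub_neg_of_lt l) (Mathlib.Tactic.Linarith.sub_neg_of_lt h_nl), mul_pos_of_neg_of_neg (Mathlib.Tactic.Linarith.sub_neg_of_lt p1) (Mathlib.Tactic.Linarith.sub_neg_of_lt p2)])
  rw [Real.norm_of_nonneg (mul_nonneg (exp_pos _).le (rpow_nonneg (by linarith only [l]) _))]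
  simp only [Pi.add_apply, rpow_one]
  linarith only [b, mul_le_mul_of_nonneg_left b (exp_pos (-c * u)).le]

theorem int_line {α β : ℝ} (ha : 0 < α) (hb : 0 < β) (h1 : α + β < 1) :
    Integrable fun s : ℝ => exp (2 * β * s) * |1 - exp s ^ 2| ^ (-(α + β)) := by
  have h0 : 0 ≤ α + β := by positivity
  have e : ∀ s : ℝ, exp s ^ 2 = exp (2 * s) := fun s => by rw [← exp_nat_mul]; norm_num
  rw [← integrableOn_univ, ← Iic_union_Ioi (a := 0), integrableOn_union,
    integrableOn_Iic_iff_integrableOn_Iio]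
  constructor
  · have := (int_ray (c := 2 * β) (by positivity) h0 h1)
    rw [← neg_zero] at this
    refine this.comp_neg_Iio.congr_fun (fun s hs => ?_) measurableSet_Iio
    have s0 : s < 0 := hs
    have : exp (2 * s) < 1 := exp_lt_one_iff.2 (by linarith only [s0])
    simp only [e, abs_of_pos (sub_pos.2 this), neg_mul, mul_neg, neg_neg]
  · refine (int_ray (c := 2 * α) (by positivity) h0 h1).congr_fun (fun s hs => ?_) measurableSet_Ioi
    have s0 : 0 < s := hs
    have l : exp (-(2 * s)) < 1 := exp_lt_one_iff.2 (by linarith)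
    have : |1 - exp s ^ 2| = exp (2 * s) * (1 - exp (-(2 * s))) := by
      rw [e, abs_sub_comm, abs_of_pos (sub_pos.2 (one_lt_exp_iff.2 (by linarith))), mul_sub,
        ← exp_add]
      simp
    simp only [this]
    rw [mul_rpow (exp_pos _).le (by linarith), ← exp_mul, ← mul_assoc, ← exp_add]
    congr 2
    ring

theorem wX_int0 {a b : ℝ} (ha : 0 < a) (hb : 0 < b) (hab : a + b < π) :
    IntegrableOn (wX b ((a + b) / π) (ei 0)) (Sp 0 π) := by
  have hp := pi_pos
  have h1 : a / π + b / π < 1 := by rw [← add_div, div_lt_one hp]; exact hab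
  have i1 := int_line (div_pos ha hp) (div_pos hb hp) h1
  rw [← add_div] at i1 h1
  set P := (a + b) / π
  have P0 : 0 ≤ P := by positivity
  have i2 : IntegrableOn (fun t : ℝ => t ^ (-P) / π ^ (-P)) (Ioo 0 π) :=
    ((intervalIntegral.integrableOn_Ioo_rpow_iff hp).2 (by linarith)).div_const _
  have i3 := i1.mul_prod i2
  have e : (volume : Measure ℝ).prod (volume.restrict (Ioo 0 π)) = volume.restrict (Sp 0 π) := by
    rw [← Measure.restrict_univ (μ := (volume : Measure ℝ)), Measure.restrict_restrict_of_subset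
      (subset_univ _), Measure.prod_restrict]
    congr 1
    ext p
    simp [Sp]
  rw [e] at i3
  refine i3.mono' (wX_meas _ _ _).aestronglyMeasurable ((ae_restrict_iff' (meas_Sp _ _)).2 ?_)
  filter_upwards [ae_fst_ne 0] with q hs hq
  have t0 : 0 < q.2 := hq.1
  have t1 : q.2 < π := hq.2
  have r := exp_pos q.1
  have r1 : 0 < |1 - exp q.1| :=
    abs_pos.2 (sub_ne_zero.2 fun k => hs ((exp_eq_one_iff _).1 k.symm))
  have e1 : |1 - exp q.1 ^ 2| = |1 - exp q.1| * (1 + exp q.1) := by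
    rw [show 1 - exp q.1 ^ 2 = (1 - exp q.1) * (1 + exp q.1) by ring, abs_mul,
      abs_of_pos (a := 1 + exp q.1) (by linarith only [r])]
  have j : q.2 / π ≤ sin (q.2 / 2) := by
    have := mul_le_sin (x := q.2 / 2) (by linarith only [t0]) (by linarith only [t1])
    rwa [show 2 / π * (q.2 / 2) = q.2 / π by ring] at this
  have c : cos q.2 = 1 - 2 * sin (q.2 / 2) ^ 2 := by
    have := cos_two_mul (q.2 / 2)
    rw [show 2 * (q.2 / 2) = q.2 by ring, cos_sq'] at this
    linarith only [this]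
  rw [Real.norm_of_nonneg (wX_nonneg _ _ _ _), wX_ei, zero_sub, cos_neg,
    mul_assoc (exp (2 * (b / π) * q.1)), ← div_rpow t0.le hp.le,
    ← mul_rpow (abs_nonneg _) (by positivity), show 2 * b * q.1 / π = 2 * (b / π) * q.1 by ring]
  refine mul_le_mul_of_nonneg_left (rpow_le_rpow_of_nonpos ?_ ?_ (neg_nonpos.2 P0)) (exp_pos _).le
  · rw [e1]
    positivity
  · refine (mul_le_mul_of_nonneg_left j (abs_nonneg _)).trans ?_
    rw [e1, c]
    have s1 := sin_sq_le_one (q.2 / 2)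
    linarith only [s1, r, sq_nonneg (|1 - exp q.1| - (1 + exp q.1) * sin (q.2 / 2)), sq_abs (1 - exp q.1),
      mul_le_mul_of_nonneg_left s1 (sq_nonneg (1 - exp q.1)),
      mul_nonneg r.le (sq_nonneg (sin (q.2 / 2))), sq_nonneg ((1 : ℝ) * |(1 : ℝ) - rexp q.1| - ((1 : ℝ) * (1 : ℝ) + (1 : ℝ) * rexp q.1) * ((1 : ℝ) * sin (q.2 / (2 : ℝ)))), sq_nonneg ((1 : ℝ) - rexp q.1), sq_nonneg (sin (q.2 / (2 : ℝ)))]

theorem intOn_even {g : ℝ × ℝ → ℝ} (he : ∀ q, g (rf 0 q) = g q) (h : IntegrableOn g (Sp 0 π)) :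
    IntegrableOn g (Sp (-π) π) := by
  have := intOn_rf (α' := -π) (β' := 0) (c := 0) (by ring) (by ring) h
  simp only [he] at this
  exact intOn_join (by linarith [pi_pos]) pi_pos.le this h

theorem int_fold {g : ℝ × ℝ → ℝ} (h : IntegrableOn g (Sp (-π) π)) :
    ∫ q in Sp (-π) π, g q = (∫ q in Sp 0 π, g (rf 0 q)) + ∫ q in Sp 0 π, g q := by
  rw [int_split (γ := 0) (by linarith [pi_pos]) pi_pos.le h,
    int_rf (α := -π) (β := 0) (by ring) (by ring)]

theorem half1 (ψ : ℝ) : Half ψ (-π) (ψ - π) (ψ - 2 * π) := Or.inr ⟨rfl, rfl, rfl⟩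

theorem half2 (ψ : ℝ) : Half ψ (ψ - π) π ψ := Or.inl ⟨rfl, rfl, rfl⟩

theorem Half.sub {ψ α β c : ℝ} (h : Half ψ α β c) (h0 : 0 < ψ) (h1 : ψ ≤ π) :
    Sp α β ⊆ Sp (-π) π := fun _ hp => abs_lt.1 (h.abs h0 h1 hp)

theorem rot_int {b P ψ : ℝ} (h0 : 0 < ψ) (h1 : ψ ≤ π)
    (hi : IntegrableOn (wX b P (ei 0)) (Sp (-π) π)) :
    IntegrableOn (wX b P (ei ψ)) (Sp (-π) π) ∧
      ∫ q in Sp (-π) π, wX b P (ei ψ) q = ∫ q in Sp (-π) π, wX b P (ei 0) q := by
  have k : ∀ α β c, Half ψ α β c → IntegrableOn (wX b P (ei ψ)) (Sp α β) ∧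
      ∫ q in Sp α β, wX b P (ei ψ) q = ∫ q in Sp α β, wX b P (ei 0) q := fun α β c h => by
    have s := h.sum
    have a1 := intOn_rf (α' := α) (β' := β) (c := c) (by linarith only [s]) (by linarith)
      (hi.mono_set (h.sub h0 h1))
    have a2 := int_rf (α := α) (β := β) (α' := α) (β' := β) (c := c) (by linarith) (by linarith)
      (wX b P (ei 0))
    simp only [wX_half h] at a1 a2
    exact ⟨a1, a2⟩
  have l1 : -π ≤ ψ - π := by linarith
  have l2 : ψ - π ≤ π := by linarith [pi_pos]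
  have i := intOn_join l1 l2 (k _ _ _ (half1 ψ)).1 (k _ _ _ (half2 ψ)).1
  exact ⟨i, by rw [int_split l1 l2 i, int_split l1 l2 hi, (k _ _ _ (half1 ψ)).2,
    (k _ _ _ (half2 ψ)).2]⟩

theorem CR.rot {Λ b P ψ : ℝ} (h0 : 0 < ψ) (h1 : ψ ≤ π) (hP : 0 ≤ P)
    (hi : IntegrableOn (wX b P (ei 0)) (Sp (-π) π)) (h : CR Λ (wX b P (ei 0))) :
    CR Λ (wX b P (ei ψ)) := by
  intro V hV
  obtain ⟨i1, i2⟩ := rot_int h0 h1 hi
  have A0 : 0 ≤ ∫ q in Sp (-π) π, wX b P (ei 0) q := integral_nonneg (wX_nonneg _ _ _)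
  have E0 : 0 ≤ ∫ q in Sp (-π) π, en V q := integral_nonneg (en_nonneg V)
  rw [i2]
  rcases le_total Λ 0 with hΛ | hΛ
  · exact (mul_nonpos_of_nonpos_of_nonneg (by linarith only [hΛ]) (integral_nonneg fun q =>
      mul_nonneg (wX_nonneg _ _ _ _) (sq_nonneg _))).trans (mul_nonneg A0 E0)
  have l1 : -π ≤ ψ - π := by linarith
  have l2 : ψ - π ≤ π := by linarith [pi_pos]
  have key : ∀ e : ℝ, 0 < e → 2 * Λ * ∫ q in Sp (-π) π, wX b P (ei ψ) q * V q ^ 2 ≤
      (1 + e) * ((∫ q in Sp (-π) π, wX b P (ei 0) q) * ∫ q in Sp (-π) π, en V q) +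
        16 * e * (1 + e) * (2 * Λ * ∫ q in Sp (-π) π, wX b P (ei 0) q) := by
    intro e he
    obtain ⟨U, hU, -, k⟩ := polar hV h0 h1 he
    have e1 : ∫ q in Sp (-π) π, en U q ≤ ∫ q in Sp (-π) π, en V q := by
      have : ∀ α β c, Half ψ α β c → ∫ q in Sp α β, en U q ≤ ∫ q in Sp α β, en V q :=
        fun α β c h => pair_le h.sum hU.en_int.integrableOn hV.en_int.integrableOn
          fun p hp _ => (k α β c h p hp).1
      rw [int_split l1 l2 hU.en_int.integrableOn, int_split l1 l2 hV.en_int.integrableOn]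
      exact add_le_add (this _ _ _ (half1 ψ)) (this _ _ _ (half2 ψ))
    have j1 := hV.wint i1
    have j2 := (hU.wint hi).const_mul (1 + e)
    have j3 := hi.const_mul (16 * e * (1 + e))
    have j4 : IntegrableOn (fun q => (1 + e) * (wX b P (ei 0) q * U q ^ 2) +
      16 * e * (1 + e) * wX b P (ei 0) q) (Sp (-π) π) := j2.add j3
    have e2 : ∫ q in Sp (-π) π, wX b P (ei ψ) q * V q ^ 2 ≤ ∫ q in Sp (-π) π,
        ((1 + e) * (wX b P (ei 0) q * U q ^ 2) + 16 * e * (1 + e) * wX b P (ei 0) q) := by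
      have : ∀ α β c, Half ψ α β c → ∫ q in Sp α β, wX b P (ei ψ) q * V q ^ 2 ≤ ∫ q in Sp α β,
          ((1 + e) * (wX b P (ei 0) q * U q ^ 2) + 16 * e * (1 + e) * wX b P (ei 0) q) := by
        intro α β c h
        refine pair_le h.sum (j1.mono_set (h.sub h0 h1)) (j4.mono_set (h.sub h0 h1))
          fun p hp hs => ?_
        have w1 := wX_half h b P p
        have w2 := wX_half h b P (rf c p)
        rw [rf_rf] at w2
        obtain ⟨-, a1, a2⟩ := k α β c h p hp
        obtain ⟨-, a3, a4⟩ := k α β c h _ (h.mem hp)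
        rw [rf_rf] at a3 a4
        rcases le_or_gt (sd ψ p) 0 with s | s
        · have := pair_alg (wX_mono b h0 h1 hP hs s) (wX_nonneg _ _ _ _) he (a2 s)
            (min_comm |V p| _ ▸ a3)
          rw [w1, ← w2]
          linarith only [this]
        · have s' := ((h.sgn h0 h1 hp).1 s).le
          have := pair_alg (wX_mono b h0 h1 hP (q := rf c p) hs s') (wX_nonneg _ _ _ _) he (a4 s')
            (min_comm |V (rf c p)| _ ▸ a1)
          rw [w2, ← w1]
          linarith only [this]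
      rw [int_split l1 l2 j1, int_split l1 l2 j4]
      exact add_le_add (this _ _ _ (half1 ψ)) (this _ _ _ (half2 ψ))
    rw [integral_add j2 j3, integral_const_mul, integral_const_mul] at e2
    have e3 := (h U hU).trans (mul_le_mul_of_nonneg_left e1 A0)
    linarith only [e3, e2, hΛ, he, mul_le_mul_of_nonneg_left e2 hΛ, mul_le_mul_of_nonneg_left e3 he.le]
  generalize (∫ q in Sp (-π) π, wX b P (ei 0) q) * (∫ q in Sp (-π) π, en V q) = y at key
  generalize 2 * Λ * (∫ q in Sp (-π) π, wX b P (ei 0) q) = z at key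
  have t : Tendsto (fun e : ℝ => (1 + e) * y + 16 * e * (1 + e) * z) (𝓝[>] 0)
      (𝓝 ((1 + 0) * y + 16 * 0 * (1 + 0) * z)) :=
    (Continuous.tendsto (by fun_prop) 0).mono_left nhdsWithin_le_nhds
  simpa using ge_of_tendsto t (eventually_nhdsWithin_of_forall key)

theorem CR.rf {Λ : ℝ} {w : ℝ × ℝ → ℝ} (h : CR Λ w) : CR Λ fun q => w (rf 0 q) := by
  intro V hV
  have k := h _ hV.rf
  have r : ∀ g : ℝ × ℝ → ℝ, ∫ q in Sp (-π) π, g (PS.rf 0 q) = ∫ q in Sp (-π) π, g q :=
    int_rf (by ring) (by ring)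
  have e := r fun q => w (PS.rf 0 q) * V q ^ 2
  simp only [rf_rf] at e
  simp only [en_rf hV.c1] at k
  rwa [e, r (en V), ← r w] at k

theorem CR.tr {Λ : ℝ} {w : ℝ × ℝ → ℝ} (h : CR Λ w) {κ : ℝ} (hκ : 0 < κ) (c : ℝ) :
    CR Λ fun q => κ * w (tr c q) := by
  intro V hV
  have k := h _ (hV.tr (-c))
  have e := int_tr (-π) π c fun q => w q * V (PS.tr (-c) q) ^ 2
  have z : ∀ q, PS.tr (-c) (PS.tr c q) = q := fun q => by simp [PS.tr]
  simp only [z] at e
  simp only [en_tr hV.c1] at k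
  rw [← e, int_tr _ _ _ (en V), ← int_tr _ _ c w] at k
  simp only [mul_assoc κ, integral_const_mul]
  linarith only [k, hκ, mul_le_mul_of_nonneg_left k hκ.le]

theorem cr_of_strip {Λ : ℝ} {w : ℝ × ℝ → ℝ} (hi : IntegrableOn w (Sp (-π) π))
    (he : ∀ q, w (rf 0 q) = w q) (h : SLow Λ w) : CR Λ w := by
  intro V hV
  have k1 : Λ * ∫ q in Sp 0 π, w q * V q ^ 2 ≤ (∫ q in Sp 0 π, w q) * ∫ q in Sp 0 π, en V q :=
    h V hV
  have k2 : Λ * ∫ q in Sp 0 π, w q * V (rf 0 q) ^ 2 ≤
    (∫ q in Sp 0 π, w q) * ∫ q in Sp 0 π, en (fun q => V (rf 0 q)) q := h _ hV.rf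
  simp only [en_rf hV.c1] at k2
  rw [int_fold (hV.wint hi), int_fold hi, int_fold hV.en_int.integrableOn]
  simp only [he]
  linarith only [k1, k2]

theorem unit_all {P : ℝ → Prop} (z : P 0) (p : ∀ ψ, 0 < ψ → ψ ≤ π → P ψ) (n : ∀ ψ, P ψ → P (-ψ))
    (X : ℂ) : P X.arg := by
  rcases lt_trichotomy X.arg 0 with k | k | k
  · simpa using n _ (p (-X.arg) (by linarith) (by linarith [Complex.neg_pi_lt_arg X]))
  · rwa [k]
  · exact p _ k (Complex.arg_le_pi X)

theorem wX_even (b P : ℝ) (q : ℝ × ℝ) : wX b P (ei 0) (rf 0 q) = wX b P (ei 0) q := by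
  rw [wX_rf0, neg_zero]

theorem wX_int {a b : ℝ} (ha : 0 < a) (hb : 0 < b) (hab : a + b < π) {X : ℂ} (hX : X ≠ 0) :
    IntegrableOn (wX b ((a + b) / π) X) Cy := by
  have i0 := intOn_even (wX_even _ _) (wX_int0 ha hb hab)
  obtain ⟨κ, c, -, e⟩ := wX_scale b ((a + b) / π) hX
  rw [e]
  refine (intOn_tr c (unit_all (P := fun ψ => IntegrableOn (wX b ((a + b) / π) (ei ψ)) (Sp (-π) π))
    i0 (fun ψ h0 h1 => (rot_int h0 h1 i0).1) (fun ψ h => ?_) X)).const_mul κ
  have := intOn_rf (α' := -π) (β' := π) (c := 0) (by ring) (by ring) h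
  simp only [wX_rf0] at this
  exact this

theorem pol {Λ a b : ℝ} (ha : 0 < a) (hb : 0 < b) (hab : a + b < π) (h : StripLow Λ b a) {X : ℂ}
    (hX : X ≠ 0) : CLow Λ (wX b ((a + b) / π) X) := by
  rw [clow_iff (wX_int ha hb hab hX) (wX_nonneg _ _ _)]
  have i0 := intOn_even (wX_even _ _) (wX_int0 ha hb hab)
  have e0 : wt1 b a = wX b ((a + b) / π) (ei 0) := by
    funext q
    simp [wt1, wtF, wX]
  have c0 := cr_of_strip i0 (wX_even _ _) (e0 ▸ (show SLow Λ (wt1 b a) from h))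
  obtain ⟨κ, c, hκ, e⟩ := wX_scale b ((a + b) / π) hX
  rw [e]
  refine CR.tr (unit_all (P := fun ψ => CR Λ (wX b ((a + b) / π) (ei ψ))) c0
    (fun ψ h0 h1 => CR.rot h0 h1 (by have := pi_pos; positivity) i0 c0) (fun ψ h => ?_) X) hκ c
  have := h.rf
  simp only [wX_rf0] at this
  exact this

theorem back {Λ : ℝ} {w : ℝ × ℝ → ℝ} (hi : IntegrableOn w Cy) (h0 : ∀ q, 0 ≤ w q)
    (he : ∀ q : ℝ × ℝ, w (q.1, -q.2) = w q) (h : CLow Λ w) : SLow Λ w := by
  rw [clow_iff hi h0] at h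
  intro V hV
  have hp := pi_pos
  have he' : ∀ q, w (rf 0 q) = w q := fun q => by rw [← he q, rf, zero_sub]
  have hi' : IntegrableOn w (Sp 0 π) := hi.mono_set (Sp_right (by linarith))
  have A0 : 0 ≤ ∫ q in Sp 0 π, w q := integral_nonneg h0
  obtain ⟨S, δ, hδ, hs⟩ := hV.supp
  have m1 : ∀ e : ℝ, 0 < e → ContDiff ℝ 1 fun q : ℝ × ℝ => (q.1, rho e q.2) := fun e he =>
    contDiff_fst.prodMk ((rho_c1 he).comp contDiff_snd)
  obtain ⟨C, hC⟩ := hV.bdd
  obtain ⟨D, hD⟩ := (en_cont hV.c1).bounded_above_of_compact_support hV.en_hcs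
  obtain ⟨R, hR⟩ := hV.en_hcs.isCompact.isBounded.exists_norm_le
  have bd : ∀ e : ℝ, 0 < e → ∀ q ∈ Sp 0 π, ‖en V (q.1, rho e q.2)‖ ≤
      (Icc ((-R, 0) : ℝ × ℝ) (R, π)).indicator (fun _ => D) q := fun e _ q hq => by
    by_cases k : q ∈ Icc ((-R, 0) : ℝ × ℝ) (R, π)
    · rw [indicator_of_mem k]
      exact hD _
    · rw [indicator_of_notMem k, norm_le_zero_iff]
      by_contra c
      have := abs_le.1 ((norm_fst_le (q.1, rho e q.2)).trans (hR _ (subset_tsupport _ c)))
      exact k ⟨⟨this.1, hq.1.le⟩, ⟨this.2, hq.2.le⟩⟩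
  have bi : Integrable ((Icc ((-R, 0) : ℝ × ℝ) (R, π)).indicator fun _ => D)
      (volume.restrict (Sp 0 π)) :=
    ((integrable_indicator_iff measurableSet_Icc).2
      (integrableOn_const isCompact_Icc.measure_ne_top)).integrableOn
  have mm : ∀ e : ℝ, 0 < e → AEStronglyMeasurable (fun q : ℝ × ℝ => en V (q.1, rho e q.2))
      (volume.restrict (Sp 0 π)) := fun e he =>
    ((en_cont hV.c1).comp (m1 e he).continuous).aestronglyMeasurable
  have key : ∀ e ∈ Ioo 0 (δ / 2), Λ * ∫ q in Sp 0 π, w q * V (q.1, rho e q.2) ^ 2 ≤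
      (∫ q in Sp 0 π, w q) * ∫ q in Sp 0 π, en V (q.1, rho e q.2) := by
    intro e he
    have sU : SV fun q : ℝ × ℝ => V (q.1, rho e q.2) := by
      refine ⟨hV.c1.comp (m1 e he.1), S, δ / 2, half_pos hδ, fun q hq => ⟨(hs _ hq).1, ?_⟩⟩
      have a1 : |rho e q.2| ≤ π - δ := (hs _ hq).2
      linarith only [a1, he, le_rho e q.2, le_abs_self (rho e q.2), he.2]
    have ev : ∀ q : ℝ × ℝ, V ((rf 0 q).1, rho e (rf 0 q).2) = V (q.1, rho e q.2) := fun q => by
      simp only [rf, zero_sub, rho_neg]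
    have k := h _ sU
    rw [int_fold (sU.wint hi), int_fold hi, int_fold sU.en_int.integrableOn] at k
    simp only [← en_rf sU.c1, he', ev] at k
    have l : ∫ q in Sp 0 π, en (fun q : ℝ × ℝ => V (q.1, rho e q.2)) q ≤
        ∫ q in Sp 0 π, en V (q.1, rho e q.2) := by
      refine integral_mono sU.en_int.integrableOn (bi.mono' (mm e he.1)
        ((ae_restrict_iff' (meas_Sp _ _)).2 (Eventually.of_forall (bd e he.1)))) fun q => ?_
      have d : HasFDerivAt (fun q : ℝ × ℝ => (q.1, rho e q.2)) _ q :=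
        (hasFDerivAt_fst (𝕜 := ℝ) (p := q)).prodMk
          ((rho_der he.1 q.2).comp_hasFDerivAt q (hasFDerivAt_snd (𝕜 := ℝ) (p := q)))
      have d2 : fderiv ℝ (fun q : ℝ × ℝ => V (q.1, rho e q.2)) q = _ :=
        ((hV.c1.differentiable one_ne_zero _).hasFDerivAt.comp q d).fderiv
      have r := abs_rho'_le he.1 q.2
      have r2 : rho' e q.2 ^ 2 ≤ 1 := by rw [← sq_abs]; linarith only [r, abs_nonneg (rho' e q.2), mul_nonneg_of_nonpos_of_nonpos (Mathlib.Tactic.Linarith.sub_nonpos_of_le r) (Mathlib.Tactic.Linarith.sub_nonpos_of_le (abs_nonneg (rho' e q.2)))]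
      have v : ((0 : ℝ), rho' e q.2) = rho' e q.2 • ((0 : ℝ), (1 : ℝ)) := by simp
      simp only [en, ds, dt, d2, ContinuousLinearMap.comp_apply, ContinuousLinearMap.prod_apply,
        smul_apply, ContinuousLinearMap.coe_fst', ContinuousLinearMap.coe_snd', smul_eq_mul,
        mul_zero, mul_one]
      rw [v, map_smul, smul_eq_mul, mul_pow]
      linarith only [r2, sq_nonneg (fderiv ℝ V (q.1, rho e q.2) (0, 1)), mul_nonneg_of_nonpos_of_nonpos (Mathlib.Tactic.Linarith.sub_nonpos_of_le (sq_nonneg ((fderiv ℝ V (q.1, rho e q.2)) ((0 : ℝ), (1 : ℝ))))) (Mathlib.Tactic.Linarith.sub_nonpos_of_le r2)]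
    linarith only [k, l, A0, mul_le_mul_of_nonneg_left l A0]
  have lim : ∀ q ∈ Sp 0 π, Tendsto (fun e : ℝ => (q.1, rho e q.2)) (𝓝[>] 0) (𝓝 q) := fun q hq => by
    have c : Continuous fun e : ℝ => (q.1, rho e q.2) := by unfold rho; fun_prop
    have := (c.tendsto 0).mono_left (nhdsWithin_le_nhds (s := Ioi 0))
    simpa [rho, sqrt_sq hq.1.le] using this
  have t1 := tendsto_integral_filter_of_dominated_convergence (l := 𝓝[>] (0 : ℝ))
    (μ := volume.restrict (Sp 0 π)) (F := fun e q => w q * V (q.1, rho e q.2) ^ 2)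
    (f := fun q => w q * V q ^ 2) (fun q => ‖w q‖ * C)
    (eventually_nhdsWithin_of_forall fun e he => hi'.aestronglyMeasurable.mul
      ((hV.c1.continuous.comp (m1 e he).continuous).pow 2).aestronglyMeasurable)
    (Eventually.of_forall fun e => Eventually.of_forall fun q => by
      rw [norm_mul]
      exact mul_le_mul_of_nonneg_left (hC _) (norm_nonneg _))
    (hi'.norm.mul_const C)
    ((ae_restrict_iff' (meas_Sp _ _)).2 (Eventually.of_forall fun q hq =>
      (((hV.c1.continuous.tendsto q).comp (lim q hq)).pow 2).const_mul _))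
  have t2 := tendsto_integral_filter_of_dominated_convergence (l := 𝓝[>] (0 : ℝ))
    (μ := volume.restrict (Sp 0 π)) (F := fun e q => en V (q.1, rho e q.2)) (f := en V) _
    (eventually_nhdsWithin_of_forall mm)
    (eventually_nhdsWithin_of_forall fun e he =>
      (ae_restrict_iff' (meas_Sp _ _)).2 (Eventually.of_forall (bd e he))) bi
    ((ae_restrict_iff' (meas_Sp _ _)).2 (Eventually.of_forall fun q hq =>
      ((en_cont hV.c1).tendsto q).comp (lim q hq)))
  exact le_of_tendsto_of_tendsto (t1.const_mul Λ) (t2.const_mul _)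
    (by filter_upwards [Ioo_mem_nhdsGT (half_pos hδ)] with e he using key e he)

theorem wtF_int {a b : ℝ} (ha : 0 < a) (hb : 0 < b) (hab : a + b < π) {m : ℕ} (s : ℕ → ℝ)
    {p : ℕ → ℝ} (hp : ∀ k, k < m → 0 ≤ p k) (hs : ∑ k ∈ Finset.range m, p k = (a + b) / π) :
    IntegrableOn (wtF b m s p) Cy := by
  have P0 : 0 < (a + b) / π := by have := pi_pos; positivity
  have i : ∀ k, IntegrableOn (fun q => exp (2 * b * q.1 / π) *
      ‖1 - Complex.exp (pt 1 1 q - (s k : ℝ))‖ ^ (-(2 * ((a + b) / π)))) Cy := fun k => by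
    refine ((intOn_tr (-s k) (wX_int ha hb hab one_ne_zero)).const_mul
      (exp (2 * b * s k / π))).congr (Eventually.of_forall fun q => ?_)
    have e : pt 1 1 (tr (-s k) q) = pt 1 1 q - (s k : ℝ) := by
      simp only [pt, tr]
      push_cast
      ring
    simp only [wX, e]
    rw [← mul_assoc, ← exp_add]
    congr 2
    simp only [tr]
    ring
  have mF : Measurable (wtF b m s p) :=
    (by fun_prop : Continuous fun q : ℝ × ℝ => exp (2 * b * q.1 / π)).measurable.mul
      (Finset.measurable_prod _ fun k _ => (by fun_prop : Continuous fun q : ℝ × ℝ =>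
        ‖1 - Complex.exp (pt 1 1 q - (s k : ℝ))‖).measurable.pow_const _)
  refine (integrable_finsetSum (Finset.range m) fun k _ =>
    (i k).const_mul (p k / ((a + b) / π))).mono' mF.aestronglyMeasurable
    (Eventually.of_forall fun q => ?_)
  have g := geom_mean_le_arith_mean_weighted (Finset.range m) (fun k => p k / ((a + b) / π))
    (fun k => ‖1 - Complex.exp (pt 1 1 q - (s k : ℝ))‖ ^ (-(2 * ((a + b) / π))))
    (fun k hk => div_nonneg (hp k (Finset.mem_range.1 hk)) P0.le)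
    (by rw [← Finset.sum_div, hs, div_self P0.ne']) fun k _ => by positivity
  have e : ∀ k, -(2 * ((a + b) / π)) * (p k / ((a + b) / π)) = -(2 * p k) := fun k => by
    field_simp
  simp only [← rpow_mul (norm_nonneg _), e] at g
  rw [Real.norm_of_nonneg (by unfold wtF; positivity), wtF]
  refine (mul_le_mul_of_nonneg_left g (exp_pos _).le).trans (le_of_eq ?_)
  rw [Finset.mul_sum]
  exact Finset.sum_congr rfl fun k _ => by ring

theorem back_wtF {Λ a b : ℝ} (ha : 0 < a) (hb : 0 < b) (hab : a + b < π) {m : ℕ} (s : ℕ → ℝ)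
    {p : ℕ → ℝ} (hp : ∀ k, k < m → 0 ≤ p k) (hs : ∑ k ∈ Finset.range m, p k = (a + b) / π)
    (h : CLow Λ (wtF b m s p)) : SLow Λ (wtF b m s p) := by
  refine back (wtF_int ha hb hab s hp hs) (fun q => by unfold wtF; positivity) (fun q => ?_) h
  simp only [wtF]
  congr 1
  refine Finset.prod_congr rfl fun k _ => ?_
  have e : pt 1 1 (q.1, -q.2) - (s k : ℝ) = (starRingEnd ℂ) (pt 1 1 q - (s k : ℝ)) := by
    apply Complex.ext <;> simp
  rw [e, Complex.exp_conj, ← Complex.norm_conj (1 - Complex.exp (pt 1 1 q - (s k : ℝ))), map_sub,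
    map_one]

end

end Pool.Agent.Work.MP_267827_an.PS
end

-- merged part: Pool.Agent.Work.MP_267827_an.PS.ASym
section
/-! The two ends of the strip can be exchanged (helper11). -/

set_option autoImplicit false

namespace Pool.Agent.Work.MP_267827_an.PS

open MeasureTheory Set Filter Topology Real

noncomputable section

/-- the reflection in the vertical axis -/
def ng (p : ℝ × ℝ) : ℝ × ℝ := (-p.1, p.2)

theorem int_ng (g : ℝ × ℝ → ℝ) : ∫ p in St, g (ng p) = ∫ p in St, g p :=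
  ((Measure.measurePreserving_neg (volume : Measure ℝ)).prod
    (MeasurePreserving.id (volume : Measure ℝ))).setIntegral_preimage_emb
    (measurableEmbedding_neg.prodMap MeasurableEmbedding.id) g St

theorem wt1_eq (b a : ℝ) : wt1 b a = wX b ((a + b) / π) (ei 0) := by
  funext q
  simp [wt1, wtF, wX]

theorem wt1_ng (a b : ℝ) (q : ℝ × ℝ) : wt1 b a (ng q) = wt1 a b q := by
  simp only [wt1_eq, wX_ei, ng, zero_sub, cos_neg]
  have e := exp_pos q.1
  have n : 0 ≤ 1 - 2 * exp q.1 * cos q.2 + exp q.1 ^ 2 := by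
    linarith only [e, mul_le_mul_of_nonneg_left (cos_le_one q.2) e.le, sq_nonneg (1 - exp q.1), sq_nonneg ((1 : ℝ) - rexp q.1)]
  have k : 1 - 2 * exp (-q.1) * cos q.2 + exp (-q.1) ^ 2 =
      exp (-(2 * q.1)) * (1 - 2 * exp q.1 * cos q.2 + exp q.1 ^ 2) := by
    rw [two_mul q.1, neg_add, exp_add, exp_neg]
    field_simp
    ring
  rw [k, mul_rpow (exp_pos _).le n, ← exp_mul, ← mul_assoc, ← exp_add, add_comm b a]
  congr 2
  ring

theorem strip_sym' {Λ a b : ℝ} (h : StripLow Λ b a) : StripLow Λ a b := by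
  intro V hV
  obtain ⟨S, δ, hδ, hs⟩ := hV.supp
  have c : ContDiff ℝ 1 ng := contDiff_fst.neg.prodMk contDiff_snd
  have k := h (fun q => V (ng q)) ⟨hV.c1.comp c, S, δ, hδ, fun p hp => by
    simpa [ng] using hs _ hp⟩
  have e : ∀ p, en (fun q => V (ng q)) p = en V (ng p) := fun p => by
    have d : HasFDerivAt ng _ p :=
      (hasFDerivAt_fst (𝕜 := ℝ) (p := p)).neg.prodMk (hasFDerivAt_snd (𝕜 := ℝ) (p := p))
    have d2 : fderiv ℝ (fun q => V (ng q)) p = _ :=
      ((hV.c1.differentiable one_ne_zero _).hasFDerivAt.comp p d).fderiv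
    have v : ((-1 : ℝ), (0 : ℝ)) = -((1 : ℝ), (0 : ℝ)) := by simp
    simp only [en, ds, dt, d2, ContinuousLinearMap.comp_apply, ContinuousLinearMap.prod_apply,
      neg_apply, ContinuousLinearMap.coe_fst', ContinuousLinearMap.coe_snd', neg_zero]
    rw [v, map_neg, neg_sq]
  have r := int_ng fun q => wt1 a b q * V q ^ 2
  simp only [wt1_ng] at r
  simp only [e] at k
  rw [r, int_ng (en V), ← int_ng (wt1 b a)] at k
  simpa only [wt1_ng] using k

end

end Pool.Agent.Work.MP_267827_an.PS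
end

-- merged part: Pool.Agent.Work.MP_267827_an.PS.AMixA
section
/-! Mixtures of weights (helper11): from the star-triangle identity to all products. -/

set_option autoImplicit false

namespace Pool.Agent.Work.MP_267827_an.PS

open MeasureTheory Set Filter Topology Real

noncomputable section

/-- the star-triangle identity -/
def Star : Prop :=
  ∀ p q : ℝ, 0 < p → 0 < q → p + q < 1 → ∀ Z₁ Z₂ : ℂ, Z₁ ≠ Z₂ → ∃ c : ENNReal, c ≠ ⊤ ∧
    ∀ Z : ℂ, Z ≠ Z₁ → Z ≠ Z₂ →
      ENNReal.ofReal (‖Z₁ - Z‖ ^ (-(2 * p)) * ‖Z₂ - Z‖ ^ (-(2 * q))) =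
        c * ∫⁻ X : ℂ, ENNReal.ofReal
          (‖X - Z‖ ^ (-(2 * (p + q))) * (‖X - Z₁‖ ^ (2 * q - 2) * ‖X - Z₂‖ ^ (2 * p - 2)))

theorem CLow.mixture {Λ : ℝ} {w : ℝ × ℝ → ℝ} {W : ℂ → ℝ × ℝ → ℝ} {k : ℂ → ENNReal} {c : ENNReal}
    (hc : c ≠ ⊤) (hW : Measurable fun x : ℂ × ℝ × ℝ => W x.1 x.2) (hk : Measurable k)
    (hw : ∀ᵐ q, ENNReal.ofReal (w q) = c * ∫⁻ X, k X * ENNReal.ofReal (W X q))
    (h : ∀ᵐ X, CLow Λ (W X)) : CLow Λ w := by
  have key : ∀ g : ℝ × ℝ → ℝ, Measurable g → (∀ q, 0 ≤ g q) →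
      ∫⁻ q in Cy, ENNReal.ofReal (w q * g q) =
        c * ∫⁻ X, k X * ∫⁻ q in Cy, ENNReal.ofReal (W X q * g q) := by
    intro g hg g0
    have m : Measurable fun x : ℂ × ℝ × ℝ => ENNReal.ofReal (W x.1 x.2 * g x.2) :=
      (hW.mul (hg.comp measurable_snd)).ennreal_ofReal
    have e1 : ∫⁻ q in Cy, ENNReal.ofReal (w q * g q) =
        ∫⁻ q in Cy, c * ∫⁻ X, k X * ENNReal.ofReal (W X q * g q) := by
      refine lintegral_congr_ae (ae_restrict_of_ae ?_)
      filter_upwards [hw] with q hq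
      simp only [ENNReal.ofReal_mul' (g0 q), ← mul_assoc]
      rw [lintegral_mul_const' _ _ ENNReal.ofReal_ne_top, hq, mul_assoc]
    rw [e1, lintegral_const_mul' _ _ hc, lintegral_lintegral_swap]
    · congr 1
      refine lintegral_congr fun X => ?_
      rw [lintegral_const_mul]
      exact m.comp measurable_prodMk_left
    · exact ((hk.comp measurable_snd).mul (m.comp measurable_swap)).aemeasurable
  intro V hV
  have k1 := key (fun _ => 1) measurable_const fun _ => zero_le_one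
  simp only [mul_one] at k1
  rw [key (fun q => V q ^ 2) (hV.c1.continuous.pow 2).measurable fun q => sq_nonneg _, k1,
    mul_left_comm, mul_assoc,
    ← lintegral_const_mul' _ _ ENNReal.ofReal_ne_top,
    ← lintegral_mul_const' _ _ ENNReal.ofReal_ne_top]
  refine mul_le_mul_right (lintegral_mono_ae ?_) c
  filter_upwards [h] with X hX
  rw [mul_left_comm, mul_assoc]
  exact mul_le_mul_right (hX V hV) _

theorem CLow.smul {Λ : ℝ} {w : ℝ × ℝ → ℝ} (h : CLow Λ w) {κ : ℝ} (hκ : 0 ≤ κ) :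
    CLow Λ fun q => κ * w q := by
  intro V hV
  simp only [mul_assoc κ, ENNReal.ofReal_mul hκ]
  rw [lintegral_const_mul' _ _ ENNReal.ofReal_ne_top,
    lintegral_const_mul' _ _ ENNReal.ofReal_ne_top, mul_left_comm, mul_assoc]
  exact mul_le_mul_right (h V hV) _

/-- the product over a list of points with exponents -/
def wP (L : List (ℂ × ℝ)) (q : ℝ × ℝ) : ℝ :=
  (L.map fun x => ‖x.1 - Complex.exp (pt 1 1 q)‖ ^ (-(2 * x.2))).prod

theorem wP_cons (x : ℂ × ℝ) (L : List (ℂ × ℝ)) (q : ℝ × ℝ) :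
    wP (x :: L) q = ‖x.1 - Complex.exp (pt 1 1 q)‖ ^ (-(2 * x.2)) * wP L q := by simp [wP]

theorem wP_nonneg (L : List (ℂ × ℝ)) (q : ℝ × ℝ) : 0 ≤ wP L q := by
  induction L with
  | nil => simp [wP]
  | cons x L ih => rw [wP_cons]; positivity

theorem wP_meas (L : List (ℂ × ℝ)) : Measurable (wP L) := by
  induction L with
  | nil => exact measurable_const (a := (1 : ℝ))
  | cons x L ih =>
    rw [funext (wP_cons x L)]
    exact ((by fun_prop : Continuous fun q : ℝ × ℝ =>
      ‖x.1 - Complex.exp (pt 1 1 q)‖).measurable.pow_const _).mul ih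

theorem ae_exp_ne (Z : ℂ) : ∀ᵐ q : ℝ × ℝ, Complex.exp (pt 1 1 q) ≠ Z := by
  filter_upwards [ae_fst_ne (log ‖Z‖)] with q hq e
  exact hq (by rw [← e, Complex.norm_exp, log_exp, pt_re, one_mul])

theorem clow_list (hS : Star) {Λ b P : ℝ} (hP : P < 1) (H : ∀ X : ℂ, X ≠ 0 → CLow Λ (wX b P X))
    (n : ℕ) : ∀ L : List (ℂ × ℝ), L.length ≤ n → (∀ x ∈ L, 0 ≤ x.2) → (L.map Prod.snd).sum = P →
      (∃ x ∈ L, x.1 ≠ 0 ∧ 0 < x.2) → CLow Λ fun q => exp (2 * b * q.1 / π) * wP L q := by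
  induction n with
  | zero =>
    rintro L hl - - ⟨x, hx, -⟩
    rw [List.length_eq_zero_iff.1 (Nat.le_zero.1 hl)] at hx
    exact absurd hx List.not_mem_nil
  | succ n ih =>
    rintro L hl h0 hs ⟨x, hx, x1, x2⟩
    match L, hl, h0, hs, hx with
    | [], _, _, _, hx => exact absurd hx List.not_mem_nil
    | [y], _, _, hs, hx =>
      rw [List.mem_singleton] at hx
      subst hx
      have := H x.1 x1
      simp only [List.map_cons, List.map_nil, List.sum_cons, List.sum_nil, add_zero] at hs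
      have e : (fun q : ℝ × ℝ => exp (2 * b * q.1 / π) * wP [x] q) = wX b P x.1 := by
        funext q
        simp [wP, wX, hs]
      rwa [e]
    | y :: z :: L, hl, h0, hs, hx =>
      have hl' : ∀ u : ℂ × ℝ, (u :: L).length ≤ n := fun u => by
        simp only [List.length_cons] at hl ⊢
        omega
      have y0 := h0 y (by simp)
      have z0 := h0 z (by simp)
      have L0 : ∀ u ∈ L, 0 ≤ u.2 := fun u hu => h0 u (by simp [hu])
      have c0 : ∀ u : ℂ × ℝ, 0 ≤ u.2 → ∀ v ∈ u :: L, 0 ≤ v.2 := fun u hu =>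
        List.forall_mem_cons.2 ⟨hu, L0⟩
      simp only [List.map_cons, List.sum_cons] at hs
      simp only [List.mem_cons] at hx
      rcases y0.eq_or_lt with y1 | y1
      · have := ih (z :: L) (hl' _) (c0 _ z0) (by simp only [List.map_cons, List.sum_cons]; linarith only [hs, y1, y0])
          ⟨x, by rcases hx with rfl | k; exacts [absurd y1 x2.ne, List.mem_cons.2 k], x1, x2⟩
        simpa only [wP_cons y, ← y1, mul_zero, neg_zero, rpow_zero, one_mul] using this
      rcases z0.eq_or_lt with z1 | z1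
      · have := ih (y :: L) (hl' _) (c0 _ y0) (by simp only [List.map_cons, List.sum_cons]; linarith only [hs, z1, z0])
          ⟨x, by
            rcases hx with k | rfl | k
            exacts [List.mem_cons.2 (Or.inl k), absurd z1 x2.ne, List.mem_cons.2 (Or.inr k)], x1, x2⟩
        simpa only [wP_cons y, wP_cons z, ← z1, mul_zero, neg_zero, rpow_zero, one_mul] using this
      have yz : 0 < y.2 + z.2 := add_pos y1 z1
      have sm : ∀ X : ℂ, (((X, y.2 + z.2) :: L).map Prod.snd).sum = P := fun X => by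
        simp only [List.map_cons, List.sum_cons]
        linarith only [hs]
      by_cases e : y.1 = z.1
      · have := ih ((y.1, y.2 + z.2) :: L) (hl' _) (c0 _ yz.le) (sm _) (by
          rcases hx with rfl | rfl | k
          · exact ⟨_, List.mem_cons_self, x1, yz⟩
          · exact ⟨_, List.mem_cons_self, e ▸ x1, yz⟩
          · exact ⟨x, List.mem_cons_of_mem _ k, x1, x2⟩)
        have r : ∀ q, wP (y :: z :: L) q = wP ((y.1, y.2 + z.2) :: L) q := fun q => by
          rw [wP_cons, wP_cons, wP_cons, ← e, ← mul_assoc, ← rpow_add' (norm_nonneg _) (by linarith only [y1, z1])]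
          congr 2
          ring
        simpa only [r] using this
      · have l1 : y.2 + z.2 < 1 := by
          have : 0 ≤ (L.map Prod.snd).sum := List.sum_nonneg fun u hu => by
            obtain ⟨v, hv, rfl⟩ := List.mem_map.1 hu
            exact L0 v hv
          linarith only [hP, hs, this]
        obtain ⟨c, hc, k⟩ := hS _ _ y1 z1 l1 _ _ e
        refine CLow.mixture (W := fun X q => exp (2 * b * q.1 / π) * wP ((X, y.2 + z.2) :: L) q)
          (k := fun X => ENNReal.ofReal (‖X - y.1‖ ^ (2 * z.2 - 2) * ‖X - z.1‖ ^ (2 * y.2 - 2)))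
          hc ?_ ?_ ?_ ?_
        · simp only [wP_cons]
          exact (by fun_prop : Continuous fun x : ℂ × ℝ × ℝ =>
            exp (2 * b * x.2.1 / π)).measurable.mul (((by fun_prop : Continuous fun x : ℂ × ℝ × ℝ =>
              ‖x.1 - Complex.exp (pt 1 1 x.2)‖).measurable.pow_const _).mul
                ((wP_meas L).comp measurable_snd))
        · exact (((by fun_prop : Continuous fun X : ℂ => ‖X - y.1‖).measurable.pow_const _).mul
            ((by fun_prop : Continuous fun X : ℂ => ‖X - z.1‖).measurable.pow_const _)).ennreal_ofReal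
        · filter_upwards [ae_exp_ne y.1, ae_exp_ne z.1] with q q1 q2
          have n0 : 0 ≤ exp (2 * b * q.1 / π) * wP L q := mul_nonneg (exp_pos _).le (wP_nonneg L q)
          have e1 : ∀ X : ℂ,
              ENNReal.ofReal (‖X - y.1‖ ^ (2 * z.2 - 2) * ‖X - z.1‖ ^ (2 * y.2 - 2)) *
                ENNReal.ofReal (exp (2 * b * q.1 / π) * wP ((X, y.2 + z.2) :: L) q) =
              ENNReal.ofReal (‖X - Complex.exp (pt 1 1 q)‖ ^ (-(2 * (y.2 + z.2))) *
                (‖X - y.1‖ ^ (2 * z.2 - 2) * ‖X - z.1‖ ^ (2 * y.2 - 2))) *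
                ENNReal.ofReal (exp (2 * b * q.1 / π) * wP L q) := fun X => by
            rw [← ENNReal.ofReal_mul (by positivity), ← ENNReal.ofReal_mul' n0, wP_cons]
            congr 1
            ring
          simp only [e1]
          rw [lintegral_mul_const' _ _ ENNReal.ofReal_ne_top, ← mul_assoc, ← k _ q1 q2,
            ← ENNReal.ofReal_mul' n0, wP_cons, wP_cons]
          congr 1
          ring
        · filter_upwards [(Set.finite_singleton (0 : ℂ)).countable.ae_notMem volume] with X hX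
          exact ih _ (hl' _) (c0 _ yz.le) (sm _) ⟨_, List.mem_cons_self, hX, yz⟩

theorem strip_mono (hS : Star) {Λ a b b' : ℝ} (hab : a + b < π) (ha : 0 < a) (hb : 0 < b')
    (h2 : b' ≤ b) (h : StripLow Λ b a) : StripLow Λ b' a := by
  have hp := pi_pos
  have k := clow_list hS ((div_lt_one hp).2 hab) (fun X hX => pol ha (hb.trans_le h2) hab h hX) 2
    [(0, (b - b') / π), (1, (a + b') / π)] le_rfl
    (by
      simp only [List.mem_cons, List.not_mem_nil, or_false, forall_eq_or_imp, forall_eq]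
      exact ⟨div_nonneg (by linarith) hp.le, by positivity⟩)
    (by simp only [List.map_cons, List.map_nil, List.sum_cons, List.sum_nil]; ring)
    ⟨(1, (a + b') / π), by simp, one_ne_zero, by positivity⟩
  refine back_wtF ha hb (by linarith) _ (fun _ _ => by positivity) (by simp) ?_
  convert k using 2 with q
  simp only [wtF, wP, Finset.range_one, Finset.prod_singleton, List.map_cons, List.map_nil,
    List.prod_cons, List.prod_nil, mul_one, zero_sub, norm_neg, Complex.norm_exp, pt_re, one_mul,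
    Complex.ofReal_zero, sub_zero]
  rw [← exp_mul, ← mul_assoc, ← exp_add]
  congr 2
  ring

/-- the list of prevertices -/
def mkL (s p : ℕ → ℝ) : ℕ → List (ℂ × ℝ)
  | 0 => []
  | m + 1 => (Complex.exp (s m), p m) :: mkL s p m

theorem mkL_sum (s p : ℕ → ℝ) (m : ℕ) :
    ((mkL s p m).map Prod.snd).sum = ∑ k ∈ Finset.range m, p k := by
  induction m with
  | zero => rfl
  | succ m ih => rw [mkL, List.map_cons, List.sum_cons, ih, Finset.sum_range_succ, add_comm]

theorem mkL_mem (s p : ℕ → ℝ) (m : ℕ) (x : ℂ × ℝ) :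
    x ∈ mkL s p m ↔ ∃ k, k < m ∧ x = (Complex.exp (s k), p k) := by
  induction m with
  | zero => simp [mkL]
  | succ m ih =>
    rw [mkL, List.mem_cons, ih]
    constructor
    · rintro (h | ⟨k, h1, h2⟩)
      exacts [⟨m, m.lt_succ_self, h⟩, ⟨k, h1.trans m.lt_succ_self, h2⟩]
    · rintro ⟨k, h1, h2⟩
      rcases (Nat.lt_succ_iff.1 h1).eq_or_lt with rfl | h
      exacts [Or.inl h2, Or.inr ⟨k, h, h2⟩]

theorem mkL_prod (s p : ℕ → ℝ) (m : ℕ) (q : ℝ × ℝ) :
    ∏ k ∈ Finset.range m, ‖1 - Complex.exp (pt 1 1 q - (s k : ℝ))‖ ^ (-(2 * p k)) =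
      (∏ k ∈ Finset.range m, exp (2 * p k * s k)) * wP (mkL s p m) q := by
  induction m with
  | zero => simp [mkL, wP]
  | succ m ih =>
    have e : 1 - Complex.exp (pt 1 1 q - (s m : ℝ)) =
        Complex.exp (-(s m : ℝ)) * (Complex.exp (s m) - Complex.exp (pt 1 1 q)) := by
      rw [mul_sub, ← Complex.exp_add, ← Complex.exp_add, neg_add_cancel, Complex.exp_zero,
        neg_add_eq_sub]
    rw [Finset.prod_range_succ, Finset.prod_range_succ, ih, mkL, wP_cons, e, norm_mul,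
      mul_rpow (norm_nonneg _) (norm_nonneg _), Complex.norm_exp, ← exp_mul, Complex.neg_re,
      Complex.ofReal_re, show -s m * -(2 * p m) = 2 * p m * s m by ring]
    ring

theorem mix_of_star (hS : Star) {Λ a b a' b' : ℝ} (hab : a + b < π) (ha : 0 < a') (hb : 0 < b')
    (h1 : a' ≤ a) (h2 : b' ≤ b) (h : StripLow Λ b a) {m : ℕ} (s : ℕ → ℝ) {p : ℕ → ℝ}
    (hp : ∀ k, k < m → 0 ≤ p k) (hs : ∑ k ∈ Finset.range m, p k = (a' + b') / π) :
    SLow Λ (wtF b' m s p) := by
  have hπ := pi_pos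
  have hab' : a' + b' < π := by linarith only [hab, h1, h2]
  have h' : StripLow Λ b' a' := strip_sym' (strip_mono hS (by linarith) hb ha h1
    (strip_sym' (strip_mono hS hab (ha.trans_le h1) hb h2 h)))
  have ex : ∃ k ∈ Finset.range m, 0 < p k := by
    by_contra c
    push Not at c
    have := Finset.sum_nonpos c
    have : 0 < (a' + b') / π := by positivity
    linarith
  obtain ⟨j, j1, j2⟩ := ex
  have k := (clow_list hS ((div_lt_one hπ).2 hab') (fun X hX => pol ha hb hab' h' hX) _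
    (mkL s p m) le_rfl
    (fun x hx => by
      obtain ⟨k, k1, rfl⟩ := (mkL_mem s p m x).1 hx
      exact hp k k1)
    ((mkL_sum s p m).trans hs)
    ⟨_, (mkL_mem s p m _).2 ⟨j, Finset.mem_range.1 j1, rfl⟩, Complex.exp_ne_zero _, j2⟩).smul
      (κ := ∏ k ∈ Finset.range m, exp (2 * p k * s k)) (by positivity)
  refine back_wtF ha hb hab' s hp hs ?_
  convert k using 2 with q
  rw [wtF, mkL_prod]
  ring

end

end Pool.Agent.Work.MP_267827_an.PS
end

-- merged part: Pool.Agent.Work.MP_267827_an.PS.AStarB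
section
/-! The star-triangle identity by a Moebius change of variables (helper11). -/

set_option autoImplicit false

namespace Pool.Agent.Work.MP_267827_an.PS

open MeasureTheory Set Filter Topology Real

noncomputable section

theorem lcov {D : Set ℂ} (hD : MeasurableSet D) {F F' : ℂ → ℂ}
    (hF : ∀ z ∈ D, HasDerivAt F (F' z) z) (inj : InjOn F D) (g : ℂ → ENNReal) :
    ∫⁻ z in F '' D, g z = ∫⁻ z in D, ENNReal.ofReal (‖F' z‖ ^ 2) * g (F z) := by
  rw [lintegral_image_eq_lintegral_abs_det_fderiv_mul volume hD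
    (f' := fun z => ContinuousLinearMap.mul ℝ ℂ (F' z)) (fun z hz => ?_) inj]
  · refine lintegral_congr fun z => ?_
    have h : (ContinuousLinearMap.mul ℝ ℂ (F' z)).det = ‖F' z‖ ^ 2 := by
      rw [← Complex.normSq_eq_norm_sq, ← Algebra.norm_complex_apply, Algebra.norm_apply]
      rfl
    rw [h, abs_of_nonneg (sq_nonneg _)]
  · refine (((hF z hz).hasFDerivAt.restrictScalars ℝ).congr_fderiv ?_).hasFDerivWithinAt
    exact ContinuousLinearMap.ext fun v => by simp [mul_comm]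

theorem lint_compl (Z : ℂ) (g : ℂ → ENNReal) : ∫⁻ z in {Z}ᶜ, g z = ∫⁻ z, g z := by
  rw [restrict_compl_singleton]

/-- the constant of the identity -/
def I0 (p q : ℝ) : ENNReal := ∫⁻ U : ℂ, ENNReal.ofReal (‖U‖ ^ (2 * q - 2) * ‖1 - U‖ ^ (2 * p - 2))

theorem I0_meas (p q : ℝ) :
    Measurable fun U : ℂ => ENNReal.ofReal (‖U‖ ^ (2 * q - 2) * ‖1 - U‖ ^ (2 * p - 2)) :=
  ((continuous_norm.measurable.pow_const _).mul
    ((by fun_prop : Continuous fun U : ℂ => ‖1 - U‖).measurable.pow_const _)).ennreal_ofReal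

theorem I0_ne_zero (p q : ℝ) : I0 p q ≠ 0 := by
  intro h
  rw [I0, lintegral_eq_zero_iff (I0_meas p q)] at h
  have : ∀ᵐ _U : ℂ, False := by
    filter_upwards [h, (Set.finite_singleton (0 : ℂ)).countable.ae_notMem volume,
      (Set.finite_singleton (1 : ℂ)).countable.ae_notMem volume] with U h0 h1 h2
    have a1 : 0 < ‖U‖ := norm_pos_iff.2 h1
    have a2 : 0 < ‖1 - U‖ := norm_pos_iff.2 (sub_ne_zero.2 (Ne.symm h2))
    exact (ENNReal.ofReal_pos.2 (by positivity)).ne' h0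
  exact this.exists.elim fun _ => id

theorem I0_ne_top {p q : ℝ} (hp : 0 < p) (hq : 0 < q) (h : p + q < 1) : I0 p q ≠ ⊤ := by
  have hπ := pi_pos
  have i := wX_int (a := π * (1 - p - q)) (b := π * q) (mul_pos hπ (by linarith)) (mul_pos hπ hq)
    (by linarith only [hp, hπ, mul_pos_of_neg_of_neg (Mathlib.Tactic.Linarith.sub_neg_of_lt hp) (Mathlib.Tactic.Linarith.sub_neg_of_lt hπ)]) one_ne_zero
  have inj : InjOn (fun x => Complex.exp (pt 1 1 x)) Cy := by
    intro x hx y hy e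
    have := Complex.exp_inj_of_neg_pi_lt_of_le_pi (by simpa using hx.1) (by simpa using hx.2.le)
      (by simpa using hy.1) (by simpa using hy.2.le) e
    have h1 := congrArg Complex.re this
    have h2 := congrArg Complex.im this
    simp only [pt_re, pt_im, one_mul] at h1 h2
    exact Prod.ext h1 h2
  obtain ⟨-, c, -⟩ := cov (meas_Sp (-π) π) (F := Complex.exp) (F' := Complex.exp) one_pos one_pos
    (fun x _ => Complex.hasDerivAt_exp _) inj
    fun U : ℂ => ‖U‖ ^ (2 * q - 2) * ‖1 - U‖ ^ (2 * p - 2)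
  have k := c.2 (i.congr (Eventually.of_forall fun x => by
    simp only [wX, smul_eq_mul, one_mul, Complex.norm_exp, pt_re]
    rw [← exp_mul, ← exp_nat_mul, ← mul_assoc (exp _), ← exp_add]
    congr 2
    · field_simp
      push_cast
      ring
    · field_simp
      ring))
  have full : ∀ᵐ U : ℂ, U ∈ (fun x => Complex.exp (pt 1 1 x)) '' Sp (-π) π := by
    filter_upwards [Complex.volume_preserving_equiv_real_prod.quasiMeasurePreserving.ae
      (ae_snd_ne 0)] with U hU
    have h1 : U.im ≠ 0 := hU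
    have h2 : U ≠ 0 := fun e => h1 (by rw [e, Complex.zero_im])
    refine ⟨(log ‖U‖, U.arg), ⟨Complex.neg_pi_lt_arg U,
      Complex.arg_lt_pi_iff.2 (Or.inr h1)⟩, ?_⟩
    have : pt 1 1 (log ‖U‖, U.arg) = Complex.log U := by simp [pt, Complex.log]
    simp only [this, Complex.exp_log h2]
  rw [IntegrableOn, Measure.restrict_eq_self_of_ae_mem full] at k
  exact k.lintegral_lt_top.ne

theorem star' : Star := by
  intro p q hp hq h Z₁ Z₂ hZ
  have d0 : 0 < ‖Z₁ - Z₂‖ := norm_pos_iff.2 (sub_ne_zero.2 hZ)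
  have n0 : ENNReal.ofReal (‖Z₁ - Z₂‖ ^ (2 * (p + q) - 2)) * I0 p q ≠ 0 :=
    mul_ne_zero (ENNReal.ofReal_pos.2 (by positivity)).ne' (I0_ne_zero p q)
  have n1 : ENNReal.ofReal (‖Z₁ - Z₂‖ ^ (2 * (p + q) - 2)) * I0 p q ≠ ⊤ :=
    ENNReal.mul_ne_top ENNReal.ofReal_ne_top (I0_ne_top hp hq h)
  refine ⟨_, ENNReal.inv_ne_top.2 n0, fun Z z1 z2 => ?_⟩
  obtain ⟨A, hA⟩ : ∃ A, A = Z₁ - Z := ⟨_, rfl⟩
  obtain ⟨B, hB⟩ : ∃ B, B = Z₂ - Z := ⟨_, rfl⟩
  have A0 : A ≠ 0 := hA ▸ sub_ne_zero.2 z1.symm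
  have B0 : B ≠ 0 := hB ▸ sub_ne_zero.2 z2.symm
  have AB : Z₁ - Z₂ = A - B := by rw [hA, hB]; ring
  have D0 : A - B ≠ 0 := AB ▸ sub_ne_zero.2 hZ
  have nz : ∀ U ∈ ({-(B / (A - B))}ᶜ : Set ℂ), B + (A - B) * U ≠ 0 := fun U hU e => hU (by
    rw [mem_singleton_iff, ← neg_div, eq_div_iff D0]
    linear_combination e)
  have im : (fun U => Z + A * B / (B + (A - B) * U)) '' {-(B / (A - B))}ᶜ = {Z}ᶜ := by
    ext X
    constructor
    · rintro ⟨U, hU, rfl⟩ e
      exact div_ne_zero (mul_ne_zero A0 B0) (nz U hU) (by simpa using e)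
    · intro hX
      have x0 : X - Z ≠ 0 := sub_ne_zero.2 hX
      have e : B + (A - B) * ((A * B / (X - Z) - B) / (A - B)) = A * B / (X - Z) := by
        field_simp
        ring
      refine ⟨(A * B / (X - Z) - B) / (A - B), fun c => ?_, ?_⟩
      · rw [mem_singleton_iff.1 c] at e
        refine div_ne_zero (mul_ne_zero A0 B0) x0 (e.symm.trans ?_)
        field_simp
        ring
      · simp only [e]
        field_simp
        ring
  have k := lcov (measurableSet_singleton (-(B / (A - B)))).compl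
    (F := fun U => Z + A * B / (B + (A - B) * U))
    (F' := fun U => -(A * B * (A - B)) / (B + (A - B) * U) ^ 2)
    (fun U hU => by
      refine (((hasDerivAt_const U (A * B)).div (((hasDerivAt_id U).const_mul (A - B)).const_add B)
        (nz U hU)).const_add Z).congr_deriv ?_
      simp)
    (fun U hU V hV e => by
      have e1 := add_left_cancel e
      rw [div_eq_div_iff (nz U hU) (nz V hV)] at e1
      exact (mul_left_cancel₀ D0 (add_left_cancel (mul_left_cancel₀ (mul_ne_zero A0 B0) e1))).symm)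
    fun X => ENNReal.ofReal
      (‖X - Z‖ ^ (-(2 * (p + q))) * (‖X - Z₁‖ ^ (2 * q - 2) * ‖X - Z₂‖ ^ (2 * p - 2)))
  rw [im, lint_compl, setLIntegral_congr_fun (measurableSet_singleton _).compl
    (g := fun U => ENNReal.ofReal (‖A‖ ^ (-(2 * p)) * ‖B‖ ^ (-(2 * q))) *
      (ENNReal.ofReal (‖A - B‖ ^ (2 * (p + q) - 2)) *
        ENNReal.ofReal (‖U‖ ^ (2 * q - 2) * ‖1 - U‖ ^ (2 * p - 2)))) (fun U hU => ?_),
    lint_compl, lintegral_const_mul' _ _ ENNReal.ofReal_ne_top,
    lintegral_const_mul' _ _ ENNReal.ofReal_ne_top, ← AB] at k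
  · rw [k, ← hA, ← hB, mul_left_comm, ← I0, ENNReal.inv_mul_cancel n0 n1, mul_one]
  have N0 := nz U hU
  have e1 : Z + A * B / (B + (A - B) * U) - Z = A * B / (B + (A - B) * U) := by ring
  have e2 : Z + A * B / (B + (A - B) * U) - Z₁ = -(A * (A - B) * U / (B + (A - B) * U)) := by
    rw [show Z₁ = A + Z by rw [hA]; ring]
    field_simp
    ring
  have e3 : Z + A * B / (B + (A - B) * U) - Z₂ = B * (A - B) * (1 - U) / (B + (A - B) * U) := by
    rw [show Z₂ = B + Z by rw [hB]; ring]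
    field_simp
    ring
  simp only [e1, e2, e3, norm_neg, norm_div, norm_mul, norm_pow]
  rw [← ENNReal.ofReal_mul (by positivity), ← ENNReal.ofReal_mul (by positivity),
    ← ENNReal.ofReal_mul (by positivity)]
  congr 1
  obtain ⟨a, ha⟩ : ∃ a, ‖A‖ = exp a := ⟨_, (exp_log (norm_pos_iff.2 A0)).symm⟩
  obtain ⟨b, hb⟩ : ∃ b, ‖B‖ = exp b := ⟨_, (exp_log (norm_pos_iff.2 B0)).symm⟩
  obtain ⟨d, hd⟩ : ∃ d, ‖A - B‖ = exp d := ⟨_, (exp_log (norm_pos_iff.2 D0)).symm⟩
  obtain ⟨n, hn⟩ : ∃ n, ‖B + (A - B) * U‖ = exp n := ⟨_, (exp_log (norm_pos_iff.2 N0)).symm⟩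
  have r : ∀ x u s : ℝ, 0 ≤ u → (exp x * u / exp n) ^ s = exp ((x - n) * s) * u ^ s :=
    fun x u s hu => by rw [mul_div_right_comm, ← exp_sub, mul_rpow (exp_pos _).le hu, ← exp_mul]
  simp only [ha, hb, hd, hn, ← exp_add, r _ _ _ (norm_nonneg _), ← exp_sub, ← exp_mul,
    ← exp_nat_mul]
  have : ∀ x y z w u v : ℝ, x + y + z + w = u + v → ∀ s t : ℝ,
      exp x * (exp y * (exp z * s * (exp w * t))) = exp u * (exp v * (s * t)) := by
    intro x y z w u v e s t
    rw [← mul_assoc (exp u), ← exp_add, ← e, exp_add, exp_add, exp_add]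
    ring
  refine this _ _ _ _ _ _ ?_ _ _
  push_cast
  ring

end

end Pool.Agent.Work.MP_267827_an.PS
end
end

-- merged part: Pool.Agent.Work.MP_267827_an.PS.ASC
section
-- merged part: Pool.Agent.Work.MP_267827_an.PS.SCG
section
/-! Properties of the derivative `G0`.

Plan.  `‖exp u‖ = exp u.re`, `exp u = ‖exp u‖ * ei u.im`; `Lg_re` gives `G0_norm`
(`exp (-(p * log r)) = r ^ (-p)` for `0 < r`).  The bounds follow factor by factor from `nb_lb`,
`nb_lb'`, `nb_re`, `nb_ub` with `Real.rpow_le_rpow_of_nonpos` and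
`∏ c ^ (-p k) = c ^ (-∑ p k)`, `∑ p k = (a + b) / π`.  `G0_im_pos`: the argument
`b t / π - ∑ p k * (Lg (w - s k)).im` lies in `[b t / π, b t / π + (a + b) (π - t) / π]`, a subset
of `(0, π)`, by `Lg_im_mem`.  `G0_cont`: `Lg` is continuous at every point of the open strip
`0 < t < 3 π / 2` (`Lg_diff`). -/

set_option autoImplicit false

namespace Pool.Agent.Work.MP_267827_an.PS

open MeasureTheory Set Filter Topology Real

variable {b a : ℝ} {m : ℕ} {p : ℕ → ℝ}

theorem G0_ne (b : ℝ) (m : ℕ) (p s : ℕ → ℝ) (w : ℂ) : G0 b m p s w ≠ 0 := Complex.exp_ne_zero _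

theorem SCG_polar (u : ℂ) : Complex.exp u = (‖Complex.exp u‖ : ℝ) * ei u.im := by
  rw [Complex.norm_exp, Complex.ofReal_exp, ei, ← Complex.exp_add, Complex.re_add_im]

theorem SCG_arg (b : ℝ) (m : ℕ) (p s : ℕ → ℝ) (w : ℂ) : G0 b m p s w = (‖G0 b m p s w‖ : ℝ) *
    ei (b * w.im / π - ∑ k ∈ Finset.range m, p k * (Lg (w - (s k : ℝ))).im) := by
  refine (SCG_polar _).trans ?_
  congr 2
  rw [Complex.sub_im, Complex.im_sum, Complex.im_ofReal_mul]
  simp only [Complex.im_ofReal_mul]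
  ring

theorem SCG_pos (x s : ℝ) {t : ℝ} (h0 : 0 < t) (h1 : t ≤ 3 * π / 2) :
    0 < ‖1 - Complex.exp (zz x t - (s : ℝ))‖ := by
  rw [zz_sub]
  exact lt_of_lt_of_le (by positivity) (nb_lb _ h0 h1)

theorem SCG_real {x s : ℝ} (h : x ≠ s) : 0 < ‖1 - Complex.exp ((x - s : ℝ) : ℂ)‖ := by
  rw [norm_pos_iff, ← Complex.ofReal_exp, ← Complex.ofReal_one, ← Complex.ofReal_sub,
    Complex.ofReal_ne_zero, sub_ne_zero]
  exact fun e => h (sub_eq_zero.1 (Real.exp_eq_one_iff _ |>.1 e.symm))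

theorem SCG_sum (h : SAng b a m p) : ∑ k ∈ Finset.range m, p k = (a + b) / π := by
  rw [← h.sum, al, mul_div_cancel_left₀ _ pi_ne_zero]

theorem SCG_prod (h : SAng b a m p) {c : ℝ} (hc : 0 < c) :
    ∏ k ∈ Finset.range m, c ^ (-p k) = c ^ (-((a + b) / π)) := by
  rw [← rpow_sum_of_pos hc, Finset.sum_neg_distrib, SCG_sum h]

theorem SCG_le (h : SAng b a m p) {u v : ℕ → ℝ} (hu : ∀ k, k < m → 0 < u k)
    (huv : ∀ k, k < m → u k ≤ v k) :
    ∏ k ∈ Finset.range m, v k ^ (-p k) ≤ ∏ k ∈ Finset.range m, u k ^ (-p k) := by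
  refine Finset.prod_le_prod (fun k hk => ?_) fun k hk => ?_
  · rw [Finset.mem_range] at hk
    exact rpow_nonneg ((hu k hk).le.trans (huv k hk)) _
  · rw [Finset.mem_range] at hk
    exact rpow_le_rpow_of_nonpos (hu k hk) (huv k hk) (neg_nonpos.2 (h.hp k hk))

theorem G0_diff (b : ℝ) (p s : ℕ → ℝ) {w : ℂ} (h0 : 0 ≤ w.im) (h1 : w.im < 3 * π / 2)
    (hw : ∀ k, k < m → w ≠ (s k : ℝ)) : DifferentiableAt ℂ (G0 b m p s) w := by
  unfold G0
  refine DifferentiableAt.cexp (DifferentiableAt.sub (by fun_prop) ?_)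
  refine DifferentiableAt.fun_sum fun k hk => DifferentiableAt.const_mul ?_ _
  have := Lg_diff (z := w - (s k : ℝ)) (by simpa using h0) (by simpa using h1)
    (sub_ne_zero.2 (hw k (Finset.mem_range.1 hk)))
  exact this.comp w (f := fun w : ℂ => w - (s k : ℝ)) (by fun_prop)

theorem G0_norm (b : ℝ) (p s : ℕ → ℝ) {w : ℂ}
    (hw : ∀ k, k < m → 1 - Complex.exp (w - (s k : ℝ)) ≠ 0) :
    ‖G0 b m p s w‖ = exp (b * w.re / π) *
      ∏ k ∈ Finset.range m, ‖1 - Complex.exp (w - (s k : ℝ))‖ ^ (-p k) := by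
  rw [G0, Complex.norm_exp, Complex.sub_re, Complex.re_sum, Complex.re_ofReal_mul, sub_eq_add_neg,
    Real.exp_add, ← Finset.sum_neg_distrib, Real.exp_sum]
  congr 1
  · congr 1
    ring
  · refine Finset.prod_congr rfl fun k hk => ?_
    rw [Complex.re_ofReal_mul, Lg_re,
      rpow_def_of_pos (norm_pos_iff.2 (hw k (Finset.mem_range.1 hk)))]
    congr 1
    ring

theorem G0_sq (b : ℝ) (m : ℕ) (p s : ℕ → ℝ) {q : ℝ × ℝ} (hq : q ∈ St) :
    ‖G0 b m p s (pt 1 1 q)‖ ^ 2 = wtF b m s p q := by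
  have h1 : q.2 ≤ 3 * π / 2 := by linarith only [hq, hq.2, pi_pos]
  have hp : ∀ k, 0 < ‖1 - Complex.exp (pt 1 1 q - (s k : ℝ))‖ := fun k => by
    rw [pt_zz]; exact SCG_pos _ _ hq.1 h1
  rw [G0_norm b p s fun k _ => norm_pos_iff.1 (hp k), wtF, mul_pow, ← Finset.prod_pow]
  congr 1
  · rw [← Real.exp_nat_mul, pt_zz, zz_re]
    congr 1
    push_cast
    ring
  · refine Finset.prod_congr rfl fun k _ => ?_
    rw [← rpow_mul_natCast (hp k).le]
    congr 1
    push_cast
    ring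

theorem G0_le (h : SAng b a m p) (s : ℕ → ℝ) (x : ℝ) {t : ℝ} (h0 : 0 < t) (h1 : t ≤ 3 * π / 2) :
    ‖G0 b m p s (zz x t)‖ ≤ exp (b * x / π) * (t / 5) ^ (-((a + b) / π)) := by
  rw [G0_norm b p s fun k _ => norm_pos_iff.1 (SCG_pos x (s k) h0 h1), zz_re,
    ← SCG_prod h (show 0 < t / 5 by positivity)]
  refine mul_le_mul_of_nonneg_left (SCG_le h (fun _ _ => by positivity) fun k _ => ?_) (exp_pos _).le
  rw [zz_sub]
  exact nb_lb _ h0 h1

theorem G0_le' (h : SAng b a m p) (s : ℕ → ℝ) (x : ℝ) {t : ℝ} (h0 : 0 < t) (h1 : t ≤ 3 * π / 2) :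
    ‖G0 b m p s (zz x t)‖ ≤ exp (∑ k ∈ Finset.range m, p k * s k) * exp (-(a * x / π)) *
      (t / 5) ^ (-((a + b) / π)) := by
  rw [G0_norm b p s fun k _ => norm_pos_iff.1 (SCG_pos x (s k) h0 h1), zz_re,
    ← SCG_prod h (show 0 < t / 5 by positivity)]
  have h2 := SCG_le h (u := fun k => exp (x - s k) * (t / 5))
    (v := fun k => ‖1 - Complex.exp (zz x t - (s k : ℝ))‖) (fun _ _ => by positivity) fun k _ => by
      rw [zz_sub]
      exact nb_lb' _ h0 h1
  refine (mul_le_mul_of_nonneg_left h2 (exp_pos _).le).trans (le_of_eq ?_)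
  have h3 : ∀ k, (exp (x - s k) * (t / 5)) ^ (-p k) =
      exp (p k * s k - p k * x) * (t / 5) ^ (-p k) := fun k => by
    rw [mul_rpow (exp_pos _).le (by positivity), ← Real.exp_mul]
    congr 2
    ring
  simp only [h3]
  rw [Finset.prod_mul_distrib, ← mul_assoc, ← Real.exp_sum, ← Real.exp_add, ← Real.exp_add,
    Finset.sum_sub_distrib, ← Finset.sum_mul, SCG_sum h]
  congr 2
  ring

theorem G0_le_re (h : SAng b a m p) (s : ℕ → ℝ) {x : ℝ} (hx : ∀ k, k < m → x ≠ s k) (t : ℝ) :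
    ‖G0 b m p s (zz x t)‖ ≤ ‖G0 b m p s (x : ℂ)‖ := by
  have h1 : ∀ k, k < m → 0 < ‖1 - Complex.exp ((x : ℂ) - (s k : ℝ))‖ := fun k hk => by
    rw [← Complex.ofReal_sub]
    exact SCG_real (hx k hk)
  have h2 : ∀ k, k < m → ‖1 - Complex.exp ((x : ℂ) - (s k : ℝ))‖ ≤
      ‖1 - Complex.exp (zz x t - (s k : ℝ))‖ := fun k _ => by
    rw [← Complex.ofReal_sub, zz_sub]
    exact nb_re _ _
  rw [G0_norm b p s fun k hk => norm_pos_iff.1 (h1 k hk),
    G0_norm b p s fun k hk => norm_pos_iff.1 ((h1 k hk).trans_le (h2 k hk)), zz_re,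
    Complex.ofReal_re]
  exact mul_le_mul_of_nonneg_left (SCG_le h h1 h2) (exp_pos _).le

theorem G0_im_pos (h : SAng b a m p) (s : ℕ → ℝ) {w : ℂ} (hw : w ∈ Sc) :
    0 < (G0 b m p s w).im := by
  obtain ⟨h0, h1⟩ := hw
  have hL : ∀ k, w.im - π ≤ (Lg (w - (s k : ℝ))).im ∧ (Lg (w - (s k : ℝ))).im ≤ 0 := fun k => by
    simpa using Lg_im_mem (z := w - (s k : ℝ)) (by simpa using h0) (by simpa using h1.le)
  have a1 : ∑ k ∈ Finset.range m, p k * (Lg (w - (s k : ℝ))).im ≤ 0 :=
    Finset.sum_nonpos fun k hk =>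
      mul_nonpos_of_nonneg_of_nonpos (h.hp k (Finset.mem_range.1 hk)) (hL k).2
  have a2 : (a + b) / π * (w.im - π) ≤ ∑ k ∈ Finset.range m, p k * (Lg (w - (s k : ℝ))).im := by
    rw [← SCG_sum h, Finset.sum_mul]
    exact Finset.sum_le_sum fun k hk =>
      mul_le_mul_of_nonneg_left (hL k).1 (h.hp k (Finset.mem_range.1 hk))
  have a3 : 0 < b * w.im / π := div_pos (mul_pos h.hb h0) pi_pos
  have a4 : b * w.im / π < w.im := by
    rw [div_lt_iff₀ pi_pos]
    linarith only [h0, h, h.ha, h.hab, mul_pos_of_neg_of_neg (Mathlib.Tactic.Linarith.sub_neg_of_lt h0) (Mathlib.Tactic.Linarith.sub_neg_of_lt h.ha), mul_pos_of_neg_of_neg (Mathlib.Tactic.Linarith.sub_neg_of_lt h0) (Mathlib.Tactic.Linarith.sub_neg_of_lt h.hab)]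
  have a5 : (a + b) / π < 1 := (div_lt_one pi_pos).2 h.hab
  rw [SCG_arg, Complex.im_ofReal_mul, ei_im]
  refine mul_pos (norm_pos_iff.2 (G0_ne _ _ _ _ _)) (sin_pos_of_pos_of_lt_pi (by linarith only [a1, a3]) ?_)
  linarith only [a2, a4, h1, a5, mul_pos_of_neg_of_neg (Mathlib.Tactic.Linarith.sub_neg_of_lt h1) (Mathlib.Tactic.Linarith.sub_neg_of_lt a5)]

theorem G0_bot (b : ℝ) (p s : ℕ → ℝ) {k : ℕ} (hk : k ≤ m) {x : ℝ} (h1 : ∀ j, j < k → s j < x)
    (h2 : ∀ j, k ≤ j → j < m → x < s j) :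
    G0 b m p s (x : ℂ) = (‖G0 b m p s (x : ℂ)‖ : ℝ) * ei (al p k) := by
  refine (SCG_arg _ _ _ _ _).trans ?_
  congr 2
  rw [← Finset.sum_subset (Finset.range_subset_range.2 hk), al, Finset.mul_sum, Complex.ofReal_im,
    mul_zero, zero_div, zero_sub, ← Finset.sum_neg_distrib]
  · refine Finset.sum_congr rfl fun j hj => ?_
    rw [← Complex.ofReal_sub, Lg_im_pos (sub_pos.2 (h1 j (Finset.mem_range.1 hj)))]
    ring
  · intro j hj hj'
    rw [Finset.mem_range] at hj hj'
    rw [← Complex.ofReal_sub, Lg_im_neg (sub_neg.2 (h2 j (not_lt.1 hj') hj)), mul_zero]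

theorem G0_top (b : ℝ) (m : ℕ) (p s : ℕ → ℝ) (x : ℝ) :
    G0 b m p s (zz x π) = (‖G0 b m p s (zz x π)‖ : ℝ) * ei b := by
  refine (SCG_arg _ _ _ _ _).trans ?_
  congr 2
  simp only [zz_sub, Lg_im_top, mul_zero, Finset.sum_const_zero, sub_zero, zz_im]
  exact mul_div_cancel_right₀ b pi_ne_zero

theorem G0_cont (b : ℝ) (m : ℕ) (p : ℕ → ℝ) :
    ContinuousOn (fun q : (ℕ → ℝ) × ℝ × ℝ => G0 b m p q.1 (zz q.2.1 q.2.2))
      {q | 0 < q.2.2 ∧ q.2.2 < 3 * π / 2} := by
  rintro q ⟨h0, h1⟩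
  refine ContinuousAt.continuousWithinAt ?_
  have hz : Continuous fun q : (ℕ → ℝ) × ℝ × ℝ => zz q.2.1 q.2.2 :=
    continuous_zz.comp continuous_snd
  unfold G0
  refine ContinuousAt.cexp (ContinuousAt.sub (continuous_const.mul hz).continuousAt ?_)
  refine tendsto_finsetSum _ fun k _ => ContinuousAt.tendsto (ContinuousAt.const_mul ?_ _)
  have hd := Lg_diff (z := zz q.2.1 q.2.2 - (q.1 k : ℝ)) (by simpa using h0.le) (by simpa using h1)
    (fun e => h0.ne' (by simpa using congrArg Complex.im e))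
  exact hd.continuousAt.comp (f := fun q : (ℕ → ℝ) × ℝ × ℝ => zz q.2.1 q.2.2 - (q.1 k : ℝ))
    (hz.sub (by fun_prop)).continuousAt

theorem wtF_low (h : SAng b a m p) (s : ℕ → ℝ) (S : ℝ) :
    ∃ ε : ℝ, 0 < ε ∧ ∀ q ∈ St, |q.1| ≤ S → ε ≤ wtF b m s p q := by
  refine ⟨(exp (-(b * S / π)) * ∏ k ∈ Finset.range m, (1 + exp (S - s k)) ^ (-p k)) ^ 2,
    by positivity, fun q hq hS => ?_⟩
  have h1 : q.2 ≤ 3 * π / 2 := by linarith only [hq, hq.2, pi_pos]
  obtain ⟨s1, s2⟩ := abs_le.1 hS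
  rw [← G0_sq b m p s hq, pt_zz,
    G0_norm b p s fun k _ => norm_pos_iff.1 (SCG_pos _ (s k) hq.1 h1), zz_re]
  refine pow_le_pow_left₀ (by positivity) (mul_le_mul (exp_le_exp.2 ?_)
    (SCG_le h (fun k _ => SCG_pos _ (s k) hq.1 h1) fun k _ => ?_) (by positivity) (exp_pos _).le) 2
  · rw [← neg_div, ← mul_neg]
    exact div_le_div_of_nonneg_right (mul_le_mul_of_nonneg_left s1 h.hb.le) pi_pos.le
  · rw [zz_sub]
    exact (nb_ub _ _).trans (add_le_add_right (exp_le_exp.2 (by linarith only [s2])) 1)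

end Pool.Agent.Work.MP_267827_an.PS
end

-- merged part: Pool.Agent.Work.MP_267827_an.PS.SCF
section
/-! `FB` is a primitive of `G0`, injective and open on the strip.

Plan.  `top_int`: continuity (`G0_cont` or `G0_diff`), `G0_le` on `Iic 0`, `G0_le'` on `Ioi 0`.
`vert_int`: `G0_le` and `intervalIntegral.intervalIntegrable_rpow'` (exponent `> -1`).
`FB_der`: `Convex.exists_forall_hasDerivWithinAt` gives a primitive `Φ` of `G0` on the convex open
strip `0 < t < 3 π / 2`.  The fundamental theorem of calculus on vertical segments gives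
`I * ∫ t in w.im..π = Φ (zz w.re π) - Φ w`, and `x ↦ (∫ u in Iic x, …) - Φ (zz x π)` is constant
(`intervalIntegral.integral_Iic_sub_Iic` and the fundamental theorem on horizontal segments), so
`FB = Φ + c` on `Sc`.  `FB_inj`: for `w₁ ≠ w₂` in `Sc` the function
`r ↦ (FB (w₁ + r (w₂ - w₁)) / (w₂ - w₁)).im` has the positive derivative `(G0 …).im` on `[0, 1]`.
`FB_open`: `HasStrictDerivAt.map_nhds_eq` (holomorphic, so `ContDiffAt`/analytic, `G0_ne`). -/

set_option autoImplicit false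

namespace Pool.Agent.Work.MP_267827_an.PS

open MeasureTheory Set Filter Topology Real

variable {b a : ℝ} {m : ℕ} {p : ℕ → ℝ}

theorem SCF_diff (b : ℝ) (p s : ℕ → ℝ) {w : ℂ} (h0 : 0 < w.im) (h1 : w.im < 3 * π / 2) :
    DifferentiableAt ℂ (G0 b m p s) w :=
  G0_diff b p s h0.le h1 fun k _ e => by
    rw [e, Complex.ofReal_im] at h0
    exact lt_irrefl _ h0

theorem SCF_open : IsOpen Sc :=
  (isOpen_lt continuous_const Complex.continuous_im).inter
    (isOpen_lt Complex.continuous_im continuous_const)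

theorem top_int (h : SAng b a m p) (s : ℕ → ℝ) : Integrable fun u : ℝ => G0 b m p s (zz u π) := by
  have hc : Continuous fun u : ℝ => G0 b m p s (zz u π) := continuous_iff_continuousAt.2 fun u =>
    ContinuousAt.comp (f := fun u : ℝ => zz u π)
      (SCF_diff b p s (by simpa using pi_pos) (by simp only [zz_im]; linarith only [pi_pos])).continuousAt
      (by fun_prop)
  have h1 : π ≤ 3 * π / 2 := by linarith only [pi_pos]
  rw [← integrableOn_univ, ← Iic_union_Ioi (a := (0 : ℝ))]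
  refine IntegrableOn.union ?_ ?_
  · refine ((integrableOn_exp_mul_Iic (div_pos h.hb pi_pos) 0).mul_const
      ((π / 5) ^ (-((a + b) / π)))).mono' hc.aestronglyMeasurable (ae_of_all _ fun u => ?_)
    rw [div_mul_eq_mul_div]
    exact G0_le h s u pi_pos h1
  · refine (((integrableOn_exp_mul_Ioi (neg_lt_zero.2 (div_pos h.ha pi_pos)) 0).const_mul
      (exp (∑ k ∈ Finset.range m, p k * s k))).mul_const
      ((π / 5) ^ (-((a + b) / π)))).mono' hc.aestronglyMeasurable (ae_of_all _ fun u => ?_)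
    rw [neg_mul, div_mul_eq_mul_div]
    exact G0_le' h s u pi_pos h1

theorem vert_int (h : SAng b a m p) (s : ℕ → ℝ) (x : ℝ) {t₁ t₂ : ℝ} (h1 : t₁ ∈ Icc 0 π)
    (h2 : t₂ ∈ Icc 0 π) : IntervalIntegrable (fun t => G0 b m p s (zz x t)) volume t₁ t₂ := by
  have hr : -1 < -((a + b) / π) := neg_lt_neg ((div_lt_one pi_pos).2 h.hab)
  have hm : ∀ t ∈ uIoc t₁ t₂, 0 < t ∧ t ≤ π := fun t ht =>
    ⟨(le_min h1.1 h2.1).trans_lt ht.1, ht.2.trans (max_le h1.2 h2.2)⟩
  refine (((intervalIntegral.intervalIntegrable_rpow' hr (a := t₁) (b := t₂)).div_const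
    ((5 : ℝ) ^ (-((a + b) / π)))).const_mul (exp (b * x / π))).mono_fun'
    (ContinuousOn.aestronglyMeasurable (fun t ht => ?_) measurableSet_uIoc)
    ((ae_restrict_iff' measurableSet_uIoc).2 (ae_of_all _ fun t ht => ?_))
  · exact (ContinuousAt.comp (f := fun t : ℝ => zz x t)
      (SCF_diff b p s (by simpa using (hm t ht).1)
        (by simp only [zz_im]; linarith only [hm, ht, pi_pos, (hm t ht).2])).continuousAt
      (by fun_prop)).continuousWithinAt
  · beta_reduce
    rw [← div_rpow (hm t ht).1.le (by norm_num)]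
    exact G0_le h s x (hm t ht).1 (by linarith only [hm, ht, pi_pos, (hm t ht).2])

theorem FB_der (h : SAng b a m p) (s : ℕ → ℝ) {w : ℂ} (hw : w ∈ Sc) :
    HasDerivAt (FB b m p s) (G0 b m p s w) w := by
  have ho : IsOpen {w : ℂ | 0 < w.im ∧ w.im < 3 * π / 2} :=
    (isOpen_lt continuous_const Complex.continuous_im).inter
      (isOpen_lt Complex.continuous_im continuous_const)
  have hc : Convex ℝ {w : ℂ | 0 < w.im ∧ w.im < 3 * π / 2} :=
    (convex_halfSpace_im_gt 0).inter (convex_halfSpace_im_lt _)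
  obtain ⟨Φ, hΦ⟩ := hc.exists_forall_hasDerivWithinAt (f := G0 b m p s) fun z hz =>
    (SCF_diff b p s hz.1 hz.2).differentiableWithinAt
  have hΦ' : ∀ x t : ℝ, 0 < t → t ≤ π → HasDerivAt Φ (G0 b m p s (zz x t)) (zz x t) := by
    intro x t h0 h1
    have : zz x t ∈ {w : ℂ | 0 < w.im ∧ w.im < 3 * π / 2} :=
      ⟨by simpa using h0, by simp only [zz_im]; linarith only [h0, h1, pi_pos]⟩
    exact (hΦ _ this).hasDerivAt (ho.mem_nhds this)
  have hv : ∀ z ∈ Sc, Complex.I * ∫ t in z.im..π, G0 b m p s (zz z.re t) =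
      Φ (zz z.re π) - Φ z := by
    intro z hz
    have := intervalIntegral.integral_eq_sub_of_hasDerivAt (f := fun t => Φ (zz z.re t))
      (f' := fun t => G0 b m p s (zz z.re t) * Complex.I) (a := z.im) (b := π) (fun t ht => by
        rw [uIcc_of_le hz.2.le] at ht
        refine (hΦ' z.re t (hz.1.trans_le ht.1) ht.2).comp t ?_
        have k := ((Complex.ofRealCLM.hasDerivAt (x := t)).mul_const
          Complex.I).const_add (z.re : ℂ)
        rw [Complex.ofRealCLM_apply, Complex.ofReal_one, one_mul] at k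
        exact k)
      ((vert_int h s z.re ⟨hz.1.le, hz.2.le⟩ ⟨pi_pos.le, le_rfl⟩).mul_const _)
    rwa [intervalIntegral.integral_mul_const, zz_eta, mul_comm] at this
  have hh : ∀ x : ℝ, ∫ u in Iic x, G0 b m p s (zz u π) =
      (∫ u in Iic 0, G0 b m p s (zz u π)) + (Φ (zz x π) - Φ (zz 0 π)) := by
    intro x
    have := intervalIntegral.integral_eq_sub_of_hasDerivAt (f := fun u => Φ (zz u π))
      (f' := fun u => G0 b m p s (zz u π)) (a := 0) (b := x) (fun u _ => by
        have k : HasDerivAt (fun u : ℝ => zz u π) 1 u := by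
          simpa [zz] using (Complex.ofRealCLM.hasDerivAt (x := u)).add_const
            ((π : ℂ) * Complex.I)
        have k' := (hΦ' u π pi_pos le_rfl).comp u k
        rw [mul_one] at k'
        exact k')
      (top_int h s).intervalIntegrable
    rw [← this, ← intervalIntegral.integral_Iic_sub_Iic (top_int h s).integrableOn
      (top_int h s).integrableOn, add_sub_cancel]
  have hd := (hΦ' w.re w.im hw.1 hw.2.le).add_const
    ((∫ u in Iic 0, G0 b m p s (zz u π)) - Φ (zz 0 π))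
  rw [zz_eta] at hd
  refine hd.congr_of_eventuallyEq ?_
  filter_upwards [SCF_open.mem_nhds hw] with z hz
  rw [FB, hv z hz, hh]
  ring

theorem FB_inj (h : SAng b a m p) (s : ℕ → ℝ) : InjOn (FB b m p s) Sc := by
  intro w₁ h1 w₂ h2 e
  by_contra hne
  have hd : w₂ - w₁ ≠ 0 := sub_ne_zero.2 (Ne.symm hne)
  have hm : ∀ r ∈ Icc (0 : ℝ) 1, w₁ + r * (w₂ - w₁) ∈ Sc := by
    intro r hr
    have := ((convex_halfSpace_im_gt 0).inter (convex_halfSpace_im_lt π)).add_smul_sub_mem h1 h2 hr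
    rwa [Complex.real_smul] at this
  have hD : ∀ r ∈ Icc (0 : ℝ) 1,
      HasDerivAt (fun r : ℝ => (FB b m p s (w₁ + r * (w₂ - w₁)) / (w₂ - w₁)).im)
        (G0 b m p s (w₁ + r * (w₂ - w₁))).im r := by
    intro r hr
    have k : HasDerivAt (fun r : ℝ => w₁ + r * (w₂ - w₁)) (w₂ - w₁) r := by
      simpa using ((Complex.ofRealCLM.hasDerivAt (x := r)).mul_const (w₂ - w₁)).const_add w₁
    have k' := ((FB_der h s (hm r hr)).comp r k).div_const (w₂ - w₁)
    rw [mul_div_cancel_right₀ _ hd] at k'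
    exact Complex.imCLM.hasFDerivAt.comp_hasDerivAt r k'
  obtain ⟨c, hc, k⟩ := exists_hasDerivAt_eq_zero zero_lt_one
    (fun r hr => (hD r hr).continuousAt.continuousWithinAt) (by simp [e])
    fun r hr => hD r (Ioo_subset_Icc_self hr)
  exact (G0_im_pos h s (hm c (Ioo_subset_Icc_self hc))).ne' k

theorem FB_open (h : SAng b a m p) (s : ℕ → ℝ) : IsOpen (FB b m p s '' Sc) := by
  refine isOpen_iff_mem_nhds.2 ?_
  rintro _ ⟨w, hw, rfl⟩
  have hd : DifferentiableOn ℂ (FB b m p s) Sc := fun z hz =>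
    (FB_der h s hz).differentiableAt.differentiableWithinAt
  rw [← (hd.analyticAt (SCF_open.mem_nhds hw)).hasStrictDerivAt.map_nhds_eq
    (by rw [(FB_der h s hw).deriv]; exact G0_ne b m p s w)]
  exact image_mem_map (SCF_open.mem_nhds hw)

end Pool.Agent.Work.MP_267827_an.PS
end

-- merged part: Pool.Agent.Work.MP_267827_an.PS.SCC
section
/-! Joint continuity of `FB` on the closed strip.

Plan.  Write both integrals over fixed domains with indicator functions, or substitute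
`u = x + v`, `v ∈ Iic 0`; use `continuousAt_of_dominated` / `continuousWithinAt_of_dominated` with the
bounds `G0_le` (they do not depend on `s`): `exp (b (x₀ + 1 + v) / π) * (π / 5) ^ (-P)` and
`exp (b (x₀ + 1) / π) * (t / 5) ^ (-P)`, `P = (a + b) / π < 1`; for the second integral write
`∫ t in t₀..π, f = ∫ t in Ioc 0 π, (Ioi t₀).indicator f t`, continuous in the parameters for every
`t ≠ t₀` by `G0_cont`. -/

set_option autoImplicit false

namespace Pool.Agent.Work.MP_267827_an.PS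

open MeasureTheory Set Filter Topology Real

variable {b a : ℝ} {m : ℕ} {p : ℕ → ℝ}

theorem SCC_ind {X : Type} [TopologicalSpace X] [FirstCountableTopology X] {μ : Measure ℝ}
    {f : X → ℝ → ℂ} {S : X → Set ℝ} {x₀ : X} {B : ℝ → ℝ} (hS : ∀ x, MeasurableSet (S x))
    (hm : ∀ x, AEStronglyMeasurable (f x) μ)
    (hb : ∀ᶠ x in 𝓝 x₀, ∀ᵐ t ∂μ, t ∈ S x → ‖f x t‖ ≤ B t) (hB : Integrable B μ)
    (hc : ∀ᵐ t ∂μ, ContinuousAt (fun x => f x t) x₀)
    (he : ∀ᵐ t ∂μ, ∀ᶠ x in 𝓝 x₀, t ∈ S x ↔ t ∈ S x₀) :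
    ContinuousAt (fun x => ∫ t in S x, f x t ∂μ) x₀ := by
  simp_rw [← integral_indicator (hS _)]
  refine continuousAt_of_dominated (.of_forall fun x => (hm x).indicator (hS x))
    (hb.mono fun x hx => hx.mono fun t ht => ?_) hB.abs ?_
  · by_cases k : t ∈ S x
    · rw [indicator_of_mem k]
      exact (ht k).trans (le_abs_self _)
    · rw [indicator_of_notMem k, norm_zero]
      exact abs_nonneg _
  · filter_upwards [hc, he] with t h1 h2
    by_cases k : t ∈ S x₀
    · exact h1.congr (h2.mono fun x hx => (indicator_of_mem (hx.2 k) _).symm)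
    · exact continuousAt_const.congr (h2.mono fun x hx => (indicator_of_notMem (mt hx.1 k) _).symm)

theorem SCC_pt {t : ℝ} (h0 : 0 < t) (h1 : t ≤ π) {x : (ℕ → ℝ) × ℂ → ℝ} (hx : Continuous x)
    (q : (ℕ → ℝ) × ℂ) : ContinuousAt (fun q : (ℕ → ℝ) × ℂ => G0 b m p q.1 (zz (x q) t)) q :=
  ((G0_cont b m p).comp_continuous (f := fun q : (ℕ → ℝ) × ℂ => (q.1, x q, t)) (by fun_prop)
    fun _ => ⟨h0, by linarith only [h0, h1, pi_pos]⟩).continuousAt

theorem SCC_ev {X : Type} [TopologicalSpace X] {c : X → ℝ} (hc : Continuous c) (x₀ : X) :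
    ∀ᵐ t : ℝ, ∀ᶠ x in 𝓝 x₀, t ∈ Ioi (c x) ↔ t ∈ Ioi (c x₀) := by
  filter_upwards [Measure.ae_ne volume (c x₀)] with t ht
  rcases lt_or_gt_of_ne ht with k | k
  · exact (hc.continuousAt.eventually (lt_mem_nhds k)).mono fun x hx =>
      iff_of_false hx.not_gt k.not_gt
  · exact (hc.continuousAt.eventually (gt_mem_nhds k)).mono fun x hx => iff_of_true hx k

theorem FB_cont (h : SAng b a m p) :
    ContinuousOn (fun q : (ℕ → ℝ) × ℂ => FB b m p q.1 q.2) {q | 0 ≤ q.2.im ∧ q.2.im ≤ π} := by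
  have hre : Continuous fun q : (ℕ → ℝ) × ℂ => q.2.re := by fun_prop
  have hnear : ∀ q₀ : (ℕ → ℝ) × ℂ, ∀ᶠ q : (ℕ → ℝ) × ℂ in 𝓝 q₀, q.2.re < q₀.2.re + 1 := fun q₀ =>
    hre.continuousAt.eventually (gt_mem_nhds (lt_add_one _))
  have h1 : Continuous fun q : (ℕ → ℝ) × ℂ => ∫ u in Iic q.2.re, G0 b m p q.1 (zz u π) :=
    continuous_iff_continuousAt.2 fun q₀ => SCC_ind (fun _ => measurableSet_Iic)
      (fun q => (top_int h q.1).aestronglyMeasurable) ((hnear q₀).mono fun q hq => .of_forall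
        fun u hu => by
          rw [indicator_of_mem (show u ∈ Iic (q₀.2.re + 1) from le_trans hu hq.le),
            div_mul_eq_mul_div]
          exact G0_le h q.1 u pi_pos (by linarith only [pi_pos]))
      (IntegrableOn.integrable_indicator (Integrable.mul_const (integrableOn_exp_mul_Iic
        (div_pos h.hb pi_pos) (q₀.2.re + 1)) ((π / 5) ^ (-((a + b) / π)))) measurableSet_Iic)
      (.of_forall fun u => SCC_pt pi_pos le_rfl continuous_const q₀)
      ((SCC_ev hre q₀).mono fun t ht => ht.mono fun q hq => by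
        simpa only [mem_Iic, mem_Ioi, not_lt] using hq.not)
  have h2 : Continuous fun q : (ℕ → ℝ) × ℂ =>
      ∫ t in Ioi q.2.im, G0 b m p q.1 (zz q.2.re t) ∂volume.restrict (Ioc 0 π) :=
    continuous_iff_continuousAt.2 fun q₀ => SCC_ind (fun _ => measurableSet_Ioi)
      (fun q => (vert_int h q.1 q.2.re (left_mem_Icc.2 pi_pos.le)
        (right_mem_Icc.2 pi_pos.le)).1.aestronglyMeasurable)
      ((hnear q₀).mono fun q hq => (ae_restrict_mem measurableSet_Ioc).mono fun t ht _ => by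
        refine (G0_le h q.1 _ ht.1 (by linarith only [ht, pi_pos, ht.2])).trans ?_
        rw [div_rpow ht.1.le (by norm_num)]
        have := h.hb
        have := ht.1
        gcongr)
      (((intervalIntegral.intervalIntegrable_rpow' (a := 0) (b := π) (r := -((a + b) / π))
        (neg_lt_neg ((div_lt_one pi_pos).2 h.hab))).1.div_const (5 ^ (-((a + b) / π)))).const_mul
        (exp (b * (q₀.2.re + 1) / π)))
      ((ae_restrict_mem measurableSet_Ioc).mono fun t ht => SCC_pt ht.1 ht.2 hre q₀)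
      (ae_restrict_of_ae (SCC_ev (by fun_prop) q₀))
  refine (h1.fun_sub (h2.const_mul Complex.I)).continuousOn.congr fun q hq => ?_
  beta_reduce
  rw [FB, intervalIntegral.integral_of_le hq.2, Measure.restrict_restrict measurableSet_Ioi,
    inter_comm, Ioc_inter_Ioi, sup_eq_right.2 hq.1]

end Pool.Agent.Work.MP_267827_an.PS
end

-- merged part: Pool.Agent.Work.MP_267827_an.PS.SCE
section
/-! The ends of the strip and the line `t = π`.

Plan.  The vertical integral is at most `C * exp (b x / π)` and `C * exp (-(a x / π))` by `G0_le`,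
`G0_le'` (`C` contains `∫ t in 0..π, (t / 5) ^ (-P)`); the horizontal one tends to `0` and to `FA`
(`top_int`, `tendsto_setIntegral`-type lemmas, or the same exponential bounds for
`∫ u in Iic x` and `∫ u in Ioi x`).  `FB_top`: `G0_top`, `Λ = ∫ ‖G0 (zz u π)‖ > 0`.
`FB_near`: for `π / 2 ≤ t ≤ π` the function `G0 (zz x t)` is bounded uniformly in `x` (`G0_le` for
`x ≤ 0`, `G0_le'` for `0 ≤ x`).  `FB_ht`: `G0_le_re` and
`intervalIntegral.norm_integral_le_of_norm_le_const`. -/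

set_option autoImplicit false

namespace Pool.Agent.Work.MP_267827_an.PS

open MeasureTheory Set Filter Topology Real

variable {b a : ℝ} {m : ℕ} {p : ℕ → ℝ}

theorem SCE_r (h : SAng b a m p) : -1 < -((a + b) / π) := by
  have : (a + b) / π < 1 := (div_lt_one pi_pos).2 h.hab
  linarith only [this]

theorem SCE_int {r : ℝ} (hr : -1 < r) (c d : ℝ) :
    IntervalIntegrable (fun t : ℝ => (t / 5) ^ r) volume c d := by
  have h1 := (intervalIntegral.intervalIntegrable_rpow' (a := c / 5) (b := d / 5) hr).comp_mul_right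
    (c := (5 : ℝ)⁻¹)
  have e1 : c / 5 / (5 : ℝ)⁻¹ = c := by field_simp
  have e2 : d / 5 / (5 : ℝ)⁻¹ = d := by field_simp
  rw [e1, e2] at h1
  simpa only [div_eq_mul_inv] using h1

theorem SCE_vert {r : ℝ} (hr : -1 < r) : ∃ C : ℝ, ∀ (f : ℝ → ℂ) (K t₀ : ℝ), 0 ≤ K → 0 ≤ t₀ →
    t₀ ≤ π → (∀ t, 0 < t → t ≤ π → ‖f t‖ ≤ K * (t / 5) ^ r) → ‖∫ t in t₀..π, f t‖ ≤ K * C := by
  refine ⟨∫ t in (0 : ℝ)..π, (t / 5) ^ r, fun f K t₀ hK h0 h1 hf => ?_⟩
  calc ‖∫ t in t₀..π, f t‖ ≤ ∫ t in t₀..π, K * (t / 5) ^ r :=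
        intervalIntegral.norm_integral_le_of_norm_le h1
          (Eventually.of_forall fun t ht => hf t (h0.trans_lt ht.1) ht.2)
          ((SCE_int hr _ _).const_mul K)
    _ = K * ∫ t in t₀..π, (t / 5) ^ r := intervalIntegral.integral_const_mul _ _
    _ ≤ K * ∫ t in (0 : ℝ)..π, (t / 5) ^ r := by
        refine mul_le_mul_of_nonneg_left ?_ hK
        refine intervalIntegral.integral_mono_interval h0 h1 le_rfl ?_ (SCE_int hr _ _)
        refine (ae_restrict_iff' measurableSet_Ioc).2 (Eventually.of_forall fun t ht => ?_)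
        exact Real.rpow_nonneg (by have := ht.1; positivity) _

theorem SCE_bdd (h : SAng b a m p) (s : ℕ → ℝ) : ∃ K : ℝ, 0 < K ∧ ∀ x t : ℝ, π / 2 ≤ t → t ≤ π →
    ‖G0 b m p s (zz x t)‖ ≤ K := by
  have hpi := pi_pos
  have hr : -((a + b) / π) ≤ 0 := by
    have := h.ha
    have := h.hb
    have : 0 ≤ (a + b) / π := by positivity
    linarith only [this]
  set E := exp (∑ k ∈ Finset.range m, p k * s k) with hE
  have hE0 : 0 < E := exp_pos _
  have hQ0 : 0 < (π / 2 / 5) ^ (-((a + b) / π)) := Real.rpow_pos_of_pos (by positivity) _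
  refine ⟨(1 + E) * (π / 2 / 5) ^ (-((a + b) / π)), by positivity, fun x t h1 h2 => ?_⟩
  have ht0 : 0 < t := by linarith only [hpi, h1]
  have ht1 : t ≤ 3 * π / 2 := by linarith only [hpi, h2]
  have hq : (t / 5) ^ (-((a + b) / π)) ≤ (π / 2 / 5) ^ (-((a + b) / π)) :=
    Real.rpow_le_rpow_of_nonpos (by positivity) (by linarith only [h1]) hr
  have hq0 : 0 ≤ (t / 5) ^ (-((a + b) / π)) := Real.rpow_nonneg (by positivity) _
  rcases le_total x 0 with hx | hx
  · refine (G0_le h s x ht0 ht1).trans (mul_le_mul ?_ hq hq0 (by positivity))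
    have : exp (b * x / π) ≤ 1 := by
      rw [Real.exp_le_one_iff]
      exact div_nonpos_of_nonpos_of_nonneg (mul_nonpos_of_nonneg_of_nonpos h.hb.le hx) hpi.le
    linarith only [hE0, this]
  · refine (G0_le' h s x ht0 ht1).trans (mul_le_mul ?_ hq hq0 (by positivity))
    have : exp (-(a * x / π)) ≤ 1 := by
      rw [Real.exp_le_one_iff]
      have := h.ha
      have : 0 ≤ a * x / π := by positivity
      linarith only [this]
    rw [← hE]
    linarith only [hE0, this, mul_nonneg_of_nonpos_of_nonpos (le_of_lt (Mathlib.Tactic.Linarith.sub_neg_of_lt hE0)) (Mathlib.Tactic.Linarith.sub_nonpos_of_le this)]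

theorem SCE_FB (b : ℝ) (m : ℕ) (p s : ℕ → ℝ) (x t : ℝ) :
    FB b m p s (zz x t) - FB b m p s (zz x π) =
      -(Complex.I * ∫ u in t..π, G0 b m p s (zz x u)) := by
  simp only [FB, zz_re, zz_im, intervalIntegral.integral_same]
  ring

theorem FB_left (h : SAng b a m p) (s : ℕ → ℝ) {ε : ℝ} (hε : 0 < ε) :
    ∃ S : ℝ, ∀ w : ℂ, 0 ≤ w.im → w.im ≤ π → w.re ≤ -S → ‖FB b m p s w‖ < ε := by
  obtain ⟨C, hC⟩ := SCE_vert (SCE_r h)
  have hpi := pi_pos
  have t1 : Tendsto (fun x : ℝ => ‖∫ u in Iic x, G0 b m p s (zz u π)‖) atBot (𝓝 0) :=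
    tendsto_zero_iff_norm_tendsto_zero.1 (tendsto_integral_Iic_zero (a := fun x : ℝ => x) tendsto_id)
  have t2 : Tendsto (fun x : ℝ => exp (b * x / π) * C) atBot (𝓝 0) := by
    have : Tendsto (fun x : ℝ => b * x / π) atBot atBot :=
      (tendsto_id.const_mul_atBot h.hb).atBot_div_const hpi
    simpa using (Real.tendsto_exp_atBot.comp this).mul_const C
  have t3 := t1.add t2
  rw [add_zero] at t3
  obtain ⟨S, hS⟩ := eventually_atBot.1 (t3.eventually (gt_mem_nhds hε))
  refine ⟨-S, fun w h0 h1 hw => lt_of_le_of_lt ?_ (hS w.re (by simpa using hw))⟩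
  refine (norm_sub_le _ _).trans (add_le_add le_rfl ?_)
  rw [norm_mul, Complex.norm_I, one_mul]
  exact hC _ _ _ (exp_pos _).le h0 h1 fun t ht0 ht1 => G0_le h s w.re ht0 (by linarith only [hpi, ht1])

theorem FB_right (h : SAng b a m p) (s : ℕ → ℝ) {ε : ℝ} (hε : 0 < ε) :
    ∃ S : ℝ, ∀ w : ℂ, 0 ≤ w.im → w.im ≤ π → S ≤ w.re → ‖FB b m p s w - FA b m p s‖ < ε := by
  obtain ⟨C, hC⟩ := SCE_vert (SCE_r h)
  have hpi := pi_pos
  have t1 : Tendsto (fun x : ℝ => ‖∫ u in Ioi x, G0 b m p s (zz u π)‖) atTop (𝓝 0) :=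
    tendsto_zero_iff_norm_tendsto_zero.1 (tendsto_integral_Ioi_zero (b := fun x : ℝ => x) tendsto_id)
  have t2 : Tendsto (fun x : ℝ => exp (∑ k ∈ Finset.range m, p k * s k) * exp (-(a * x / π)) * C)
      atTop (𝓝 0) := by
    have : Tendsto (fun x : ℝ => a * x / π) atTop atTop :=
      (tendsto_id.const_mul_atTop h.ha).atTop_div_const hpi
    simpa using ((Real.tendsto_exp_neg_atTop_nhds_zero.comp this).const_mul
      (exp (∑ k ∈ Finset.range m, p k * s k))).mul_const C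
  have t3 := t1.add t2
  rw [add_zero] at t3
  obtain ⟨S, hS⟩ := eventually_atTop.1 (t3.eventually (gt_mem_nhds hε))
  refine ⟨S, fun w h0 h1 hw => lt_of_le_of_lt ?_ (hS w.re hw)⟩
  have e : FB b m p s w - FA b m p s = -((∫ u in Ioi w.re, G0 b m p s (zz u π)) +
      Complex.I * ∫ t in w.im..π, G0 b m p s (zz w.re t)) := by
    rw [FB, FA, ← intervalIntegral.integral_Iic_add_Ioi (b := w.re) (top_int h s).integrableOn
      (top_int h s).integrableOn]
    ring
  rw [e, norm_neg]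
  refine (norm_add_le _ _).trans (add_le_add le_rfl ?_)
  rw [norm_mul, Complex.norm_I, one_mul]
  exact hC _ _ _ (by positivity) h0 h1 fun t ht0 ht1 => G0_le' h s w.re ht0 (by linarith only [hpi, ht1])

theorem FB_top (h : SAng b a m p) (s : ℕ → ℝ) :
    ∃ Λ : ℝ, 0 < Λ ∧ FA b m p s = Λ * ei b ∧
      ∀ x : ℝ, ∃ μ : ℝ, 0 ≤ μ ∧ μ ≤ Λ ∧ FB b m p s (zz x π) = μ * ei b := by
  have hi : Integrable fun u : ℝ => ‖G0 b m p s (zz u π)‖ := (top_int h s).norm
  have e : (fun u : ℝ => G0 b m p s (zz u π)) =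
      fun u : ℝ => ((‖G0 b m p s (zz u π)‖ : ℝ) : ℂ) * ei b := funext fun u => G0_top b m p s u
  refine ⟨∫ u : ℝ, ‖G0 b m p s (zz u π)‖, ?_, ?_, fun x =>
    ⟨∫ u in Iic x, ‖G0 b m p s (zz u π)‖, integral_nonneg fun u => norm_nonneg _,
      setIntegral_le_integral hi (Eventually.of_forall fun u => norm_nonneg _), ?_⟩⟩
  · rw [integral_pos_iff_support_of_nonneg (fun u => norm_nonneg _) hi]
    have : Function.support (fun u : ℝ => ‖G0 b m p s (zz u π)‖) = univ :=
      eq_univ_of_forall fun u => norm_ne_zero_iff.2 (G0_ne b m p s _)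
    rw [this]
    simp
  · rw [FA, e, integral_mul_const, integral_complex_ofReal]
  · simp only [FB, zz_re, zz_im, intervalIntegral.integral_same, mul_zero, sub_zero]
    rw [e, integral_mul_const, integral_complex_ofReal]

theorem FB_near (h : SAng b a m p) (s : ℕ → ℝ) {ε : ℝ} (hε : 0 < ε) :
    ∃ δ : ℝ, 0 < δ ∧ ∀ x t : ℝ, π - δ ≤ t → t ≤ π →
      ‖FB b m p s (zz x t) - FB b m p s (zz x π)‖ < ε := by
  obtain ⟨K, hK, hb⟩ := SCE_bdd h s
  have hpi := pi_pos
  refine ⟨min (π / 2) (ε / (2 * K)), lt_min (by positivity) (by positivity), fun x t h1 h2 => ?_⟩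
  have h3 := min_le_left (π / 2) (ε / (2 * K))
  have h4 := min_le_right (π / 2) (ε / (2 * K))
  rw [SCE_FB, norm_neg, norm_mul, Complex.norm_I, one_mul]
  have h5 : ‖∫ u in t..π, G0 b m p s (zz x u)‖ ≤ K * |π - t| :=
    intervalIntegral.norm_integral_le_of_norm_le_const fun u hu => by
      rw [uIoc_of_le h2] at hu
      exact hb x u (by linarith only [h1, h3, hu, hu.1]) hu.2
  rw [abs_of_nonneg (by linarith only [h2])] at h5
  have h6 : K * (π - t) ≤ K * (ε / (2 * K)) := mul_le_mul_of_nonneg_left (by linarith only [h1, h4]) hK.le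
  have h7 : K * (ε / (2 * K)) = ε / 2 := by field_simp
  linarith only [hε, h5, h6, h7]

theorem FB_ht (h : SAng b a m p) (s : ℕ → ℝ) {x : ℝ} (hx : ∀ k, k < m → x ≠ s k) :
    ‖FB b m p s (zz x π) - FB b m p s (x : ℂ)‖ ≤ π * ‖G0 b m p s (x : ℂ)‖ := by
  rw [← norm_neg, neg_sub, ← zz_zero, SCE_FB, norm_neg, norm_mul, Complex.norm_I, one_mul, zz_zero]
  have h5 : ‖∫ u in (0 : ℝ)..π, G0 b m p s (zz x u)‖ ≤ ‖G0 b m p s (x : ℂ)‖ * |π - 0| :=
    intervalIntegral.norm_integral_le_of_norm_le_const fun u _ => G0_le_re h s hx u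
  rwa [sub_zero, abs_of_pos pi_pos, mul_comm] at h5

end Pool.Agent.Work.MP_267827_an.PS
end

-- merged part: Pool.Agent.Work.MP_267827_an.PS.SCS
section
/-! The image of the line `t = 0`.

Plan.  `FB_real`: for `x₁ ≤ x₂` in an open interval free of prevertices,
`FB (zz x₂ t) - FB (zz x₁ t) = ∫ u in x₁..x₂, G0 (zz u t)` for `0 < t < π` (`FB_der`); let `t → 0`
(`FB_cont` on the left, continuity of `G0` on the compact rectangle by `G0_diff` on the right).
So `x ↦ FB x` has the derivative `G0 x = ‖G0 x‖ * ei (al p k)` on the open interval (`G0_bot`).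
`FB_side`: `ψ x = ei (-al p k) * (FB x - FB x₁)` is continuous on `[x₁, x₂]`, its imaginary part has
derivative `0`, its real part has derivative `‖G0 x‖ > 0` on `(x₁, x₂)`; mean value theorem
(`exists_hasDerivAt_eq_slope`).  `FB_first`, `FB_last`: let `x₁ → -∞`, `x₂ → ∞` with `FB_left`,
`FB_right` (the ray `{μ * ei α | 0 ≤ μ}` is closed; split off a piece of length `1` for `0 < μ`). -/

set_option autoImplicit false

namespace Pool.Agent.Work.MP_267827_an.PS

open MeasureTheory Set Filter Topology Real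

variable {b a : ℝ} {m : ℕ} {p : ℕ → ℝ}

theorem SCS_cont (h : SAng b a m p) (s : ℕ → ℝ) :
    ContinuousOn (FB b m p s) {w | 0 ≤ w.im ∧ w.im ≤ π} :=
  (FB_cont h).comp (f := fun w : ℂ => (s, w)) (by fun_prop) fun _ hw => hw

theorem SCS_contR (h : SAng b a m p) (s : ℕ → ℝ) : Continuous fun u : ℝ => FB b m p s (u : ℂ) :=
  (SCS_cont h s).comp_continuous Complex.continuous_ofReal fun u => by
    simp [Real.pi_pos.le]

theorem SCS_tend (h : SAng b a m p) (s : ℕ → ℝ) (u : ℝ) :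
    Tendsto (fun t : ℝ => FB b m p s (zz u t)) (𝓝[>] 0) (𝓝 (FB b m p s (u : ℂ))) := by
  have h1 : ContinuousWithinAt (FB b m p s) {w | 0 ≤ w.im ∧ w.im ≤ π} (u : ℂ) :=
    SCS_cont h s _ (by simp [Real.pi_pos.le])
  refine h1.tendsto.comp (tendsto_nhdsWithin_iff.2 ⟨?_, ?_⟩)
  · have h2 : Continuous fun t : ℝ => zz u t := by unfold zz; fun_prop
    have h3 := h2.tendsto 0
    rw [zz_zero] at h3
    exact h3.mono_left nhdsWithin_le_nhds
  · filter_upwards [Ioo_mem_nhdsGT Real.pi_pos] with t ht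
    simpa using ⟨ht.1.le, ht.2.le⟩

theorem SCS_convex : Convex ℝ Sc :=
  (convex_halfSpace_im_gt 0).inter (convex_halfSpace_im_lt π)

theorem FB_real (h : SAng b a m p) (s : ℕ → ℝ) {x : ℝ} (hx : ∀ k, k < m → x ≠ s k) :
    HasDerivAt (fun u : ℝ => FB b m p s (u : ℂ)) (G0 b m p s (x : ℂ)) x := by
  have hc : ContinuousAt (G0 b m p s) (x : ℂ) :=
    (G0_diff b p s (w := (x : ℂ)) (by simp) (by simpa using by positivity)
      fun k hk e => hx k hk (Complex.ofReal_injective e)).continuousAt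
  rw [hasDerivAt_iff_isLittleO, Asymptotics.isLittleO_iff]
  intro ε hε
  obtain ⟨δ, hδ, hb⟩ := Metric.continuousAt_iff.1 hc ε hε
  have key : ∀ w₁ ∈ Sc ∩ Metric.ball (x : ℂ) δ, ∀ w₂ ∈ Sc ∩ Metric.ball (x : ℂ) δ,
      ‖(FB b m p s w₂ - w₂ * G0 b m p s x) - (FB b m p s w₁ - w₁ * G0 b m p s x)‖ ≤
        ε * ‖w₂ - w₁‖ := fun w₁ h₁ w₂ h₂ =>
    (SCS_convex.inter (convex_ball _ _)).norm_image_sub_le_of_norm_hasDerivWithin_le
      (f := fun w => FB b m p s w - w * G0 b m p s x)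
      (f' := fun w => G0 b m p s w - G0 b m p s x)
      (fun w hw => ((FB_der h s hw.1).sub (hasDerivAt_mul_const _)).hasDerivWithinAt)
      (fun w hw => by rw [← dist_eq_norm]; exact (hb hw.2).le) h₁ h₂
  filter_upwards [Metric.ball_mem_nhds x (half_pos hδ)] with u hu
  have hmem : ∀ v : ℝ, dist v x < δ / 2 → ∀ t ∈ Ioo 0 (min π (δ / 2)),
      zz v t ∈ Sc ∩ Metric.ball (x : ℂ) δ := by
    intro v hv t ht
    refine ⟨⟨by simpa using ht.1, by simpa using (lt_min_iff.1 ht.2).1⟩, ?_⟩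
    rw [Metric.mem_ball, dist_eq_norm, zz_sub]
    refine (Complex.norm_le_abs_re_add_abs_im _).trans_lt ?_
    rw [zz_re, zz_im, abs_of_pos ht.1]
    rw [Real.dist_eq] at hv
    linarith only [hv, ht, (lt_min_iff.1 ht.2).2]
  have hlim : Tendsto (fun t : ℝ => ‖FB b m p s (zz u t) - FB b m p s (zz x t) -
      (u - x) • G0 b m p s x‖) (𝓝[>] 0)
      (𝓝 ‖FB b m p s (u : ℂ) - FB b m p s (x : ℂ) - (u - x) • G0 b m p s x‖) :=
    (((SCS_tend h s u).sub (SCS_tend h s x)).sub_const _).norm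
  refine le_of_tendsto hlim ?_
  filter_upwards [Ioo_mem_nhdsGT (lt_min Real.pi_pos (half_pos hδ))] with t ht
  have h1 := key _ (hmem x (by simpa using half_pos hδ) t ht) _ (hmem u hu t ht)
  have e1 : zz u t - zz x t = ((u - x : ℝ) : ℂ) := by simp only [zz]; push_cast; ring
  have e2 : (FB b m p s (zz u t) - zz u t * G0 b m p s x) -
      (FB b m p s (zz x t) - zz x t * G0 b m p s x) =
      FB b m p s (zz u t) - FB b m p s (zz x t) - (u - x) • G0 b m p s x := by
    rw [Complex.real_smul, ← e1]; ring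
  rwa [e2, e1, Complex.norm_real] at h1

theorem FB_side (h : SAng b a m p) (s : ℕ → ℝ) {k : ℕ} (hk : k ≤ m) {x₁ x₂ : ℝ} (hx : x₁ ≤ x₂)
    (h1 : ∀ j, j < k → s j ≤ x₁) (h2 : ∀ j, k ≤ j → j < m → x₂ ≤ s j) :
    ∃ μ : ℝ, 0 ≤ μ ∧ (x₁ < x₂ → 0 < μ) ∧
      FB b m p s (x₂ : ℂ) - FB b m p s (x₁ : ℂ) = μ * ei (al p k) ∧
      ∀ ν : ℝ, (∀ x, x₁ < x → x < x₂ → ν ≤ ‖G0 b m p s (x : ℂ)‖) → ν * (x₂ - x₁) ≤ μ := by
  rcases hx.eq_or_lt with rfl | hx
  · exact ⟨0, le_rfl, fun h => absurd h (lt_irrefl _), by simp, fun ν _ => by simp⟩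
  have hd : ∀ x ∈ Ioo x₁ x₂, HasDerivAt (fun u : ℝ => FB b m p s (u : ℂ) * ei (-al p k))
      ((‖G0 b m p s (x : ℂ)‖ : ℝ) : ℂ) x := by
    intro x hm
    have ha : ∀ j, j < k → s j < x := fun j hj => (h1 j hj).trans_lt hm.1
    have hb : ∀ j, k ≤ j → j < m → x < s j := fun j hj hj' => hm.2.trans_le (h2 j hj hj')
    have h3 := (FB_real h s (x := x) fun j hj => by
      rcases lt_or_ge j k with h4 | h4
      · exact (ha j h4).ne'
      · exact (hb j h4 hj).ne).mul_const (ei (-al p k))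
    rwa [G0_bot b p s hk ha hb, mul_assoc, ei_mul_neg, mul_one] at h3
  have hc : Continuous fun u : ℝ => FB b m p s (u : ℂ) * ei (-al p k) :=
    (SCS_contR h s).mul continuous_const
  obtain ⟨c, hcm, e1⟩ := exists_hasDerivAt_eq_slope
    (fun u : ℝ => (FB b m p s (u : ℂ) * ei (-al p k)).re) (fun x => ‖G0 b m p s (x : ℂ)‖) hx
    (Complex.continuous_re.comp hc).continuousOn fun x hm =>
      Complex.reCLM.hasFDerivAt.comp_hasDerivAt x (hd x hm)
  obtain ⟨-, -, e2⟩ := exists_hasDerivAt_eq_slope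
    (fun u : ℝ => (FB b m p s (u : ℂ) * ei (-al p k)).im) (fun _ => 0) hx
    (Complex.continuous_im.comp hc).continuousOn fun x hm =>
      Complex.imCLM.hasFDerivAt.comp_hasDerivAt x (hd x hm)
  have hp : 0 < x₂ - x₁ := sub_pos.2 hx
  rw [eq_div_iff hp.ne'] at e1 e2
  have hpos : 0 < ‖G0 b m p s (c : ℂ)‖ * (x₂ - x₁) :=
    mul_pos (norm_pos_iff.2 (G0_ne _ _ _ _ _)) hp
  refine ⟨_, hpos.le, fun _ => hpos, ?_,
    fun ν hν => mul_le_mul_of_nonneg_right (hν c hcm.1 hcm.2) hp.le⟩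
  have e3 : FB b m p s (x₂ : ℂ) * ei (-al p k) - FB b m p s (x₁ : ℂ) * ei (-al p k) =
      ((‖G0 b m p s (c : ℂ)‖ * (x₂ - x₁) : ℝ) : ℂ) := by
    apply Complex.ext
    · rw [Complex.sub_re, Complex.ofReal_re, e1]
    · rw [Complex.sub_im, Complex.ofReal_im, ← e2, zero_mul]
  rw [← e3]
  linear_combination (FB b m p s (x₁ : ℂ) - FB b m p s (x₂ : ℂ)) * ei_mul_neg (al p k)

theorem SCS_ray {z : ℂ} {α : ℝ} (h : ∀ ε : ℝ, 0 < ε → ∃ μ : ℝ, 0 ≤ μ ∧ ‖z - μ * ei α‖ < ε) :
    ∃ μ : ℝ, 0 ≤ μ ∧ z = μ * ei α := by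
  have hn : ‖ei (-α)‖ = 1 := Complex.norm_exp_ofReal_mul_I _
  have h1 : ∀ ε : ℝ, 0 < ε → |(z * ei (-α)).im| ≤ 0 + ε ∧ 0 ≤ (z * ei (-α)).re + ε := by
    intro ε hε
    obtain ⟨μ, hμ, h2⟩ := h ε hε
    have e : z * ei (-α) - μ = (z - μ * ei α) * ei (-α) := by
      linear_combination (μ : ℂ) * ei_mul_neg α
    have h3 : ‖z * ei (-α) - μ‖ < ε := by rwa [e, norm_mul, hn, mul_one]
    have h4 := (Complex.abs_im_le_norm _).trans_lt h3
    have h5 := (Complex.abs_re_le_norm _).trans_lt h3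
    rw [Complex.sub_im, Complex.ofReal_im, sub_zero] at h4
    rw [Complex.sub_re, Complex.ofReal_re] at h5
    exact ⟨by linarith, by linarith only [hμ, h5, (abs_lt.1 h5).1]⟩
  have him : (z * ei (-α)).im = 0 :=
    abs_nonpos_iff.1 (le_of_forall_pos_le_add fun ε hε => (h1 ε hε).1)
  refine ⟨(z * ei (-α)).re, le_of_forall_pos_le_add fun ε hε => (h1 ε hε).2, ?_⟩
  have e : (((z * ei (-α)).re : ℝ) : ℂ) = z * ei (-α) :=
    Complex.ext (Complex.ofReal_re _) (by rw [Complex.ofReal_im, him])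
  rw [e]
  linear_combination -z * ei_mul_neg α

theorem FB_first (h : SAng b a m p) (s : ℕ → ℝ) {x : ℝ} (h2 : ∀ j, j < m → x ≤ s j) :
    ∃ μ : ℝ, 0 < μ ∧ FB b m p s (x : ℂ) = μ := by
  have e0 : ei (al p 0) = 1 := by simp [al]
  obtain ⟨μ, -, hμ, e1, -⟩ := FB_side h s (Nat.zero_le m) (x₁ := x - 1) (x₂ := x) (by linarith)
    (fun j hj => absurd hj (Nat.not_lt_zero j)) fun j _ hj => h2 j hj
  obtain ⟨ν, hν, e2⟩ := SCS_ray (z := FB b m p s ((x - 1 : ℝ) : ℂ)) (α := al p 0) fun ε hε => by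
    obtain ⟨S, hS⟩ := FB_left h s hε
    obtain ⟨ν, hν, -, e3, -⟩ := FB_side h s (Nat.zero_le m) (x₁ := min (-S) (x - 1)) (x₂ := x - 1)
      (min_le_right _ _) (fun j hj => absurd hj (Nat.not_lt_zero j))
      fun j _ hj => by linarith only [h2, hj, h2 j hj]
    refine ⟨ν, hν, ?_⟩
    rw [← e3, sub_sub_cancel]
    exact hS _ (by rw [Complex.ofReal_im]) (by rw [Complex.ofReal_im]; exact Real.pi_pos.le)
      (by rw [Complex.ofReal_re]; exact min_le_left _ _)
  refine ⟨μ + ν, add_pos_of_pos_of_nonneg (hμ (by linarith)) hν, ?_⟩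
  rw [e0, mul_one] at e1 e2
  push_cast at e1 e2 ⊢
  linear_combination e1 + e2

theorem FB_last (h : SAng b a m p) (s : ℕ → ℝ) {x : ℝ} (h1 : ∀ j, j < m → s j ≤ x) :
    ∃ μ : ℝ, 0 < μ ∧ FA b m p s - FB b m p s (x : ℂ) = μ * ei (al p m) := by
  obtain ⟨μ, -, hμ, e1, -⟩ := FB_side h s le_rfl (x₁ := x) (x₂ := x + 1) (by linarith only [])
    h1 fun j hj hj' => absurd hj' (not_lt.2 hj)
  obtain ⟨ν, hν, e2⟩ := SCS_ray (z := FA b m p s - FB b m p s ((x + 1 : ℝ) : ℂ)) (α := al p m)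
    fun ε hε => by
    obtain ⟨S, hS⟩ := FB_right h s hε
    obtain ⟨ν, hν, -, e3, -⟩ := FB_side h s le_rfl (x₁ := x + 1) (x₂ := max S (x + 1))
      (le_max_right _ _) (fun j hj => by linarith only [h1, hj, h1 j hj]) fun j hj hj' => absurd hj' (not_lt.2 hj)
    refine ⟨ν, hν, ?_⟩
    rw [← e3, sub_sub_sub_cancel_right, norm_sub_rev]
    exact hS _ (by rw [Complex.ofReal_im]) (by rw [Complex.ofReal_im]; exact Real.pi_pos.le)
      (by rw [Complex.ofReal_re]; exact le_max_left _ _)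
  refine ⟨μ + ν, add_pos_of_pos_of_nonneg (hμ (by linarith)) hν, ?_⟩
  rw [Complex.ofReal_add, add_mul, ← e1, ← e2]
  ring

end Pool.Agent.Work.MP_267827_an.PS
end

-- merged part: Pool.Agent.Work.MP_267827_an.PS.SCK
section
/-! Elementary geometry of a convex cell.

Plan.  `y j - y i = ∑ k ∈ Ico i j, l k * ei (φ k)`, `cr (ei u) (ei v) = sin (v - u)`, `φ` is monotone
on `0, …, m` with total variation `< π`.  `cc_wall`: all terms of the sum have the right sign.
`cc_base`: with `β k = τ + π - φ k` (decreasing, in `(-π, π)`, `β 0 > 0 > β m`) the height of `y j` is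
`s * ∑ k < j, l k * sin (β k) = -s * ∑ j ≤ k ≤ m, l k * sin (β k)`; use the first form if
`0 ≤ β (j - 1)` and the second one otherwise.  `img_eq`: a nonconstant real affine function takes
its minimum over the compact set `closure Ω` at a point that is not interior, so in the frontier,
where it is nonnegative by `cc_wall`, `cc_base`; on the open set `Ω` it is then positive.  So
`Ω ⊆ KK`; `KK` is convex and misses the frontier of `Ω`, hence
`IsPreconnected.subset_of_closure_inter_subset` gives `KK ⊆ Ω`. -/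

set_option autoImplicit false

namespace Pool.Agent.Work.MP_267827_an.PS

open MeasureTheory Set Filter Topology Real

variable {m : ℕ} {y : ℕ → ℂ} {φ l : ℕ → ℝ} {τ : ℝ}

theorem cc_al (φ : ℕ → ℝ) (k : ℕ) : al (fun k => (φ (k + 1) - φ k) / π) k = φ k - φ 0 := by
  rw [al, ← Finset.sum_div, Finset.sum_range_sub]
  field_simp

theorem SCK_mono (h : CC m y φ l τ) {i j : ℕ} (hij : i ≤ j) (hj : j ≤ m) : φ i ≤ φ j := by
  induction j, hij using Nat.le_induction with
  | base => exact le_rfl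
  | succ n _ ih => exact (ih (by omega)).trans (h.mono n (by omega))

theorem SCK_cr (a b u v : ℝ) : cr (a * ei u) (b * ei v) = a * b * sin (v - u) := by
  simp only [cr, Complex.mul_re, Complex.mul_im, Complex.ofReal_re, Complex.ofReal_im, ei_re, ei_im,
    sin_sub]
  ring

theorem SCK_add (a p q b : ℂ) : cr a (q - b) = cr a (p - b) + cr a (q - p) := by
  simp only [cr, Complex.sub_re, Complex.sub_im]
  ring

theorem SCK_sin (h : CC m y φ l τ) {i j : ℕ} (hij : i ≤ j) (hj : j ≤ m) : 0 ≤ sin (φ j - φ i) := by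
  have h1 := SCK_mono h hij hj
  have h2 := SCK_mono h hj le_rfl
  have h3 := SCK_mono h (Nat.zero_le i) (hij.trans hj)
  exact sin_nonneg_of_nonneg_of_le_pi (by linarith only [h1]) (by linarith [h.tot])

theorem cc_sp (h : CC m y φ l τ) :
    SAng (τ + π - φ 0) (φ m - τ - π) m fun k => (φ (k + 1) - φ k) / π := by
  refine ⟨by linarith only [h, h.lo], by linarith [h.hi], by linarith [h.tot], fun k hk => ?_, ?_⟩
  · exact div_nonneg (sub_nonneg.2 (h.mono k hk)) pi_pos.le
  · rw [cc_al]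
    ring

theorem cc_wall (h : CC m y φ l τ) {k j : ℕ} (hk : k ≤ m) (hj : j ≤ m + 1) :
    0 ≤ cr (y (k + 1) - y k) (y j - y k) := by
  have hl := (h.step k hk).1
  rcases le_total k j with hkj | hjk
  · induction j, hkj using Nat.le_induction with
    | base => simp [cr]
    | succ n hn ih =>
      rw [SCK_add _ (y n)]
      refine add_nonneg (ih (by omega)) ?_
      rw [(h.step k hk).2, (h.step n (by omega)).2, SCK_cr]
      exact mul_nonneg (mul_pos hl (h.step n (by omega)).1).le (SCK_sin h hn (by omega))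
  · induction hjk using Nat.decreasingInduction with
    | self => simp [cr]
    | of_succ n hn ih =>
      have h1 := ih (by omega)
      have h2 : cr (y (k + 1) - y k) (y (n + 1) - y n) ≤ 0 := by
        rw [(h.step k hk).2, (h.step n (by omega)).2, SCK_cr, ← neg_sub, sin_neg]
        have := mul_nonneg (mul_pos hl (h.step n (by omega)).1).le (SCK_sin h hn.le hk)
        linarith only [this]
      rw [SCK_add _ (y n)] at h1
      linarith only [h1, h2]

theorem cc_base (h : CC m y φ l τ) {j : ℕ} (h1 : 1 ≤ j) (hj : j ≤ m) :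
    0 < cr (y 0 - y (m + 1)) (y j - y (m + 1)) := by
  obtain ⟨s, hs, he⟩ := h.base
  have hlo := h.lo
  have hhi := h.hi
  have htot := h.tot
  have st : ∀ n, n ≤ m → cr (y 0 - y (m + 1)) (y (n + 1) - y (m + 1)) =
      cr (y 0 - y (m + 1)) (y n - y (m + 1)) + s * l n * sin (τ + π - φ n) := by
    intro n hn
    rw [SCK_add _ (y n), (h.step n hn).2]
    congr 1
    rw [he, SCK_cr, ← sin_pi_sub]
    congr 2
    ring
  have A : ∀ n, n ≤ m → φ n ≤ τ + π → 0 < cr (y 0 - y (m + 1)) (y (n + 1) - y (m + 1)) := by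
    intro n
    induction n with
    | zero =>
      intro hn _
      have e : cr (y 0 - y (m + 1)) (y 0 - y (m + 1)) = 0 := by
        simp only [cr]
        ring
      rw [st 0 hn, e, zero_add]
      exact mul_pos (mul_pos hs (h.step 0 hn).1)
        (sin_pos_of_pos_of_lt_pi (by linarith only [hlo]) (by linarith only [hhi, htot]))
    | succ n ih =>
      intro hn hφ
      have h2 := h.mono n (by omega)
      have h3 := SCK_mono h (Nat.zero_le (n + 1)) hn
      rw [st _ hn]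
      exact add_pos_of_pos_of_nonneg (ih (by omega) (by linarith only [hφ, h2]))
        (mul_nonneg (mul_pos hs (h.step _ hn).1).le
          (sin_nonneg_of_nonneg_of_le_pi (by linarith only [hφ]) (by linarith only [hhi, htot, h3])))
  have B : ∀ n, n ≤ m → τ + π ≤ φ n → 0 < cr (y 0 - y (m + 1)) (y n - y (m + 1)) := by
    intro n hn
    induction hn using Nat.decreasingInduction with
    | self =>
      intro _
      have e : cr (y 0 - y (m + 1)) (y (m + 1) - y (m + 1)) = 0 := by simp [cr]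
      have h2 := st m le_rfl
      rw [e, ← neg_sub (φ m), sin_neg] at h2
      have := mul_pos (mul_pos hs (h.step m le_rfl).1)
        (sin_pos_of_pos_of_lt_pi (x := φ m - (τ + π)) (by linarith only [hhi]) (by linarith only [hlo, htot]))
      linarith only [h2, this]
    | of_succ n hn ih =>
      intro hφ
      have h2 := h.mono n hn
      have h3 := SCK_mono h hn.le le_rfl
      have h4 := ih (by linarith only [hφ, h2])
      rw [st n hn.le, ← neg_sub (φ n), sin_neg] at h4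
      have := mul_nonneg (mul_pos hs (h.step n hn.le).1).le
        (sin_nonneg_of_nonneg_of_le_pi (x := φ n - (τ + π)) (by linarith only [hφ]) (by linarith only [hlo, htot, h3]))
      linarith only [h4, this]
  rcases le_total (τ + π) (φ j) with hc | hc
  · exact B j hj hc
  · obtain ⟨n, rfl⟩ : ∃ n, j = n + 1 := ⟨j - 1, by omega⟩
    exact A n (by omega) ((h.mono n (by omega)).trans hc)

theorem SCK_less {Ω : Set ℂ} (ho : IsOpen Ω) {a : ℂ} (ha : a ≠ 0) (b : ℂ) {z : ℂ} (hz : z ∈ Ω) :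
    ∃ w ∈ Ω, cr a (w - b) < cr a (z - b) := by
  have hc : Continuous fun t : ℝ => z - (t : ℂ) * (Complex.I * a) := by fun_prop
  have h1 : ∀ᶠ t : ℝ in 𝓝 0, z - (t : ℂ) * (Complex.I * a) ∈ Ω :=
    hc.continuousAt.eventually (ho.mem_nhds (by simpa using hz))
  obtain ⟨t, ht, ht0⟩ := ((h1.filter_mono nhdsWithin_le_nhds).and
    (self_mem_nhdsWithin (s := Ioi (0 : ℝ)))).exists
  refine ⟨_, ht, ?_⟩
  have h2 : 0 < Complex.normSq a := Complex.normSq_pos.2 ha
  have h3 : cr a (z - (t : ℂ) * (Complex.I * a) - b) = cr a (z - b) - t * Complex.normSq a := by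
    simp only [cr, Complex.sub_re, Complex.sub_im, Complex.mul_re, Complex.mul_im,
      Complex.ofReal_re, Complex.ofReal_im, Complex.I_re, Complex.I_im, Complex.normSq_apply]
    ring
  have h4 := mul_pos (mem_Ioi.1 ht0) h2
  linarith

theorem SCK_pos {Ω : Set ℂ} (ho : IsOpen Ω) (hb : Bornology.IsBounded Ω) {a : ℂ} (ha : a ≠ 0)
    (b : ℂ) (hf : ∀ z ∈ frontier Ω, 0 ≤ cr a (z - b)) {z : ℂ} (hz : z ∈ Ω) : 0 < cr a (z - b) := by
  have hc : Continuous fun w : ℂ => cr a (w - b) := by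
    unfold cr
    fun_prop
  obtain ⟨z₀, h0, hmin⟩ := hb.isCompact_closure.exists_isMinOn ⟨z, subset_closure hz⟩
    hc.continuousOn
  have h1 : z₀ ∉ Ω := fun h => by
    obtain ⟨w, hw, hlt⟩ := SCK_less ho ha b h
    exact absurd (hmin (subset_closure hw)) (not_le.2 hlt)
  have h2 := hf z₀ (by rw [ho.frontier_eq]; exact ⟨h0, h1⟩)
  obtain ⟨w, hw, hlt⟩ := SCK_less ho ha b hz
  exact lt_of_le_of_lt (h2.trans (hmin (subset_closure hw))) hlt

theorem SCK_seg (a b p q : ℂ) (s t : ℝ) (hst : s + t = 1) :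
    cr a (s • p + t • q - b) = s * cr a (p - b) + t * cr a (q - b) := by
  obtain rfl : s = 1 - t := by linarith only [hst]
  simp only [cr, Complex.sub_re, Complex.sub_im, Complex.add_re, Complex.add_im, Complex.smul_re,
    Complex.smul_im, smul_eq_mul]
  ring

theorem SCK_seg0 {p q z : ℂ} (hz : z ∈ segment ℝ p q) : cr (q - p) (z - p) = 0 := by
  obtain ⟨s, t, -, -, hst, rfl⟩ := hz
  rw [SCK_seg _ _ _ _ _ _ hst]
  simp only [cr, sub_self, Complex.zero_re, Complex.zero_im]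
  ring

theorem SCK_cvx (a b : ℂ) : Convex ℝ {z : ℂ | 0 < cr a (z - b)} := by
  intro p hp q hq s t hs ht hst
  rw [mem_ofPred_eq] at hp hq ⊢
  rw [SCK_seg _ _ _ _ _ _ hst]
  rcases hs.eq_or_lt with rfl | hs'
  · rw [zero_add] at hst
    rw [hst]
    linarith
  · exact add_pos_of_pos_of_nonneg (mul_pos hs' hp) (mul_nonneg ht hq.le)

theorem img_eq (h : CC m y φ l τ) {Ω : Set ℂ} (ho : IsOpen Ω) (hne : Ω.Nonempty)
    (hb : Bornology.IsBounded Ω)
    (hfr : ∀ z ∈ frontier Ω, z ∈ segment ℝ (y (m + 1)) (y 0) ∨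
      ∃ k, k ≤ m ∧ z ∈ segment ℝ (y k) (y (k + 1))) : Ω = KK m y := by
  have key : ∀ a b : ℂ, a ≠ 0 → (∀ j, j ≤ m + 1 → 0 ≤ cr a (y j - b)) →
      ∀ z ∈ Ω, 0 < cr a (z - b) := by
    intro a b ha hv z hz
    refine SCK_pos ho hb ha b (fun w hw => ?_) hz
    rcases hfr w hw with ⟨s, t, hs, ht, hst, rfl⟩ | ⟨k, hk, s, t, hs, ht, hst, rfl⟩
    · rw [SCK_seg _ _ _ _ _ _ hst]
      exact add_nonneg (mul_nonneg hs (hv _ le_rfl)) (mul_nonneg ht (hv _ (by omega)))
    · rw [SCK_seg _ _ _ _ _ _ hst]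
      exact add_nonneg (mul_nonneg hs (hv _ (by omega))) (mul_nonneg ht (hv _ (by omega)))
  have hsub : Ω ⊆ KK m y := by
    intro z hz
    refine ⟨key _ _ ?_ (fun j hj => ?_) z hz, fun k hk => key _ _ ?_ (fun j hj => cc_wall h hk hj) z hz⟩
    · obtain ⟨s, hs, he⟩ := h.base
      rw [he]
      exact mul_ne_zero (Complex.ofReal_ne_zero.2 hs.ne') (ei_ne_zero _)
    · rcases Nat.eq_zero_or_pos j with rfl | h1
      · simp only [cr]
        linarith only []
      · rcases hj.eq_or_lt with rfl | h2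
        · simp [cr]
        · exact (cc_base h h1 (by omega)).le
    · rw [(h.step k hk).2]
      exact mul_ne_zero (Complex.ofReal_ne_zero.2 (h.step k hk).1.ne') (ei_ne_zero _)
  refine hsub.antisymm ?_
  have hcv : Convex ℝ (KK m y) := fun p hp q hq s t hs ht hst =>
    ⟨SCK_cvx _ _ hp.1 hq.1 hs ht hst, fun k hk => SCK_cvx _ _ (hp.2 k hk) (hq.2 k hk) hs ht hst⟩
  obtain ⟨z₀, hz₀⟩ := hne
  refine hcv.isPreconnected.subset_of_closure_inter_subset ho ⟨z₀, hsub hz₀, hz₀⟩ ?_
  rintro z ⟨h1, h2⟩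
  by_contra h3
  rcases hfr z (by rw [ho.frontier_eq]; exact ⟨h1, h3⟩) with h4 | ⟨k, hk, h4⟩
  · exact h2.1.ne' (SCK_seg0 h4)
  · exact (h2.2 k hk).ne' (SCK_seg0 h4)

end Pool.Agent.Work.MP_267827_an.PS
end

-- merged part: Pool.Agent.Work.MP_267827_an.PS.SCP
section
/-! The parameter problem (helper89). -/

set_option autoImplicit false

namespace Pool.Agent.Work.MP_267827_an.PS

open MeasureTheory Set Filter Topology Real

theorem SCP_ei_mul (x y : ℝ) : ei x * ei y = ei (x + y) := by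
  simp only [ei]; rw [← Complex.exp_add]; push_cast; ring_nf

theorem SCP_ei_zero : ei 0 = 1 := by simp [ei]

theorem SCP_ei_norm (x : ℝ) : ‖ei x‖ = 1 := Complex.norm_exp_ofReal_mul_I x

theorem SCP_cr_ei (μ α b : ℝ) : cr (μ * ei α) (ei b) = μ * sin (b - α) := by
  have h1 : ∀ x : ℝ, (ei x).re = cos x := fun x => Complex.exp_ofReal_mul_I_re x
  have h2 : ∀ x : ℝ, (ei x).im = sin x := fun x => Complex.exp_ofReal_mul_I_im x
  simp only [cr, Complex.re_ofReal_mul, Complex.im_ofReal_mul, h1, h2, sin_sub]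
  ring

theorem SCP_cr_sub (u v w : ℂ) : cr (u - v) w = cr u w - cr v w := by
  simp only [cr, Complex.sub_re, Complex.sub_im]; ring

theorem SCP_cr_le (u : ℂ) (b : ℝ) : cr u (ei b) ≤ ‖u‖ := by
  have h : cr u (ei b) = ((starRingEnd ℂ) u * ei b).im := by
    simp only [cr, Complex.mul_im, Complex.conj_re, Complex.conj_im]; ring
  rw [h]
  refine (Complex.im_le_norm _).trans ?_
  rw [norm_mul, SCP_ei_norm, Complex.norm_conj, mul_one]

theorem SCP_re (μ α : ℝ) : (ei (-α) * (μ * ei α)).re = μ := by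
  rw [mul_left_comm, SCP_ei_mul, neg_add_cancel, SCP_ei_zero, mul_one, Complex.ofReal_re]

theorem SCP_anti {β : ℕ → ℝ} {m : ℕ} (hβ : ∀ k, k < m → β (k + 1) ≤ β k) {i j : ℕ} (hij : i ≤ j)
    (hj : j ≤ m) : β j ≤ β i := by
  induction j, hij using Nat.le_induction with
  | base => exact le_rfl
  | succ j _ ih => exact (hβ j (by omega)).trans (ih (by omega))

/-- heights of a closed convex chain -/
theorem SCP_conc {β L : ℕ → ℝ} {m : ℕ} (hβ : ∀ k, k < m → β (k + 1) ≤ β k) (h0 : β 0 < π)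
    (hm : -π < β m) (hL : ∀ k, k ≤ m → 0 ≤ L k)
    (hs : ∑ k ∈ Finset.range (m + 1), L k * sin (β k) = 0) {j : ℕ} (hj : j ≤ m) :
    0 ≤ ∑ k ∈ Finset.range (j + 1), L k * sin (β k) ∧
      ((∀ k, k ≤ m → 0 < L k) → 0 < β 0 → β m < 0 → j < m →
        0 < ∑ k ∈ Finset.range (j + 1), L k * sin (β k)) := by
  rcases le_or_gt 0 (β j) with h | h
  · have hT : ∀ k ∈ Finset.range (j + 1), 0 ≤ L k * sin (β k) := fun k hk => by
      have hk' : k ≤ j := Nat.lt_succ_iff.1 (Finset.mem_range.1 hk)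
      exact mul_nonneg (hL k (by omega)) (sin_nonneg_of_nonneg_of_le_pi
        (h.trans (SCP_anti hβ hk' hj)) ((SCP_anti hβ (Nat.zero_le k) (by omega)).trans h0.le))
    refine ⟨Finset.sum_nonneg hT, fun hp hb _ _ => Finset.sum_pos' hT ⟨0, by simp, ?_⟩⟩
    exact mul_pos (hp 0 (by omega)) (sin_pos_of_pos_of_lt_pi hb h0)
  · have hsp := Finset.sum_range_add_sum_Ico (fun k => L k * sin (β k))
      (show j + 1 ≤ m + 1 by omega)
    have hneg : ∀ k, j ≤ k → k ≤ m → sin (β k) < 0 := fun k h1 h2 =>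
      sin_neg_of_neg_of_neg_pi_lt ((SCP_anti hβ h1 h2).trans_lt h)
        (hm.trans_le (SCP_anti hβ h2 le_rfl))
    have hT : ∀ k ∈ Finset.Ico (j + 1) (m + 1), 0 ≤ -(L k * sin (β k)) := fun k hk => by
      obtain ⟨h1, h2⟩ := Finset.mem_Ico.1 hk
      have := mul_nonneg (hL k (by omega)) (neg_nonneg.2 (hneg k (by omega) (by omega)).le)
      linarith only [this]
    have e : ∑ k ∈ Finset.range (j + 1), L k * sin (β k) =
        ∑ k ∈ Finset.Ico (j + 1) (m + 1), -(L k * sin (β k)) := by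
      rw [Finset.sum_neg_distrib]; linarith only [hs, hsp]
    rw [e]
    refine ⟨Finset.sum_nonneg hT, fun hp _ _ hjm => Finset.sum_pos' hT
      ⟨m, Finset.mem_Ico.2 ⟨by omega, by omega⟩, ?_⟩⟩
    have := mul_pos (hp m le_rfl) (neg_pos.2 (hneg m hj le_rfl))
    linarith only [this]

/-- the ratios determine the chain up to scale -/
theorem SCP_solve {σ L l r : ℕ → ℝ} {m : ℕ} (hm : 1 ≤ m) {c : ℝ} (h0 : L 0 = c * l 0)
    (hL : ∀ k, k ≤ m → 0 ≤ L k) (hl : ∀ k, k ≤ m → 0 < l k) (hr : ∀ k, 0 ≤ r k)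
    (e1 : ∀ k, k + 1 < m → L (k + 1) = r (k + 1) *
      min (∑ j ∈ Finset.range (k + 1), L j * σ j) (∑ j ∈ Finset.range (k + 2), L j * σ j))
    (e2 : ∀ k, k + 1 < m → l (k + 1) = r (k + 1) *
      min (∑ j ∈ Finset.range (k + 1), l j * σ j) (∑ j ∈ Finset.range (k + 2), l j * σ j))
    (c1 : ∑ j ∈ Finset.range (m + 1), L j * σ j = 0)
    (c2 : ∑ j ∈ Finset.range (m + 1), l j * σ j = 0) (hσ : σ m ≠ 0) :
    ∀ k, k ≤ m → L k = c * l k := by
  have key : ∀ k, k < m → ∀ j, j ≤ k → L j = c * l j := by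
    intro k
    induction k with
    | zero => intro _ j hj; obtain rfl : j = 0 := by omega
              exact h0
    | succ k ih =>
      intro hk j hj
      rcases Nat.lt_or_ge j (k + 1) with h | h
      · exact ih (by omega) j (by omega)
      obtain rfl : j = k + 1 := by omega
      have hs : ∑ j ∈ Finset.range (k + 1), L j * σ j =
          c * ∑ j ∈ Finset.range (k + 1), l j * σ j := by
        rw [Finset.mul_sum]
        refine Finset.sum_congr rfl fun j hj => ?_
        rw [ih (by omega) j (Nat.lt_succ_iff.1 (Finset.mem_range.1 hj))]; ring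
      have a1 := e1 k hk
      have a2 := e2 k hk
      rw [Finset.sum_range_succ _ (k + 1)] at a1 a2
      rw [hs] at a1
      have b1 := hL (k + 1) (by omega)
      have b2 := hl (k + 1) (by omega)
      have b3 := hr (k + 1)
      rcases le_or_gt 0 (σ (k + 1)) with hσ | hσ
      · rw [min_eq_left (le_add_of_nonneg_right (mul_nonneg b1 hσ))] at a1
        rw [min_eq_left (le_add_of_nonneg_right (mul_nonneg b2.le hσ))] at a2
        rw [a1, a2]; ring
      · rw [min_eq_right (add_le_of_nonpos_right (mul_nonpos_of_nonneg_of_nonpos b1 hσ.le))] at a1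
        rw [min_eq_right
          (add_le_of_nonpos_right (mul_nonpos_of_nonneg_of_nonpos b2.le hσ.le))] at a2
        have hp : 0 < 1 - r (k + 1) * σ (k + 1) := by linarith only [b3, hσ, mul_nonneg_of_nonpos_of_nonpos (Mathlib.Tactic.Linarith.sub_nonpos_of_le b3) (le_of_lt (Mathlib.Tactic.Linarith.sub_neg_of_lt hσ))]
        apply mul_right_cancel₀ hp.ne'
        linear_combination a1 - c * a2
  intro k hk
  rcases Nat.lt_or_ge k m with h | h
  · exact key k h k le_rfl
  obtain rfl : k = m := by omega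
  rw [Finset.sum_range_succ] at c1 c2
  have hs : ∑ j ∈ Finset.range k, L j * σ j = c * ∑ j ∈ Finset.range k, l j * σ j := by
    rw [Finset.mul_sum]
    refine Finset.sum_congr rfl fun j hj => ?_
    have := Finset.mem_range.1 hj
    rw [key j this j le_rfl]; ring
  apply mul_right_cancel₀ hσ
  linear_combination c1 - c * c2 - hs

section

variable {b a : ℝ} {m : ℕ} {p : ℕ → ℝ}

/-- the vertices of the image polygon -/
noncomputable def SCP_W (b : ℝ) (m : ℕ) (p s : ℕ → ℝ) : ℕ → ℂ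
  | 0 => 0
  | k + 1 => if k < m then FB b m p s (s k : ℝ) else FA b m p s

/-- its side lengths -/
noncomputable def SCP_L (b : ℝ) (m : ℕ) (p s : ℕ → ℝ) (k : ℕ) : ℝ :=
  (ei (-al p k) * (SCP_W b m p s (k + 1) - SCP_W b m p s k)).re

theorem SCP_side (h : SAng b a m p) (hm : 1 ≤ m) {s : ℕ → ℝ} (hs : Monotone s) {k : ℕ}
    (hk : k ≤ m) : 0 ≤ SCP_L b m p s k ∧ (k = 0 → 0 < SCP_L b m p s k) ∧
      SCP_W b m p s (k + 1) - SCP_W b m p s k = SCP_L b m p s k * ei (al p k) := by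
  have key : ∃ μ : ℝ, 0 ≤ μ ∧ (k = 0 → 0 < μ) ∧
      SCP_W b m p s (k + 1) - SCP_W b m p s k = μ * ei (al p k) := by
    rcases k with _ | k
    · obtain ⟨μ, h1, h2⟩ := FB_first h s (x := s 0) fun j _ => hs (Nat.zero_le j)
      refine ⟨μ, h1.le, fun _ => h1, ?_⟩
      simp only [SCP_W, if_pos (show 0 < m by omega), h2, al, Finset.range_zero, Finset.sum_empty,
        mul_zero, SCP_ei_zero, mul_one, sub_zero]
    · rcases Nat.lt_or_ge (k + 1) m with hkm | hkm
      · obtain ⟨μ, h1, -, h2, -⟩ := FB_side h s hk (hs (Nat.le_succ k))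
          (fun j hj => hs (by omega)) (fun j hj _ => hs hj)
        refine ⟨μ, h1, fun h => by omega, ?_⟩
        simp only [SCP_W, if_pos hkm, if_pos (show k < m by omega), h2]
      · obtain rfl : m = k + 1 := by omega
        obtain ⟨μ, h1, h2⟩ := FB_last h s (x := s k) fun j hj => hs (by omega)
        refine ⟨μ, h1.le, fun h => by omega, ?_⟩
        simp only [SCP_W, lt_irrefl, if_false, if_pos (Nat.lt_succ_self k), h2]
  obtain ⟨μ, h1, h2, h3⟩ := key
  have e : SCP_L b m p s k = μ := by rw [SCP_L, h3, SCP_re]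
  rw [e]
  exact ⟨h1, h2, h3⟩

theorem SCP_ht (h : SAng b a m p) (hm : 1 ≤ m) {s : ℕ → ℝ} (hs : Monotone s) {k : ℕ}
    (hk : k ≤ m + 1) : cr (SCP_W b m p s k) (ei b) =
      ∑ j ∈ Finset.range k, SCP_L b m p s j * sin (b - al p j) := by
  induction k with
  | zero => simp [SCP_W, cr]
  | succ k ih =>
    rw [Finset.sum_range_succ, ← ih (by omega), ← SCP_cr_ei, ← (SCP_side h hm hs (by omega)).2.2,
      SCP_cr_sub]
    ring

theorem SCP_close (h : SAng b a m p) (hm : 1 ≤ m) {s : ℕ → ℝ} (hs : Monotone s) :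
    ∑ j ∈ Finset.range (m + 1), SCP_L b m p s j * sin (b - al p j) = 0 := by
  rw [← SCP_ht h hm hs le_rfl]
  obtain ⟨Λ, -, h1, -⟩ := FB_top h s
  simp only [SCP_W, lt_irrefl, if_false, h1, SCP_cr_ei, sub_self, sin_zero, mul_zero]

theorem SCP_beta (h : SAng b a m p) :
    (∀ k, k < m → b - al p (k + 1) ≤ b - al p k) ∧ b - al p 0 = b ∧ b - al p m = -a := by
  refine ⟨fun k hk => ?_, by simp [al], by rw [h.sum]; ring⟩
  have := mul_nonneg pi_pos.le (h.hp k hk)
  simp only [al, Finset.sum_range_succ]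
  linarith only [this]

theorem SCP_pos (h : SAng b a m p) (hm : 1 ≤ m) {s : ℕ → ℝ} (hs : Monotone s) {j : ℕ}
    (hj : j ≤ m) : 0 ≤ ∑ k ∈ Finset.range (j + 1), SCP_L b m p s k * sin (b - al p k) := by
  obtain ⟨h1, h2, h3⟩ := SCP_beta h
  have := h.hb
  have := h.ha
  have := h.hab
  exact (SCP_conc (β := fun k => b - al p k) h1 (by simp only [h2]; linarith)
    (by simp only [h3]; linarith) (fun k hk => (SCP_side h hm hs hk).1) (SCP_close h hm hs) hj).1

/-- a long gap gives a long side -/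
theorem SCP_long (h : SAng b a m p) (hm : 1 ≤ m) {s : ℕ → ℝ} (hs : Monotone s) {k : ℕ}
    (hk : k + 1 < m) :
    min (∑ j ∈ Finset.range (k + 1), SCP_L b m p s j * sin (b - al p j))
      (∑ j ∈ Finset.range (k + 2), SCP_L b m p s j * sin (b - al p j)) / π * (s (k + 1) - s k) ≤
      SCP_L b m p s (k + 1) := by
  rw [← SCP_ht h hm hs (by omega), ← SCP_ht h hm hs (by omega)]
  have w1 : SCP_W b m p s (k + 1) = FB b m p s (s k : ℝ) := by
    simp only [SCP_W, if_pos (show k < m by omega)]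
  have w2 : SCP_W b m p s (k + 2) = FB b m p s (s (k + 1) : ℝ) := by
    simp only [SCP_W, if_pos hk]
  obtain ⟨μ, -, -, h2, h3⟩ := FB_side h s hk.le (hs (Nat.le_succ k))
    (fun j hj => hs (by omega)) (fun j hj _ => hs hj)
  have e : SCP_L b m p s (k + 1) = μ := by rw [SCP_L, w1, w2, h2, SCP_re]
  rw [e, w1, w2]
  refine h3 _ fun x hx1 hx2 => ?_
  obtain ⟨μ₁, p1, -, q1, -⟩ := FB_side h s hk.le hx1.le
    (fun j hj => hs (by omega)) (fun j hj _ => hx2.le.trans (hs hj))
  obtain ⟨μ₂, p2, -, q2, -⟩ := FB_side h s hk.le hx2.le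
    (fun j hj => (hs (by omega)).trans hx1.le) (fun j hj _ => hs hj)
  have r1 := congrArg (fun z => cr z (ei b)) q1
  have r2 := congrArg (fun z => cr z (ei b)) q2
  simp only [SCP_cr_sub, SCP_cr_ei] at r1 r2
  have hx : ∀ j, j < m → x ≠ s j := fun j _ => by
    rcases Nat.lt_or_ge k j with hj | hj
    · exact (hx2.trans_le (hs hj)).ne
    · exact ((hs hj).trans_lt hx1).ne'
  have h4 := FB_ht h s hx
  obtain ⟨Λ, -, -, h5⟩ := FB_top h s
  obtain ⟨ν, -, -, h6⟩ := h5 x
  have h7 := SCP_cr_le (FB b m p s (x : ℂ) - FB b m p s (zz x π)) b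
  rw [SCP_cr_sub, norm_sub_rev] at h7
  rw [h6] at h4 h7
  rw [SCP_cr_ei, sub_self, sin_zero, mul_zero, sub_zero] at h7
  rw [div_le_iff₀ pi_pos]
  have h8 : min (cr (FB b m p s (s k : ℝ)) (ei b)) (cr (FB b m p s (s (k + 1) : ℝ)) (ei b)) ≤
      cr (FB b m p s (x : ℂ)) (ei b) := by
    rcases le_or_gt 0 (sin (b - al p (k + 1))) with hσ | hσ
    · exact (min_le_left _ _).trans (by linarith only [r1, p1, hσ, mul_nonneg_of_nonpos_of_nonpos (Mathlib.Tactic.Linarith.sub_nonpos_of_le p1) (Mathlib.Tactic.Linarith.sub_nonpos_of_le hσ)])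
    · exact (min_le_right _ _).trans (by linarith only [r2, p2, hσ, mul_nonneg_of_nonpos_of_nonpos (Mathlib.Tactic.Linarith.sub_nonpos_of_le p2) (le_of_lt (Mathlib.Tactic.Linarith.sub_neg_of_lt hσ))])
  linarith only [h4, h7, h8]

theorem SCP_cont (h : SAng b a m p) {k : ℕ} (hk : k < m) :
    Continuous fun s : ℕ → ℝ => SCP_L b m p s k := by
  have hW : ∀ j, j ≤ m → Continuous fun s : ℕ → ℝ => SCP_W b m p s j := by
    intro j hj
    rcases j with _ | j
    · exact continuous_const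
    · simp only [SCP_W, if_pos (show j < m by omega)]
      refine (FB_cont h).comp_continuous
        (f := fun s : ℕ → ℝ => (s, ((s j : ℝ) : ℂ))) (by fun_prop) fun s => ?_
      simp [pi_pos.le]
  exact Complex.continuous_re.comp (continuous_const.mul ((hW _ hk).sub (hW _ hk.le)))

theorem SCP_zero (h : SAng b a m p) (hm : 1 ≤ m) {r : ℕ → ℝ} (hr : ∀ k, 0 ≤ r k) :
    ∃ s : ℕ → ℝ, s 0 = 0 ∧ Monotone s ∧ ∀ k, k + 1 < m → SCP_L b m p s (k + 1) = r (k + 1) *
      min (∑ j ∈ Finset.range (k + 1), SCP_L b m p s j * sin (b - al p j))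
        (∑ j ∈ Finset.range (k + 2), SCP_L b m p s j * sin (b - al p j)) := by
  obtain ⟨n, rfl⟩ : ∃ n, m = n + 1 := ⟨m - 1, by omega⟩
  let g : (Fin n → MP_a6a438_an.Iv) → ℕ → ℝ := fun x j =>
    if hj : j < n then π * r (j + 1) * ((1 + (x ⟨j, hj⟩ : ℝ)) / 2) else 0
  let s : (Fin n → MP_a6a438_an.Iv) → ℕ → ℝ := fun x k => ∑ j ∈ Finset.range k, g x j
  have hg : ∀ x j, 0 ≤ g x j := fun x j => by
    simp only [g]
    split_ifs with hj
    · have := (x ⟨j, hj⟩).2.1
      exact mul_nonneg (mul_nonneg pi_pos.le (hr _)) (by linarith only [hj, this])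
    · exact le_rfl
  have hstep : ∀ x k, s x (k + 1) - s x k = g x k := fun x k => by
    simp only [s, Finset.sum_range_succ]; ring
  have hs : ∀ x, Monotone (s x) := fun x => monotone_nat_of_le_succ fun k => by
    have := hstep x k
    have := hg x k
    linarith
  have hc : Continuous s := continuous_pi fun k => continuous_finsetSum _ fun j _ => by
    simp only [g]
    split_ifs with hj
    · fun_prop
    · exact continuous_const
  have hL : ∀ k, k < n + 1 → Continuous fun x => SCP_L b (n + 1) p (s x) k := fun k hk =>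
    (SCP_cont h hk).comp hc
  obtain ⟨x, hx⟩ := MP_a6a438_an.miranda_fin (n := n)
    (fun i x => SCP_L b (n + 1) p (s x) (i + 1) - r (i + 1) *
      min (∑ j ∈ Finset.range (i + 1), SCP_L b (n + 1) p (s x) j * sin (b - al p j))
        (∑ j ∈ Finset.range (i + 2), SCP_L b (n + 1) p (s x) j * sin (b - al p j)))
    (fun i => by
      have hi := i.2
      refine (hL _ (by omega)).sub (continuous_const.mul (Continuous.min ?_ ?_)) <;>
      exact continuous_finsetSum _ fun j hj =>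
        (hL j (by have := Finset.mem_range.1 hj; omega)).mul continuous_const)
    (fun i x hi => by
      have hi' := i.2
      have h1 := SCP_long h hm (hs x) (k := i) (by omega)
      have h2 : g x i = π * r (i + 1) := by
        simp only [g, dif_pos hi', Fin.eta, hi]; ring
      rw [hstep, h2] at h1
      have h3 : ∀ u v : ℝ, u / π * (π * v) = v * u := fun u v => by field_simp
      rw [h3] at h1
      linarith only [h1])
    (fun i x hi => by
      have hi' := i.2
      have h2 : g x i = 0 := by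
        simp only [g, dif_pos hi', Fin.eta, hi]; ring
      have h3 : s x (i + 1) = s x i := by have := hstep x i; linarith only [h2, this]
      have h4 : SCP_L b (n + 1) p (s x) (i + 1) = 0 := by
        simp only [SCP_L, SCP_W, if_pos (show (i : ℕ) + 1 < n + 1 by omega),
          if_pos (show (i : ℕ) < n + 1 by omega), h3, sub_self, mul_zero, Complex.zero_re]
      have h5 := mul_nonneg (hr (i + 1)) (le_min (SCP_pos h hm (hs x) (j := i) (by omega))
        (SCP_pos h hm (hs x) (j := i + 1) (by omega)))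
      rw [h4]
      linarith only [h5])
  exact ⟨s x, by simp [s], hs x, fun k hk => sub_eq_zero.1 (hx ⟨k, by omega⟩)⟩

end

variable {m : ℕ} {y : ℕ → ℂ} {φ l : ℕ → ℝ} {τ : ℝ}

theorem SCP_m (h : CC m y φ l τ) : 1 ≤ m := by
  rcases m with _ | m
  · exact absurd (h.lo.trans h.hi) (lt_irrefl _)
  · omega

theorem sc_param (h : CC m y φ l τ) :
    ∃ (s : ℕ → ℝ) (C : ℝ), 0 < C ∧ s 0 = 0 ∧ Monotone s ∧
      (∀ k, k < m → y (k + 1) = y 0 + C * ei (φ 0) *
        FB (τ + π - φ 0) m (fun k => (φ (k + 1) - φ k) / π) s (s k : ℝ)) ∧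
      y (m + 1) = y 0 + C * ei (φ 0) * FA (τ + π - φ 0) m (fun k => (φ (k + 1) - φ k) / π) s := by
  have hm := SCP_m h
  have hS := cc_sp h
  have hal := cc_al φ
  set b := τ + π - φ 0 with hb
  set p : ℕ → ℝ := fun k => (φ (k + 1) - φ k) / π with hp
  obtain ⟨β1, β2, β3⟩ := SCP_beta hS
  have hl : ∀ k, k ≤ m → 0 < l k := fun k hk => (h.step k hk).1
  have hy : ∀ k, k ≤ m + 1 → cr (y k - y 0) (ei (τ + π)) =
      ∑ j ∈ Finset.range k, l j * sin (b - al p j) := by
    intro k hk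
    induction k with
    | zero => simp [cr]
    | succ k ih =>
      have e := congrArg (fun z => cr z (ei (τ + π))) (h.step k (by omega)).2
      simp only [SCP_cr_ei, SCP_cr_sub] at e
      rw [Finset.sum_range_succ, ← ih (by omega), hal, SCP_cr_sub, SCP_cr_sub,
        show b - (φ k - φ 0) = τ + π - φ k by rw [hb]; ring]
      linarith only [e]
  have c2 : ∑ j ∈ Finset.range (m + 1), l j * sin (b - al p j) = 0 := by
    obtain ⟨σ, -, hσ⟩ := h.base
    have e := congrArg (fun z => cr z (ei (τ + π))) hσ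
    simp only [SCP_cr_ei, SCP_cr_sub, add_sub_cancel_left, sin_pi, mul_zero] at e
    rw [← hy _ le_rfl, SCP_cr_sub]
    linarith only [e]
  have hb0 := hS.hb
  have ha0 := hS.ha
  have hab := hS.hab
  have hpos : ∀ j, j < m → 0 < ∑ k ∈ Finset.range (j + 1), l k * sin (b - al p k) := fun j hj =>
    (SCP_conc (β := fun k => b - al p k) β1 (by simp only [β2]; linarith only [ha0, hab])
      (by simp only [β3]; linarith only [hb0, hab]) (fun k hk => (hl k hk).le) c2 hj.le).2 hl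
      (by simp only [β2]; exact hb0) (by simp only [β3]; linarith only [ha0]) hj
  let r : ℕ → ℝ := fun k => |l k / min (∑ j ∈ Finset.range k, l j * sin (b - al p j))
    (∑ j ∈ Finset.range (k + 1), l j * sin (b - al p j))|
  obtain ⟨s, s0, hs, hz⟩ := SCP_zero hS hm (r := r) fun k => abs_nonneg _
  have L0 := (SCP_side hS hm hs (Nat.zero_le m)).2.1 rfl
  have l0 := hl 0 (Nat.zero_le m)
  have key := SCP_solve (σ := fun j => sin (b - al p j)) (L := SCP_L b m p s) (l := l) (r := r) hm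
    (c := SCP_L b m p s 0 / l 0) (by field_simp) (fun k hk => (SCP_side hS hm hs hk).1) hl
    (fun k => abs_nonneg _) hz
    (fun k hk => by
      have h1 := lt_min (hpos k (by omega)) (hpos (k + 1) hk)
      simp only [r]
      rw [abs_of_pos (div_pos (hl _ hk.le) h1), div_mul_cancel₀ _ h1.ne'])
    (SCP_close hS hm hs) c2
    (by simp only [β3]; exact (sin_neg_of_neg_of_neg_pi_lt (by linarith only [ha0]) (by linarith only [hb0, hab])).ne)
  have hW : ∀ k, k ≤ m + 1 →
      y k = y 0 + (l 0 / SCP_L b m p s 0 : ℝ) * ei (φ 0) * SCP_W b m p s k := by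
    intro k hk
    induction k with
    | zero => simp [SCP_W]
    | succ k ih =>
      have e1 := (h.step k (by omega)).2
      have e2 := (SCP_side hS hm hs (show k ≤ m by omega)).2.2
      have e3 : ei (φ 0) * ei (al p k) = ei (φ k) := by rw [SCP_ei_mul, hal]; ring_nf
      have e4 : ((l 0 / SCP_L b m p s 0 : ℝ) : ℂ) * (SCP_L b m p s k : ℝ) = (l k : ℝ) := by
        rw [← Complex.ofReal_mul, key k (by omega)]
        congr 1
        field_simp
      have e5 := ih (by omega)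
      linear_combination e1 + e5 - (l 0 / SCP_L b m p s 0 : ℝ) * ei (φ 0) * e2 -
        (l k : ℝ) * e3 - ei (φ 0) * ei (al p k) * e4
  refine ⟨s, l 0 / SCP_L b m p s 0, div_pos l0 L0, s0, hs, fun k hk => ?_, ?_⟩
  · rw [hW (k + 1) (by omega)]; simp only [SCP_W, if_pos hk]
  · rw [hW (m + 1) le_rfl]; simp only [SCP_W, lt_irrefl, if_false]

end Pool.Agent.Work.MP_267827_an.PS
end

-- merged part: Pool.Agent.Work.MP_267827_an.PS.ASC
section
/-! The Schwarz-Christoffel map of the strip onto a convex cell (helper89). -/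

set_option autoImplicit false

namespace Pool.Agent.Work.MP_267827_an.PS

open MeasureTheory Set Filter Topology Real

section

variable {b a : ℝ} {m : ℕ} {p : ℕ → ℝ}

theorem ASC_rect (S T : ℝ) : IsCompact {w : ℂ | |w.re| ≤ S ∧ 0 ≤ w.im ∧ w.im ≤ T} := by
  have e : {w : ℂ | |w.re| ≤ S ∧ 0 ≤ w.im ∧ w.im ≤ T} = Icc (-S) S ×ℂ Icc 0 T := by
    ext w; simp [Complex.mem_reProdIm, abs_le]
  rw [e]
  exact isCompact_Icc.reProdIm isCompact_Icc

theorem ASC_cont (h : SAng b a m p) (s : ℕ → ℝ) :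
    ContinuousOn (FB b m p s) {w | 0 ≤ w.im ∧ w.im ≤ π} :=
  (FB_cont h).comp (f := fun w : ℂ => (s, w)) (by fun_prop) fun _ hw => hw

theorem ASC_split (h : SAng b a m p) (s : ℕ → ℝ) {ε : ℝ} (hε : 0 < ε) :
    ∃ S : ℝ, ∀ w : ℂ, 0 ≤ w.im → w.im ≤ π → S ≤ |w.re| →
      ‖FB b m p s w‖ < ε ∨ ‖FB b m p s w - FA b m p s‖ < ε := by
  obtain ⟨S₁, h1⟩ := FB_left h s hε
  obtain ⟨S₂, h2⟩ := FB_right h s hε
  refine ⟨max S₁ S₂, fun w w0 w1 hw => ?_⟩
  rcases le_abs.1 hw with hw | hw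
  · exact Or.inr (h2 w w0 w1 ((le_max_right _ _).trans hw))
  · exact Or.inl (h1 w w0 w1 (by linarith [le_max_left S₁ S₂]))

theorem ASC_bdd (h : SAng b a m p) (s : ℕ → ℝ) : Bornology.IsBounded (FB b m p s '' Sc) := by
  obtain ⟨S, hS⟩ := ASC_split h s one_pos
  have hK := ((ASC_rect S π).image_of_continuousOn
    ((ASC_cont h s).mono fun w hw => hw.2)).isBounded
  refine ((hK.union (Metric.isBounded_ball (x := (0 : ℂ)) (r := 1))).union
    (Metric.isBounded_ball (x := FA b m p s) (r := 1))).subset ?_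
  rintro _ ⟨w, hw, rfl⟩
  rcases le_total S |w.re| with h1 | h1
  · rcases hS w hw.1.le hw.2.le h1 with h2 | h2
    · exact Or.inl (Or.inr (by simpa using h2))
    · exact Or.inr (by rwa [Metric.mem_ball, dist_eq_norm])
  · exact Or.inl (Or.inl ⟨w, ⟨h1, hw.1.le, hw.2.le⟩, rfl⟩)

theorem ASC_clo (h : SAng b a m p) (s : ℕ → ℝ) {u : ℂ} (hu : u ∈ closure (FB b m p s '' Sc)) :
    u = 0 ∨ u = FA b m p s ∨ ∃ w : ℂ, 0 ≤ w.im ∧ w.im ≤ π ∧ FB b m p s w = u := by
  by_cases h0 : u = 0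
  · exact Or.inl h0
  by_cases h1 : u = FA b m p s
  · exact Or.inr (Or.inl h1)
  have hε : 0 < min ‖u‖ ‖u - FA b m p s‖ / 2 :=
    half_pos (lt_min (norm_pos_iff.2 h0) (norm_pos_iff.2 (sub_ne_zero.2 h1)))
  obtain ⟨S, hS⟩ := ASC_split h s hε
  have hK := ((ASC_rect S π).image_of_continuousOn
    ((ASC_cont h s).mono fun w hw => hw.2)).isClosed
  have hc := (hK.union (Metric.isClosed_closedBall (x := (0 : ℂ))
    (ε := min ‖u‖ ‖u - FA b m p s‖ / 2))).union
    (Metric.isClosed_closedBall (x := FA b m p s) (ε := min ‖u‖ ‖u - FA b m p s‖ / 2))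
  have hm := closure_minimal (fun z hz => ?_) hc hu
  · rcases hm with (⟨w, hw, rfl⟩ | hm) | hm
    · exact Or.inr (Or.inr ⟨w, hw.2.1, hw.2.2, rfl⟩)
    · rw [Metric.mem_closedBall, dist_zero_right] at hm
      linarith only [hε, hm, min_le_left ‖u‖ ‖u - FA b m p s‖]
    · rw [Metric.mem_closedBall, dist_eq_norm] at hm
      linarith only [hε, hm, min_le_right ‖u‖ ‖u - FA b m p s‖]
  · obtain ⟨w, hw, rfl⟩ := hz
    rcases le_total S |w.re| with h1 | h1
    · rcases hS w hw.1.le hw.2.le h1 with h2 | h2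
      · exact Or.inl (Or.inr (by simpa using h2.le))
      · exact Or.inr (by rw [Metric.mem_closedBall, dist_eq_norm]; exact h2.le)
    · exact Or.inl (Or.inl ⟨w, ⟨h1, hw.1.le, hw.2.le⟩, rfl⟩)

theorem ASC_bot (h : SAng b a m p) {s : ℕ → ℝ} (hs : Monotone s) (x : ℝ) :
    ∃ (k : ℕ) (μ ν : ℝ), k ≤ m ∧ 0 ≤ μ ∧ 0 ≤ ν ∧ (k = 0 → 0 < μ) ∧ (k = m → 0 < ν) ∧
      FB b m p s (x : ℂ) - SCP_W b m p s k = μ * ei (al p k) ∧
      SCP_W b m p s (k + 1) - FB b m p s (x : ℂ) = ν * ei (al p k) := by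
  classical
  have hex : ∃ k, k = m ∨ x ≤ s k := ⟨m, Or.inl rfl⟩
  have hk : Nat.find hex ≤ m := Nat.find_min' hex (Or.inl rfl)
  have h1 : ∀ j, j < Nat.find hex → s j ≤ x := fun j hj =>
    (not_le.1 (not_or.1 (Nat.find_min hex hj)).2).le
  have h2 : ∀ j, Nat.find hex ≤ j → j < m → x ≤ s j := fun j hj hjm => by
    rcases Nat.find_spec hex with e | e
    · omega
    · exact e.trans (hs hj)
  generalize Nat.find hex = k at hk h1 h2
  have a1 : ∃ μ : ℝ, 0 ≤ μ ∧ (k = 0 → 0 < μ) ∧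
      FB b m p s (x : ℂ) - SCP_W b m p s k = μ * ei (al p k) := by
    rcases k with _ | k
    · obtain ⟨μ, b1, b2⟩ := FB_first h s (x := x) fun j hj => h2 j (Nat.zero_le j) hj
      exact ⟨μ, b1.le, fun _ => b1, by simp [SCP_W, b2, al]⟩
    · obtain ⟨μ, b1, -, b2, -⟩ := FB_side h s hk (h1 k (Nat.lt_succ_self k))
        (fun j hj => hs (by omega)) h2
      exact ⟨μ, b1, fun e => by omega, by simp only [SCP_W, if_pos (show k < m by omega), b2]⟩
  have a2 : ∃ ν : ℝ, 0 ≤ ν ∧ (k = m → 0 < ν) ∧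
      SCP_W b m p s (k + 1) - FB b m p s (x : ℂ) = ν * ei (al p k) := by
    rcases Nat.lt_or_ge k m with hkm | hkm
    · obtain ⟨μ, b1, -, b2, -⟩ := FB_side h s hk (h2 k le_rfl hkm) h1 fun j hj _ => hs hj
      exact ⟨μ, b1, fun e => by omega, by simp only [SCP_W, if_pos hkm, b2]⟩
    · obtain rfl : k = m := by omega
      obtain ⟨μ, b1, b2⟩ := FB_last h s h1
      exact ⟨μ, b1.le, fun _ => b1, by simp only [SCP_W, lt_irrefl, if_false, b2]⟩
  obtain ⟨μ, b1, b2, b3⟩ := a1
  obtain ⟨ν, c1, c2, c3⟩ := a2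
  exact ⟨k, μ, ν, hk, b1, c1, b2, c2, b3, c3⟩

end

theorem ASC_cr (v A P Q : ℂ) (μ ν : ℝ) (h : μ + ν = 1) :
    cr v (ν • P + μ • Q - A) = ν * cr v (P - A) + μ * cr v (Q - A) := by
  obtain rfl : ν = 1 - μ := by linarith only [h]
  simp only [cr, Complex.sub_re, Complex.sub_im, Complex.add_re, Complex.add_im, Complex.smul_re,
    Complex.smul_im, smul_eq_mul]
  ring

theorem sc_exists {m : ℕ} {y : ℕ → ℂ} {φ l : ℕ → ℝ} {τ : ℝ} (h : CC m y φ l τ) :
    ∃ (s : ℕ → ℝ) (F G : ℂ → ℂ) (c : ℝ), s 0 = 0 ∧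
      SCMap (y (m + 1)) (y 0) (KK m y)
        (wtF (τ + π - φ 0) m s fun k => (φ (k + 1) - φ k) / π) F G c := by
  obtain ⟨s, C, hC, s0, hs, hv, hA⟩ := sc_param h
  have hm := SCP_m h
  have hS := cc_sp h
  set b := τ + π - φ 0 with hb
  set p : ℕ → ℝ := fun k => (φ (k + 1) - φ k) / π with hp
  set E : ℂ := C * ei (φ 0) with hE
  have hEn : ‖E‖ = C := by
    rw [hE, norm_mul, SCP_ei_norm, mul_one, Complex.norm_real, Real.norm_of_nonneg hC.le]
  have hE0 : E ≠ 0 := norm_pos_iff.1 (hEn ▸ hC)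
  have hW : ∀ k, k ≤ m + 1 → y k = y 0 + E * SCP_W b m p s k := by
    intro k hk
    rcases k with _ | k
    · simp [SCP_W]
    · rcases Nat.lt_or_ge k m with hkm | hkm
      · simp only [SCP_W, if_pos hkm, hv k hkm]
      · obtain rfl : k = m := by omega
        simp only [SCP_W, lt_irrefl, if_false, hA]
  let T : ℂ ≃ₜ ℂ := (Homeomorph.mulLeft₀ E hE0).trans (Homeomorph.addLeft (y 0))
  have hT : ∀ u, T u = y 0 + E * u := fun u => rfl
  have him : (fun z => y 0 + E * FB b m p s z) '' Sc = T '' (FB b m p s '' Sc) := by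
    rw [image_image]; rfl
  have top : ∀ x : ℝ, y 0 + E * FB b m p s (zz x π) ∈ segment ℝ (y (m + 1)) (y 0) := by
    intro x
    obtain ⟨Λ, h1, h2, h3⟩ := FB_top hS s
    obtain ⟨μ, h4, h5, h6⟩ := h3 x
    refine ⟨μ / Λ, 1 - μ / Λ, div_nonneg h4 h1.le, sub_nonneg.2 ((div_le_one h1).2 h5),
      by ring, ?_⟩
    have h7 : (Λ : ℂ) ≠ 0 := Complex.ofReal_ne_zero.2 h1.ne'
    rw [hA, h2, h6]
    simp only [Complex.real_smul]
    push_cast
    field_simp
    ring
  have bot : ∀ x : ℝ, ∃ (k : ℕ) (μ ν : ℝ), k ≤ m ∧ 0 ≤ μ ∧ 0 ≤ ν ∧ μ + ν = 1 ∧ (k = 0 → 0 < μ) ∧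
      (k = m → 0 < ν) ∧ ν • y k + μ • y (k + 1) = y 0 + E * FB b m p s (x : ℂ) := by
    intro x
    obtain ⟨k, μ, ν, hk, b1, b2, b3, b4, b5, b6⟩ := ASC_bot hS hs x
    have e1 := hW k (by omega)
    have e2 := hW (k + 1) (by omega)
    have hpos : 0 < μ + ν := by
      refine lt_of_le_of_ne (add_nonneg b1 b2) fun e => ?_
      obtain rfl : μ = 0 := by linarith only [b1, b2, e]
      obtain rfl : ν = 0 := by linarith only [b2, e]
      obtain ⟨c1, c2⟩ := h.step k hk
      have c3 : ((l k : ℝ) : ℂ) * ei (φ k) = 0 := by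
        simp only [Complex.ofReal_zero, zero_mul] at b5 b6
        linear_combination -c2 + e2 - e1 + E * b5 + E * b6
      have c4 := congrArg norm c3
      rw [norm_mul, SCP_ei_norm, mul_one, Complex.norm_real, norm_zero, norm_eq_zero] at c4
      exact c1.ne' c4
    refine ⟨k, μ / (μ + ν), ν / (μ + ν), hk, div_nonneg b1 hpos.le, div_nonneg b2 hpos.le,
      by field_simp, fun e => div_pos (b3 e) hpos, fun e => div_pos (b4 e) hpos, ?_⟩
    have h7 : ((μ : ℂ) + ν) ≠ 0 := by exact_mod_cast hpos.ne'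
    simp only [Complex.real_smul]
    push_cast
    field_simp
    linear_combination ν * e1 + μ * e2 - E * ν * b5 + E * μ * b6
  have hbd : Bornology.IsBounded ((fun z => y 0 + E * FB b m p s z) '' Sc) := by
    obtain ⟨R, hR⟩ := (ASC_bdd hS s).exists_norm_le
    refine isBounded_iff_forall_norm_le.2 ⟨‖y 0‖ + C * R, ?_⟩
    rintro _ ⟨w, hw, rfl⟩
    refine (norm_add_le _ _).trans ?_
    rw [norm_mul, hEn]
    have := hR _ ⟨w, hw, rfl⟩
    gcongr
  have himg : (fun z => y 0 + E * FB b m p s z) '' Sc = KK m y := by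
    refine img_eq h (him ▸ T.isOpenMap _ (FB_open hS s))
      ⟨_, zz 0 (π / 2), ⟨by simpa using pi_pos, by simpa using pi_pos⟩, rfl⟩ hbd fun z hz => ?_
    rw [him, ← T.image_frontier] at hz
    obtain ⟨u, hu, rfl⟩ := hz
    rw [(FB_open hS s).frontier_eq] at hu
    rw [hT]
    rcases ASC_clo hS s hu.1 with rfl | rfl | ⟨w, w0, w1, rfl⟩
    · exact Or.inl (by simpa using right_mem_segment ℝ _ _)
    · exact Or.inl (hA ▸ left_mem_segment ℝ _ _)
    · rcases w0.eq_or_lt with w0 | w0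
      · obtain ⟨k, μ, ν, hk, b1, b2, b3, -, -, b4⟩ := bot w.re
        refine Or.inr ⟨k, hk, ν, μ, b2, b1, by linarith only [b3], ?_⟩
        rw [b4, ← zz_zero, w0, zz_eta]
      · rcases w1.eq_or_lt with w1 | w1
        · have := top w.re
          rw [← w1, zz_eta] at this
          exact Or.inl this
        · exact absurd ⟨w, ⟨w0, w1⟩, rfl⟩ hu.2
  have hder : ∀ z ∈ Sc, HasDerivAt (fun z => y 0 + E * FB b m p s z) (E * G0 b m p s z) z :=
    fun z hz => ((FB_der hS s hz).const_mul E).const_add _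
  have hnrm : ∀ q ∈ St, ‖E * G0 b m p s (pt 1 1 q)‖ ^ 2 = C ^ 2 * wtF b m s p q := fun q hq => by
    rw [norm_mul, mul_pow, hEn, G0_sq b m p s hq]
  have hinj : InjOn (fun z => y 0 + E * FB b m p s z) Sc := fun z hz z' hz' e =>
    FB_inj hS s hz hz' (mul_left_cancel₀ hE0 (add_left_cancel e))
  have hpt : ∀ q ∈ St, pt 1 1 q ∈ Sc := fun q hq => by simpa [Sc, St] using hq
  have hSt : MeasurableSet St :=
    ((isOpen_lt continuous_const continuous_snd).inter
      (isOpen_lt continuous_snd continuous_const)).measurableSet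
  refine ⟨s, fun z => y 0 + E * FB b m p s z, fun z => E * G0 b m p s z, C ^ 2, s0,
    ⟨pow_pos hC 2, hder, hnrm, hinj, himg, ?_, wtF_low hS s, fun ε hε => ?_, fun S δ hδ => ?_⟩⟩
  · obtain ⟨-, h2, -⟩ := cov (D := St) hSt (F := fun z => y 0 + E * FB b m p s z)
      (F' := fun z => E * G0 b m p s z) one_pos one_pos (fun q hq => hder _ (hpt q hq))
      (fun q hq q' hq' e => by
        have := hinj (hpt q hq) (hpt q' hq') e
        have h1 := congrArg Complex.re this
        have h2 := congrArg Complex.im this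
        simp only [pt_re, pt_im, one_mul] at h1 h2
        exact Prod.ext h1 h2) (fun _ => (1 : ℝ))
    have h3 := h2.1 (integrableOn_const (hbd.subset (by
      rintro _ ⟨q, hq, rfl⟩
      exact ⟨_, hpt q hq, rfl⟩)).measure_lt_top.ne)
    refine IntegrableOn.congr_fun (h3.const_mul (C ^ 2)⁻¹) (fun q hq => ?_) hSt
    simp only [one_mul, smul_eq_mul, mul_one, hnrm q hq]
    field_simp
  · obtain ⟨S, h1⟩ := ASC_split hS s (div_pos hε hC)
    obtain ⟨δ, hδ, h2⟩ := FB_near hS s (div_pos hε hC)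
    have key : ∀ u v : ℂ, ‖u - v‖ < ε / C → y 0 + E * v ∈ segment ℝ (y (m + 1)) (y 0) →
        Metric.infDist (y 0 + E * u) (segment ℝ (y (m + 1)) (y 0)) < ε := fun u v e hv => by
      refine (Metric.infDist_le_dist_of_mem hv).trans_lt ?_
      rw [dist_add_left, dist_eq_norm, ← mul_sub, norm_mul, hEn, mul_comm]
      exact (lt_div_iff₀ hC).1 e
    refine ⟨S, δ, hδ, fun z hz hz' => ?_⟩
    rcases hz' with hz' | hz'
    · rcases h1 z hz.1.le hz.2.le hz' with h3 | h3
      · exact key _ 0 (by simpa using h3) (by simpa using right_mem_segment ℝ _ _)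
      · exact key _ _ h3 (hA ▸ left_mem_segment ℝ _ _)
    · have h3 := h2 z.re z.im hz' hz.2.le
      rw [zz_eta] at h3
      exact key _ _ h3 (top z.re)
  · have hc : ContinuousOn (fun z => cr (y 0 - y (m + 1)) (y 0 + E * FB b m p s z - y (m + 1)))
        {w : ℂ | |w.re| ≤ S ∧ 0 ≤ w.im ∧ w.im ≤ π - δ} := by
      have h1 : Continuous fun u : ℂ => cr (y 0 - y (m + 1)) (y 0 + E * u - y (m + 1)) := by
        unfold cr; fun_prop
      exact h1.comp_continuousOn ((ASC_cont hS s).mono fun w hw => ⟨hw.2.1, by linarith only [hδ, hw, hw.2.2]⟩)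
    obtain ⟨ε, hε, h1⟩ := (ASC_rect S (π - δ)).exists_forall_le' hc (a := 0) fun w hw => by
      rcases hw.2.1.eq_or_lt with w0 | w0
      · obtain ⟨k, μ, ν, hk, b1, b2, b3, b4, b5, b6⟩ := bot w.re
        rw [← zz_zero, w0, zz_eta] at b6
        rw [← b6, ASC_cr _ _ _ _ _ _ b3]
        rcases Nat.eq_zero_or_pos k with rfl | k0
        · have e : cr (y 0 - y (m + 1)) (y 0 - y (m + 1)) = 0 := by simp only [cr]; ring
          rw [e, mul_zero, zero_add]
          exact mul_pos (b4 rfl) (cc_base h le_rfl hm)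
        · rcases hk.eq_or_lt with rfl | km
          · have e : cr (y 0 - y (k + 1)) (y (k + 1) - y (k + 1)) = 0 := by simp [cr]
            rw [e, mul_zero, add_zero]
            exact mul_pos (b5 rfl) (cc_base h k0 le_rfl)
          · have c1 := cc_base h k0 hk
            have c2 := cc_base h (j := k + 1) (by omega) km
            rcases b1.eq_or_lt with rfl | b1
            · rw [zero_mul, add_zero]; exact mul_pos (by linarith only [b3]) c1
            · exact add_pos_of_nonneg_of_pos (mul_nonneg b2 c1.le) (mul_pos b1 c2)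
      · have : y 0 + E * FB b m p s w ∈ KK m y :=
          himg ▸ ⟨w, ⟨w0, by linarith [hw.2.2]⟩, rfl⟩
        exact this.1
    exact ⟨ε, hε, fun z hz z1 z2 => h1 z ⟨z1, hz.1.le, z2⟩⟩

end Pool.Agent.Work.MP_267827_an.PS
end
end

-- merged part: Pool.Agent.Work.MP_267827_an.Srt.SJ
section
-- merged part: Pool.Agent.Work.MP_267827_an.PS.APull
section
/-! Transport of test functions along a conformal map of the strip.

`pull`.  Let `u` be a test function; its support has positive distance from the base, so by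
`near` the function `U = u ∘ F` vanishes for `|s| ≥ S` and `t ≥ π - δ`.  For small `e > 0` put
`V (s, t) = χ t * U (s + i (e + (1 - e / π) t))` with a smooth `χ` that is `1` on `[0, π - δ / 2]`
and has its support in `(-e / 2, π - δ / 4)`.  Then `SV V`; `∫ w V ^ 2 → ∫ w U ^ 2` by dominated
convergence (`int`), `∫ en V ≤ (1 - e / π)⁻¹ ∫ en U` by the affine change of variables.  `cov`,
`chain`, `norm_sq_dual` of CoV.lean give `c ∫ w U ^ 2 = ∫_K u ^ 2`, `∫ en U = ∫_K ‖fderiv u‖ ^ 2`,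
`c ∫ w = vol K`, and `0 < ∫ w` by `low`.

`push`.  `F` is holomorphic and injective with `G ≠ 0` (`low`, `nrm`), so `K` is open and the
inverse `P` is `C¹` on `K`.  For `SV V` put `u₀ = V ∘ P`; by `far` it vanishes where
`cr (B - A) (z - A) < ε`.  Fix `O ∈ K`; for `ρ < 1` close to `1` put
`u z = χ z * u₀ (O + ρ (z - O))` with a smooth `χ` equal to `1` near the closure of `K` and with
compact support in the open set `{z | O + ρ (z - O) ∈ K}` (convexity).  It vanishes near the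
base.  `∫_K ‖fderiv u‖ ^ 2 = ∫_{O + ρ (K - O)} ‖fderiv u₀‖ ^ 2 ≤ ∫ en V` and
`∫_K u ^ 2 → ∫_K u₀ ^ 2 = c ∫ w V ^ 2`.  Use `lam = Λ / vol K`. -/

set_option autoImplicit false

namespace Pool.Agent.Work.MP_267827_an.PS

open MeasureTheory Set Filter Topology Real

theorem APull_Sc : IsOpen Sc :=
  (isOpen_lt continuous_const Complex.continuous_im).inter
    (isOpen_lt Complex.continuous_im continuous_const)

theorem APull_St : IsOpen St :=
  (isOpen_lt continuous_const continuous_snd).inter (isOpen_lt continuous_snd continuous_const)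

theorem APull_im (p : ℝ × ℝ) (e : ℝ) : (pt 1 1 p + e * Complex.I).im = p.2 + e := by simp

theorem APull_re (p : ℝ × ℝ) (e : ℝ) : (pt 1 1 p + e * Complex.I).re = p.1 := by simp

theorem APull_inj : Function.Injective (pt 1 1) := fun p q h => by
  have h1 := congrArg Complex.re h
  have h2 := congrArg Complex.im h
  simp only [pt_re, pt_im, one_mul] at h1 h2
  exact Prod.ext h1 h2

theorem APull_mem {p : ℝ × ℝ} : pt 1 1 p ∈ Sc ↔ p ∈ St := by
  simp [Sc, St]

theorem APull_shift (e : ℝ) : ContDiff ℝ 1 fun p : ℝ × ℝ => pt 1 1 p + e * Complex.I :=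
  (contDiff_pt 1 1).add contDiff_const

/-- the cut off function -/
theorem APull_cut {W : ℂ → ℝ} {S δ e : ℝ} (hδ : 0 < δ) (he : 0 < e) (he1 : e ≤ 1)
    (h1 : ∀ z : ℂ, 0 < z.im → ContDiffAt ℝ 1 W z)
    (h2 : ∀ z : ℂ, S ≤ |z.re| ∨ π - δ ≤ z.im → W z = 0) :
    ∃ V, SV V ∧ ∀ p : ℝ × ℝ, 0 ≤ p.2 → V p = W (pt 1 1 p + e * Complex.I) := by
  have z0 : ∀ t : ℝ, t ≤ -(e / 2) → smoothTransition (2 * t / e + 1) = 0 := fun t ht => by
    refine smoothTransition.zero_of_nonpos ?_
    have : 2 * t / e ≤ -1 := by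
      rw [div_le_iff₀ he]
      linarith only [ht]
    linarith only [this]
  refine ⟨fun p => smoothTransition (2 * p.2 / e + 1) * W (pt 1 1 p + e * Complex.I),
    ⟨contDiff_iff_contDiffAt.2 fun p => ?_, S, min δ 1, lt_min hδ one_pos, fun p hp => ?_⟩,
    fun p hp => ?_⟩
  · rcases lt_or_ge p.2 (-(e / 2)) with c | c
    · refine (contDiffAt_const (c := (0 : ℝ))).congr_of_eventuallyEq ?_
      filter_upwards [(isOpen_lt continuous_snd continuous_const).mem_nhds c] with q hq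
      rw [z0 q.2 (le_of_lt hq), zero_mul]
    · refine ContDiffAt.mul ?_ ?_
      · refine (smoothTransition.contDiff.comp ?_).contDiffAt
        fun_prop
      · refine (h1 _ ?_).comp p (APull_shift e).contDiffAt
        rw [APull_im]
        linarith only [he, c]
  · have a1 : ¬ p.2 ≤ -(e / 2) := fun c => hp (by rw [z0 _ c, zero_mul])
    have a2 : ¬ (S ≤ |p.1| ∨ π - δ ≤ p.2 + e) := fun c => hp (by
      rw [h2 _ (by rwa [APull_re, APull_im]), mul_zero])
    rw [not_or, not_le, not_le] at a2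
    refine ⟨a2.1.le, abs_le.2 ⟨?_, ?_⟩⟩
    · linarith only [hδ, he1, a1, a2, min_le_right δ 1, pi_gt_three, not_le.1 a1]
    · linarith only [he, a2, min_le_left δ 1, a2.2]
  · have : smoothTransition (2 * p.2 / e + 1) = 1 := by
      refine smoothTransition.one_of_one_le ?_
      have : 0 ≤ 2 * p.2 / e := by positivity
      linarith only [this]
    simp only [this, one_mul]

/-- the energy of the shifted function -/
theorem APull_en {A B : ℂ} {K : Set ℂ} {w : ℝ × ℝ → ℝ} {F G : ℂ → ℂ} {c : ℝ}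
    (h : SCMap A B K w F G c) {u : ℂ → ℝ} (hu : ContDiff ℝ 1 u) (hc : HasCompactSupport u)
    {δ e : ℝ} (hδ : 0 < δ) (he : 0 < e)
    (h2 : ∀ z : ℂ, π - δ ≤ z.im → Sc.indicator (fun z => u (F z)) z = 0) {V : ℝ × ℝ → ℝ}
    (hV : ∀ p : ℝ × ℝ, 0 ≤ p.2 →
      V p = Sc.indicator (fun z => u (F z)) (pt 1 1 p + e * Complex.I)) :
    ∫ q in St, en V q ≤ ∫ z in K, ‖fderiv ℝ u z‖ ^ 2 := by
  let D : Set (ℝ × ℝ) := {p | 0 < p.2 ∧ p.2 + e < π}
  have oD : IsOpen D := (isOpen_lt continuous_const continuous_snd).inter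
    (isOpen_lt (continuous_snd.add continuous_const) continuous_const)
  have hD : ∀ p ∈ D, pt 1 1 p + e * Complex.I ∈ Sc := fun p hp => by
    have := hp.1
    refine ⟨?_, ?_⟩ <;> rw [APull_im]
    · linarith
    · exact hp.2
  have hF : ∀ p ∈ D, HasDerivAt (fun z => F (z + e * Complex.I))
      ((fun z => G (z + e * Complex.I)) (pt 1 1 p)) (pt 1 1 p) := fun p hp =>
    (h.der _ (hD p hp)).comp_add_const _ _
  obtain ⟨-, -, c3⟩ := cov oD.measurableSet (F := fun z => F (z + e * Complex.I))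
    (F' := fun z => G (z + e * Complex.I)) one_pos one_pos hF
    (fun p hp q hq e' => APull_inj (add_right_cancel (h.inj (hD p hp) (hD q hq) e')))
    (fun z => ‖fderiv ℝ u z‖ ^ 2)
  have sub : D ⊆ St := fun p hp => ⟨hp.1, by linarith [hp.2]⟩
  have k1 : Continuous fun z => ‖fderiv ℝ u z‖ ^ 2 := ((hu.continuous_fderiv one_ne_zero).norm).pow 2
  have k2 : HasCompactSupport fun z => ‖fderiv ℝ u z‖ ^ 2 :=
    (hc.fderiv ℝ).comp_left (g := fun L : ℂ →L[ℝ] ℝ => ‖L‖ ^ 2) (by simp)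
  have e1 : ∫ q in St, en V q = ∫ q in D, en V q := by
    refine setIntegral_eq_of_subset_of_forall_diff_eq_zero APull_St.measurableSet sub
      fun p hp => ?_
    have a1 : π ≤ p.2 + e := not_lt.1 fun c => hp.2 ⟨hp.1.1, c⟩
    have a2 : V =ᶠ[𝓝 p] fun _ => 0 := by
      have a3 : π - δ < p.2 + e := by linarith
      filter_upwards [APull_St.mem_nhds hp.1,
        (isOpen_lt continuous_const (continuous_snd.add continuous_const)).mem_nhds a3] with q b1 b2
      rw [hV q b1.1.le, h2 _ (by rw [APull_im]; exact le_of_lt b2)]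
    simp [en, ds, dt, a2.fderiv_eq]
  have e2 : ∫ q in D, en V q = ∫ p in D, (1 * 1 * ‖G (pt 1 1 p + e * Complex.I)‖ ^ 2) •
      ‖fderiv ℝ u (F (pt 1 1 p + e * Complex.I))‖ ^ 2 := by
    refine setIntegral_congr_fun oD.measurableSet fun p hp => ?_
    have a2 : V =ᶠ[𝓝 p] fun q => u (F (pt 1 1 q + e * Complex.I)) := by
      filter_upwards [oD.mem_nhds hp] with q hq
      rw [hV q hq.1.le, indicator_of_mem (hD q hq)]
    obtain ⟨b1, b2⟩ := chain (u := u) (hF p hp) (hu.differentiable one_ne_zero _)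
    simp only [ds, dt] at b1 b2
    simp only [en, ds, dt, a2.fderiv_eq, b1, b2, one_mul, smul_eq_mul]
    exact norm_sq_dual _ _
  rw [e1, e2, ← c3]
  refine setIntegral_mono_set (k1.integrable_of_hasCompactSupport k2).integrableOn
    (Eventually.of_forall fun z => sq_nonneg _) (HasSubset.Subset.eventuallyLE ?_)
  rintro _ ⟨p, hp, rfl⟩
  rw [← h.img]
  exact ⟨_, hD p hp, rfl⟩

/-- the change of variables on the whole strip -/
theorem APull_cov {A B : ℂ} {K : Set ℂ} {w : ℝ × ℝ → ℝ} {F G : ℂ → ℂ} {c : ℝ}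
    (h : SCMap A B K w F G c) (g : ℂ → ℝ) :
    (IntegrableOn (fun q => w q * g (F (pt 1 1 q))) St → IntegrableOn g K) ∧
      ∫ z in K, g z = c * ∫ q in St, w q * g (F (pt 1 1 q)) := by
  obtain ⟨-, c2, c3⟩ := cov APull_St.measurableSet (F := F) (F' := G) one_pos one_pos
    (fun p hp => h.der _ (APull_mem.2 hp))
    (fun p hp q hq e' => APull_inj (h.inj (APull_mem.2 hp) (APull_mem.2 hq) e')) g
  have im : (fun p => F (pt 1 1 p)) '' St = K := by
    rw [← h.img]
    ext z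
    constructor
    · rintro ⟨p, hp, rfl⟩
      exact ⟨_, APull_mem.2 hp, rfl⟩
    · rintro ⟨z, hz, rfl⟩
      have : pt 1 1 (z.re, z.im) = z := by simp [pt]
      exact ⟨(z.re, z.im), hz, by simp only [this]⟩
  rw [im] at c2 c3
  have e : EqOn (fun q => c * (w q * g (F (pt 1 1 q))))
      (fun p => (1 * 1 * ‖G (pt 1 1 p)‖ ^ 2) • g (F (pt 1 1 p))) St := fun p hp => by
    simp only [h.nrm p hp, smul_eq_mul]
    ring
  refine ⟨fun i => c2.2 (IntegrableOn.congr_fun (i.const_mul c) e APull_St.measurableSet), ?_⟩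
  rw [c3, ← integral_const_mul, setIntegral_congr_fun APull_St.measurableSet e]

theorem pull {A B : ℂ} {K : Set ℂ} {w : ℝ × ℝ → ℝ} {F G : ℂ → ℂ} {c Λ lam : ℝ}
    (h : SCMap A B K w F G c) (hS : SLow Λ w) (hl : lam * volume.real K ≤ Λ) :
    Low (segment ℝ A B) K lam := by
  intro u hu hc hd
  have cs : IsCompact (segment ℝ A B) := by
    rw [segment_eq_image_lineMap]
    exact isCompact_Icc.image AffineMap.lineMap_continuous
  obtain ⟨ε, hε, h0⟩ := cs.exists_thickening_subset_open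
    (isClosed_tsupport u).isOpen_compl hd.symm.subset_compl_right
  obtain ⟨S, δ, hδ, h1⟩ := h.near ε hε
  set W : ℂ → ℝ := Sc.indicator fun z => u (F z) with hW
  have h2 : ∀ z : ℂ, S ≤ |z.re| ∨ π - δ ≤ z.im → W z = 0 := fun z hz => by
    by_cases hs : z ∈ Sc
    · rw [hW, indicator_of_mem hs]
      exact image_eq_zero_of_notMem_tsupport (h0 ((Metric.mem_thickening_iff_infDist_lt
        ⟨A, left_mem_segment ℝ A B⟩).2 (h1 z hs hz)))
    · exact indicator_of_notMem hs _
  have hF : ContDiffOn ℝ 1 F Sc :=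
    (DifferentiableOn.contDiffOn (fun z hz => (h.der z hz).differentiableAt.differentiableWithinAt)
      APull_Sc).restrict_scalars ℝ
  have h3 : ∀ z : ℂ, 0 < z.im → ContDiffAt ℝ 1 W z := fun z hz => by
    rcases lt_or_ge z.im π with c | c
    · have a : Sc ∈ 𝓝 z := APull_Sc.mem_nhds ⟨hz, c⟩
      refine (hu.contDiffAt.comp z (hF.contDiffAt a)).congr_of_eventuallyEq ?_
      filter_upwards [a] with y hy
      exact indicator_of_mem hy _
    · refine (contDiffAt_const (c := (0 : ℝ))).congr_of_eventuallyEq ?_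
      have a : π - δ < z.im := by linarith
      filter_upwards [(isOpen_lt continuous_const Complex.continuous_im).mem_nhds a] with y hy
      exact h2 y (Or.inr (le_of_lt hy))
  obtain ⟨M, hM⟩ := hu.continuous.bounded_above_of_compact_support hc
  have hM' : ∀ z, ‖W z‖ ≤ M := fun z => (norm_indicator_le_norm_self _ _).trans (hM _)
  obtain ⟨i1, m1⟩ := APull_cov h fun _ => 1
  obtain ⟨-, m2⟩ := APull_cov h fun z => u z ^ 2
  simp only [mul_one] at i1 m1
  have i2 := i1 h.int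
  rw [setIntegral_one_eq_measureReal] at m1
  have E0 : 0 ≤ ∫ z in K, ‖fderiv ℝ u z‖ ^ 2 := integral_nonneg fun z => sq_nonneg _
  have N0 : 0 ≤ ∫ z in K, u z ^ 2 := integral_nonneg fun z => sq_nonneg _
  rcases (measureReal_nonneg : 0 ≤ volume.real K).eq_or_lt with m0 | m0
  · have : volume K = 0 := by
      have f := (integrableOn_const_iff (by simp)).1 i2
      rw [or_iff_right (by simp)] at f
      exact (measureReal_eq_zero_iff f.ne).1 m0.symm
    rw [setIntegral_measure_zero _ this, mul_zero]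
    exact E0
  have w0 : 0 ≤ ∫ q in St, w q := by
    rw [m1] at m0
    exact ((mul_pos_iff_of_pos_left h.pos).1 m0).le
  have lim : Tendsto (fun e : ℝ => ∫ q in St, w q * W (pt 1 1 q + e * Complex.I) ^ 2) (𝓝[>] 0)
      (𝓝 (∫ q in St, w q * u (F (pt 1 1 q)) ^ 2)) := by
    clear * - w W u F M A B K G c h h3 hM' hW
    refine tendsto_integral_filter_of_dominated_convergence (fun q => ‖w q‖ * M ^ 2) ?_ ?_
      (h.int.norm.mul_const _) ?_
    · filter_upwards [self_mem_nhdsWithin] with e he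
      refine h.int.aestronglyMeasurable.mul (ContinuousOn.aestronglyMeasurable
        (fun p hp => ContinuousAt.continuousWithinAt ?_) APull_St.measurableSet)
      refine ((h3 _ ?_).continuousAt.comp (APull_shift e).continuous.continuousAt).pow 2
      rw [APull_im]
      exact add_pos hp.1 he
    · refine Eventually.of_forall fun e => Eventually.of_forall fun q => ?_
      rw [norm_mul, norm_pow]
      exact mul_le_mul_of_nonneg_left (pow_le_pow_left₀ (norm_nonneg _) (hM' _) 2) (norm_nonneg _)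
    · filter_upwards [ae_restrict_mem APull_St.measurableSet] with q hq
      have a1 : ContinuousAt (fun e : ℝ => W (pt 1 1 q + e * Complex.I)) 0 := by
        refine ContinuousAt.comp (f := fun e : ℝ => pt 1 1 q + e * Complex.I)
          (h3 _ ?_).continuousAt (by fun_prop)
        rw [APull_im]
        exact hq.1.trans_eq (add_zero _).symm
      have a2 : W (pt 1 1 q + (0 : ℝ) * Complex.I) = u (F (pt 1 1 q)) := by
        rw [Complex.ofReal_zero, zero_mul, add_zero, hW, indicator_of_mem (APull_mem.2 hq)]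
      rw [← a2]
      exact ((a1.tendsto.mono_left nhdsWithin_le_nhds).pow 2).const_mul _
  have key : Λ * ∫ q in St, w q * u (F (pt 1 1 q)) ^ 2 ≤
      (∫ q in St, w q) * ∫ z in K, ‖fderiv ℝ u z‖ ^ 2 := by
    refine le_of_tendsto (lim.const_mul Λ) ?_
    filter_upwards [Ioc_mem_nhdsGT one_pos] with e he
    obtain ⟨V, v1, v2⟩ := APull_cut hδ he.1 he.2 h3 h2
    have a1 := APull_en h hu hc hδ he.1 (fun z hz => h2 z (Or.inr hz)) v2
    have a2 : ∫ q in St, w q * W (pt 1 1 q + e * Complex.I) ^ 2 = ∫ q in St, w q * V q ^ 2 :=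
      setIntegral_congr_fun APull_St.measurableSet fun q hq => by simp only [v2 q hq.1.le]
    rw [a2]
    exact (hS V v1).trans (mul_le_mul_of_nonneg_left a1 w0)
  have k2 := mul_le_mul_of_nonneg_left key h.pos.le
  rw [← mul_assoc c (∫ q in St, w q), ← m1, mul_left_comm, ← m2] at k2
  refine le_of_mul_le_mul_left ?_ m0
  have := mul_le_mul_of_nonneg_right hl N0
  linarith only [k2, this]

end Pool.Agent.Work.MP_267827_an.PS
end

-- merged part: Pool.Agent.Work.MP_267827_an.PS.APush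
section
/-! Transport of test functions from the strip to the cell; the plan is in APull.lean. -/

set_option autoImplicit false

namespace Pool.Agent.Work.MP_267827_an.PS

open MeasureTheory Set Filter Topology Real

section aux

variable {A B : ℂ} {K : Set ℂ} {w : ℝ × ℝ → ℝ} {F G : ℂ → ℂ} {c : ℝ}

theorem APush_St_open : IsOpen St :=
  (isOpen_lt continuous_const continuous_snd).inter (isOpen_lt continuous_snd continuous_const)

theorem APush_Sc_open : IsOpen Sc :=
  (isOpen_lt continuous_const Complex.continuous_im).inter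
    (isOpen_lt Complex.continuous_im continuous_const)

theorem APush_mem {q : ℝ × ℝ} (hq : q ∈ St) : pt 1 1 q ∈ Sc := by
  simpa [Sc, St] using hq

theorem APush_pt (z : ℂ) : pt 1 1 (z.re, z.im) = z := by
  apply Complex.ext <;> simp

theorem APush_img (h : SCMap A B K w F G c) : (fun p => F (pt 1 1 p)) '' St = K := by
  rw [← h.img]
  ext z
  constructor
  · rintro ⟨p, hp, rfl⟩
    exact ⟨_, APush_mem hp, rfl⟩
  · rintro ⟨z, hz, rfl⟩
    exact ⟨(z.re, z.im), hz, by simp only [APush_pt]⟩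

theorem APush_inj (h : SCMap A B K w F G c) : InjOn (fun p => F (pt 1 1 p)) St := by
  intro p hp q hq e
  have := h.inj (APush_mem hp) (APush_mem hq) e
  have h1 := congrArg Complex.re this
  have h2 := congrArg Complex.im this
  simp only [pt_re, pt_im, one_mul] at h1 h2
  exact Prod.ext h1 h2

theorem APush_wpos (h : SCMap A B K w F G c) {q : ℝ × ℝ} (hq : q ∈ St) : 0 < w q := by
  obtain ⟨ε, hε, H⟩ := h.low |q.1|
  exact hε.trans_le (H q hq le_rfl)

theorem APush_ne (h : SCMap A B K w F G c) {z : ℂ} (hz : z ∈ Sc) : G z ≠ 0 := by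
  intro e
  have h1 := h.nrm (z.re, z.im) hz
  rw [APush_pt, e] at h1
  have h2 := mul_pos h.pos (APush_wpos h (q := (z.re, z.im)) hz)
  rw [← h1] at h2
  simp at h2

theorem APush_strict (h : SCMap A B K w F G c) {z : ℂ} (hz : z ∈ Sc) :
    HasStrictDerivAt F (G z) z := by
  have hd : DifferentiableOn ℂ F Sc := fun x hx =>
    (h.der x hx).differentiableAt.differentiableWithinAt
  have := (hd.analyticAt (APush_Sc_open.mem_nhds hz)).hasStrictDerivAt
  rwa [(h.der z hz).deriv] at this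

theorem APush_open (h : SCMap A B K w F G c) : IsOpen K := by
  rw [← h.img, isOpen_iff_mem_nhds]
  rintro _ ⟨z, hz, rfl⟩
  rw [← (APush_strict h hz).map_nhds_eq (APush_ne h hz)]
  exact image_mem_map (APush_Sc_open.mem_nhds hz)

theorem APush_inv (h : SCMap A B K w F G c) :
    ∃ P : ℂ → ℂ, ContDiffOn ℝ 1 P K ∧ ∀ z ∈ Sc, P (F z) = z := by
  refine ⟨Function.invFunOn F Sc, ?_, fun z hz => h.inj.leftInvOn_invFunOn hz⟩
  have hd : DifferentiableOn ℂ (Function.invFunOn F Sc) K := by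
    rw [← h.img]
    rintro _ ⟨z, hz, rfl⟩
    refine ((APush_strict h hz).to_local_left_inverse (APush_ne h hz)
      ?_).hasDerivAt.differentiableAt.differentiableWithinAt
    filter_upwards [APush_Sc_open.mem_nhds hz] with x hx using h.inj.leftInvOn_invFunOn hx
  exact (hd.contDiffOn (APush_open h)).restrict_scalars ℝ

theorem APush_cov (h : SCMap A B K w F G c) (g : ℂ → ℝ) :
    (IntegrableOn g K ↔ IntegrableOn (fun p => ‖G (pt 1 1 p)‖ ^ 2 * g (F (pt 1 1 p))) St) ∧
      ∫ z in K, g z = ∫ p in St, ‖G (pt 1 1 p)‖ ^ 2 * g (F (pt 1 1 p)) := by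
  have := (cov (F' := G) APush_St_open.measurableSet one_pos one_pos
    (fun p hp => h.der _ (APush_mem hp)) (APush_inj h) g).2
  rw [APush_img h] at this
  simpa only [one_mul, smul_eq_mul] using this

theorem APush_vol (h : SCMap A B K w F G c) : volume.real K = c * ∫ q in St, w q := by
  have := (APush_cov h fun _ => 1).2
  rw [setIntegral_const, smul_eq_mul, mul_one] at this
  rw [this, ← integral_const_mul]
  exact setIntegral_congr_fun APush_St_open.measurableSet fun p hp => by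
    simp only [mul_one, h.nrm p hp]

theorem APush_cs {V : ℝ × ℝ → ℝ} (hV : SV V) : HasCompactSupport V := by
  obtain ⟨S, δ, -, H⟩ := hV.supp
  refine HasCompactSupport.intro ((isCompact_Icc (a := -S) (b := S)).prod
    (isCompact_Icc (a := -(π - δ)) (b := π - δ))) fun p hp => ?_
  by_contra e
  exact hp ⟨abs_le.1 (H p e).1, abs_le.1 (H p e).2⟩

theorem APush_en_int {V : ℝ × ℝ → ℝ} (hV : SV V) : Integrable (en V) := by
  have hc : Continuous (fderiv ℝ V) := hV.c1.continuous_fderiv one_ne_zero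
  have h1 : Continuous (en V) := by
    unfold en ds dt
    fun_prop
  refine h1.integrable_of_hasCompactSupport ?_
  refine ((APush_cs hV).fderiv ℝ).mono fun p hp => ?_
  intro e
  apply hp
  simp [en, ds, dt, e]

theorem APush_data (h : SCMap A B K w F G c) {V : ℝ × ℝ → ℝ} (hV : SV V) :
    ∃ (u : ℂ → ℝ) (M ε : ℝ), 0 < ε ∧ ContDiffOn ℝ 1 u K ∧ (∀ z, u z ^ 2 ≤ M) ∧
      (∀ z ∈ K, u z ≠ 0 → ε ≤ cr (B - A) (z - A)) ∧
      ∫ z in K, u z ^ 2 = c * ∫ q in St, w q * V q ^ 2 ∧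
      IntegrableOn (fun z => ‖fderiv ℝ u z‖ ^ 2) K ∧
      ∫ z in K, ‖fderiv ℝ u z‖ ^ 2 = ∫ q in St, en V q := by
  obtain ⟨P, hP, hPF⟩ := APush_inv h
  obtain ⟨S, δ, hδ, H⟩ := hV.supp
  obtain ⟨ε, hε, hf⟩ := h.far S δ hδ
  obtain ⟨M, hM⟩ := hV.c1.continuous.bounded_above_of_compact_support (APush_cs hV)
  set u : ℂ → ℝ := fun z => V ((P z).re, (P z).im) with hu
  have huV : ∀ p ∈ St, u (F (pt 1 1 p)) = V p := fun p hp => by
    simp only [hu, hPF _ (APush_mem hp), pt_re, pt_im, one_mul]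
  have hc : ContDiffOn ℝ 1 u K :=
    hV.c1.comp_contDiffOn ((Complex.reCLM.contDiff.comp_contDiffOn hP).prodMk
      (Complex.imCLM.contDiff.comp_contDiffOn hP))
  have hen : ∀ p ∈ St, ‖G (pt 1 1 p)‖ ^ 2 * ‖fderiv ℝ u (F (pt 1 1 p))‖ ^ 2 = en V p := by
    intro p hp
    have hK : F (pt 1 1 p) ∈ K := by
      rw [← h.img]
      exact mem_image_of_mem _ (APush_mem hp)
    have hd : DifferentiableAt ℝ u (F (pt 1 1 p)) :=
      (hc.contDiffAt ((APush_open h).mem_nhds hK)).differentiableAt one_ne_zero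
    have he : (fun p => u (F (pt 1 1 p))) =ᶠ[𝓝 p] V := by
      filter_upwards [APush_St_open.mem_nhds hp] with q hq using huV q hq
    obtain ⟨h1, h2⟩ := chain (h.der _ (APush_mem hp)) hd
    simp only [ds, dt, he.fderiv_eq, one_mul] at h1 h2
    rw [← norm_sq_dual, en, ds, dt, h1, h2]
  refine ⟨u, M ^ 2, ε, hε, hc, fun z => ?_, ?_, ?_, ?_, ?_⟩
  · have := hM ((P z).re, (P z).im)
    rw [Real.norm_eq_abs] at this
    rw [← sq_abs]
    exact pow_le_pow_left₀ (abs_nonneg _) this 2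
  · rw [← h.img]
    rintro _ ⟨z, hz, rfl⟩ e
    simp only [hu, hPF z hz] at e
    exact hf z hz (H _ e).1 ((le_abs_self _).trans (H _ e).2)
  · rw [(APush_cov h _).2, ← integral_const_mul]
    exact setIntegral_congr_fun APush_St_open.measurableSet fun p hp => by
      simp only [huV p hp, h.nrm p hp, mul_assoc]
  · rw [(APush_cov h _).1]
    exact (APush_en_int hV).integrableOn.congr_fun (fun p hp => (hen p hp).symm)
      APush_St_open.measurableSet
  · rw [(APush_cov h _).2]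
    exact setIntegral_congr_fun APush_St_open.measurableSet hen

theorem APush_T (O : ℂ) (ρ : ℝ) (z : ℂ) :
    HasFDerivAt (fun z : ℂ => O + ρ • (z - O)) (ρ • ContinuousLinearMap.id ℝ ℂ) z :=
  (((hasFDerivAt_id z).sub_const O).const_smul ρ).const_add O

theorem APush_Tmem (hK : Convex ℝ K) (ho : IsOpen K) {O : ℂ} (hO : O ∈ K) {ρ : ℝ} (h0 : 0 < ρ)
    (h1 : ρ < 1) {z : ℂ} (hz : z ∈ closure K) : O + ρ • (z - O) ∈ K := by
  have := hK.combo_interior_closure_mem_interior (x := O) (y := z) (a := 1 - ρ) (b := ρ)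
    (by rwa [ho.interior_eq]) hz (by linarith) h0.le (by ring)
  rw [ho.interior_eq] at this
  convert this using 1
  simp only [Complex.real_smul]
  push_cast
  ring

theorem APush_step {lam ε : ℝ} {u : ℂ → ℝ} (hK : Convex ℝ K) (ho : IsOpen K)
    (hb : Bornology.IsBounded K) (hL : Low (segment ℝ A B) K lam) (hε : 0 < ε)
    (hu : ContDiffOn ℝ 1 u K) (hz : ∀ z ∈ K, u z ≠ 0 → ε ≤ cr (B - A) (z - A))
    (hi : IntegrableOn (fun z => ‖fderiv ℝ u z‖ ^ 2) K) {O : ℂ} (hO : O ∈ K) {ρ : ℝ}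
    (h0 : 0 < ρ) (h1 : ρ < 1) (h2 : (1 - ρ) * cr (B - A) (O - A) ≤ ε / 2) :
    lam * ∫ z in K, u (O + ρ • (z - O)) ^ 2 ≤ ∫ z in K, ‖fderiv ℝ u z‖ ^ 2 := by
  set T : ℂ → ℂ := fun z => O + ρ • (z - O) with hT
  have hTc : ContDiff ℝ 1 T := by
    rw [hT]
    fun_prop
  have hU : IsOpen (T ⁻¹' K) := ho.preimage hTc.continuous
  obtain ⟨L, hLc, hL1, hL2⟩ := exists_compact_between hb.isCompact_closure hU
    fun z hz => APush_Tmem hK ho hO h0 h1 hz
  obtain ⟨χ, hχ1, hχ0, -⟩ := exists_contMDiffMap_one_nhds_of_subset_interior (n := 1)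
    (modelWithCornersSelf ℝ ℂ) isClosed_closure hL1
  have hχ : ContDiff ℝ 1 χ := χ.contMDiff.contDiff
  have hχK : ∀ z ∈ K, χ z = 1 := fun z hz => hχ1.self_of_nhdsSet z (subset_closure hz)
  set v : ℂ → ℝ := fun z => χ z * u (T z) with hv
  have hv0 : ∀ z, z ∉ L → v z = 0 := fun z hz => by simp [hv, hχ0 z hz]
  have hvc : ContDiff ℝ 1 v := by
    rw [contDiff_iff_contDiffAt]
    intro z
    by_cases hzL : z ∈ L
    · exact hχ.contDiffAt.mul
        ((hu.contDiffAt (ho.mem_nhds (hL2 hzL))).comp z hTc.contDiffAt)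
    · refine (contDiffAt_const (c := (0 : ℝ))).congr_of_eventuallyEq ?_
      filter_upwards [hLc.isClosed.isOpen_compl.mem_nhds hzL] with x hx using hv0 x hx
  have hcr : ∀ z, cr (B - A) (T z - A) =
      (1 - ρ) * cr (B - A) (O - A) + ρ * cr (B - A) (z - A) := fun z => by
    simp [hT, cr]
    ring
  have hdis : Disjoint (tsupport v) (segment ℝ A B) := by
    clear * - ε ρ B A v L hv0 T hz hL2 χ u O h2 hcr hε
    have hcl : IsClosed {z : ℂ | ε / 2 ≤ ρ * cr (B - A) (z - A)} := by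
      refine isClosed_le continuous_const ?_
      unfold cr
      fun_prop
    have hs : tsupport v ⊆ {z : ℂ | ε / 2 ≤ ρ * cr (B - A) (z - A)} := by
      refine closure_minimal (fun z hz' => ?_) hcl
      have hzL : z ∈ L := by
        by_contra e
        exact hz' (hv0 z e)
      have := hz _ (hL2 hzL) (right_ne_zero_of_mul hz')
      rw [hcr] at this
      simp only [mem_ofPred_eq]
      linarith only [h2, this]
    refine Disjoint.mono_left hs (disjoint_left.2 ?_)
    rintro z hz' ⟨a, b, -, -, hab, rfl⟩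
    have e : cr (B - A) (a • A + b • B - A) = 0 := by
      obtain rfl : a = 1 - b := by linarith only [hab]
      simp [cr]
      ring
    simp only [mem_ofPred_eq, e] at hz'
    linarith only [hε, hz']
  have key := hL v hvc (HasCompactSupport.intro hLc hv0) hdis
  have e1 : ∫ z in K, v z ^ 2 = ∫ z in K, u (T z) ^ 2 :=
    setIntegral_congr_fun ho.measurableSet fun z hz => by simp only [hv, hχK z hz, one_mul]
  have hTK : T '' K ⊆ K := by
    rintro _ ⟨z, hz, rfl⟩
    exact APush_Tmem hK ho hO h0 h1 (subset_closure hz)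
  have hdet : |(ρ • ContinuousLinearMap.id ℝ ℂ).det| = ρ ^ 2 := by
    clear * - ρ
    rw [ContinuousLinearMap.det, ContinuousLinearMap.toLinearMap_smul, LinearMap.det_smul]
    simp
  have e2 : ∫ z in K, ‖fderiv ℝ v z‖ ^ 2 = ∫ z in T '' K, ‖fderiv ℝ u z‖ ^ 2 := by
    clear * - T K O ρ h0 v u ho χ hv hχK hu hTK hdet hz
    have hinj : InjOn T K := fun x _ y _ e => by
      have := smul_right_injective ℂ h0.ne' (add_left_cancel e)
      exact sub_left_injective this
    rw [integral_image_eq_integral_abs_det_fderiv_smul volume ho.measurableSet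
      (fun z _ => (APush_T O ρ z).hasFDerivWithinAt) hinj]
    refine setIntegral_congr_fun ho.measurableSet fun z hz => ?_
    have he : v =ᶠ[𝓝 z] fun z => u (T z) := by
      filter_upwards [ho.mem_nhds hz] with x hx
      simp only [hv, hχK x hx, one_mul]
    have hd : DifferentiableAt ℝ u (T z) :=
      (hu.contDiffAt (ho.mem_nhds (hTK (mem_image_of_mem _ hz)))).differentiableAt one_ne_zero
    have h3 : fderiv ℝ (fun z => u (T z)) z = _ := (hd.hasFDerivAt.comp z (APush_T O ρ z)).fderiv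
    simp only [he.fderiv_eq, h3, hdet, ContinuousLinearMap.comp_smul,
      ContinuousLinearMap.comp_id, norm_smul, mul_pow, Real.norm_eq_abs, sq_abs, smul_eq_mul]
    rfl
  rw [e1, e2] at key
  exact key.trans (setIntegral_mono_set hi (Eventually.of_forall fun z => sq_nonneg _)
    hTK.eventuallyLE)

theorem APush_hom {lam ε M : ℝ} {u : ℂ → ℝ} (hK : Convex ℝ K) (ho : IsOpen K)
    (hb : Bornology.IsBounded K) (hL : Low (segment ℝ A B) K lam) (hε : 0 < ε)
    (hu : ContDiffOn ℝ 1 u K) (hM : ∀ z, u z ^ 2 ≤ M)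
    (hz : ∀ z ∈ K, u z ≠ 0 → ε ≤ cr (B - A) (z - A))
    (hi : IntegrableOn (fun z => ‖fderiv ℝ u z‖ ^ 2) K) {O : ℂ} (hO : O ∈ K) :
    lam * ∫ z in K, u z ^ 2 ≤ ∫ z in K, ‖fderiv ℝ u z‖ ^ 2 := by
  have hI : ∀ᶠ ρ : ℝ in 𝓝[<] 1, ρ ∈ Ioo (0 : ℝ) 1 := Ioo_mem_nhdsLT one_pos
  have hlim : Tendsto (fun ρ : ℝ => ∫ z in K, u (O + ρ • (z - O)) ^ 2) (𝓝[<] 1)
      (𝓝 (∫ z in K, u z ^ 2)) := by
    clear * - K u O M hI hu hK ho hO hM hb hz
    refine tendsto_integral_filter_of_dominated_convergence (fun _ => M) ?_ ?_ ?_ ?_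
    · filter_upwards [hI] with ρ hρ
      refine ContinuousOn.aestronglyMeasurable ?_ ho.measurableSet
      refine (hu.continuousOn.comp (by fun_prop) fun z hz => ?_).pow 2
      exact APush_Tmem hK ho hO hρ.1 hρ.2 (subset_closure hz)
    · refine Eventually.of_forall fun ρ => Eventually.of_forall fun z => ?_
      rw [Real.norm_of_nonneg (sq_nonneg _)]
      exact hM _
    · exact integrableOn_const hb.measure_lt_top.ne
    · filter_upwards [ae_restrict_mem ho.measurableSet] with z hz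
      have h1 : Tendsto (fun ρ : ℝ => O + ρ • (z - O)) (𝓝[<] 1) (𝓝 z) := by
        have : Continuous fun ρ : ℝ => O + ρ • (z - O) := by fun_prop
        simpa using (this.tendsto 1).mono_left nhdsWithin_le_nhds
      exact ((hu.continuousOn.continuousAt (ho.mem_nhds hz)).tendsto.comp h1).pow 2
  refine le_of_tendsto (hlim.const_mul lam) ?_
  have h2 : ∀ᶠ ρ : ℝ in 𝓝[<] 1, (1 - ρ) * cr (B - A) (O - A) ≤ ε / 2 := by
    have : Continuous fun ρ : ℝ => (1 - ρ) * cr (B - A) (O - A) := by fun_prop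
    refine ((this.tendsto 1).mono_left nhdsWithin_le_nhds).eventually_le_const ?_
    simpa using hε
  filter_upwards [hI, h2] with ρ hρ h2
  exact APush_step hK ho hb hL hε hu hz hi hO hρ.1 hρ.2 h2

end aux

theorem push {A B : ℂ} {K : Set ℂ} {w : ℝ × ℝ → ℝ} {F G : ℂ → ℂ} {c Λ : ℝ}
    (h : SCMap A B K w F G c) (hK : Convex ℝ K) (hb : Bornology.IsBounded K)
    (hL : ∀ lam : ℝ, lam * volume.real K ≤ Λ → Low (segment ℝ A B) K lam) : SLow Λ w := by
  intro V hV
  obtain ⟨u, M, ε, hε, hu, hM, hz, e1, hi, e2⟩ := APush_data h hV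
  have hO : F ((π / 2 : ℝ) * Complex.I) ∈ K := by
    rw [← h.img]
    refine mem_image_of_mem _ ⟨?_, ?_⟩ <;> simp <;> linarith only [pi_pos]
  have ho := APush_open h
  have hv : 0 < volume.real K :=
    ENNReal.toReal_pos (ho.measure_pos volume ⟨_, hO⟩).ne' hb.measure_lt_top.ne
  have key := APush_hom hK ho hb (hL (Λ / volume.real K) (div_mul_cancel₀ _ hv.ne').le) hε hu hM
    hz hi hO
  rw [e1, e2, APush_vol h] at key
  rw [APush_vol h] at hv
  have hw : 0 < ∫ q in St, w q := (mul_pos_iff_of_pos_left h.pos).1 hv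
  have := mul_le_mul_of_nonneg_left key hw.le
  have hc := h.pos
  refine le_trans (le_of_eq ?_) this
  generalize (∫ q in St, w q * V q ^ 2) = X at *
  generalize (∫ q in St, w q) = Y at *
  field_simp

end Pool.Agent.Work.MP_267827_an.PS
end

-- merged part: Pool.Agent.Work.MP_267827_an.Srt.SI
section
/-! The strict inequality for obtuse triangles. -/

set_option autoImplicit false

namespace Pool.Agent.Work.MP_267827_an.Srt

open MeasureTheory Set Complex Filter Topology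
open Pool.Agent.Work.MP_267827_an.PS (Low)

noncomputable section

/-- a step of width `δ` -/
lemma exists_step (x₀ : ℝ) {δ : ℝ} (hδ : 0 < δ) : ∃ φ φ' : ℝ → ℝ, ContDiff ℝ 1 φ ∧
    (∀ x, HasDerivAt φ (φ' x) x) ∧ (∀ x, 0 ≤ φ x ∧ φ x ≤ 1 ∧ 0 ≤ φ' x ∧ φ' x ≤ 2 / δ) ∧
    (∀ x, x ≤ x₀ → φ x = 0 ∧ φ' x = 0) ∧ ∀ x, x₀ + δ ≤ x → φ x = 1 := by
  refine ⟨fun x => Ss (2 / δ * (x - x₀)), fun x => rho (2 / δ * (x - x₀)) * (2 / δ),
    Ss_c1.comp (contDiff_const.mul (contDiff_id.sub contDiff_const)), fun x => ?_,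
    fun x => ⟨step_Ss.nn _, step_Ss.le_one _, mul_nonneg (rho_nn _) (by positivity),
      mul_le_of_le_one_left (by positivity) (rho_le _)⟩, fun x hx => ?_,
    fun x hx => step_Ss.hi _ ?_⟩
  · have h1 : HasDerivAt (fun x => 2 / δ * (x - x₀)) (2 / δ) x := by
      simpa using ((hasDerivAt_id x).sub_const x₀).const_mul (2 / δ)
    exact (Ss_der _).comp x h1
  · have h1 : 2 / δ * (x - x₀) ≤ 0 := mul_nonpos_of_nonneg_of_nonpos (by positivity) (by linarith)
    refine ⟨step_Ss.lo _ h1, mul_eq_zero_of_left ?_ _⟩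
    by_contra hc
    exact absurd (rho_supp hc).1 (not_lt.2 h1)
  · rw [div_mul_eq_mul_div, le_div_iff₀ hδ]
    linarith

lemma prod_der {u : ℂ → ℝ} (u1 : ContDiff ℝ 1 u) {ψ : ℝ → ℝ} {ψ' : ℝ} {z : ℂ}
    (h : HasDerivAt ψ ψ' z.re) : ‖fderiv ℝ (fun z => u z * ψ z.re) z‖ ^ 2 =
      (ψ z.re * fderiv ℝ u z 1 + ψ' * u z) ^ 2 + (ψ z.re * fderiv ℝ u z I) ^ 2 := by
  have h1 : HasFDerivAt (fun z : ℂ => ψ z.re) (ψ' • reCLM) z :=
    h.comp_hasFDerivAt (f := fun z : ℂ => z.re) z reCLM.hasFDerivAt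
  rw [nsq, ((u1.differentiable one_ne_zero z).hasFDerivAt.fun_mul h1).fderiv]
  simp only [add_apply, smul_apply, reCLM_apply, one_re, I_re, smul_eq_mul]
  ring

lemma test_mul {D : Set ℂ} {u : ℂ → ℝ} (u1 : ContDiff ℝ 1 u) (u2 : HasCompactSupport u)
    (u3 : Disjoint (tsupport u) D) {ψ : ℝ → ℝ} (h : ContDiff ℝ 1 ψ) :
    ContDiff ℝ 1 (fun z => u z * ψ z.re) ∧ HasCompactSupport (fun z => u z * ψ z.re) ∧
      Disjoint (tsupport fun z => u z * ψ z.re) D :=
  ⟨u1.mul (h.comp reCLM.contDiff), u2.mul_right, u3.mono_left tsupport_mul_subset_left⟩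

lemma meas_gt (a : ℝ) : MeasurableSet {z : ℂ | a < z.re} :=
  measurableSet_lt measurable_const measurable_re

/-- the multiplier inequality -/
lemma multiplier {D K Y : Set ℂ} {lam x₀ δ ε η : ℝ} (hlam : 0 ≤ lam) (hLow : Low D K lam)
    (hK : MeasurableSet K) (hY : MeasurableSet Y) (hKY : ∀ z ∈ K, x₀ < z.re → z ∈ Y) (hδ : 0 < δ)
    (hε : 0 < ε) (hη : 0 < η) {u : ℂ → ℝ} (u1 : ContDiff ℝ 1 u) (u2 : HasCompactSupport u)
    (u3 : Disjoint (tsupport u) D) (u4 : ∀ z, 0 ≤ u z) :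
    2 * ε * ((∫ z in K ∩ {z | x₀ + δ < z.re}, ‖fderiv ℝ u z‖ ^ 2) -
      lam * ∫ z in K ∩ {z | x₀ < z.re}, u z ^ 2) ≤
      (1 + 2 * ε ^ 2) * (∫ z in K, ‖fderiv ℝ u z‖ ^ 2) +
      (2 * ε / δ * η + 8 * ε ^ 2 / δ ^ 2 - lam) * (∫ z in K, u z ^ 2) +
      2 * ε / δ / η * ∫ z in K ∩ Y, sl u z := by
  obtain ⟨φ, φ', p1, p2, p3, p4, p5⟩ := exists_step x₀ hδ
  obtain ⟨v1, v2, v3⟩ := test_mul u1 u2 u3 (ψ := fun x => 1 - ε * φ x)
    (contDiff_const.sub (contDiff_const.mul p1))
  have h1 := hLow _ v1 v2 v3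
  have iE := (int_E u1 u2).integrableOn (s := K)
  have iN := (int_N u1 u2).integrableOn (s := K)
  have iS := (int_sl u1 u2).integrableOn (s := K)
  have j1 := (iE.indicator (meas_gt (x₀ + δ))).const_mul (2 * ε)
  have j2 := (iN.indicator (meas_gt x₀)).const_mul (2 * ε * lam)
  have j3 := iE.const_mul (1 + 2 * ε ^ 2)
  have j4 := iN.const_mul (2 * ε / δ * η + 8 * ε ^ 2 / δ ^ 2 - lam)
  have j5 := (iS.indicator hY).const_mul (2 * ε / δ / η)
  have j6 := (int_E v1 v2).integrableOn (s := K)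
  have j7 := ((int_N v1 v2).integrableOn (s := K)).const_mul lam
  have h2 := setIntegral_mono_on (j6.add j1) ((((j7.add j2).add j3).add j4).add j5) hK
    fun z hz => by
      clear * - u ε φ z φ' u1 p2 x₀ δ lam η Y p3 u4 p5 p4 hKY hz hη hδ hε hlam
      have q1 := prod_der u1 (((p2 z.re).const_mul ε).const_sub 1)
      simp only [Pi.add_apply]
      rw [q1]
      simp only [nsq]
      obtain ⟨a1, a2, a3, a4⟩ := p3 z.re
      have a5 := u4 z
      set a := fderiv ℝ u z 1
      set b := fderiv ℝ u z I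
      set f := φ z.re
      set g := φ' z.re
      set w := u z
      have b1 : ({z : ℂ | x₀ + δ < z.re}.indicator (fun z => fderiv ℝ u z 1 ^ 2 + fderiv ℝ u z I ^ 2) z) ≤
          f * (a ^ 2 + b ^ 2) := by
        by_cases h : x₀ + δ < z.re
        · rw [indicator_of_mem (by exact h), show f = 1 from p5 _ h.le, one_mul]
        · rw [indicator_of_notMem (by exact h)]; positivity
      have b2 : f * w ^ 2 ≤ {z : ℂ | x₀ < z.re}.indicator (fun z => u z ^ 2) z := by
        by_cases h : x₀ < z.re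
        · rw [indicator_of_mem (by exact h)]
          exact mul_le_of_le_one_left (sq_nonneg _) a2
        · rw [indicator_of_notMem (by exact h), show f = 0 from (p4 _ (not_lt.1 h)).1, zero_mul]
      have b3 : -(g * w * a) ≤ 1 / δ * η * w ^ 2 + 1 / δ / η * Y.indicator (sl u) z := by
        by_cases h : x₀ < z.re
        · rw [indicator_of_mem (hKY z hz h), sl]
          set m := max (-a) 0
          have c1 : -(g * w * a) ≤ g * (w * m) := by
            have := mul_le_mul_of_nonneg_left (le_max_left (-a) 0) (mul_nonneg a3 a5)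
            linarith only [this]
          have c2 := mul_le_mul_of_nonneg_right a4 (mul_nonneg a5 (le_max_right (-a) 0))
          have c3 : 1 / δ * η * w ^ 2 + 1 / δ / η * m ^ 2 - 2 / δ * (w * m) =
              (η * w - m) ^ 2 / (δ * η) := by
            field_simp
            ring
          have c4 : 0 ≤ (η * w - m) ^ 2 / (δ * η) := by positivity
          linarith only [c1, c2, c3, c4]
        · rw [show g = 0 from (p4 _ (not_lt.1 h)).2]
          have : 0 ≤ Y.indicator (sl u) z := indicator_nonneg (fun _ _ => sq_nonneg _) z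
          simp only [zero_mul, neg_zero]
          positivity
      have b4 : (f * a + g * w) ^ 2 + (f * b) ^ 2 ≤ 2 * (a ^ 2 + b ^ 2) + 8 / δ ^ 2 * w ^ 2 := by
        have c1 : f ^ 2 ≤ 1 := pow_le_one₀ a1 a2
        have c2 : g ^ 2 ≤ 4 / δ ^ 2 := (pow_le_pow_left₀ a3 a4 2).trans_eq (by ring)
        have c3 := mul_le_mul_of_nonneg_right c1 (sq_nonneg a)
        have c4 := mul_le_mul_of_nonneg_right c1 (sq_nonneg b)
        have c5 := mul_le_mul_of_nonneg_right c2 (sq_nonneg w)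
        have c6 : 8 / δ ^ 2 * w ^ 2 = 2 * (4 / δ ^ 2 * w ^ 2) := by ring
        linarith only [sq_nonneg (f * a - g * w), sq_nonneg b, c3, c4, c5, c6]
      have d1 := mul_le_mul_of_nonneg_left b1 hε.le
      have d2 := mul_le_mul_of_nonneg_left b2 (mul_nonneg hε.le hlam)
      have d3 := mul_le_mul_of_nonneg_left b3 hε.le
      have d4 := mul_le_mul_of_nonneg_left b4 (sq_nonneg ε)
      have d5 : 0 ≤ lam * (ε * f * w) ^ 2 := by positivity
      have d6 : ((1 - ε * f) * a + -(ε * g) * w) ^ 2 + ((1 - ε * f) * b) ^ 2 =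
          a ^ 2 + b ^ 2 - 2 * (ε * (f * (a ^ 2 + b ^ 2))) + 2 * (ε * -(g * w * a)) +
            ε ^ 2 * ((f * a + g * w) ^ 2 + (f * b) ^ 2) := by ring
      have d7 : lam * (w * (1 - ε * f)) ^ 2 =
          lam * w ^ 2 - 2 * (ε * lam * (f * w ^ 2)) + lam * (ε * f * w) ^ 2 := by ring
      rw [d6, d7]
      have d8 : (2 * ε / δ * η + 8 * ε ^ 2 / δ ^ 2 - lam) * w ^ 2 +
          2 * ε / δ / η * Y.indicator (sl u) z =
          2 * (ε * (1 / δ * η * w ^ 2 + 1 / δ / η * Y.indicator (sl u) z)) +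
            ε ^ 2 * (8 / δ ^ 2 * w ^ 2) - lam * w ^ 2 := by ring
      rw [add_assoc (_ + _ + _), d8]
      linarith only [d1, d2, d3, d4, d5]
  rw [integral_add' j6 j1, integral_add' (((j7.add j2).add j3).add j4) j5,
    integral_add' ((j7.add j2).add j3) j4, integral_add' (j7.add j2) j3, integral_add' j7 j2] at h2
  simp only [integral_const_mul] at h2
  rw [setIntegral_indicator (meas_gt _), setIntegral_indicator (meas_gt _),
    setIntegral_indicator hY] at h2
  linarith only [h1, h2]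

/-- a thin strip with small mass -/
lemma exists_strip (K : Set ℂ) {g : ℂ → ℝ} (hg : Integrable g)
    (h0 : ∀ z, 0 ≤ g z) (x₀ δ : ℝ) {n : ℕ} (hn : 0 < n) : ∃ k < n,
      n * ((∫ z in K ∩ {z | x₀ + k * δ < z.re}, g z) -
        ∫ z in K ∩ {z | x₀ + k * δ + δ < z.re}, g z) ≤ ∫ z in K, g z := by
  by_contra hc
  push Not at hc
  have h1 := Finset.sum_lt_sum_of_nonempty (s := Finset.range n) (by simpa using hn.ne')
    fun k hk => hc k (Finset.mem_range.1 hk)
  have h2 := Finset.sum_range_sub' (fun k : ℕ => ∫ z in K ∩ {z | x₀ + k * δ < z.re}, g z) n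
  simp only [Nat.cast_succ, add_mul, one_mul, ← add_assoc] at h2
  rw [← Finset.mul_sum, h2, Finset.sum_const, Finset.card_range, nsmul_eq_mul] at h1
  have h3 := lt_of_mul_lt_mul_left h1 (Nat.cast_nonneg n)
  have h4 : ∫ z in K ∩ {z | x₀ + (0 : ℕ) * δ < z.re}, g z ≤ ∫ z in K, g z :=
    setIntegral_mono_set hg.integrableOn (Eventually.of_forall h0) inter_subset_left.eventuallyLE
  have h5 : 0 ≤ ∫ z in K ∩ {z | x₀ + n * δ < z.re}, g z := integral_nonneg h0
  linarith only [h3, h4, h5]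

lemma low_corner {t c L x : ℝ} (hx : 0 ≤ x)
    (h : Low (BO c (1 - x)) (OB t c (1 - x)) L) : Low (BO c 1) (OB t c 1 ∩ {z | x < z.re}) L := by
  refine low_iso h (LinearIsometryEquiv.refl ℝ ℂ) x ?_ fun z hz => ?_
  · ext z
    simp only [OB, mem_ofPred_eq, mem_preimage, mem_inter_iff, LinearIsometryEquiv.coe_refl, id,
      add_re, add_im, ofReal_re, ofReal_im, add_zero]
    constructor
    · rintro ⟨h1, h2, h3⟩
      exact ⟨⟨by linarith, by linarith, by linarith⟩, by linarith⟩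
    · rintro ⟨⟨h1, h2, h3⟩, h4⟩
      exact ⟨by linarith, by linarith, by linarith⟩
  · obtain ⟨h1, h2, h3⟩ := hz
    simp only [BO, mem_ofPred_eq, LinearIsometryEquiv.coe_refl, id, add_re, add_im, ofReal_re,
      ofReal_im, add_zero]
    exact ⟨by linarith, h2, by linarith⟩

/-- almost optimal functions have small mass in the sharp corner -/
lemma small_corner {t c L γ σ : ℝ} (ht : 0 < t) (htc : t < c) (hL : 0 < L) (hγ : 0 < γ)
    (hγ' : γ < t / c) (hσ : 0 < σ)
    (H : ∀ W, 0 < W → ∀ u : ℂ → ℝ, ContDiff ℝ 1 u → HasCompactSupport u →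
      Disjoint (tsupport u) (BO c W) → (∀ z, 0 ≤ u z) → L / W ^ 2 * (∫ z in OB t c W, u z ^ 2) +
      ∫ z in OB t c W ∩ {z | z.im < W / c}, sl u z ≤ ∫ z in OB t c W, ‖fderiv ℝ u z‖ ^ 2) :
    ∃ C, 0 ≤ C ∧ ∀ u : ℂ → ℝ, ContDiff ℝ 1 u → HasCompactSupport u →
      Disjoint (tsupport u) (BO c 1) → (∀ z, 0 ≤ u z) →
      ∫ z in OB t c 1 ∩ {z | 1 - t / c + γ < z.re}, u z ^ 2 ≤ σ * (∫ z in OB t c 1, u z ^ 2) +
        C * ((∫ z in OB t c 1, ‖fderiv ℝ u z‖ ^ 2) - L * ∫ z in OB t c 1, u z ^ 2) := by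
  have hc : 0 < c := ht.trans htc
  have H' : ∀ W, 0 < W → Low (BO c W) (OB t c W) (L / W ^ 2) := fun W hW =>
    low_of_nonneg fun u u1 u2 u3 u4 => le_trans
      (le_add_of_nonneg_right (integral_nonneg fun _ => sq_nonneg _)) (H W hW u u1 u2 u3 u4)
  have hr : t / c < 1 := (div_lt_one hc).2 htc
  have hr0 : 0 < t / c := by positivity
  obtain ⟨κ, hκ, hκ'⟩ : ∃ κ, 0 < κ ∧ L + κ = L / (t / c) ^ 2 := ⟨L / (t / c) ^ 2 - L, by
    rw [sub_pos, lt_div_iff₀ (by positivity)]
    exact mul_lt_of_lt_one_right hL (pow_lt_one₀ hr0.le hr two_ne_zero), by ring⟩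
  obtain ⟨n, hn⟩ := exists_nat_gt (3 * L / (κ * σ))
  have hn0 : (0 : ℝ) < n := lt_trans (by positivity) hn
  obtain ⟨δ, hδ, hδ'⟩ : ∃ δ : ℝ, 0 < δ ∧ n * δ = γ := ⟨γ / n, by positivity, by field_simp⟩
  obtain ⟨η, hη, hη'⟩ : ∃ η : ℝ, 0 < η ∧ η / δ = κ * σ / 3 :=
    ⟨κ * σ / 3 * δ, by positivity, by field_simp⟩
  obtain ⟨ε, hε, hε'⟩ : ∃ ε : ℝ, 0 < ε ∧ ε * (L + 4 / δ ^ 2) = κ * σ / 3 :=
    ⟨κ * σ / 3 / (L + 4 / δ ^ 2), by positivity, by field_simp⟩
  refine ⟨(1 + 2 * ε ^ 2 + 2 * ε / δ / η) / (2 * ε * κ), by positivity, fun u u1 u2 u3 u4 => ?_⟩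
  have hK := (open_OB t c 1).measurableSet
  obtain ⟨k, hk, h1⟩ := exists_strip (OB t c 1) (int_N u1 u2) (fun z => sq_nonneg _) (1 - t / c) δ
    (n := n) (by exact_mod_cast hn0)
  have hk' : (k : ℝ) + 1 ≤ n := by exact_mod_cast hk
  have hk0 : 0 ≤ k * δ := by positivity
  have hk1 : k * δ + δ ≤ γ := by clear * - k δ γ n hδ' hγ hk' hn0; (refine le_of_not_gt fun h_nl => ?_; linarith only [h_nl, hδ', hγ, hk', hn0, Mathlib.Tactic.Linarith.mul_zero_eq (Mathlib.Tactic.Linarith.sub_nonpos_of_le (Mathlib.Tactic.Linarith.natCast_nonneg ℝ k)) (sub_eq_zero_of_eq hδ'), mul_nonneg_of_nonpos_of_nonpos (le_of_lt (Mathlib.Tactic.Linarith.sub_neg_of_lt hγ)) (Mathlib.Tactic.Linarith.sub_nonpos_of_le hk'), mul_pos_of_neg_of_neg (Mathlib.Tactic.Linarith.sub_neg_of_lt hn0) (Mathlib.Tactic.Linarith.sub_neg_of_lt h_nl)])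
  have hlow := H' 1 one_pos
  have h2 := H 1 one_pos u u1 u2 u3 u4
  rw [one_pow, div_one] at hlow h2
  have h3 := multiplier hL.le hlow hK (Y := {z | z.im < 1 / c}) (x₀ := 1 - t / c + k * δ)
    (measurableSet_lt measurable_im measurable_const) (fun z hz h => by
      refine lt_of_mul_lt_mul_left (a := t) ?_ ht.le
      rw [mul_one_div]
      linarith only [hk0, h, hz, hz.2.1]) hδ hε hη u1 u2 u3 u4
  have h4 := low_mono (low_corner (x := 1 - t / c + k * δ + δ) (by linarith only [hr, hδ, hk0])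
    (H' _ (by linarith only [hγ', hk1]))) subset_rfl (lam' := L + κ) (by
      clear * - L κ t c k δ hκ' hL γ hγ' hk1 hδ hk0 u u1 u2 u3
      rw [hκ']
      exact div_le_div_of_nonneg_left hL.le (pow_pos (by linarith only [hγ', hk1]) 2)
        (pow_le_pow_left₀ (by linarith only [hγ', hk1]) (by linarith only [hδ, hk0]) 2)) u u1 u2 u3
  have h5 : ∫ z in OB t c 1 ∩ {z | 1 - t / c + γ < z.re}, u z ^ 2 ≤
      ∫ z in OB t c 1 ∩ {z | 1 - t / c + k * δ + δ < z.re}, u z ^ 2 :=
    setIntegral_mono_set (int_N u1 u2).integrableOn (Eventually.of_forall fun z => sq_nonneg _)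
      (inter_subset_inter_right _ fun z hz =>
        lt_of_le_of_lt (b := 1 - t / c + γ) (by linarith only [hk1]) hz).eventuallyLE
  set P := ∫ z in OB t c 1 ∩ {z | 1 - t / c + γ < z.re}, u z ^ 2
  set N1 := ∫ z in OB t c 1 ∩ {z | 1 - t / c + k * δ + δ < z.re}, u z ^ 2
  set N0 := ∫ z in OB t c 1 ∩ {z | 1 - t / c + k * δ < z.re}, u z ^ 2
  set E1 := ∫ z in OB t c 1 ∩ {z | 1 - t / c + k * δ + δ < z.re}, ‖fderiv ℝ u z‖ ^ 2
  set S := ∫ z in OB t c 1 ∩ {z | z.im < 1 / c}, sl u z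
  have hN : 0 ≤ ∫ z in OB t c 1, u z ^ 2 := integral_nonneg fun z => sq_nonneg _
  set N := ∫ z in OB t c 1, u z ^ 2
  set E := ∫ z in OB t c 1, ‖fderiv ℝ u z‖ ^ 2
  have g1 : L * (N0 - N1) ≤ κ * σ / 3 * N := by
    clear * - n L N0 N1 κ σ N h1 hL hκ hσ hn hN hn0
    refine le_of_mul_le_mul_left ?_ hn0
    have a1 := mul_le_mul_of_nonneg_left h1 hL.le
    have a2 := mul_le_mul_of_nonneg_right ((div_lt_iff₀ (by positivity)).1 hn).le hN
    linarith only [a1, a2]
  have g2 := mul_le_mul_of_nonneg_left (show S ≤ E - L * N by linarith only [h2])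
    (show 0 ≤ 2 * ε / δ / η by positivity)
  have g3 : 2 * ε / δ * η + 8 * ε ^ 2 / δ ^ 2 - L =
      4 * ε * (κ * σ / 3) - (1 + 2 * ε ^ 2) * L := by
    have : 2 * ε / δ * η + 8 * ε ^ 2 / δ ^ 2 - L =
      2 * ε * (η / δ) + 2 * ε * (ε * (L + 4 / δ ^ 2)) - (1 + 2 * ε ^ 2) * L := by ring
    rw [this, hη', hε']
    ring
  rw [g3] at h3
  rw [div_mul_eq_mul_div, ← sub_le_iff_le_add', le_div_iff₀ (by positivity)]
  have g4 := mul_le_mul_of_nonneg_left h5 (show 0 ≤ 2 * ε * κ by positivity)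
  have g5 := mul_le_mul_of_nonneg_left g1 (show 0 ≤ 2 * ε by positivity)
  have g6 := mul_le_mul_of_nonneg_left h4 (show 0 ≤ 2 * ε by positivity)
  clear * - P σ N ε κ δ η E L E1 N0 S N1 h3 g2 g4 g5 g6
  linarith only [h3, g2, g4, g5, g6]

/-- cutting off the sharp corner -/
lemma cut_corner {K : Set ℂ} (hK : MeasurableSet K) {x₀ δ η : ℝ} (hη : 0 < η) {φ φ' : ℝ → ℝ}
    (p1 : ContDiff ℝ 1 φ) (p2 : ∀ x, HasDerivAt φ (φ' x) x)
    (p3 : ∀ x, 0 ≤ φ x ∧ φ x ≤ 1 ∧ 0 ≤ φ' x ∧ φ' x ≤ 2 / δ) (p4 : ∀ x, x ≤ x₀ → φ x = 0 ∧ φ' x = 0)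
    {u : ℂ → ℝ} (u1 : ContDiff ℝ 1 u) (u2 : HasCompactSupport u) :
    (∫ z in K, u z ^ 2) - ∫ z in K ∩ {z | x₀ < z.re}, u z ^ 2 ≤ ∫ z in K, (u z * (1 - φ z.re)) ^ 2 ∧
    ∫ z in K, ‖fderiv ℝ (fun z => u z * (1 - φ z.re)) z‖ ^ 2 ≤
      (1 + η) * (∫ z in K, ‖fderiv ℝ u z‖ ^ 2) +
        (1 + η⁻¹) * (2 / δ) ^ 2 * ∫ z in K ∩ {z | x₀ < z.re}, u z ^ 2 := by
  obtain ⟨v1, v2, -⟩ := test_mul u1 u2 (disjoint_empty _) (ψ := fun x => 1 - φ x)
    (contDiff_const.sub p1)
  have iE := (int_E u1 u2).integrableOn (s := K)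
  have iN := (int_N u1 u2).integrableOn (s := K)
  have j1 := iN.indicator (meas_gt x₀)
  rw [← setIntegral_indicator (meas_gt _)]
  constructor
  · rw [← integral_sub' iN j1]
    refine integral_mono (iN.sub j1) (int_N v1 v2).integrableOn fun z => ?_
    simp only [Pi.sub_apply]
    by_cases h : x₀ < z.re
    · rw [indicator_of_mem (by exact h), sub_self]
      positivity
    · rw [indicator_of_notMem (by exact h), (p4 _ (not_lt.1 h)).1]
      simp
  · rw [← integral_const_mul, ← integral_const_mul,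
      ← integral_add' (iE.const_mul _) (j1.const_mul _)]
    refine integral_mono (int_E v1 v2).integrableOn ((iE.const_mul _).add (j1.const_mul _))
      fun z => ?_
    simp only [Pi.add_apply]
    rw [prod_der u1 ((p2 z.re).const_sub 1), nsq]
    obtain ⟨a1, a2, a3, a4⟩ := p3 z.re
    set a := fderiv ℝ u z 1
    set b := fderiv ℝ u z I
    have b1 : (φ' z.re * u z) ^ 2 ≤
        (2 / δ) ^ 2 * {z : ℂ | x₀ < z.re}.indicator (fun z => u z ^ 2) z := by
      by_cases h : x₀ < z.re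
      · rw [indicator_of_mem (by exact h), mul_pow]
        exact mul_le_mul_of_nonneg_right (pow_le_pow_left₀ a3 a4 2) (sq_nonneg _)
      · rw [indicator_of_notMem (by exact h), (p4 _ (not_lt.1 h)).2]
        simp
    have c1 : (1 - φ z.re) ^ 2 ≤ 1 := pow_le_one₀ (by linarith only [a2]) (by linarith only [a1])
    have c3 := mul_le_mul_of_nonneg_right c1 (sq_nonneg a)
    have c4 := mul_le_mul_of_nonneg_right c1 (sq_nonneg b)
    have c5 : ∀ x y : ℝ, (x + -y) ^ 2 ≤ (1 + η) * x ^ 2 + (1 + η⁻¹) * y ^ 2 := fun x y => by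
      clear * - η x y hη
      have : (1 + η) * x ^ 2 + (1 + η⁻¹) * y ^ 2 - (x + -y) ^ 2 = (η * x + y) ^ 2 / η := by
        field_simp
        ring
      have h2 : 0 ≤ (η * x + y) ^ 2 / η := by positivity
      linarith only [this, h2]
    have c6 := c5 ((1 - φ z.re) * a) (φ' z.re * u z)
    have c7 := mul_le_mul_of_nonneg_left b1 (show 0 ≤ 1 + η⁻¹ by positivity)
    have c8 := mul_le_mul_of_nonneg_left c3 (show 0 ≤ 1 + η by positivity)
    have c9 : 0 ≤ η * b ^ 2 := by positivity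
    rw [neg_mul]
    clear * - φ z a φ' u b η δ x₀ c4 c6 c7 c8 c9
    linarith only [c4, c6, c7, c8, c9]

/-- the strict inequality -/
theorem strict_ob {t c Λ : ℝ} (ht : 0 < t) (htc : t < c) (hΛ : 0 < Λ) (H1 : HT t (c - t) Λ)
    (H2 : HT t c Λ) : ∃ L, 2 * t * c * Λ / (c - t) < L ∧ Low (BO c 1) (OB t c 1) L := by
  have hc : 0 < c := ht.trans htc
  have hd : 0 < c - t := by linarith
  set L := 2 * t * c * Λ / (c - t) with hLd
  have hL : 0 < L := by positivity
  have e0 : c * 1 - t * (t / c - 2 * 0) = (c - t) * (c + t) / c := by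
    field_simp
    ring
  have k1 : ∀ᶠ γ in 𝓝[>] (0 : ℝ), 2 * γ < t / c ∧ 0 < c * 1 - t * (t / c - 2 * γ) ∧
      L < 2 * t * c * (c + t) * Λ / (c * 1 - t * (t / c - 2 * γ)) ^ 2 := by
    refine Eventually.filter_mono nhdsWithin_le_nhds (Eventually.and ?_ (Eventually.and ?_ ?_))
    · exact ContinuousAt.eventually_lt (by fun_prop) continuousAt_const (by simpa using div_pos ht hc)
    · exact ContinuousAt.eventually_lt continuousAt_const (by fun_prop) (by rw [e0]; positivity)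
    · refine ContinuousAt.eventually_lt continuousAt_const
        (ContinuousAt.div (by fun_prop) (by fun_prop) (by rw [e0]; positivity)) ?_
      rw [e0, hLd, div_lt_div_iff₀ hd (by positivity)]
      have : 2 * t * c * (c + t) * Λ * (c - t) - 2 * t * c * Λ * ((c - t) * (c + t) / c) ^ 2 =
          2 * t ^ 3 * Λ * (c - t) * (c + t) / c := by
        field_simp
        ring
      have h2 : 0 < 2 * t ^ 3 * Λ * (c - t) * (c + t) / c := by positivity
      linarith only [this, h2]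
  obtain ⟨γ, ⟨g1, g2, g3⟩, hγ⟩ := (k1.and self_mem_nhdsWithin).exists
  have hγ : 0 < γ := hγ
  set L' := 2 * t * c * (c + t) * Λ / (c * 1 - t * (t / c - 2 * γ)) ^ 2
  obtain ⟨m, hm, hm'⟩ : ∃ m, 0 < m ∧ L' = L + 3 * m := ⟨(L' - L) / 3, by linarith only [g3], by ring⟩
  obtain ⟨η, hη, hη'⟩ : ∃ η, 0 < η ∧ η * L = m := ⟨m / L, by positivity, by field_simp⟩
  obtain ⟨B, hB, hB'⟩ : ∃ B, 0 < B ∧ B = L' + (1 + η⁻¹) * (2 / γ) ^ 2 := ⟨_, by positivity, rfl⟩
  obtain ⟨C, hC, H⟩ := small_corner ht htc hL hγ (by linarith) (σ := m / B) (by positivity)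
    fun W hW u u1 u2 u3 u4 => low_ob ht htc hΛ.le hW H1 u1 u2 u3 u4
  refine ⟨L + m / (1 + η + B * C), lt_add_of_pos_right _ (by positivity),
    low_of_nonneg fun u u1 u2 u3 u4 => ?_⟩
  obtain ⟨φ, φ', p1, p2, p3, p4, p5⟩ := exists_step (1 - t / c + γ) hγ
  obtain ⟨v1, v2, v3⟩ := test_mul u1 u2 u3 (ψ := fun x => 1 - φ x) (contDiff_const.sub p1)
  have h1 := sort_ob ht htc hc (e := t / c - 2 * γ) (by linarith only [g1]) hΛ.le g2 H2 v1 v2 v3
    (fun z => mul_nonneg (u4 z) (sub_nonneg.2 (p3 _).2.1)) fun z _ h => by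
      by_contra hc'
      exact right_ne_zero_of_mul h (by rw [p5 _ (by linarith only [hc']), sub_self])
  obtain ⟨h2, h3⟩ := cut_corner (open_OB t c 1).measurableSet hη p1 p2 p3 p4 u1 u2
  have h4 := H u u1 u2 u3 u4
  have h5 : 0 ≤ ∫ z in OB t c 1 ∩ {z | z.im < 1 / c}, sl (fun z => u z * (1 - φ z.re)) z :=
    integral_nonneg fun z => sq_nonneg _
  have h6 := mul_le_mul_of_nonneg_left h2 (show 0 ≤ L' by linarith only [hL, hm, hm'])
  have h7 := mul_le_mul_of_nonneg_left h4 hB.le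
  rw [mul_add, ← mul_assoc, mul_div_cancel₀ _ hB.ne'] at h7
  set P := ∫ z in OB t c 1 ∩ {z | 1 - t / c + γ < z.re}, u z ^ 2
  set N := ∫ z in OB t c 1, u z ^ 2
  set E := ∫ z in OB t c 1, ‖fderiv ℝ u z‖ ^ 2
  have h8 : m * N ≤ (1 + η + B * C) * (E - L * N) := by
    clear * - N t c u L' η E B P γ hB' Λ φ h1 h5 h6 h3 L m hη' C h7 hm'
    have hN : 0 ≤ N := integral_nonneg fun z => sq_nonneg _
    have a1 : L' * N ≤ (1 + η) * E + B * P := by rw [hB']; linarith only [h1, h5, h6, h3]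
    have a2 : (1 + η) * E = (1 + η) * (E - L * N) + L * N + m * N := by rw [← hη']; ring
    rw [hm'] at a1
    linarith only [h7, a1, a2]
  rw [add_mul, ← le_sub_iff_add_le', div_mul_eq_mul_div, div_le_iff₀' (by positivity)]
  exact h8

end

end Pool.Agent.Work.MP_267827_an.Srt
end

-- merged part: Pool.Agent.Work.MP_267827_an.Srt.SJ
section
/-! The strict inequality for obtuse cells. -/

set_option autoImplicit false

namespace Pool.Agent.Work.MP_267827_an.Srt

open MeasureTheory Set Complex Filter Topology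
open Pool.Agent.Work.MP_267827_an.PS
open scoped Real

noncomputable section

lemma tri_vol {X l : ℝ} (hX : 0 < X) (hl : 0 ≤ l) {lo hi : ℝ → ℝ} (h1 : Continuous lo)
    (h2 : Continuous hi) (h : ∀ x, hi x - lo x = l - l / X * x) {K : Set ℂ}
    (hK : ∀ z, z ∈ K ↔ (0 < z.re ∧ z.re < X) ∧ lo z.re < z.im ∧ z.im < hi z.re) :
    volume.real K = l * X / 2 := by
  have e : K = measurableEquivRealProd ⁻¹' regionBetween lo hi (Ioo 0 X) := Set.ext hK
  have hm := measurableSet_regionBetween h1.measurable h2.measurable (measurableSet_Ioo (a := 0) (b := X))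
  rw [Measure.real, e, volume_preserving_equiv_real_prod.measure_preimage hm.nullMeasurableSet,
    Measure.volume_eq_prod, volume_regionBetween_eq_integral
      (h1.continuousOn.integrableOn_Icc.mono_set Ioo_subset_Icc_self)
      (h2.continuousOn.integrableOn_Icc.mono_set Ioo_subset_Icc_self) measurableSet_Ioo
      fun x hx => by
        have := mul_le_mul_of_nonneg_left hx.2.le (div_nonneg hl hX.le)
        rw [div_mul_cancel₀ _ hX.ne'] at this
        linarith only [this, h, h x]]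
  simp only [Pi.sub_apply, h]
  rw [← integral_Ioc_eq_integral_Ioo, ← intervalIntegral.integral_of_le hX.le,
    intervalIntegral.integral_sub (g := fun x => l / X * x) (by simp)
      ((continuous_const.mul continuous_id).intervalIntegrable _ _),
    intervalIntegral.integral_const_mul, integral_id, intervalIntegral.integral_const,
    ENNReal.toReal_ofReal]
  · simp only [smul_eq_mul]
    field_simp
    ring
  · have : (X - 0) • l - l / X * ((X ^ 2 - 0 ^ 2) / 2) = l * X / 2 := by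
      simp only [smul_eq_mul]
      field_simp
      ring
    rw [this]
    positivity

lemma vol_OB {t c W : ℝ} (ht : 0 < t) (htc : t < c) (hW : 0 < W) :
    volume.real (OB t c W) = W ^ 2 * (c - t) / (2 * t * c) := by
  have hc := ht.trans htc
  have hd : 0 < c - t := by linarith
  rw [tri_vol hW (l := W * (c - t) / (t * c)) (by positivity) (lo := fun x => (W - x) / c)
    (hi := fun x => (W - x) / t) (by fun_prop) (by fun_prop) (fun x => by field_simp)
    fun z => ?_]
  · field_simp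
  · simp only [OB, mem_ofPred_eq, div_lt_iff₀ hc, lt_div_iff₀ ht]
    constructor
    · rintro ⟨h1, h2, h3⟩
      have : 0 < z.im := by
        by_contra hc
        linarith only [h2, h3, htc, hc, not_lt.1 hc, mul_nonneg_of_nonpos_of_nonpos (le_of_lt (Mathlib.Tactic.Linarith.sub_neg_of_lt htc)) (Mathlib.Tactic.Linarith.sub_nonpos_of_le (le_of_not_gt hc))]
      exact ⟨⟨h1, by linarith only [h2, ht, this, mul_pos_of_neg_of_neg (Mathlib.Tactic.Linarith.sub_neg_of_lt ht) (Mathlib.Tactic.Linarith.sub_neg_of_lt this)]⟩, by linarith, by linarith⟩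
    · rintro ⟨⟨h1, -⟩, h2, h3⟩
      exact ⟨h1, by linarith, by linarith⟩

lemma vol_TA {t d W e : ℝ} (ht : 0 < t) (hd : 0 < d) (hW : 0 < d * W - t * e) :
    volume.real (TA t d W e) = (d * W - t * e) ^ 2 / (2 * t * d * (d + t)) := by
  rw [tri_vol (X := (d * W - t * e) / (d + t)) (by positivity) (l := (d * W - t * e) / (t * d))
    (by positivity) (lo := fun x => (x + e) / d)
    (hi := fun x => (W - x) / t) (by fun_prop) (by fun_prop) (fun x => by
      rw [div_div_div_cancel_left' _ _ hW.ne']; field_simp; ring)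
    fun z => ?_]
  · field_simp
  · simp only [TA, mem_ofPred_eq, div_lt_iff₀ hd, lt_div_iff₀ ht,
      lt_div_iff₀ (show 0 < d + t by positivity)]
    constructor
    · rintro ⟨h1, h2, h3⟩
      exact ⟨⟨h1, by linarith only [ht, h3, hd, h2, mul_pos_of_neg_of_neg (Mathlib.Tactic.Linarith.sub_neg_of_lt ht) (Mathlib.Tactic.Linarith.sub_neg_of_lt h3), mul_pos_of_neg_of_neg (Mathlib.Tactic.Linarith.sub_neg_of_lt hd) (Mathlib.Tactic.Linarith.sub_neg_of_lt h2)]⟩, by linarith, by linarith⟩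
    · rintro ⟨⟨h1, -⟩, h2, h3⟩
      exact ⟨h1, by linarith, by linarith⟩

lemma mem_lft3 (A B C z : ℂ) : z ∈ Lft [(A, B), (B, C), (C, A)] ↔
    0 < cr (B - A) (z - A) ∧ 0 < cr (C - B) (z - B) ∧ 0 < cr (A - C) (z - C) := by
  simp [Lft]

lemma mul_ei (s x : ℝ) : (s : ℂ) * ei x = ⟨s * Real.cos x, s * Real.sin x⟩ := by
  apply Complex.ext
  · simp [Conf_ei_re]
  · simp [Conf_ei_im]

lemma ht_of_tri {θ a Λ : ℝ} (h0 : 0 < θ) (h1 : θ < π / 2) (h2 : 0 < a) (h3 : a < π / 2)
    (h : TriLow Λ a (π - θ - a)) : HT (Real.tan θ) (Real.tan a) Λ := by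
  intro W e hW
  have ht := Real.tan_pos_of_pos_of_lt_pi_div_two h0 h1
  have hd := Real.tan_pos_of_pos_of_lt_pi_div_two h2 h3
  have s1 := Real.sin_pos_of_pos_of_lt_pi h0 (by linarith only [h0, h1, Real.pi_pos])
  have s2 := Real.sin_pos_of_pos_of_lt_pi h2 (by linarith only [h0, h1, h3, Real.pi_pos])
  have c1 := Real.cos_pos_of_mem_Ioo (x := θ) ⟨by linarith only [h0, h1], h1⟩
  have c2 := Real.cos_pos_of_mem_Ioo (x := a) ⟨by linarith only [h0, h1, h2], h3⟩
  have e1 := Real.tan_eq_sin_div_cos θ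
  have e2 := Real.tan_eq_sin_div_cos a
  set t := Real.tan θ
  set d := Real.tan a
  obtain ⟨X, hX, hX'⟩ : ∃ X, 0 < X ∧ X * (d + t) = d * W - t * e :=
    ⟨(d * W - t * e) / (d + t), by positivity, by field_simp⟩
  have hq : W / t = e / d + X / d + X / t := by
    field_simp
    linarith only [hX']
  have hK : Lft [((⟨0, e / d⟩ : ℂ), (⟨X, e / d + X / d⟩ : ℂ)), (⟨X, e / d + X / d⟩, ⟨0, W / t⟩),
      (⟨0, W / t⟩, ⟨0, e / d⟩)] = TA t d W e := by
    clear * - e d X W t hd hq ht hX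
    ext z
    have a1 : cr ((⟨X, e / d + X / d⟩ : ℂ) - ⟨0, e / d⟩) (z - ⟨0, e / d⟩) =
        X / d * (d * z.im - e - z.re) := by
      simp only [cr, sub_re, sub_im]
      field_simp
      ring
    have a2 : cr ((⟨0, W / t⟩ : ℂ) - ⟨X, e / d + X / d⟩) (z - ⟨X, e / d + X / d⟩) =
        X / t * (W - (z.re + t * z.im)) := by
      have : e / d + X / d = W / t - X / t := by linarith only [hq]
      simp only [cr, sub_re, sub_im, this]
      field_simp
      ring
    have a3 : cr ((⟨0, e / d⟩ : ℂ) - ⟨0, W / t⟩) (z - ⟨0, W / t⟩) = (X / d + X / t) * z.re := by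
      simp only [cr, sub_re, sub_im, hq]
      ring
    rw [mem_lft3, a1, a2, a3, mul_pos_iff_of_pos_left (by positivity),
      mul_pos_iff_of_pos_left (by positivity), mul_pos_iff_of_pos_left (by positivity), sub_pos,
      sub_pos]
    simp only [TA, mem_ofPred_eq]
    tauto
  have := h ⟨0, e / d⟩ ⟨X, e / d + X / d⟩ ⟨0, W / t⟩ (π / 2 - a) (X / Real.sin a) (X / Real.sin θ)
    (X / d + X / t) (2 * t * d * (d + t) * Λ / (d * W - t * e) ^ 2) (by positivity) (by positivity)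
    (by positivity) (by
      rw [mul_ei, Real.cos_pi_div_two_sub, Real.sin_pi_div_two_sub]
      apply Complex.ext <;> simp only [sub_re, sub_im, e2] <;> field_simp <;> ring) (by
      rw [mul_ei, show π / 2 - a + π - (π - θ - a) = θ + π / 2 by ring, Real.cos_add_pi_div_two,
        Real.sin_add_pi_div_two]
      apply Complex.ext <;> simp only [sub_re, sub_im, hq]
      · field_simp
        ring
      · rw [e1]
        field_simp
        ring) (by
      rw [mul_ei, show π / 2 - a + π + a = π / 2 + π by ring, Real.cos_add_pi, Real.sin_add_pi]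
      apply Complex.ext <;> simp [hq]
      ring) (by
      rw [hK, vol_TA ht hd hW]
      exact le_of_eq (by field_simp))
  rw [hK] at this
  refine low_mono this ?_ le_rfl
  rintro z ⟨p, q, -, -, h4, rfl⟩
  simp only [LA, mem_ofPred_eq, add_re, add_im, smul_re, smul_im, smul_eq_mul]
  rw [show p = 1 - q by linarith only [h4]]
  field_simp
  ring

lemma cr_rot (x : ℝ) (a b : ℂ) : cr (ei x * a) (ei x * b) = cr a b := by
  simp only [cr, mul_re, mul_im, Conf_ei_re, Conf_ei_im]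
  linear_combination (a.re * b.im - a.im * b.re) * Real.sin_sq_add_cos_sq x

lemma tri_of_ob {θ ψ Λ : ℝ} (h0 : 0 < θ) (h1 : θ < ψ) (h2 : ψ < π / 2)
    (h : Low (BO (Real.tan ψ) 1) (OB (Real.tan θ) (Real.tan ψ) 1)
      (2 * Real.tan θ * Real.tan ψ * Λ / (Real.tan ψ - Real.tan θ))) :
    TriLow Λ (π - ψ) (ψ - θ) := by
  intro A B C τ s p q lam hs hp hq hB hC hA hΛ
  have ht := Real.tan_pos_of_pos_of_lt_pi_div_two h0 (h1.trans h2)
  have htc := Real.tan_lt_tan_of_lt_of_lt_pi_div_two (by linarith only [h0, h1, h2]) h2 h1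
  have s1 := Real.sin_pos_of_pos_of_lt_pi h0 (by linarith only [h0, h1, h2, Real.pi_pos])
  have s2 := Real.sin_pos_of_pos_of_lt_pi (h0.trans h1) (by linarith only [h0, h1, h2, Real.pi_pos])
  have c1 := Real.cos_pos_of_mem_Ioo (x := θ) ⟨by linarith only [h0, h1, h2], by linarith only [h1, h2]⟩
  have c2 := Real.cos_pos_of_mem_Ioo (x := ψ) ⟨by linarith only [h0, h1, h2], h2⟩
  have e1 := Real.tan_eq_sin_div_cos θ
  have e2 := Real.tan_eq_sin_div_cos ψ
  set t := Real.tan θ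
  set c := Real.tan ψ
  have hc := ht.trans htc
  have hd : 0 < c - t := by linarith only [htc]
  obtain ⟨W, hW, hW'⟩ : ∃ W, 0 < W ∧ W = s * Real.sin ψ := ⟨_, by positivity, rfl⟩
  set x := τ + π / 2 - ψ
  have b1 : B - A = ei x * ⟨W, -(W / c)⟩ := by
    rw [hB, show τ = x + (ψ - π / 2) by simp only [x]; ring, ← Conf_ei_mul, mul_left_comm, mul_ei,
      Real.cos_sub_pi_div_two, Real.sin_sub_pi_div_two, hW', e2]
    congr 2
    field_simp
  have b2 : C - B = ei x * ⟨-(p * Real.sin θ), p * Real.cos θ⟩ := by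
    rw [hC, show τ + π - (ψ - θ) = x + (θ + π / 2) by simp only [x]; ring, ← Conf_ei_mul,
      mul_left_comm, mul_ei, Real.cos_add_pi_div_two, Real.sin_add_pi_div_two, mul_neg]
  have b3 : A - C = ei x * ⟨0, -q⟩ := by
    rw [hA, show τ + π + (π - ψ) = x + (π / 2 + π) by simp only [x]; ring, ← Conf_ei_mul,
      mul_left_comm, mul_ei, Real.cos_add_pi, Real.sin_add_pi]
    simp
  have hx : ei x ≠ 0 := Complex.exp_ne_zero _
  have b4 : (⟨W, -(W / c)⟩ : ℂ) + ⟨-(p * Real.sin θ), p * Real.cos θ⟩ + ⟨0, -q⟩ = 0 := by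
    refine mul_left_cancel₀ hx ?_
    rw [mul_add, mul_add, ← b1, ← b2, ← b3]
    ring
  have b5 := congrArg re b4
  have b6 := congrArg im b4
  simp only [add_re, add_im, zero_re, zero_im] at b5 b6
  have b7 : p * Real.cos θ = W / t := by
    rw [e1, show W = p * Real.sin θ by linarith only [b5]]
    field_simp
  rw [show p * Real.sin θ = W by linarith only [b5], b7] at b2
  rw [show q = W / t - W / c by linarith only [b6, b7]] at b3
  set β := A - ei x * ⟨0, W / c⟩
  have φ1 : ∀ z, rotation (Circle.exp x) z + β = ei x * z + β := fun z => by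
    rw [rotation_apply, Circle.coe_exp, ei]
  have hK : OB t c W = (fun z => rotation (Circle.exp x) z + β) ⁻¹'
      Lft [(A, B), (B, C), (C, A)] := by
    clear * - t c W x β A B C b1 b3 hc hW ht φ1 b2 htc
    ext z
    have a1 : ei x * z + β - A = ei x * (z - ⟨0, W / c⟩) := by simp only [β]; ring
    have a2 : ei x * z + β - B = ei x * (z - ⟨0, W / c⟩ - ⟨W, -(W / c)⟩) := by
      rw [mul_sub, ← a1, ← b1]; ring
    have a3 : ei x * z + β - C = ei x * (z - ⟨0, W / c⟩ + ⟨0, -(W / t - W / c)⟩) := by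
      rw [mul_add, ← a1, ← b3]; ring
    have a4 : cr ⟨W, -(W / c)⟩ (z - ⟨0, W / c⟩) = W / c * (z.re + c * z.im - W) := by
      simp only [cr, sub_re, sub_im]
      field_simp
      ring
    have a5 : cr ⟨-W, W / t⟩ (z - ⟨0, W / c⟩ - ⟨W, -(W / c)⟩) =
        W / t * (W - (z.re + t * z.im)) := by
      simp only [cr, sub_re, sub_im]
      field_simp
      ring
    have a6 : cr ⟨0, -(W / t - W / c)⟩ (z - ⟨0, W / c⟩ + ⟨0, -(W / t - W / c)⟩) =
        W * (c - t) / (t * c) * z.re := by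
      simp only [cr, sub_re, sub_im, add_re, add_im]
      field_simp
      ring
    rw [mem_preimage, φ1, mem_lft3, a1, a2, a3, b1, b2, b3, cr_rot, cr_rot, cr_rot, a4, a5, a6,
      mul_pos_iff_of_pos_left (by positivity), mul_pos_iff_of_pos_left (by positivity),
      mul_pos_iff_of_pos_left (by positivity), sub_pos, sub_pos]
    simp only [OB, mem_ofPred_eq]
    tauto
  have hv : volume.real (Lft [(A, B), (B, C), (C, A)]) = W ^ 2 * (c - t) / (2 * t * c) := by
    clear * - A B C W c t ht htc hW x β hK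
    rw [← vol_OB ht htc hW, hK]
    let φ : ℂ ≃ₜ ℂ := (rotation (Circle.exp x)).toHomeomorph.trans (Homeomorph.addRight β)
    have hm : MeasurePreserving φ :=
      (measurePreserving_add_right volume β).comp (rotation (Circle.exp x)).measurePreserving
    exact congrArg ENNReal.toReal (hm.measure_preimage_emb φ.measurableEmbedding _).symm
  have h3 := low_scale h hW (D' := BO c W) (K' := OB t c W) (by
      ext z
      simp only [OB, mem_ofPred_eq, mem_preimage, smul_re, smul_im, smul_eq_mul]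
      rw [mul_pos_iff_of_pos_left hW, mul_left_comm t, mul_left_comm c, ← mul_add, ← mul_add,
        mul_lt_iff_lt_one_right hW, lt_mul_iff_one_lt_right hW])
    fun z hz => ⟨by simpa using mul_nonneg hW.le hz.1, by simpa using mul_nonneg hW.le hz.2.1, by
      simp only [smul_re, smul_im, smul_eq_mul]
      linear_combination W * hz.2.2⟩
  refine low_iso (low_mono h3 subset_rfl ?_) (rotation (Circle.exp x)) β hK fun z hz => ?_
  · rw [hv] at hΛ
    rw [le_div_iff₀ (by positivity), le_div_iff₀ hd]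
    rw [← mul_div_assoc, div_le_iff₀ (by positivity)] at hΛ
    linarith only [hΛ]
  · obtain ⟨z1, z2, z3⟩ := hz
    rw [φ1, segment_eq_image']
    refine ⟨z.re / W, ⟨by positivity, (div_le_one hW).2 (by clear * - z W c t z3 ht z2 htc hW; linarith only [z3, ht, z2, htc, mul_nonneg_of_nonpos_of_nonpos (le_of_lt (Mathlib.Tactic.Linarith.sub_neg_of_lt ht)) (Mathlib.Tactic.Linarith.sub_nonpos_of_le z2), mul_nonneg_of_nonpos_of_nonpos (le_of_lt (Mathlib.Tactic.Linarith.sub_neg_of_lt htc)) (Mathlib.Tactic.Linarith.sub_nonpos_of_le z2)])⟩, ?_⟩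
    have : z - ⟨0, W / c⟩ = (z.re / W) • (⟨W, -(W / c)⟩ : ℂ) := by
      clear * - z W c hW hc z3
      apply Complex.ext <;> simp only [sub_re, sub_im, smul_re, smul_im, smul_eq_mul]
      · field_simp
        ring
      · field_simp
        linarith only [z3]
    simp only [β]
    rw [b1, ← mul_smul_comm, ← this]
    ring

lemma tri_of_cell {Λ a b : ℝ} (hab : 0 ≤ a + b) (h : CellLow Λ a b) : TriLow Λ a b :=
  fun A B C τ s _ _ lam hs hp hq hB hC hA =>
    h A B [C] τ s lam hs hB (Wall.cons le_rfl hp hC (Wall.cons (by linarith only [hab]) hq hA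
      (Wall.one A le_rfl)))

lemma tri_all {θ Λ : ℝ} (h0 : 0 < θ) (h1 : θ < π / 2)
    (hA : ∀ a, 0 < a → a < π / 2 → π / 2 ≤ θ + a → TriLow Λ a (π - θ - a))
    (hsym : ∀ a b, 0 < a → 0 < b → a + b < π → TriLow Λ a b → TriLow Λ b a) (m : ℕ) :
    ∀ a, 0 < a → a < π / 2 → 1 ≤ Real.tan θ * Real.tan a * (1 + Real.tan θ ^ 2) ^ m →
      TriLow Λ a (π - θ - a) := by
  have ht := Real.tan_pos_of_pos_of_lt_pi_div_two h0 h1
  have key : ∀ a, 0 < a → θ + a < π / 2 → Real.tan θ * Real.tan a < 1 ∧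
      Real.tan a * (1 + Real.tan θ ^ 2) ≤ Real.tan (θ + a) - Real.tan θ := by
    intro a h2 h3
    have s1 := Real.sin_pos_of_pos_of_lt_pi h0 (by linarith only [h0, h2, h3, Real.pi_pos])
    have s2 := Real.sin_pos_of_pos_of_lt_pi h2 (by linarith only [h0, h2, h3, Real.pi_pos])
    have c1 := Real.cos_pos_of_mem_Ioo (x := θ) ⟨by linarith only [h0, h2, h3], h1⟩
    have c2 := Real.cos_pos_of_mem_Ioo (x := a) ⟨by linarith only [h0, h2, h3], by linarith only [h0, h3]⟩
    have c3 := Real.cos_pos_of_mem_Ioo (x := θ + a) ⟨by linarith only [h0, h2, h3], h3⟩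
    have c4 := Real.cos_add θ a
    have e1 : Real.tan θ * Real.tan a < 1 := by
      rw [Real.tan_eq_sin_div_cos, Real.tan_eq_sin_div_cos, div_mul_div_comm,
        div_lt_one (by positivity)]
      linarith only [c3, c4]
    have e2 : Real.tan (θ + a) * (1 - Real.tan θ * Real.tan a) = Real.tan θ + Real.tan a := by
      simp only [Real.tan_eq_sin_div_cos]
      field_simp
      rw [c4, Real.sin_add]
      ring
    have hd := Real.tan_pos_of_pos_of_lt_pi_div_two h2 (by linarith only [h0, h3])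
    refine ⟨e1, le_of_mul_le_mul_right ?_ (sub_pos.2 e1)⟩
    rw [sub_mul, e2]
    have : 0 ≤ Real.tan a * (1 + Real.tan θ ^ 2) * (Real.tan θ * Real.tan a) := by positivity
    clear * - a θ this
    linarith only [this]
  induction m with
  | zero =>
    intro a h2 h3 h4
    refine hA a h2 h3 (not_lt.1 fun hc => ?_)
    simp only [pow_zero, mul_one] at h4
    exact absurd (key a h2 hc).1 (not_lt.2 h4)
  | succ m ih =>
    intro a h2 h3 h4
    rcases le_or_gt (π / 2) (θ + a) with hc | hc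
    · exact hA a h2 h3 hc
    have hd := Real.tan_pos_of_pos_of_lt_pi_div_two h2 h3
    have h5 := (key a h2 hc).2
    have h6 : 0 < Real.tan (θ + a) - Real.tan θ := lt_of_lt_of_le (by positivity) h5
    have h7 := ht_of_tri h0 h1 (Real.arctan_pos.2 h6) (Real.arctan_lt_pi_div_two _)
      (ih _ (Real.arctan_pos.2 h6) (Real.arctan_lt_pi_div_two _) (by
        rw [Real.tan_arctan]
        refine h4.trans ?_
        rw [pow_succ']
        have := mul_le_mul_of_nonneg_right (mul_le_mul_of_nonneg_left h5 ht.le)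
          (show 0 ≤ (1 + Real.tan θ ^ 2) ^ m by positivity)
        linarith only [this]))
    rw [Real.tan_arctan] at h7
    have h8 := low_ob' ht (sub_pos.1 h6) one_pos h7
    rw [one_pow, div_one] at h8
    have h9 := tri_of_ob h0 (by linarith only [h2]) hc h8
    rw [add_sub_cancel_left, ← sub_sub] at h9
    exact hsym _ _ (by linarith only [h0, h2, hc, Real.pi_pos]) h2 (by linarith only [h0]) h9

/-- the strict inequality for obtuse cells -/
theorem obt_of {g κ : ℝ}
    (hA : ∀ a b, 0 < a → a ≤ π / 2 → 0 < b → b ≤ π / 2 → a + b < π →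
      TriLow (g * (π - a - b) - 2 * κ) a b)
    (hTC : ∀ L a b, 0 < a → 0 < b → a + b < π → TriLow L a b → CellLow L a b)
    (hsym : ∀ L a b, CellLow L a b → CellLow L b a) : OBT g κ := by
  intro a b h1 h2 h3
  have h0 : 0 < π - a - b := by linarith only [h3]
  have h4 : π - a - b < π - a := by linarith only [h2]
  have h5 : π - a < π / 2 := by linarith only [h1]
  have ht := Real.tan_pos_of_pos_of_lt_pi_div_two h0 (h4.trans h5)
  have htc := Real.tan_lt_tan_of_lt_of_lt_pi_div_two (by linarith only [h1, h2, h3]) h5 h4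
  have hall : ∀ d, 0 < d → HT (Real.tan (π - a - b)) d (g * (π - a - b) - 2 * κ) := by
    intro d hd
    obtain ⟨m, hm⟩ := pow_unbounded_of_one_lt (1 / (Real.tan (π - a - b) * d))
      (show 1 < 1 + Real.tan (π - a - b) ^ 2 by linarith only [ht, mul_pos_of_neg_of_neg (Mathlib.Tactic.Linarith.sub_neg_of_lt ht) (Mathlib.Tactic.Linarith.sub_neg_of_lt ht)])
    have := ht_of_tri h0 (h4.trans h5) (Real.arctan_pos.2 hd) (Real.arctan_lt_pi_div_two _)
      (tri_all h0 (h4.trans h5) (Λ := g * (π - a - b) - 2 * κ) (fun x x1 x2 x3 => by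
        have := hA x (π - (π - a - b) - x) x1 x2.le (by linarith only [h1, h2, x2]) (by linarith only [x3]) (by linarith only [h3])
        rwa [show π - x - (π - (π - a - b) - x) = π - a - b by ring] at this)
        (fun x y x1 x2 x3 h => tri_of_cell (by linarith only [x1, x2]) (hsym _ _ _ (hTC _ _ _ x1 x2 x3 h))) m _
        (Real.arctan_pos.2 hd) (Real.arctan_lt_pi_div_two _) (by
          rw [Real.tan_arctan]
          rw [div_lt_iff₀' (by positivity)] at hm
          exact hm.le))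
    rwa [Real.tan_arctan] at this
  set t := Real.tan (π - a - b)
  set c := Real.tan (π - a)
  have hc := ht.trans htc
  have hd : 0 < c - t := by linarith only [htc]
  obtain ⟨L, hL, hL'⟩ : ∃ L, 2 * t * c * (g * (π - a - b) - 2 * κ) / (c - t) < L ∧
      Low (BO c 1) (OB t c 1) L := by
    rcases lt_or_ge 0 (g * (π - a - b) - 2 * κ) with h | h
    · exact strict_ob ht htc h (hall _ hd) (hall _ hc)
    · exact ⟨_, lt_of_le_of_lt (div_nonpos_of_nonpos_of_nonneg
        (mul_nonpos_of_nonneg_of_nonpos (by positivity) h) hd.le) (by positivity),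
        poinc_ob ht htc one_pos⟩
  refine ⟨L * (c - t) / (2 * t * c), ?_, hTC _ _ _ (by linarith only [h1, h2, h3, Real.pi_pos]) h2 h3 ?_⟩
  · rw [div_lt_iff₀ hd] at hL
    rw [lt_div_iff₀ (by positivity)]
    linarith only [hL]
  · have := tri_of_ob (Λ := L * (c - t) / (2 * t * c)) h0 h4 h5 (low_mono hL' subset_rfl
      (le_of_eq (by
        change 2 * t * c * (L * (c - t) / (2 * t * c)) / (c - t) = L
        field_simp)))
    rwa [sub_sub_cancel, sub_sub_cancel] at this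

end

end Pool.Agent.Work.MP_267827_an.Srt
end
end
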